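import Pool.Agent.Lib.UPE.Bas

/-!
# UPE / WD (100 lines): words

PROOF.  Induction on the word: `ev x (l :: w) = lt x l * ev x w`.  `‖lt x l‖ ≤ R`.
`ev x (l::w) - ev y (l::w) = lt x l * (ev x w - ev y w) + (lt x l - lt y l) * ev y w`, so
`n2 ≤ R * n2 (ev x w - ev y w) + n2 (lt x l - lt y l) * ‖ev y w‖` (`n2_mul_le`, `n2_mul_le'`; the letter
`(i, false)`: `n2_star`) `≤ R * (len * R^len * δ) + δ * R^len ≤ (len + 1) * R^(len+1) * δ` since `1 ≤ R`.
`tr_ev_sub_le`: `norm_tr_le`.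
-/

set_option autoImplicit false

open Filter Topology

namespace Pool.Agent.Lib.UPE

variable {H : Type*} [NormedAddCommGroup H] [InnerProductSpace ℂ H] [CompleteSpace H]
variable {M : VonNeumannAlgebra H} {ξ : ℕ → H}

theorem ev_nil {A : Type*} [Monoid A] [Star A] {k : ℕ} (x : Fin k → A) : ev x [] = 1 := by
  simp [ev]

theorem ev_cons {A : Type*} [Monoid A] [Star A] {k : ℕ} (x : Fin k → A) (l : Fin k × Bool)
    (w : List (Fin k × Bool)) : ev x (l :: w) = lt x l * ev x w := by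
  simp [ev]

theorem ev_append {A : Type*} [Monoid A] [Star A] {k : ℕ} (x : Fin k → A)
    (w v : List (Fin k × Bool)) : ev x (w ++ v) = ev x w * ev x v := by
  simp [ev]

private theorem lt_mem {k : ℕ} {x : Fin k → (H →L[ℂ] H)} (hx : ∀ i, x i ∈ M) (l : Fin k × Bool) :
    lt x l ∈ M := by
  unfold lt
  split_ifs
  · exact hx _
  · exact star_mem (hx _)

private theorem norm_lt_le {k : ℕ} {x : Fin k → (H →L[ℂ] H)} {R : ℝ} (hx : ∀ i, ‖x i‖ ≤ R)
    (l : Fin k × Bool) : ‖lt x l‖ ≤ R := by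
  unfold lt
  split_ifs
  · exact hx _
  · rw [norm_star]
    exact hx _

private theorem n2_lt_sub_le (h : IsTrace M ξ) {k : ℕ} {x y : Fin k → (H →L[ℂ] H)} {δ : ℝ}
    (hxM : ∀ i, x i ∈ M) (hyM : ∀ i, y i ∈ M) (hd : ∀ i, n2 ξ (x i - y i) ≤ δ)
    (l : Fin k × Bool) : n2 ξ (lt x l - lt y l) ≤ δ := by
  unfold lt
  split_ifs
  · exact hd _
  · rw [← star_sub, n2_star h (sub_mem (hxM _) (hyM _))]
    exact hd _

theorem ev_mem {k : ℕ} {x : Fin k → (H →L[ℂ] H)} (hx : ∀ i, x i ∈ M) (w : List (Fin k × Bool)) :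
    ev x w ∈ M := by
  induction w with
  | nil =>
    rw [ev_nil]
    exact one_mem M
  | cons l w ih =>
    rw [ev_cons]
    exact mul_mem (lt_mem hx l) ih

theorem norm_ev_le {k : ℕ} {x : Fin k → (H →L[ℂ] H)} {R : ℝ} (hR : 1 ≤ R) (hx : ∀ i, ‖x i‖ ≤ R)
    (w : List (Fin k × Bool)) : ‖ev x w‖ ≤ R ^ w.length := by
  induction w with
  | nil =>
    rw [ev_nil, List.length_nil, pow_zero]
    exact ContinuousLinearMap.norm_id_le
  | cons l w ih =>
    rw [ev_cons, List.length_cons, pow_succ']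
    exact (norm_mul_le _ _).trans
      (mul_le_mul (norm_lt_le hx l) ih (norm_nonneg _) (zero_le_one.trans hR))

theorem n2_ev_sub_le (h : IsTrace M ξ) {k : ℕ} {x y : Fin k → (H →L[ℂ] H)} {R δ : ℝ} (hR : 1 ≤ R)
    (hxM : ∀ i, x i ∈ M) (hyM : ∀ i, y i ∈ M) (hx : ∀ i, ‖x i‖ ≤ R) (hy : ∀ i, ‖y i‖ ≤ R)
    (hd : ∀ i, n2 ξ (x i - y i) ≤ δ) (hδ : 0 ≤ δ) (w : List (Fin k × Bool)) :
    n2 ξ (ev x w - ev y w) ≤ w.length * R ^ w.length * δ := by
  have hR0 : 0 ≤ R := zero_le_one.trans hR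
  induction w with
  | nil =>
    rw [ev_nil, ev_nil, sub_self, n2_zero]
    simp
  | cons l w ih =>
    rw [ev_cons, ev_cons, List.length_cons]
    have e : lt x l * ev x w - lt y l * ev y w
        = lt x l * (ev x w - ev y w) + (lt x l - lt y l) * ev y w := by
      rw [mul_sub, sub_mul]
      abel
    have h1 : n2 ξ (lt x l * (ev x w - ev y w)) ≤ R * (w.length * R ^ w.length * δ) :=
      (n2_mul_le h _ _).trans (mul_le_mul (norm_lt_le hx l) ih (n2_nonneg _) hR0)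
    have h2 : n2 ξ ((lt x l - lt y l) * ev y w) ≤ δ * R ^ w.length :=
      (n2_mul_le' h (sub_mem (lt_mem hxM l) (lt_mem hyM l)) (ev_mem hyM w)).trans
        (mul_le_mul (n2_lt_sub_le h hxM hyM hd l) (norm_ev_le hR hy w) (norm_nonneg _) hδ)
    have h3 : δ * R ^ w.length ≤ R * (R ^ w.length * δ) := by
      have h4 : 0 ≤ R ^ w.length * δ := by positivity
      nlinarith
    rw [e]
    calc n2 ξ (lt x l * (ev x w - ev y w) + (lt x l - lt y l) * ev y w)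
        ≤ R * (w.length * R ^ w.length * δ) + δ * R ^ w.length :=
          (n2_add_le h _ _).trans (add_le_add h1 h2)
      _ ≤ R * (w.length * R ^ w.length * δ) + R * (R ^ w.length * δ) := by linarith
      _ = ((w.length + 1 : ℕ) : ℝ) * R ^ (w.length + 1) * δ := by
          push_cast
          ring

theorem tr_ev_sub_le (h : IsTrace M ξ) {k : ℕ} {x y : Fin k → (H →L[ℂ] H)} {R δ : ℝ} (hR : 1 ≤ R)
    (hxM : ∀ i, x i ∈ M) (hyM : ∀ i, y i ∈ M) (hx : ∀ i, ‖x i‖ ≤ R) (hy : ∀ i, ‖y i‖ ≤ R)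
    (hd : ∀ i, n2 ξ (x i - y i) ≤ δ) (hδ : 0 ≤ δ) (w : List (Fin k × Bool)) :
    ‖tr ξ (ev x w) - tr ξ (ev y w)‖ ≤ w.length * R ^ w.length * δ := by
  rw [← tr_sub h]
  exact (norm_tr_le h _).trans (n2_ev_sub_le h hR hxM hyM hx hy hd hδ w)

end Pool.Agent.Lib.UPE
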