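import Pool.Agent.Lib.UPE.IDX
import Pool.Agent.Lib.UPE.WD

/-!
# UPE / AE (250 lines): from approximations to an embedding in the ultrapower of the corner

PROOF.  `d`, and for every contraction `a ∈ M` a function `ι_a`, from `exists_idx`.  For every `n ≥ 1` `hp` applied to
`x i = d i`, `i : Fin n`, with length `n` and tolerance `1/n` gives contractions `y n i ∈ p M p` with
`‖tr (ev (y n) w) - tr p * tr (ev (d ·) w)‖ < 1/n` for all words `w ≠ []` of length `≤ n`.  For a contraction `a` put `θ a n = y n (ι_a n)`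
(`0` for `n = 0`), and for `a ∈ M` put `Θ a n = r_a • θ (r_a⁻¹ • a) n`, `r_a = max 1 ‖a‖`.  Then `Θ a n ∈ M`, `‖Θ a n‖ ≤ r_a`,
`p * Θ a n * p = Θ a n`.
KEY LEMMA (all limits as `n → ∞`, so also along `U`).  Let `u, v, w ∈ M` be contractions.
(L) if `u = α • v + β • w` then `n2 (θ u n - (α • θ v n + β • θ w n)) → 0`.  Indeed its square is `tr (star A * A)`,
`A = θ u n - α • θ v n - β • θ w n`, a combination of `tr (ev (y n) w')` with `w'` of length 2, within `C/n` of the same combination for `d`, times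
`tr p`, that is `tr p * n2 (d (ι_u n) - α d (ι_v n) - β d (ι_w n))^2`, and the last `n2` is at most
`n2 (d (ι_u n) - u) + |α| n2 (d (ι_v n) - v) + |β| n2 (d (ι_w n) - w) → 0`.
(P) if `u = α • (v * w)` then `n2 (θ u n - α • (θ v n * θ w n)) → 0`: words of length `≤ 4`, and
`n2 (d_v * d_w - v * w) ≤ n2 (d_v - v) * ‖d_w‖ + ‖v‖ * n2 (d_w - w)`.
(S) if `u = α • star v` then `n2 (θ u n - α • star (θ v n)) → 0`: words of length 2, `n2_star`.
(T) `tr (θ u n) → tr p * tr u`: words of length 1 and `‖tr (d (ι_u n) - u)‖ ≤ n2 (..) → 0`.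
The fields of `IsEmb` follow with the normalisations (`a + b = r • u` etc.: e.g. `Θ (a + b) n - (Θ a n + Θ b n) =
r_(a+b) • (θ u n - (α • θ v n + β • θ w n))`, `α = r_a / r_(a+b)`, ...).
`Θ 1 n - p`: with `e = Θ 1 n` (in `p M p`), `n2 (e - p)^2 = tr p - 2 re (tr e) + n2 e^2` (as `p * e = e`), where `tr e → tr p` by (T) and
`n2 e^2 = tr (star e * e) → tr p` by (S), (P), (T).  `U ≤ atTop` gives the limits along `U`.
-/

set_option autoImplicit false

open Filter Topology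

namespace Pool.Agent.Lib.UPE

variable {H : Type*} [NormedAddCommGroup H] [InnerProductSpace ℂ H] [CompleteSpace H]
variable {M : VonNeumannAlgebra H} {ξ : ℕ → H}

/-- the formal adjoint of a word -/
private def rv {k : ℕ} (w : List (Fin k × Bool)) : List (Fin k × Bool) :=
  (w.map (fun l => (l.1, !l.2))).reverse

private theorem star_ev {k : ℕ} (x : Fin k → (H →L[ℂ] H)) (w : List (Fin k × Bool)) :
    star (ev x w) = ev x (rv w) := by
  induction w with
  | nil => simp [rv, ev_nil]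
  | cons l w ih =>
    rw [ev_cons, star_mul, ih]
    have h1 : rv (l :: w) = rv w ++ [(l.1, !l.2)] := by simp [rv]
    rw [h1, ev_append, ev_cons, ev_nil, mul_one]
    congr 1
    rcases l with ⟨i, b⟩
    cases b <;> simp [lt]

private theorem key (h : IsTrace M ξ) {k : ℕ} {x y : Fin k → (H →L[ℂ] H)} {τ : ℂ} {ε : ℝ}
    (hw : ∀ w : List (Fin k × Bool), w ≠ [] → w.length ≤ 4 →
      ‖tr ξ (ev y w) - τ * tr ξ (ev x w)‖ < ε) {r : ℕ} (c : Fin r → ℂ)
    (w : Fin r → List (Fin k × Bool)) (hne : ∀ t, w t ≠ []) (hl : ∀ t, (w t).length ≤ 2) :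
    ‖((n2 ξ (∑ t, c t • ev y (w t)) ^ 2 : ℝ) : ℂ) -
      τ * ((n2 ξ (∑ t, c t • ev x (w t)) ^ 2 : ℝ) : ℂ)‖ ≤ (∑ t, ‖c t‖) ^ 2 * ε := by
  have expand : ∀ z : Fin k → (H →L[ℂ] H), ((n2 ξ (∑ t, c t • ev z (w t)) ^ 2 : ℝ) : ℂ) =
      ∑ s, ∑ t, (star (c s) * c t) * tr ξ (ev z (rv (w s) ++ w t)) := by
    intro z
    rw [← tr_star_mul_self, star_sum, Finset.sum_mul, tr_sum h]
    refine Finset.sum_congr rfl fun s _ => ?_
    rw [Finset.mul_sum, tr_sum h]
    refine Finset.sum_congr rfl fun t _ => ?_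
    rw [star_smul, smul_mul_smul_comm, tr_smul, star_ev, ev_append]
  rw [expand, expand, Finset.mul_sum, ← Finset.sum_sub_distrib, sq, Finset.sum_mul_sum,
    Finset.sum_mul]
  refine (norm_sum_le _ _).trans (Finset.sum_le_sum fun s _ => ?_)
  rw [Finset.mul_sum, ← Finset.sum_sub_distrib, Finset.sum_mul]
  refine (norm_sum_le _ _).trans (Finset.sum_le_sum fun t _ => ?_)
  have e1 : star (c s) * c t * tr ξ (ev y (rv (w s) ++ w t)) -
      τ * (star (c s) * c t * tr ξ (ev x (rv (w s) ++ w t))) =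
      (star (c s) * c t) * (tr ξ (ev y (rv (w s) ++ w t)) - τ * tr ξ (ev x (rv (w s) ++ w t))) := by
    ring
  rw [e1, norm_mul, norm_mul, norm_star]
  refine mul_le_mul_of_nonneg_left (hw _ ?_ ?_).le (by positivity)
  · simp [hne t]
  · have h1 := hl s
    have h2 := hl t
    simp only [rv, List.length_append, List.length_reverse, List.length_map]
    omega

private theorem asy (h : IsTrace M ξ) {x y : ∀ n : ℕ, Fin (n + 1) → (H →L[ℂ] H)} {τ : ℂ}
    (hτ : τ = ((τ.re : ℝ) : ℂ))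
    (hw : ∀ (n : ℕ) (w : List (Fin (n + 1) × Bool)), w ≠ [] → w.length ≤ 4 →
      ‖tr ξ (ev (y n) w) - τ * tr ξ (ev (x n) w)‖ < 1 / ((n : ℝ) + 1)) {r : ℕ} (c : Fin r → ℂ)
    (w : ∀ n : ℕ, Fin r → List (Fin (n + 1) × Bool)) (hne : ∀ n t, w n t ≠ [])
    (hl : ∀ n t, (w n t).length ≤ 2) {L : ℝ}
    (hx : Tendsto (fun n => n2 ξ (∑ t, c t • ev (x n) (w n t))) atTop (𝓝 L)) :
    Tendsto (fun n => n2 ξ (∑ t, c t • ev (y n) (w n t)) ^ 2) atTop (𝓝 (τ.re * L ^ 2)) := by
  have h1 : ∀ n, |n2 ξ (∑ t, c t • ev (y n) (w n t)) ^ 2 -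
      τ.re * n2 ξ (∑ t, c t • ev (x n) (w n t)) ^ 2| ≤ (∑ t, ‖c t‖) ^ 2 * (1 / ((n : ℝ) + 1)) := by
    intro n
    have h2 := key h (hw n) c (w n) (hne n) (hl n)
    rw [hτ, ← Complex.ofReal_mul, ← Complex.ofReal_sub, Complex.norm_real, Real.norm_eq_abs] at h2
    simpa using h2
  have h3 : Tendsto (fun n : ℕ => (∑ t, ‖c t‖) ^ 2 * (1 / ((n : ℝ) + 1))) atTop (𝓝 0) := by
    have := tendsto_one_div_add_atTop_nhds_zero_nat (𝕜 := ℝ)
    simpa using this.const_mul ((∑ t, ‖c t‖) ^ 2)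
  have h4 : Tendsto (fun n => n2 ξ (∑ t, c t • ev (y n) (w n t)) ^ 2 -
      τ.re * n2 ξ (∑ t, c t • ev (x n) (w n t)) ^ 2) atTop (𝓝 0) :=
    squeeze_zero_norm h1 h3
  have h5 : Tendsto (fun n => τ.re * n2 ξ (∑ t, c t • ev (x n) (w n t)) ^ 2) atTop
      (𝓝 (τ.re * L ^ 2)) := (hx.pow 2).const_mul _
  have h6 := h4.add h5
  simpa using h6

private theorem asy0 (h : IsTrace M ξ) {x y : ∀ n : ℕ, Fin (n + 1) → (H →L[ℂ] H)} {τ : ℂ}
    (hτ : τ = ((τ.re : ℝ) : ℂ))
    (hw : ∀ (n : ℕ) (w : List (Fin (n + 1) × Bool)), w ≠ [] → w.length ≤ 4 →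
      ‖tr ξ (ev (y n) w) - τ * tr ξ (ev (x n) w)‖ < 1 / ((n : ℝ) + 1)) {r : ℕ} (c : Fin r → ℂ)
    (w : ∀ n : ℕ, Fin r → List (Fin (n + 1) × Bool)) (hne : ∀ n t, w n t ≠ [])
    (hl : ∀ n t, (w n t).length ≤ 2)
    (hx : Tendsto (fun n => n2 ξ (∑ t, c t • ev (x n) (w n t))) atTop (𝓝 0)) :
    Tendsto (fun n => n2 ξ (∑ t, c t • ev (y n) (w n t))) atTop (𝓝 0) := by
  have h1 := asy h hτ hw c w hne hl hx
  have h2 : Tendsto (fun n => Real.sqrt (n2 ξ (∑ t, c t • ev (y n) (w n t)) ^ 2)) atTop (𝓝 0) := by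
    have := (Real.continuous_sqrt.tendsto _).comp h1
    simpa [Function.comp_def] using this
  refine h2.congr fun n => ?_
  exact Real.sqrt_sq (n2_nonneg _)

/-- every element of `M` is a limit of multiples of values of the dense sequence -/
private theorem exists_app (h : IsTrace M ξ) (hsep : Sep M ξ) :
    ∃ d : ℕ → (H →L[ℂ] H), (∀ n, d n ∈ M ∧ ‖d n‖ ≤ 1) ∧
      ∃ (r : M.toStarSubalgebra → ℝ) (ι : M.toStarSubalgebra → ∀ n : ℕ, Fin (n + 1)),
        ∀ a : M.toStarSubalgebra,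
          Tendsto (fun n => n2 ξ ((a : H →L[ℂ] H) - (r a : ℂ) • d (ι a n))) atTop (𝓝 0) := by
  obtain ⟨d, hd, hι⟩ := exists_idx h hsep
  have h1 : ∀ a : M.toStarSubalgebra, ∃ (r : ℝ) (ι : ∀ n : ℕ, Fin (n + 1)),
      Tendsto (fun n => n2 ξ ((a : H →L[ℂ] H) - (r : ℂ) • d (ι n))) atTop (𝓝 0) := by
    intro a
    set r : ℝ := max 1 ‖(a : H →L[ℂ] H)‖ with hr
    have hr1 : 1 ≤ r := le_max_left _ _
    have hr0 : 0 < r := by linarith
    have hra : ‖(a : H →L[ℂ] H)‖ ≤ r := le_max_right _ _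
    have hrc : (r : ℂ) ≠ 0 := by exact_mod_cast hr0.ne'
    have hb : ((r : ℂ)⁻¹ • (a : H →L[ℂ] H)) ∈ M := smul_mem' _ a.2
    have hb1 : ‖((r : ℂ)⁻¹ • (a : H →L[ℂ] H))‖ ≤ 1 := by
      rw [norm_smul, norm_inv, Complex.norm_real, Real.norm_eq_abs, abs_of_pos hr0,
        inv_mul_le_iff₀ hr0]
      simpa using hra
    obtain ⟨ι, hι1, hι2⟩ := hι _ hb hb1
    refine ⟨r, fun n => ⟨min (ι n) n, by omega⟩, ?_⟩
    have h2 := hι2.const_mul r
    rw [mul_zero] at h2
    refine h2.congr' ?_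
    filter_upwards [eventually_ge_atTop 1] with n hn
    have h3 : min (ι n) n = ι n := min_eq_left (hι1 n hn).le
    have h4 : (a : H →L[ℂ] H) - (r : ℂ) • d (ι n) =
        (r : ℂ) • ((r : ℂ)⁻¹ • (a : H →L[ℂ] H) - d (ι n)) := by
      rw [smul_sub, smul_smul, mul_inv_cancel₀ hrc, one_smul]
    show r * n2 ξ ((r : ℂ)⁻¹ • (a : H →L[ℂ] H) - d (ι n)) =
      n2 ξ ((a : H →L[ℂ] H) - (r : ℂ) • d (min (ι n) n))
    rw [h3, h4, n2_smul, Complex.norm_real, Real.norm_eq_abs, abs_of_pos hr0]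
  choose r ι hrι using h1
  exact ⟨d, hd, r, ι, hrι⟩

theorem apc_emb (h : IsTrace M ξ) (hsep : Sep M ξ) (U : Ultrafilter ℕ) (hU : (U : Filter ℕ) ≤ atTop)
    {p : H →L[ℂ] H} (hp : IsStarProjection p) (hpM : p ∈ M) (hap : ApC M ξ p) : CornerEmb M ξ U p := by
  obtain ⟨d, hd, r, ι, hι⟩ := exists_app h hsep
  obtain ⟨hτ0, hτ1, hτ⟩ := re_tr_proj_mem h hp
  have hy : ∀ n : ℕ, ∃ y : Fin (n + 1) → (H →L[ℂ] H), (∀ i, y i ∈ M) ∧ (∀ i, ‖y i‖ ≤ 1) ∧
      (∀ i, p * y i * p = y i) ∧ ∀ w : List (Fin (n + 1) × Bool), w ≠ [] → w.length ≤ 4 →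
        ‖tr ξ (ev y w) - tr ξ p * tr ξ (ev (fun i : Fin (n + 1) => d i) w)‖ < 1 / ((n : ℝ) + 1) :=
    fun n => hap (n + 1) 4 (fun i => d i) (fun i => (hd i).1) (fun i => (hd i).2) _ (by positivity)
  choose y hyM hy1 hyp hyw using hy
  -- the approximations in `M` and their images
  let D : M.toStarSubalgebra → ℕ → (H →L[ℂ] H) := fun a n => (r a : ℂ) • d (ι a n)
  let Θ : M.toStarSubalgebra → ℕ → (H →L[ℂ] H) := fun a n => (r a : ℂ) • y n (ι a n)
  have hDM : ∀ a n, D a n ∈ M := fun a n => smul_mem' _ (hd _).1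
  have hDn : ∀ a n, ‖D a n‖ ≤ |r a| := by
    intro a n
    show ‖(r a : ℂ) • d (ι a n)‖ ≤ |r a|
    rw [norm_smul, Complex.norm_real, Real.norm_eq_abs]
    exact mul_le_of_le_one_right (abs_nonneg _) (hd _).2
  have hD : ∀ a : M.toStarSubalgebra, Tendsto (fun n => n2 ξ ((a : H →L[ℂ] H) - D a n)) atTop (𝓝 0) := hι
  have hΘM : ∀ a n, Θ a n ∈ M := fun a n => smul_mem' _ (hyM _ _)
  have hΘp : ∀ a n, p * Θ a n * p = Θ a n := by
    intro a n
    show p * ((r a : ℂ) • y n (ι a n)) * p = (r a : ℂ) • y n (ι a n)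
    rw [mul_smul_comm, smul_mul_assoc, hyp]
  have hΘn : ∀ a n, ‖Θ a n‖ ≤ |r a| := by
    intro a n
    show ‖(r a : ℂ) • y n (ι a n)‖ ≤ |r a|
    rw [norm_smul, Complex.norm_real, Real.norm_eq_abs]
    exact mul_le_of_le_one_right (abs_nonneg _) (hy1 _ _)
  -- the trace
  have hT : ∀ a : M.toStarSubalgebra,
      Tendsto (fun n => tr ξ (Θ a n)) atTop (𝓝 (tr ξ p * tr ξ (a : H →L[ℂ] H))) := by
    intro a
    have h1 : ∀ n, ‖tr ξ (Θ a n) - tr ξ p * tr ξ (a : H →L[ℂ] H)‖ ≤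
        |r a| * (1 / ((n : ℝ) + 1)) + ‖tr ξ p‖ * n2 ξ ((a : H →L[ℂ] H) - D a n) := by
      intro n
      have h2 := (hyw n [(ι a n, true)] (by simp) (by simp)).le
      simp only [ev_cons, ev_nil, mul_one, lt, if_true] at h2
      have h3 : tr ξ (Θ a n) - tr ξ p * tr ξ (a : H →L[ℂ] H) =
          (r a : ℂ) * (tr ξ (y n (ι a n)) - tr ξ p * tr ξ (d (ι a n))) -
            tr ξ p * tr ξ ((a : H →L[ℂ] H) - D a n) := by
        have e1 : tr ξ (Θ a n) = (r a : ℂ) * tr ξ (y n (ι a n)) := tr_smul _ _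
        have e2 : tr ξ (D a n) = (r a : ℂ) * tr ξ (d (ι a n)) := tr_smul _ _
        rw [e1, tr_sub h, e2]
        ring
      rw [h3]
      refine (norm_sub_le _ _).trans (add_le_add ?_ ?_)
      · rw [norm_mul, Complex.norm_real, Real.norm_eq_abs]
        exact mul_le_mul_of_nonneg_left h2 (abs_nonneg _)
      · rw [norm_mul]
        exact mul_le_mul_of_nonneg_left (norm_tr_le h _) (norm_nonneg _)
    have h4 : Tendsto (fun n : ℕ => |r a| * (1 / ((n : ℝ) + 1)) +
        ‖tr ξ p‖ * n2 ξ ((a : H →L[ℂ] H) - D a n)) atTop (𝓝 0) := by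
      have e1 := (tendsto_one_div_add_atTop_nhds_zero_nat (𝕜 := ℝ)).const_mul |r a|
      have e2 := (hD a).const_mul ‖tr ξ p‖
      simpa using e1.add e2
    have h5 := squeeze_zero_norm h1 h4
    have h6 := h5.add_const (tr ξ p * tr ξ (a : H →L[ℂ] H))
    simpa using h6
  refine ⟨Θ, ⟨hΘM, fun a => ⟨|r a|, hΘn a⟩, ?_, ?_, ?_, ?_, fun a => (hT a).mono_left hU⟩, hΘp, ?_⟩
  · -- sums
    intro a b
    refine Tendsto.mono_left ?_ hU
    have h1 := asy0 h hτ hyw ![(r (a + b) : ℂ), -(r a : ℂ), -(r b : ℂ)]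
      (fun n => ![[(ι (a + b) n, true)], [(ι a n, true)], [(ι b n, true)]])
      (by intro n t; fin_cases t <;> simp) (by intro n t; fin_cases t <;> simp) ?_
    · refine h1.congr fun n => ?_
      congr 1
      simp [-Complex.coe_smul, Fin.sum_univ_three, ev_cons, ev_nil, lt, Θ]
      abel
    · have h2 : Tendsto (fun n => n2 ξ ((a + b : M.toStarSubalgebra) - D (a + b) n) +
          (n2 ξ ((a : H →L[ℂ] H) - D a n) + n2 ξ ((b : H →L[ℂ] H) - D b n))) atTop (𝓝 0) := by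
        simpa using (hD (a + b)).add ((hD a).add (hD b))
      refine squeeze_zero (fun n => n2_nonneg _) (fun n => ?_) h2
      have h3 : (∑ t, (![(r (a + b) : ℂ), -(r a : ℂ), -(r b : ℂ)] : Fin 3 → ℂ) t •
          ev (fun i : Fin (n + 1) => d i)
            ((![[(ι (a + b) n, true)], [(ι a n, true)], [(ι b n, true)]] :
              Fin 3 → List (Fin (n + 1) × Bool)) t)) =
          (((a : H →L[ℂ] H) - D a n) + ((b : H →L[ℂ] H) - D b n)) -
            (((a + b : M.toStarSubalgebra) : H →L[ℂ] H) - D (a + b) n) := by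
        simp [-Complex.coe_smul, Fin.sum_univ_three, ev_cons, ev_nil, lt, D]
        abel
      rw [h3]
      refine (n2_sub_le h _ _).trans ?_
      have h4 := n2_add_le h ((a : H →L[ℂ] H) - D a n) ((b : H →L[ℂ] H) - D b n)
      linarith
  · -- multiples
    intro c a
    refine Tendsto.mono_left ?_ hU
    have h1 := asy0 h hτ hyw ![(r (c • a) : ℂ), -(c * (r a : ℂ))]
      (fun n => ![[(ι (c • a) n, true)], [(ι a n, true)]])
      (by intro n t; fin_cases t <;> simp) (by intro n t; fin_cases t <;> simp) ?_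
    · refine h1.congr fun n => ?_
      congr 1
      simp [-Complex.coe_smul, Fin.sum_univ_two, ev_cons, ev_nil, lt, Θ, smul_smul, sub_eq_add_neg]
    · have h2 : Tendsto (fun n => n2 ξ ((c • a : M.toStarSubalgebra) - D (c • a) n) +
          ‖c‖ * n2 ξ ((a : H →L[ℂ] H) - D a n)) atTop (𝓝 0) := by
        simpa using (hD (c • a)).add ((hD a).const_mul ‖c‖)
      refine squeeze_zero (fun n => n2_nonneg _) (fun n => ?_) h2
      have h3 : (∑ t, (![(r (c • a) : ℂ), -(c * (r a : ℂ))] : Fin 2 → ℂ) t •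
          ev (fun i : Fin (n + 1) => d i)
            ((![[(ι (c • a) n, true)], [(ι a n, true)]] :
              Fin 2 → List (Fin (n + 1) × Bool)) t)) =
          c • ((a : H →L[ℂ] H) - D a n) -
            (((c • a : M.toStarSubalgebra) : H →L[ℂ] H) - D (c • a) n) := by
        simp [-Complex.coe_smul, Fin.sum_univ_two, ev_cons, ev_nil, lt, D, smul_smul, smul_sub]
        abel
      rw [h3]
      refine (n2_sub_le h _ _).trans ?_
      rw [n2_smul]
      linarith
  · -- products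
    intro a b
    refine Tendsto.mono_left ?_ hU
    have h1 := asy0 h hτ hyw ![(r (a * b) : ℂ), -((r b : ℂ) * (r a : ℂ))]
      (fun n => ![[(ι (a * b) n, true)], [(ι a n, true), (ι b n, true)]])
      (by intro n t; fin_cases t <;> simp) (by intro n t; fin_cases t <;> simp) ?_
    · refine h1.congr fun n => ?_
      congr 1
      simp [-Complex.coe_smul, Fin.sum_univ_two, ev_cons, ev_nil, lt, Θ, smul_smul, sub_eq_add_neg]
    · have h2 : Tendsto (fun n => n2 ξ ((a * b : M.toStarSubalgebra) - D (a * b) n) +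
          (n2 ξ ((a : H →L[ℂ] H) - D a n) * |r b| +
            ‖(a : H →L[ℂ] H)‖ * n2 ξ ((b : H →L[ℂ] H) - D b n))) atTop (𝓝 0) := by
        simpa using (hD (a * b)).add (((hD a).mul_const |r b|).add ((hD b).const_mul ‖(a : H →L[ℂ] H)‖))
      refine squeeze_zero (fun n => n2_nonneg _) (fun n => ?_) h2
      have h3 : (∑ t, (![(r (a * b) : ℂ), -((r b : ℂ) * (r a : ℂ))] : Fin 2 → ℂ) t •
          ev (fun i : Fin (n + 1) => d i)
            ((![[(ι (a * b) n, true)], [(ι a n, true), (ι b n, true)]] :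
              Fin 2 → List (Fin (n + 1) × Bool)) t)) =
          (((a : H →L[ℂ] H) - D a n) * D b n + (a : H →L[ℂ] H) * ((b : H →L[ℂ] H) - D b n)) -
            (((a * b : M.toStarSubalgebra) : H →L[ℂ] H) - D (a * b) n) := by
        simp [-Complex.coe_smul, Fin.sum_univ_two, ev_cons, ev_nil, lt, D, smul_smul, smul_sub, sub_mul, mul_sub]
        abel
      rw [h3]
      refine (n2_sub_le h _ _).trans ?_
      have h4 := n2_add_le h (((a : H →L[ℂ] H) - D a n) * D b n)
        ((a : H →L[ℂ] H) * ((b : H →L[ℂ] H) - D b n))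
      have h5 := n2_mul_le' h (sub_mem a.2 (hDM a n)) (hDM b n)
      have h6 := n2_mul_le h (a : H →L[ℂ] H) ((b : H →L[ℂ] H) - D b n)
      have h7 := mul_le_mul_of_nonneg_left (hDn b n) (n2_nonneg (ξ := ξ) ((a : H →L[ℂ] H) - D a n))
      linarith
  · -- adjoints
    intro a
    refine Tendsto.mono_left ?_ hU
    have h1 := asy0 h hτ hyw ![(r (star a) : ℂ), -(r a : ℂ)]
      (fun n => ![[(ι (star a) n, true)], [(ι a n, false)]])
      (by intro n t; fin_cases t <;> simp) (by intro n t; fin_cases t <;> simp) ?_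
    · refine h1.congr fun n => ?_
      congr 1
      simp [-Complex.coe_smul, Fin.sum_univ_two, ev_cons, ev_nil, lt, Θ, sub_eq_add_neg, star_smul]
    · have h2 : Tendsto (fun n => n2 ξ ((star a : M.toStarSubalgebra) - D (star a) n) +
          n2 ξ ((a : H →L[ℂ] H) - D a n)) atTop (𝓝 0) := by
        simpa using (hD (star a)).add (hD a)
      refine squeeze_zero (fun n => n2_nonneg _) (fun n => ?_) h2
      have h3 : (∑ t, (![(r (star a) : ℂ), -(r a : ℂ)] : Fin 2 → ℂ) t •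
          ev (fun i : Fin (n + 1) => d i)
            ((![[(ι (star a) n, true)], [(ι a n, false)]] :
              Fin 2 → List (Fin (n + 1) × Bool)) t)) =
          star ((a : H →L[ℂ] H) - D a n) -
            (((star a : M.toStarSubalgebra) : H →L[ℂ] H) - D (star a) n) := by
        simp [-Complex.coe_smul, Fin.sum_univ_two, ev_cons, ev_nil, lt, D, star_smul, star_sub]
        abel
      rw [h3]
      refine (n2_sub_le h _ _).trans ?_
      rw [n2_star h (sub_mem a.2 (hDM a n))]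
      linarith
  · -- the unit
    refine Tendsto.mono_left ?_ hU
    have hT1 := hT 1
    have h1 := asy h hτ hyw ![(r 1 : ℂ)] (fun n => ![[(ι 1 n, true)]])
      (by intro n t; fin_cases t; simp) (by intro n t; fin_cases t; simp) (L := 1) ?_
    · have h2 : ∀ n, n2 ξ (Θ 1 n - p) ^ 2 =
          n2 ξ (Θ 1 n) ^ 2 - 2 * (tr ξ (Θ 1 n)).re + (tr ξ p).re := by
        intro n
        have e1 : p * Θ 1 n = Θ 1 n := by
          rw [← hΘp 1 n, ← mul_assoc, ← mul_assoc, hp.isIdempotentElem.eq]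
        have e2 : star (Θ 1 n) * p = star (Θ 1 n) := by
          have := congrArg star e1
          rwa [star_mul, hp.isSelfAdjoint.star_eq] at this
        have e3 : star (Θ 1 n - p) * (Θ 1 n - p) =
            star (Θ 1 n) * Θ 1 n - star (Θ 1 n) - Θ 1 n + p := by
          rw [star_sub, hp.isSelfAdjoint.star_eq, sub_mul, mul_sub, mul_sub, e1, e2,
            hp.isIdempotentElem.eq]
          abel
        have e4 := tr_star_mul_self (ξ := ξ) (Θ 1 n - p)
        rw [e3, tr_add h, tr_sub h, tr_sub h, tr_star_mul_self, tr_star] at e4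
        have e5 := congrArg Complex.re e4
        simp only [Complex.add_re, Complex.sub_re, Complex.ofReal_re, Complex.star_def,
          Complex.conj_re] at e5
        linarith
      have h3 : Tendsto (fun n => n2 ξ (Θ 1 n - p) ^ 2) atTop (𝓝 0) := by
        have e1 : Tendsto (fun n => (tr ξ (Θ 1 n)).re) atTop (𝓝 (tr ξ p).re) := by
          have := (Complex.continuous_re.tendsto _).comp hT1
          simpa [tr_one h, Function.comp_def] using this
        have e2 : Tendsto (fun n => n2 ξ (Θ 1 n) ^ 2) atTop (𝓝 ((tr ξ p).re * 1 ^ 2)) := by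
          refine h1.congr fun n => ?_
          simp [ev_cons, ev_nil, lt, Θ]
        have e3 := (e2.sub (e1.const_mul 2)).add_const (tr ξ p).re
        have e4 : (tr ξ p).re * 1 ^ 2 - 2 * (tr ξ p).re + (tr ξ p).re = 0 := by ring
        rw [e4] at e3
        exact e3.congr fun n => (h2 n).symm
      have h4 : Tendsto (fun n => Real.sqrt (n2 ξ (Θ 1 n - p) ^ 2)) atTop (𝓝 0) := by
        have := (Real.continuous_sqrt.tendsto _).comp h3
        simpa [Function.comp_def] using this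
      exact h4.congr fun n => Real.sqrt_sq (n2_nonneg _)
    · have e1 : ∀ n, |n2 ξ (D 1 n) - 1| ≤ n2 ξ (((1 : M.toStarSubalgebra) : H →L[ℂ] H) - D 1 n) := by
        intro n
        have f1 : n2 ξ (((1 : M.toStarSubalgebra) : H →L[ℂ] H)) = 1 := n2_one h
        have f2 := n2_sub_le h (((1 : M.toStarSubalgebra) : H →L[ℂ] H))
          (((1 : M.toStarSubalgebra) : H →L[ℂ] H) - D 1 n)
        have f3 := n2_add_le h (((1 : M.toStarSubalgebra) : H →L[ℂ] H) - D 1 n) (D 1 n)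
        rw [sub_sub_cancel] at f2
        rw [sub_add_cancel] at f3
        rw [abs_le]
        constructor <;> linarith
      have e2 : Tendsto (fun n => n2 ξ (D 1 n)) atTop (𝓝 1) := by
        have := squeeze_zero_norm (f := fun n => n2 ξ (D 1 n) - 1) e1 (hD 1)
        simpa using this.add_const 1
      refine e2.congr fun n => ?_
      simp [ev_cons, ev_nil, lt, D]

end Pool.Agent.Lib.UPE
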