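import Pool.Agent.Lib.UPE.DF

/-!
# UPE / AP (150 lines): almost projections

PROOF.  `e = spr x (1/2)`, commutes with `x`.  Write `P = cfc (max (t - 1/2) 0) x`, `N = cfc (max (1/2 - t) 0) x`, `x - 1/2 = P - N`,
`N * e = 0`, `P * (1 - e) = 0` (`cfc_mul_spr_neg`, `cfc_mul_spr_pos` with `g = 1`).
CLAIM `n2 (x - e) ≤ 2 * n2 (x * x - x)`.  `x * e = (1/2 + P) * e`, so `(x * x - x) * e = (1/2 + P) * (x - 1) * e`, and
`(x * x - x) * (1 - e) = - (1/2 + N) * x * (1 - e)` because `(x - 1) * (1 - e) = (- 1/2 - N) * (1 - e)`.  `1/2 + P`, `1/2 + N` are `≥ 1/2`: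
`‖(1/2 + P) η‖ ≥ ‖η‖ / 2` (`re ⟪η, (1/2 + P) η⟫ ≥ ‖η‖^2/2`).  For `ζ : H`: `(x - e) ζ = (x - 1) e ζ + x (1 - e) ζ`, the two terms are orthogonal
(the first is in the range of `e`, the second in that of `1 - e`), so
`‖(x - e) ζ‖^2 = ‖(x-1) e ζ‖^2 + ‖x (1-e) ζ‖^2 ≤ 4 (‖(x*x-x) e ζ‖^2 + ‖(x*x-x) (1-e) ζ‖^2) = 4 ‖(x*x-x) ζ‖^2`.  Sum over `ζ = ξ i`.
(Alternative: `cfc` inequality `(t - 1_{t > 1/2})^2 ≤ 4 (t^2 - t)^2`.)
Then `|(tr e).re - s| ≤ ‖tr x - s‖ + n2 (x - e)`.  If `s ≤ (tr e).re`, `exists_trace` for `q = e` gives `f` with `f * e = f`; if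
`(tr e).re ≤ s`, `exists_trace` for `q = 1 - e` and `s - (tr e).re` gives `g`, `f = e + g`.  In both cases `e - f` or `f - e` is a
projection of trace `|(tr e).re - s|`, so `n2 (e - f) = sqrt |(tr e).re - s|` (`tr_proj`).
-/

set_option autoImplicit false

open Filter Topology

namespace Pool.Agent.Lib.UPE

variable {H : Type*} [NormedAddCommGroup H] [InnerProductSpace ℂ H] [CompleteSpace H]
variable {M : VonNeumannAlgebra H} {ξ : ℕ → H}

private theorem ap_pyth {e : H →L[ℂ] H} (he : IsStarProjection e) (v : H) : ‖v‖ ^ 2 = ‖e v‖ ^ 2 + ‖v - e v‖ ^ 2 := by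
  have h1 : inner ℂ (e v) (v - e v) = 0 := by
    have h2 : inner ℂ (e v) (v - e v) = inner ℂ v ((star e) (v - e v)) := by
      rw [ContinuousLinearMap.star_eq_adjoint, ContinuousLinearMap.adjoint_inner_right]
    rw [h2, he.isSelfAdjoint.star_eq, map_sub]
    have h3 : e (e v) = e v := by
      have := congrArg (fun T : H →L[ℂ] H => T v) he.isIdempotentElem.eq
      simpa using this
    rw [h3, sub_self, inner_zero_right]
  have h2 := norm_add_sq_eq_norm_sq_add_norm_sq_of_inner_eq_zero (e v) (v - e v) h1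
  have h3 : e v + (v - e v) = v := by abel
  rw [h3] at h2
  nlinarith

private theorem ap_low {w z : H} (h : (1 / 2 : ℝ) * ‖w‖ ^ 2 ≤ (inner ℂ w z).re) : ‖w‖ ≤ 2 * ‖z‖ := by
  have h1 : (inner ℂ w z).re ≤ ‖w‖ * ‖z‖ := (Complex.re_le_norm _).trans (norm_inner_le_norm w z)
  rcases (norm_nonneg w).eq_or_lt with h0 | h0
  · rw [← h0]
    positivity
  · have h2 : ‖w‖ * ((1 / 2 : ℝ) * ‖w‖) ≤ ‖w‖ * ‖z‖ := by nlinarith
    have h3 := le_of_mul_le_mul_left h2 h0
    linarith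

private theorem ap_inner_self (w : H) : (inner ℂ w w : ℂ).re = ‖w‖ ^ 2 := by
  rw [inner_self_eq_norm_sq_to_K]
  norm_cast

private theorem ap_point {x : H →L[ℂ] H} (hsa : IsSelfAdjoint x) (ζ : H) :
    ‖(x - spr x (1 / 2)) ζ‖ ≤ 2 * ‖(x * x - x) ζ‖ := by
  set e := spr x (1 / 2) with he
  have hp : IsStarProjection e := spr_proj x _
  have hc : x * e = e * x := spr_comm rfl _
  have hee : e * e = e := hp.isIdempotentElem.eq
  have happ : ∀ v, e (e v) = e v := fun v => by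
    have := congrArg (fun T : H →L[ℂ] H => T v) hee
    simpa using this
  have hcx : ∀ v, x (e v) = e (x v) := fun v => by
    have := congrArg (fun T : H →L[ℂ] H => T v) hc
    simpa using this
  set v := (x - e) ζ with hv
  set u := (x * x - x) ζ with hu
  have hv' : v = x ζ - e ζ := by rw [hv]; simp
  have hu' : u = x (x ζ) - x ζ := by rw [hu]; simp
  -- first part
  have a1 : x (e v) = e u := by
    rw [hv', hu', map_sub, map_sub, happ, map_sub, hcx, hcx]
  have b1 : ‖e v‖ ≤ 2 * ‖e u‖ := by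
    rw [← a1]
    apply ap_low
    have h1 := le_mul_spr hsa (1 / 2)
    rw [ContinuousLinearMap.le_def] at h1
    have h2 := h1.re_inner_nonneg_right (e v)
    rw [← he] at h2
    have h3 : (x * e - ((1 / 2 : ℝ) : ℂ) • e) (e v) = x (e v) - ((1 / 2 : ℝ) : ℂ) • (e v) := by
      simp only [ContinuousLinearMap.sub_apply, ContinuousLinearMap.mul_apply, ContinuousLinearMap.smul_apply, happ]
    rw [h3, inner_sub_right, inner_smul_right, map_sub] at h2
    have h4 : RCLike.re (((1 / 2 : ℝ) : ℂ) * inner ℂ (e v) (e v)) = (1 / 2 : ℝ) * ‖e v‖ ^ 2 := by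
      rw [← ap_inner_self (e v)]
      exact Complex.re_ofReal_mul _ _
    rw [h4] at h2
    have h5 : RCLike.re (inner ℂ (e v) (x (e v))) = (inner ℂ (e v) (x (e v))).re := rfl
    rw [h5] at h2
    linarith
  -- second part
  set w := v - e v with hw
  have hew : e w = 0 := by rw [hw, map_sub, happ, sub_self]
  have a2 : x w - w = u - e u := by
    rw [hw, hv', hu']
    simp only [map_sub, happ, hcx]
    abel
  have b2 : ‖w‖ ≤ 2 * ‖u - e u‖ := by
    rw [← a2, ← norm_neg (x w - w)]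
    apply ap_low
    have h1 := mul_one_sub_spr_le hsa (1 / 2)
    rw [ContinuousLinearMap.le_def] at h1
    have h2 := h1.re_inner_nonneg_right w
    rw [← he] at h2
    have h3 : (((1 / 2 : ℝ) : ℂ) • (1 - e) - x * (1 - e)) w = ((1 / 2 : ℝ) : ℂ) • w - x w := by
      simp only [ContinuousLinearMap.sub_apply, ContinuousLinearMap.mul_apply, ContinuousLinearMap.smul_apply,
        ContinuousLinearMap.one_apply, hew, sub_zero]
    rw [h3, inner_sub_right, inner_smul_right, map_sub] at h2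
    have h4 : RCLike.re (((1 / 2 : ℝ) : ℂ) * inner ℂ w w) = (1 / 2 : ℝ) * ‖w‖ ^ 2 := by
      rw [← ap_inner_self w]
      exact Complex.re_ofReal_mul _ _
    rw [h4] at h2
    have h5 : RCLike.re (inner ℂ w (x w)) = (inner ℂ w (x w)).re := rfl
    rw [h5] at h2
    rw [inner_neg_right, inner_sub_right, Complex.neg_re, Complex.sub_re, ap_inner_self]
    linarith
  have p1 := ap_pyth hp v
  have p2 := ap_pyth hp u
  rw [← hw] at p1
  have q1 : ‖e v‖ ^ 2 ≤ (2 * ‖e u‖) ^ 2 := pow_le_pow_left₀ (norm_nonneg _) b1 2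
  have q2 : ‖w‖ ^ 2 ≤ (2 * ‖u - e u‖) ^ 2 := pow_le_pow_left₀ (norm_nonneg _) b2 2
  have q3 : ‖v‖ ^ 2 ≤ (2 * ‖u‖) ^ 2 := by nlinarith
  exact le_of_sq_le_sq q3 (by positivity)

private theorem ap_n2 (h : IsTrace M ξ) {x : H →L[ℂ] H} (hsa : IsSelfAdjoint x) :
    n2 ξ (x - spr x (1 / 2)) ≤ 2 * n2 ξ (x * x - x) := by
  unfold n2
  have h1 : (2 : ℝ) * Real.sqrt (∑' i, ‖(x * x - x) (ξ i)‖ ^ 2) = Real.sqrt (∑' i, (2 * ‖(x * x - x) (ξ i)‖) ^ 2) := by
    have h2 : ∑' i, (2 * ‖(x * x - x) (ξ i)‖) ^ 2 = 4 * ∑' i, ‖(x * x - x) (ξ i)‖ ^ 2 := by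
      rw [← tsum_mul_left]
      exact tsum_congr fun i => by ring
    rw [h2, Real.sqrt_mul (by norm_num)]
    congr 1
    rw [show (4 : ℝ) = 2 ^ 2 by norm_num, Real.sqrt_sq (by norm_num)]
  rw [h1]
  apply Real.sqrt_le_sqrt
  have hs2 : Summable fun i => (2 * ‖(x * x - x) (ξ i)‖) ^ 2 := by
    have := (summable_n2 h (x * x - x)).mul_left 4
    refine this.congr fun i => by ring
  exact (summable_n2 h _).tsum_le_tsum (fun i => pow_le_pow_left₀ (norm_nonneg _) (ap_point hsa (ξ i)) 2) hs2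

private theorem ap_sqrt {p : H →L[ℂ] H} (hp : IsStarProjection p) {D : ℝ} (hD : tr ξ p = (D : ℂ)) : n2 ξ p = Real.sqrt D := by
  have h1 := tr_proj (ξ := ξ) hp
  rw [hD] at h1
  have h2 : D = n2 ξ p ^ 2 := by exact_mod_cast h1
  rw [h2, Real.sqrt_sq (n2_nonneg p)]

theorem near_proj (h : IsIIOne M ξ) {x : H →L[ℂ] H} (hx : x ∈ M) (hsa : IsSelfAdjoint x) {s : ℝ}
    (hs0 : 0 ≤ s) (hs1 : s ≤ 1) :
    ∃ f ∈ M, IsStarProjection f ∧ tr ξ f = (s : ℂ) ∧
      n2 ξ (x - f) ≤ 2 * n2 ξ (x * x - x) + Real.sqrt (‖tr ξ x - (s : ℂ)‖ + 2 * n2 ξ (x * x - x)) := by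
  have hT : IsTrace M ξ := h.toIsTrace
  set e := spr x (1 / 2) with he
  have hp : IsStarProjection e := spr_proj x _
  have heM : e ∈ M := spr_mem hx _
  have hn : n2 ξ (x - e) ≤ 2 * n2 ξ (x * x - x) := ap_n2 hT hsa
  obtain ⟨-, -, htr⟩ := re_tr_proj_mem hT hp
  set τ : ℝ := (tr ξ e).re with hτ
  have hD : |τ - s| ≤ ‖tr ξ x - (s : ℂ)‖ + 2 * n2 ξ (x * x - x) := by
    have h1 : ((τ - s : ℝ) : ℂ) = (tr ξ x - (s : ℂ)) - tr ξ (x - e) := by
      rw [tr_sub hT, htr]
      push_cast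
      ring
    have h2 : |τ - s| = ‖((τ - s : ℝ) : ℂ)‖ := by rw [Complex.norm_real, Real.norm_eq_abs]
    rw [h2, h1]
    refine (norm_sub_le _ _).trans ?_
    have h3 := norm_tr_le hT (x - e)
    linarith
  have key : ∀ f : H →L[ℂ] H, n2 ξ (e - f) = Real.sqrt |τ - s| →
      n2 ξ (x - f) ≤ 2 * n2 ξ (x * x - x) + Real.sqrt (‖tr ξ x - (s : ℂ)‖ + 2 * n2 ξ (x * x - x)) := by
    intro f hf
    have h1 := n2_sub_le_sub hT x e f
    rw [hf] at h1
    have h2 := Real.sqrt_le_sqrt hD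
    linarith
  rcases le_total s τ with hs | hs
  · obtain ⟨f, hfM, hfp, hfe, hft⟩ := exists_trace h hp heM hs0 hs
    refine ⟨f, hfM, hfp, hft, key f ?_⟩
    have hef : e * f = f := by
      have := congrArg star hfe
      rwa [star_mul, hp.isSelfAdjoint.star_eq, hfp.isSelfAdjoint.star_eq] at this
    have hq : IsStarProjection (e - f) := by
      constructor
      · show (e - f) * (e - f) = e - f
        rw [sub_mul, mul_sub, mul_sub, hp.isIdempotentElem.eq, hfp.isIdempotentElem.eq, hef, hfe]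
        abel
      · exact hp.isSelfAdjoint.sub hfp.isSelfAdjoint
    refine ap_sqrt hq ?_
    rw [tr_sub hT, hft, htr, abs_of_nonneg (by linarith)]
    push_cast
    rfl
  · have h1p : IsStarProjection (1 - e) := hp.one_sub
    have h1M : (1 - e) ∈ M := sub_mem (one_mem M) heM
    have h1t : tr ξ (1 - e) = ((1 - τ : ℝ) : ℂ) := by
      rw [tr_sub hT, tr_one hT, htr]
      push_cast
      rfl
    obtain ⟨g, hgM, hgp, hge, hgt⟩ := exists_trace h h1p h1M (s := s - τ) (by linarith) (by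
      rw [h1t, Complex.ofReal_re]
      linarith)
    have hge0 : g * e = 0 := by
      have h2 : g * (1 - e) * e = g * e := by rw [hge]
      rw [mul_assoc, sub_mul, one_mul, hp.isIdempotentElem.eq, sub_self, mul_zero] at h2
      exact h2.symm
    have heg0 : e * g = 0 := by
      have := congrArg star hge0
      rwa [star_mul, hp.isSelfAdjoint.star_eq, hgp.isSelfAdjoint.star_eq, star_zero] at this
    have hf : IsStarProjection (e + g) := by
      constructor
      · show (e + g) * (e + g) = e + g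
        rw [add_mul, mul_add, mul_add, hp.isIdempotentElem.eq, hgp.isIdempotentElem.eq, heg0, hge0]
        abel
      · exact hp.isSelfAdjoint.add hgp.isSelfAdjoint
    refine ⟨e + g, add_mem heM hgM, hf, ?_, key (e + g) ?_⟩
    · rw [tr_add hT, hgt, htr]
      push_cast
      ring
    · have h2 : e - (e + g) = -g := by abel
      rw [h2, n2_neg, ap_sqrt hgp hgt, abs_of_nonpos (by linarith)]
      congr 1
      ring

end Pool.Agent.Lib.UPE
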