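import Pool.Agent.Lib.UPE.Defs

/-!
# UPE / Bas (180 lines): the trace and the norm `n2`

PROOF.  `‖a (ξ i)‖ ^ 2 ≤ ‖a‖ ^ 2 * ‖ξ i‖ ^ 2`, so `summable_n2`; then `summable_inner` from
`‖⟪x, y⟫‖ ≤ ‖x‖ * ‖y‖ ≤ (‖x‖^2 + ‖y‖^2) / 2`.  Linearity of `tr`: `Summable.tsum_add`, `tsum_mul_left`.
`tr_star_mul`: `⟪ξ i, (star a * b) (ξ i)⟫ = ⟪a (ξ i), b (ξ i)⟫` (`ContinuousLinearMap.adjoint_inner_right`,
`star a = adjoint a`).  `n2` is the norm of the sequence `i ↦ a (ξ i)` in `lp (fun _ => H) 2`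
(or prove Cauchy-Schwarz and Minkowski for the `tsum` from `Real.inner_le_Lp_mul_Lq_tsum_of_nonneg`,
`Real.Lp_add_le_tsum_of_nonneg'`; the quickest way is the inner product space `lp (fun _ : ℕ => H) 2`,
`lp.norm_rpow_eq_tsum`, `lp.inner_eq_tsum`).  `norm_tr_star_mul_le` is Cauchy-Schwarz there.
`norm_tr_le`: take `a = 1` there, `n2 ξ 1 = 1`.  `n2_mul_le`: `‖(a * b) (ξ i)‖ ≤ ‖a‖ * ‖b (ξ i)‖`.
`n2_star`: `(n2 (star a))^2 = tr (a * star a) = tr (star a * a) = (n2 a)^2` by `h.tracial`.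
`n2_mul_le'`: `n2 (a * b) = n2 (star b * star a) ≤ ‖star b‖ * n2 (star a) = ‖b‖ * n2 a`.
`re_tr_nonneg`: `0 ≤ a` gives `0 ≤ re ⟪ξ i, a (ξ i)⟫` (`ContinuousLinearMap.IsPositive`).  `im_tr`: a
self-adjoint operator has real `⟪ξ i, a (ξ i)⟫`.  `tr_proj`: `p = star p * p`.
-/

set_option autoImplicit false

open Filter Topology

namespace Pool.Agent.Lib.UPE

variable {H : Type*} [NormedAddCommGroup H] [InnerProductSpace ℂ H] [CompleteSpace H]
variable {M : VonNeumannAlgebra H} {ξ : ℕ → H}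

theorem summable_n2 (h : IsTrace M ξ) (a : H →L[ℂ] H) : Summable fun i => ‖a (ξ i)‖ ^ 2 := by
  refine Summable.of_nonneg_of_le (fun i => by positivity) (fun i => ?_) (h.unit.summable.mul_left (‖a‖ ^ 2))
  have h1 := a.le_opNorm (ξ i)
  calc ‖a (ξ i)‖ ^ 2 ≤ (‖a‖ * ‖ξ i‖) ^ 2 := by gcongr
    _ = ‖a‖ ^ 2 * ‖ξ i‖ ^ 2 := by ring

theorem summable_inner (h : IsTrace M ξ) (a b : H →L[ℂ] H) :
    Summable fun i => inner ℂ (a (ξ i)) (b (ξ i)) := by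
  refine Summable.of_norm_bounded (g := fun i => (‖a (ξ i)‖ ^ 2 + ‖b (ξ i)‖ ^ 2))
    ((summable_n2 h a).add (summable_n2 h b)) (fun i => ?_)
  have h1 := norm_inner_le_norm (𝕜 := ℂ) (a (ξ i)) (b (ξ i))
  nlinarith [sq_nonneg (‖a (ξ i)‖ - ‖b (ξ i)‖), sq_nonneg (‖a (ξ i)‖), sq_nonneg (‖b (ξ i)‖)]

theorem tr_add (h : IsTrace M ξ) (a b : H →L[ℂ] H) : tr ξ (a + b) = tr ξ a + tr ξ b := by
  have h1 := summable_inner h 1 a
  have h2 := summable_inner h 1 b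
  simp only [ContinuousLinearMap.one_apply] at h1 h2
  unfold tr
  rw [← h1.tsum_add h2]
  refine tsum_congr fun i => ?_
  rw [ContinuousLinearMap.add_apply, inner_add_right]

theorem tr_sub (h : IsTrace M ξ) (a b : H →L[ℂ] H) : tr ξ (a - b) = tr ξ a - tr ξ b := by
  have h1 := summable_inner h 1 a
  have h2 := summable_inner h 1 b
  simp only [ContinuousLinearMap.one_apply] at h1 h2
  unfold tr
  rw [← h1.tsum_sub h2]
  refine tsum_congr fun i => ?_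
  rw [ContinuousLinearMap.sub_apply, inner_sub_right]

theorem tr_smul (c : ℂ) (a : H →L[ℂ] H) : tr ξ (c • a) = c * tr ξ a := by
  unfold tr
  rw [← tsum_mul_left]
  refine tsum_congr fun i => ?_
  rw [ContinuousLinearMap.smul_apply, inner_smul_right]

theorem tr_sum (h : IsTrace M ξ) {ι : Type*} (s : Finset ι) (f : ι → (H →L[ℂ] H)) :
    tr ξ (∑ i ∈ s, f i) = ∑ i ∈ s, tr ξ (f i) := by
  classical
  induction s using Finset.induction_on with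
  | empty => simp [tr]
  | insert j s hj ih => rw [Finset.sum_insert hj, Finset.sum_insert hj, tr_add h, ih]

theorem tr_one (h : IsTrace M ξ) : tr ξ (1 : H →L[ℂ] H) = 1 := by
  unfold tr
  have h1 : ∀ i, inner ℂ (ξ i) ((1 : H →L[ℂ] H) (ξ i)) = ((‖ξ i‖ ^ 2 : ℝ) : ℂ) := by
    intro i
    rw [ContinuousLinearMap.one_apply, inner_self_eq_norm_sq_to_K]
    push_cast
    rfl
  simp only [h1]
  rw [← Complex.ofReal_tsum, h.unit.tsum_eq]
  simp

theorem tr_zero : tr ξ (0 : H →L[ℂ] H) = 0 := by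
  simp [tr]

theorem tr_star (a : H →L[ℂ] H) : tr ξ (star a) = star (tr ξ a) := by
  unfold tr
  rw [tsum_star]
  refine tsum_congr fun i => ?_
  rw [ContinuousLinearMap.star_eq_adjoint, ContinuousLinearMap.adjoint_inner_right, ← inner_conj_symm]
  rfl

theorem tr_star_mul (a b : H →L[ℂ] H) : tr ξ (star a * b) = ∑' i, inner ℂ (a (ξ i)) (b (ξ i)) := by
  unfold tr
  refine tsum_congr fun i => ?_
  rw [ContinuousLinearMap.mul_apply, ContinuousLinearMap.star_eq_adjoint,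
    ContinuousLinearMap.adjoint_inner_right]

theorem tr_star_mul_self (a : H →L[ℂ] H) : tr ξ (star a * a) = ((n2 ξ a ^ 2 : ℝ) : ℂ) := by
  rw [tr_star_mul]
  have h1 : ∀ i, inner ℂ (a (ξ i)) (a (ξ i)) = ((‖a (ξ i)‖ ^ 2 : ℝ) : ℂ) := by
    intro i
    rw [inner_self_eq_norm_sq_to_K]
    push_cast
    rfl
  simp only [h1]
  rw [← Complex.ofReal_tsum]
  congr 1
  unfold n2
  rw [Real.sq_sqrt]
  exact tsum_nonneg fun i => by positivity

theorem n2_nonneg (a : H →L[ℂ] H) : 0 ≤ n2 ξ a := by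
  exact Real.sqrt_nonneg _

theorem n2_zero : n2 ξ (0 : H →L[ℂ] H) = 0 := by
  simp [n2]

theorem n2_neg (a : H →L[ℂ] H) : n2 ξ (-a) = n2 ξ a := by
  simp [n2]

theorem n2_sub_comm (a b : H →L[ℂ] H) : n2 ξ (a - b) = n2 ξ (b - a) := by
  rw [← n2_neg, neg_sub]

theorem n2_smul (c : ℂ) (a : H →L[ℂ] H) : n2 ξ (c • a) = ‖c‖ * n2 ξ a := by
  unfold n2
  have h1 : ∀ i, ‖(c • a) (ξ i)‖ ^ 2 = ‖c‖ ^ 2 * ‖a (ξ i)‖ ^ 2 := by
    intro i
    rw [ContinuousLinearMap.smul_apply, norm_smul, mul_pow]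
  simp only [h1]
  rw [tsum_mul_left, Real.sqrt_mul (by positivity), Real.sqrt_sq (norm_nonneg c)]

private theorem memlp (h : IsTrace M ξ) (a : H →L[ℂ] H) : Memℓp (fun i => a (ξ i)) 2 := by
  refine memℓp_gen ?_
  have h1 := summable_n2 h a
  refine h1.congr fun i => ?_
  simp

/-- the sequence of the vectors `a (ξ i)` -/
private noncomputable def vc (h : IsTrace M ξ) (a : H →L[ℂ] H) : lp (fun _ : ℕ => H) 2 :=
  ⟨fun i => a (ξ i), memlp h a⟩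

private theorem norm_vc (h : IsTrace M ξ) (a : H →L[ℂ] H) : ‖vc h a‖ = n2 ξ a := by
  have h1 := lp.norm_rpow_eq_tsum (p := 2) (by simp) (vc h a)
  have h3 : ‖vc h a‖ ^ 2 = ∑' i, ‖(vc h a : (i : ℕ) → H) i‖ ^ 2 := by
    simpa using h1
  have h2 : ‖vc h a‖ ^ 2 = ∑' i, ‖a (ξ i)‖ ^ 2 := h3
  unfold n2
  rw [← h2, Real.sqrt_sq (norm_nonneg _)]

private theorem vc_add (h : IsTrace M ξ) (a b : H →L[ℂ] H) : vc h (a + b) = vc h a + vc h b := by
  ext i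
  rfl

theorem n2_add_le (h : IsTrace M ξ) (a b : H →L[ℂ] H) : n2 ξ (a + b) ≤ n2 ξ a + n2 ξ b := by
  rw [← norm_vc h, ← norm_vc h, ← norm_vc h, vc_add]
  exact norm_add_le _ _

theorem n2_sub_le (h : IsTrace M ξ) (a b : H →L[ℂ] H) : n2 ξ (a - b) ≤ n2 ξ a + n2 ξ b := by
  rw [sub_eq_add_neg, ← n2_neg (ξ := ξ) b]
  exact n2_add_le h a (-b)

theorem n2_sub_le_sub (h : IsTrace M ξ) (a b c : H →L[ℂ] H) :
    n2 ξ (a - c) ≤ n2 ξ (a - b) + n2 ξ (b - c) := by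
  have h1 := n2_add_le h (a - b) (b - c)
  rwa [sub_add_sub_cancel] at h1

theorem n2_one (h : IsTrace M ξ) : n2 ξ (1 : H →L[ℂ] H) = 1 := by
  unfold n2
  simp only [ContinuousLinearMap.one_apply]
  rw [h.unit.tsum_eq, Real.sqrt_one]

theorem n2_mul_le (h : IsTrace M ξ) (a b : H →L[ℂ] H) : n2 ξ (a * b) ≤ ‖a‖ * n2 ξ b := by
  unfold n2
  rw [← Real.sqrt_sq (norm_nonneg a), ← Real.sqrt_mul (by positivity)]
  apply Real.sqrt_le_sqrt
  rw [← tsum_mul_left]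
  refine Summable.tsum_le_tsum (fun i => ?_) (summable_n2 h (a * b)) ((summable_n2 h b).mul_left _)
  have h1 := a.le_opNorm (b (ξ i))
  calc ‖(a * b) (ξ i)‖ ^ 2 ≤ (‖a‖ * ‖b (ξ i)‖) ^ 2 := by
        rw [ContinuousLinearMap.mul_apply]
        gcongr
    _ = ‖a‖ ^ 2 * ‖b (ξ i)‖ ^ 2 := by ring

theorem n2_le_norm (h : IsTrace M ξ) (a : H →L[ℂ] H) : n2 ξ a ≤ ‖a‖ := by
  have h1 := n2_mul_le h a 1
  rwa [mul_one, n2_one h, mul_one] at h1

theorem norm_tr_star_mul_le (h : IsTrace M ξ) (a b : H →L[ℂ] H) :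
    ‖tr ξ (star a * b)‖ ≤ n2 ξ a * n2 ξ b := by
  rw [tr_star_mul, ← norm_vc h, ← norm_vc h]
  have h1 : ∑' i, inner ℂ (a (ξ i)) (b (ξ i)) = inner ℂ (vc h a) (vc h b) := by
    rw [lp.inner_eq_tsum]
    rfl
  rw [h1]
  exact norm_inner_le_norm _ _

theorem norm_tr_le (h : IsTrace M ξ) (a : H →L[ℂ] H) : ‖tr ξ a‖ ≤ n2 ξ a := by
  have h1 := norm_tr_star_mul_le h 1 a
  rwa [star_one, one_mul, n2_one h, one_mul] at h1

theorem n2_star (h : IsTrace M ξ) {a : H →L[ℂ] H} (ha : a ∈ M) : n2 ξ (star a) = n2 ξ a := by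
  have h1 : tr ξ (star (star a) * star a) = tr ξ (star a * a) := by
    rw [star_star]
    exact h.tracial a ha (star a) (star_mem ha)
  rw [tr_star_mul_self, tr_star_mul_self] at h1
  have h2 : n2 ξ (star a) ^ 2 = n2 ξ a ^ 2 := by exact_mod_cast h1
  exact (sq_eq_sq₀ (n2_nonneg _) (n2_nonneg _)).1 h2

theorem n2_mul_le' (h : IsTrace M ξ) {a b : H →L[ℂ] H} (ha : a ∈ M) (hb : b ∈ M) :
    n2 ξ (a * b) ≤ n2 ξ a * ‖b‖ := by
  rw [← n2_star h (mul_mem ha hb), star_mul, ← n2_star h ha, ← norm_star b, mul_comm]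
  exact n2_mul_le h (star b) (star a)

theorem eq_zero_of_n2 (h : IsTrace M ξ) {a : H →L[ℂ] H} (ha : a ∈ M) (h0 : n2 ξ a = 0) : a = 0 := by
  apply h.faithful a ha
  rw [tr_star_mul_self, h0]
  simp

theorem re_tr_nonneg {a : H →L[ℂ] H} (ha : 0 ≤ a) : 0 ≤ (tr ξ a).re := by
  unfold tr
  by_cases hs : Summable fun i => inner ℂ (ξ i) (a (ξ i))
  · rw [Complex.re_tsum hs]
    refine tsum_nonneg fun i => ?_
    have h1 : a.IsPositive := (ContinuousLinearMap.nonneg_iff_isPositive a).1 ha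
    exact h1.re_inner_nonneg_right (ξ i)
  · rw [tsum_eq_zero_of_not_summable hs]
    simp

theorem re_tr_mono (h : IsTrace M ξ) {a b : H →L[ℂ] H} (hab : a ≤ b) : (tr ξ a).re ≤ (tr ξ b).re := by
  have h1 := re_tr_nonneg (ξ := ξ) (sub_nonneg.2 hab)
  rw [tr_sub h, Complex.sub_re] at h1
  linarith

theorem im_tr {a : H →L[ℂ] H} (ha : IsSelfAdjoint a) : (tr ξ a).im = 0 := by
  have h1 := tr_star (ξ := ξ) a
  rw [ha.star_eq] at h1
  exact Complex.conj_eq_iff_im.1 h1.symm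

theorem tr_proj {p : H →L[ℂ] H} (hp : IsStarProjection p) : tr ξ p = ((n2 ξ p ^ 2 : ℝ) : ℂ) := by
  have h1 : star p * p = p := by rw [hp.isSelfAdjoint.star_eq]; exact hp.isIdempotentElem
  rw [← tr_star_mul_self, h1]

private theorem norm_proj_le_aux {p : H →L[ℂ] H} (hp : IsStarProjection p) : ‖p‖ ≤ 1 := by
  have h1 : star p * p = p := by rw [hp.isSelfAdjoint.star_eq]; exact hp.isIdempotentElem
  have h2 : ‖p‖ * ‖p‖ = ‖p‖ := by rw [← CStarRing.norm_star_mul_self (x := p), h1]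
  have h3 := norm_nonneg p
  nlinarith

theorem re_tr_proj_mem (h : IsTrace M ξ) {p : H →L[ℂ] H} (hp : IsStarProjection p) :
    0 ≤ (tr ξ p).re ∧ (tr ξ p).re ≤ 1 ∧ tr ξ p = (((tr ξ p).re : ℝ) : ℂ) := by
  have h1 := tr_proj (ξ := ξ) hp
  have h2 := (n2_le_norm h p).trans (norm_proj_le_aux hp)
  have h3 := n2_nonneg (ξ := ξ) p
  have h4 : (tr ξ p).re = n2 ξ p ^ 2 := by rw [h1, Complex.ofReal_re]
  refine ⟨by rw [h4]; positivity, by rw [h4]; nlinarith, ?_⟩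
  rw [h4]
  exact h1

theorem proj_eq_zero (h : IsTrace M ξ) {p : H →L[ℂ] H} (hp : IsStarProjection p) (hM : p ∈ M)
    (h0 : (tr ξ p).re = 0) : p = 0 := by
  have h1 := tr_proj (ξ := ξ) hp
  have h4 : (tr ξ p).re = n2 ξ p ^ 2 := by rw [h1, Complex.ofReal_re]
  rw [h4] at h0
  exact eq_zero_of_n2 h hM (pow_eq_zero_iff (two_ne_zero)|>.1 h0)

theorem tr_conj (h : IsTrace M ξ) {u a : H →L[ℂ] H} (hu : u ∈ M) (ha : a ∈ M) (hu1 : star u * u = 1) :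
    tr ξ (u * a * star u) = tr ξ a := by
  rw [h.tracial (u * a) (mul_mem hu ha) (star u) (star_mem hu), ← mul_assoc, hu1, one_mul]

theorem smul_mem' {a : H →L[ℂ] H} (c : ℂ) (ha : a ∈ M) : c • a ∈ M := by
  exact M.toStarSubalgebra.smul_mem ha c

theorem norm_proj_le {p : H →L[ℂ] H} (hp : IsStarProjection p) : ‖p‖ ≤ 1 := by
  have h1 : star p * p = p := by rw [hp.isSelfAdjoint.star_eq]; exact hp.isIdempotentElem
  have h2 : ‖p‖ * ‖p‖ = ‖p‖ := by rw [← CStarRing.norm_star_mul_self (x := p), h1]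
  have h3 := norm_nonneg p
  nlinarith

end Pool.Agent.Lib.UPE
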