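import Pool.Agent.Lib.UPE.CMP

/-!
# UPE / UC (70 lines): projections with equal trace are unitarily equivalent

PROOF.  `compare` for `p, q`: `v ∈ M`, `star v * v = p`, `q * v = v`.  `v * star v` is a projection below `q` with trace
`tr (v * star v) = tr (star v * v) = tr p = tr q`, so `q - v * star v = 0` (`proj_eq_zero`).  The same for `1 - p`, `1 - q`: `w`,
`star w * w = 1 - p`, `w * star w = 1 - q`.  `u = v + w`: the mixed products vanish (`star v * w = star v * q * (1 - q) * w = 0`,
`v * star w = v * p * (1 - p) * star w = 0`), so `star u * u = 1 = u * star u` and `u * p * star u = v * star v = q`.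
-/

set_option autoImplicit false

open Filter Topology

namespace Pool.Agent.Lib.UPE

variable {H : Type*} [NormedAddCommGroup H] [InnerProductSpace ℂ H] [CompleteSpace H]
variable {M : VonNeumannAlgebra H} {ξ : ℕ → H}

/-- a partial isometry between projections with equal trace -/
private theorem uc_aux (h : IsTrace M ξ) {p q v : H →L[ℂ] H} (hp : IsStarProjection p)
    (hq : IsStarProjection q) (hqM : q ∈ M) (hv : v ∈ M) (h1 : star v * v = p) (h2 : q * v = v)
    (ht : tr ξ p = tr ξ q) : v * p = v ∧ v * star v = q := by
  have hpp : p * p = p := hp.isIdempotentElem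
  have hqq : q * q = q := hq.isIdempotentElem
  have hps : star p = p := hp.isSelfAdjoint
  have hqs : star q = q := hq.isSelfAdjoint
  have h3 : star (v - v * p) * (v - v * p) = 0 := by
    have h4 : star v * (v * p) = p := by rw [← mul_assoc, h1, hpp]
    rw [star_sub, star_mul, hps, sub_mul, mul_sub, mul_sub, h1, h4, mul_assoc, mul_assoc, h1, h4, hpp, sub_self]
  have h5 : v * p = v := (sub_eq_zero.1 ((CStarRing.star_mul_self_eq_zero_iff _).1 h3)).symm
  have h6 : q * (v * star v) = v * star v := by rw [← mul_assoc, h2]
  have h7 : v * star v * (v * star v) = v * star v := by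
    rw [mul_assoc, ← mul_assoc (star v), h1, ← mul_assoc, h5]
  have h8 : star (v * star v) = v * star v := by rw [star_mul, star_star]
  have h9 : v * star v * q = v * star v := by
    have h10 := congrArg star h6
    rw [star_mul, h8, hqs] at h10
    exact h10
  have h11 : IsStarProjection (q - v * star v) := by
    refine ⟨?_, ?_⟩
    · show (q - v * star v) * (q - v * star v) = q - v * star v
      rw [sub_mul, mul_sub, mul_sub, hqq, h6, h9, h7, sub_self, sub_zero]
    · show star (q - v * star v) = q - v * star v
      rw [star_sub, h8, hqs]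
  have h12 : (tr ξ (q - v * star v)).re = 0 := by
    rw [tr_sub h, h.tracial v hv (star v) (star_mem hv), h1, ht, sub_self, Complex.zero_re]
  have h13 := proj_eq_zero h h11 (sub_mem hqM (mul_mem hv (star_mem hv))) h12
  exact ⟨h5, (sub_eq_zero.1 h13).symm⟩

theorem exists_unitary (h : IsIIOne M ξ) {p q : H →L[ℂ] H} (hp : IsStarProjection p)
    (hq : IsStarProjection q) (hpM : p ∈ M) (hqM : q ∈ M) (ht : tr ξ p = tr ξ q) :
    ∃ u ∈ M, star u * u = 1 ∧ u * star u = 1 ∧ u * p * star u = q := by
  have hT : IsTrace M ξ := h.toIsTrace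
  have hpp : p * p = p := hp.isIdempotentElem
  have hqq : q * q = q := hq.isIdempotentElem
  have hps : star p = p := hp.isSelfAdjoint
  have hqs : star q = q := hq.isSelfAdjoint
  have hp' : IsStarProjection (1 - p) := hp.one_sub
  have hq' : IsStarProjection (1 - q) := hq.one_sub
  have hpM' : 1 - p ∈ M := sub_mem (one_mem M) hpM
  have hqM' : 1 - q ∈ M := sub_mem (one_mem M) hqM
  have ht' : tr ξ (1 - p) = tr ξ (1 - q) := by rw [tr_sub hT, tr_sub hT, ht]
  obtain ⟨v, hv, h1, h2⟩ := compare h hp hq hpM hqM (by rw [ht])
  obtain ⟨w, hw, h3, h4⟩ := compare h hp' hq' hpM' hqM' (by rw [ht'])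
  obtain ⟨h5, h6⟩ := uc_aux hT hp hq hqM hv h1 h2 ht
  obtain ⟨h7, h8⟩ := uc_aux hT hp' hq' hqM' hw h3 h4 ht'
  have h9 : star v * w = 0 := by
    have h10 : star v = star v * q := by
      have h11 := congrArg star h2
      rw [star_mul, hqs] at h11
      exact h11.symm
    have h12 : q * w = 0 := by
      rw [← h4, ← mul_assoc, mul_sub, mul_one, hqq, sub_self, zero_mul]
    rw [h10, mul_assoc, h12, mul_zero]
  have h10 : star w * v = 0 := by
    have h11 := congrArg star h9
    rw [star_mul, star_star, star_zero] at h11
    exact h11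
  have h11 : w * p = 0 := by
    rw [← h7, mul_assoc, sub_mul, one_mul, hpp, sub_self, mul_zero]
  have h12 : p * star w = 0 := by
    have h13 := congrArg star h11
    rw [star_mul, hps, star_zero] at h13
    exact h13
  have h13 : v * star w = 0 := by
    rw [← h5, mul_assoc, h12, mul_zero]
  have h14 : w * star v = 0 := by
    have h15 := congrArg star h13
    rw [star_mul, star_star, star_zero] at h15
    exact h15
  refine ⟨v + w, add_mem hv hw, ?_, ?_, ?_⟩
  · rw [star_add, add_mul, mul_add, mul_add, h1, h9, h10, h3, add_zero, zero_add, add_sub_cancel]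
  · rw [star_add, add_mul, mul_add, mul_add, h6, h13, h14, h8, add_zero, zero_add, add_sub_cancel]
  · rw [add_mul, h5, h11, add_zero, star_add, mul_add, h6, h13, add_zero]

end Pool.Agent.Lib.UPE
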