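import Pool.Agent.Lib.UPE.CDefs
import Pool.Agent.Lib.UPE.UC
import Pool.Agent.Lib.UPE.AP

/-!
# UPE / CCA (180 lines): a corner embeds in the ultrapower of a smaller corner

PROOF.  `t = (tr r).re / (tr p).re ∈ (0, 1]` (`proj_eq_zero`, `re_tr_proj_mem`).  `exists_trace` with `q = 1`: a projection `e ∈ M` with
`tr e = t` (so `e ≠ 0`); `hall e`: `Θ` on `M.toStarSubalgebra` with values in `e M e`, `trace`: `tr (Θ a n) → t * tr a`.
Extend to `T a n = if h : a ∈ M then Θ ⟨a, h⟩ n else 0`.  `x n = (1/2) • (T p n + star (T p n))`: self-adjoint, in `M`, bounded,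
`Null (x n - T p n)` (`star_`, `p = star p`), `Null (x n * x n - x n)` (`mul` for `p * p = p`), `tr (x n) → t * tr p = tr r`.
`near_proj` (with `s = (tr r).re`): projections `f n ∈ M`, `tr (f n) = tr r`, `n2 (x n - f n) → 0` along `U`.  So `Null (T p n - f n)`.
`exists_unitary`: `u n ∈ M` unitary with `u n * f n * star (u n) = r`, so `r * u n = u n * f n`.
Put `Ψ a n = u n * f n * T a n * f n * star (u n)`.
`mem`: `r * Ψ a n * r = Ψ a n` (`r * u n * f n = u n * f n * f n`).  `bdd` clear (`‖u n‖ ≤ 1`, `‖f n‖ ≤ 1`).  `add`, `smul`, `star_`: conjugates of those of `T`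
(`n2_mul_le`, `n2_mul_le'`).  For `a ∈ p M p`: (*) `Null (f n * T a n - T a n)`: `f n ≈ T p n`, `T p n * T a n ≈ T (p * a) n = T a n`; also
`Null (T a n * f n - T a n)`.  `mul`: `Ψ a n * Ψ b n = u f T a f T b f u*` (as `star u * u = 1`, `f f = f`), and
`f T a f T b f - f (T a T b) f = f T a (f T b - T b) f` is null, `f (T (a b) - T a T b) f` is null.
`trace`: `tr (Ψ a n) = tr (f n * T a n * f n)` (`tr_conj`) `≈ tr (T a n) → t * tr a = tr r / tr p * tr a`.  `unit`: `Ψ p n - r =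
u n * (f n * T p n * f n - f n * f n * f n) * star (u n)` is null.
-/

set_option autoImplicit false

open Filter Topology

namespace Pool.Agent.Lib.UPE

variable {H : Type*} [NormedAddCommGroup H] [InnerProductSpace ℂ H] [CompleteSpace H]
variable {M : VonNeumannAlgebra H} {ξ : ℕ → H}

private theorem ca_le {U : Ultrafilter ℕ} {x : ℕ → (H →L[ℂ] H)} {F : ℕ → ℝ} (hF : Tendsto F U (𝓝 0))
    (h : ∀ n, n2 ξ (x n) ≤ F n) : Null ξ U x := squeeze_zero (fun _ => n2_nonneg _) h hF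

private theorem ca_add (h : IsTrace M ξ) {U : Ultrafilter ℕ} {x y : ℕ → (H →L[ℂ] H)} (hx : Null ξ U x) (hy : Null ξ U y) :
    Null ξ U fun n => x n + y n := by
  have h1 := Tendsto.add hx hy
  rw [add_zero] at h1
  exact ca_le h1 fun n => n2_add_le h _ _

private theorem ca_smul {U : Ultrafilter ℕ} {x : ℕ → (H →L[ℂ] H)} (c : ℂ) (hx : Null ξ U x) :
    Null ξ U fun n => c • x n := by
  have h1 := Tendsto.const_mul ‖c‖ hx
  rw [mul_zero] at h1
  exact ca_le h1 fun n => (n2_smul c (x n)).le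

private theorem ca_neg {U : Ultrafilter ℕ} {x : ℕ → (H →L[ℂ] H)} (hx : Null ξ U x) : Null ξ U fun n => - x n :=
  ca_le hx fun n => (n2_neg (x n)).le

private theorem ca_eq {U : Ultrafilter ℕ} {x y : ℕ → (H →L[ℂ] H)} (hx : Null ξ U x) (h : ∀ n, y n = x n) : Null ξ U y :=
  ca_le hx fun n => by rw [h]

private theorem ca_mulL (h : IsTrace M ξ) {U : Ultrafilter ℕ} {x b : ℕ → (H →L[ℂ] H)} (hx : Null ξ U x) {C : ℝ}
    (hb : ∀ n, ‖b n‖ ≤ C) : Null ξ U fun n => b n * x n := by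
  have h1 := Tendsto.const_mul C hx
  rw [mul_zero] at h1
  exact ca_le h1 fun n => (n2_mul_le h _ _).trans (mul_le_mul_of_nonneg_right (hb n) (n2_nonneg _))

private theorem ca_mulR (h : IsTrace M ξ) {U : Ultrafilter ℕ} {x b : ℕ → (H →L[ℂ] H)} (hx : Null ξ U x)
    (hxM : ∀ n, x n ∈ M) (hbM : ∀ n, b n ∈ M) {C : ℝ} (hb : ∀ n, ‖b n‖ ≤ C) : Null ξ U fun n => x n * b n := by
  have h1 := Tendsto.mul_const C hx
  rw [zero_mul] at h1
  exact ca_le h1 fun n => (n2_mul_le' h (hxM n) (hbM n)).trans (mul_le_mul_of_nonneg_left (hb n) (n2_nonneg _))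

/-- the values of the trace -/
private theorem ca_tr (h : IsTrace M ξ) {U : Ultrafilter ℕ} {x y : ℕ → (H →L[ℂ] H)} (hx : Null ξ U fun n => y n - x n) {c : ℂ}
    (hc : Tendsto (fun n => tr ξ (x n)) U (𝓝 c)) : Tendsto (fun n => tr ξ (y n)) U (𝓝 c) := by
  have h1 : Tendsto (fun n => tr ξ (y n - x n)) U (𝓝 0) := by
    rw [tendsto_zero_iff_norm_tendsto_zero]
    exact squeeze_zero (fun _ => norm_nonneg _) (fun n => norm_tr_le h _) hx
  have h2 := hc.add h1
  rw [add_zero] at h2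
  refine h2.congr fun n => ?_
  rw [tr_sub h]
  ring

private theorem ca_unorm {u : H →L[ℂ] H} (hu : star u * u = 1) : ‖u‖ ≤ 1 := by
  have h1 := CStarRing.norm_star_mul_self (x := u)
  rw [hu] at h1
  have h2 : ‖(1 : H →L[ℂ] H)‖ ≤ 1 := ContinuousLinearMap.norm_id_le
  nlinarith [norm_nonneg u]

/-- the total form of an embedding -/
private theorem ca_ext {U : Ultrafilter ℕ} {c : ℂ} {Θ : M.toStarSubalgebra → ℕ → (H →L[ℂ] H)}
    (hE : IsEmb M ξ U (fun a : M.toStarSubalgebra => c * tr ξ (a : H →L[ℂ] H)) Θ) :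
    ∃ T : (H →L[ℂ] H) → ℕ → (H →L[ℂ] H), (∀ a ∈ M, ∀ n, T a n ∈ M) ∧ (∀ a ∈ M, ∃ C : ℝ, ∀ n, ‖T a n‖ ≤ C) ∧
      (∀ a ∈ M, ∀ b ∈ M, Null ξ U fun n => T (a + b) n - (T a n + T b n)) ∧
      (∀ z : ℂ, ∀ a ∈ M, Null ξ U fun n => T (z • a) n - z • T a n) ∧
      (∀ a ∈ M, ∀ b ∈ M, Null ξ U fun n => T (a * b) n - T a n * T b n) ∧
      (∀ a ∈ M, Null ξ U fun n => T (star a) n - star (T a n)) ∧
      (∀ a ∈ M, Tendsto (fun n => tr ξ (T a n)) U (𝓝 (c * tr ξ a))) := by
  classical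
  obtain ⟨T, hT⟩ : ∃ T : (H →L[ℂ] H) → ℕ → (H →L[ℂ] H), ∀ (a : H →L[ℂ] H) (ha : a ∈ M) (n : ℕ), T a n = Θ ⟨a, ha⟩ n :=
    ⟨fun a n => if h : a ∈ M then Θ ⟨a, h⟩ n else 0, fun a ha n => dif_pos ha⟩
  refine ⟨T, ?_, ?_, ?_, ?_, ?_, ?_, ?_⟩
  · intro a ha n
    rw [hT a ha]
    exact hE.mem _ n
  · intro a ha
    obtain ⟨C, hC⟩ := hE.bdd ⟨a, ha⟩
    refine ⟨C, fun n => ?_⟩
    rw [hT a ha]
    exact hC n
  · intro a ha b hb
    refine ca_eq (hE.add ⟨a, ha⟩ ⟨b, hb⟩) fun n => ?_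
    rw [hT a ha, hT b hb, hT _ (add_mem ha hb)]
    rfl
  · intro z a ha
    refine ca_eq (hE.smul z ⟨a, ha⟩) fun n => ?_
    rw [hT a ha, hT _ (smul_mem' z ha)]
    rfl
  · intro a ha b hb
    refine ca_eq (hE.mul ⟨a, ha⟩ ⟨b, hb⟩) fun n => ?_
    rw [hT a ha, hT b hb, hT _ (mul_mem ha hb)]
    rfl
  · intro a ha
    refine ca_eq (hE.star_ ⟨a, ha⟩) fun n => ?_
    rw [hT a ha, hT _ (star_mem ha)]
    rfl
  · intro a ha
    refine (hE.trace ⟨a, ha⟩).congr fun n => ?_
    rw [hT a ha]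

theorem cc_small (h : IsIIOne M ξ) {U : Ultrafilter ℕ}
    (hall : ∀ e ∈ M, IsStarProjection e → e ≠ 0 → CornerEmb M ξ U e) {p r : H →L[ℂ] H}
    (hp : IsStarProjection p) (hr : IsStarProjection r) (hpM : p ∈ M) (hrM : r ∈ M) (hp0 : p ≠ 0) (hr0 : r ≠ 0)
    (hle : (tr ξ r).re ≤ (tr ξ p).re) : CCEmb M ξ U p r := by
  have hT : IsTrace M ξ := h.toIsTrace
  have hpp : p * p = p := hp.isIdempotentElem
  have hps : star p = p := hp.isSelfAdjoint
  obtain ⟨hp1, -, hp3⟩ := re_tr_proj_mem hT hp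
  obtain ⟨hr1, hr2, hr3⟩ := re_tr_proj_mem hT hr
  have hppos : 0 < (tr ξ p).re := lt_of_le_of_ne hp1 fun h0 => hp0 (proj_eq_zero hT hp hpM h0.symm)
  have hrpos : 0 < (tr ξ r).re := lt_of_le_of_ne hr1 fun h0 => hr0 (proj_eq_zero hT hr hrM h0.symm)
  -- the projection `e`
  have ht0 : 0 < (tr ξ r).re / (tr ξ p).re := div_pos hrpos hppos
  have ht1 : (tr ξ r).re / (tr ξ p).re ≤ (tr ξ (1 : H →L[ℂ] H)).re := by
    rw [tr_one hT, Complex.one_re, div_le_one hppos]
    exact hle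
  obtain ⟨e, heM, he, -, hte⟩ := exists_trace h (q := 1) (IsStarProjection.one _) (one_mem M) ht0.le ht1
  have he0 : e ≠ 0 := by
    rintro rfl
    rw [tr_zero] at hte
    have h1 : (tr ξ r).re / (tr ξ p).re = 0 := by exact_mod_cast hte.symm
    exact ht0.ne' h1
  have hte' : tr ξ e = tr ξ r / tr ξ p := by
    rw [hte, hr3, hp3, Complex.ofReal_div, Complex.ofReal_re, Complex.ofReal_re]
  obtain ⟨Θ, hE, -, -⟩ := hall e heM he he0
  obtain ⟨T, Tmem, Tbdd, Tadd, Tsmul, Tmul, Tstar, Ttr⟩ := ca_ext hE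
  rw [hte'] at Ttr
  have hp0' : tr ξ p ≠ 0 := by
    intro h0
    rw [h0, Complex.zero_re] at hppos
    exact lt_irrefl _ hppos
  -- the self-adjoint sequence
  obtain ⟨C, hC⟩ := Tbdd p hpM
  have hA1 : Null ξ U fun n => T p n - star (T p n) := by
    have h1 := Tstar p hpM
    rw [hps] at h1
    exact h1
  have hA2 : Null ξ U fun n => T p n - T p n * T p n := by
    have h1 := Tmul p hpM p hpM
    rw [hpp] at h1
    exact h1
  obtain ⟨x, hx⟩ : ∃ x : ℕ → (H →L[ℂ] H), x = fun n => (1 / 2 : ℂ) • (T p n + star (T p n)) := ⟨_, rfl⟩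
  have hxM : ∀ n, x n ∈ M := by
    intro n
    rw [hx]
    exact smul_mem' _ (add_mem (Tmem p hpM n) (star_mem (Tmem p hpM n)))
  have hxs : ∀ n, IsSelfAdjoint (x n) := by
    intro n
    rw [hx]
    show star ((1 / 2 : ℂ) • (T p n + star (T p n))) = (1 / 2 : ℂ) • (T p n + star (T p n))
    have h1 : star (1 / 2 : ℂ) = 1 / 2 := by
      rw [Complex.star_def, map_div₀, map_one]
      congr 1
      exact Complex.conj_ofNat 2
    rw [star_smul, h1, star_add, star_star, add_comm]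
  have hxb : ∀ n, ‖x n‖ ≤ C := by
    intro n
    rw [hx]
    have h1 : ‖T p n + star (T p n)‖ ≤ C + C := (norm_add_le _ _).trans (by
      rw [norm_star]
      exact add_le_add (hC n) (hC n))
    have h2 : ‖(1 / 2 : ℂ) • (T p n + star (T p n))‖ = 1 / 2 * ‖T p n + star (T p n)‖ := by
      rw [norm_smul]
      norm_num
    show ‖(1 / 2 : ℂ) • (T p n + star (T p n))‖ ≤ C
    rw [h2]
    linarith
  have hxA : Null ξ U fun n => x n - T p n := by
    refine ca_eq (ca_smul (-1 / 2 : ℂ) hA1) fun n => ?_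
    rw [hx]
    show (1 / 2 : ℂ) • (T p n + star (T p n)) - T p n = (-1 / 2 : ℂ) • (T p n - star (T p n))
    module
  have hxx : Null ξ U fun n => x n * x n - x n := by
    have h1 := ca_mulL hT hxA hxb
    have h2 := ca_mulR hT hxA (fun n => sub_mem (hxM n) (Tmem p hpM n)) (fun n => Tmem p hpM n) hC
    have h3 := ca_add hT (ca_add hT h1 h2) (ca_add hT (ca_neg hA2) (ca_neg hxA))
    refine ca_eq h3 fun n => ?_
    noncomm_ring
  have hxt : Tendsto (fun n => tr ξ (x n)) U (𝓝 (tr ξ r)) := by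
    have h1 := ca_tr hT hxA (Ttr p hpM)
    rw [div_mul_cancel₀ _ hp0'] at h1
    exact h1
  -- the projections `f n`
  have hnear := fun n => near_proj h (hxM n) (hxs n) hr1 hr2
  choose f hfM hf hft hfn using hnear
  have hfx : Null ξ U fun n => x n - f n := by
    refine ca_le ?_ hfn
    have h1 : Tendsto (fun n => ‖tr ξ (x n) - (((tr ξ r).re : ℝ) : ℂ)‖) U (𝓝 0) := by
      rw [← hr3]
      exact tendsto_iff_norm_sub_tendsto_zero.1 hxt
    have h2 : Tendsto (fun n => 2 * n2 ξ (x n * x n - x n)) U (𝓝 0) := by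
      have h3 := Tendsto.const_mul 2 hxx
      rw [mul_zero] at h3
      exact h3
    have h3 := h1.add h2
    rw [add_zero] at h3
    have h4 := (Real.continuous_sqrt.tendsto 0).comp h3
    rw [Real.sqrt_zero] at h4
    have h5 := h2.add h4
    rw [add_zero] at h5
    exact h5
  have hff : ∀ n, f n * f n = f n := fun n => (hf n).isIdempotentElem
  have hfs : ∀ n, star (f n) = f n := fun n => (hf n).isSelfAdjoint
  have hfb : ∀ n, ‖f n‖ ≤ 1 := fun n => norm_proj_le (hf n)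
  have hfT : Null ξ U fun n => f n - T p n := by
    refine ca_eq (ca_add hT (ca_neg hfx) hxA) fun n => ?_
    abel
  -- the unitaries
  have hun := fun n => exists_unitary h (hf n) hr (hfM n) hrM ((hft n).trans hr3.symm)
  choose u huM hu1 hu2 hu3 using hun
  have hub : ∀ n, ‖u n‖ ≤ 1 := fun n => ca_unorm (hu1 n)
  have hsub : ∀ n, ‖star (u n)‖ ≤ 1 := fun n => by
    rw [norm_star]
    exact hub n
  obtain ⟨K, hK⟩ : ∃ K : ℕ → (H →L[ℂ] H) → (H →L[ℂ] H), K = fun n y => u n * (f n * y * f n) * star (u n) := ⟨_, rfl⟩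
  have hKd : ∀ n y, K n y = u n * (f n * y * f n) * star (u n) := fun n y => by rw [hK]
  have hKM : ∀ n, ∀ y ∈ M, K n y ∈ M := fun n y hy => by
    rw [hKd]
    exact mul_mem (mul_mem (huM n) (mul_mem (mul_mem (hfM n) hy) (hfM n))) (star_mem (huM n))
  have hKn : ∀ {y : ℕ → (H →L[ℂ] H)}, (∀ n, y n ∈ M) → Null ξ U y → Null ξ U fun n => K n (y n) := by
    intro y hyM hy
    have h1 := ca_mulL hT hy hfb
    have h2 := ca_mulR hT h1 (fun n => mul_mem (hfM n) (hyM n)) hfM hfb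
    have h3 := ca_mulL hT h2 hub
    have h4 := ca_mulR hT h3 (fun n => mul_mem (huM n) (mul_mem (mul_mem (hfM n) (hyM n)) (hfM n)))
      (fun n => star_mem (huM n)) hsub
    exact ca_eq h4 fun n => hKd _ _
  have hcorner : ∀ a ∈ corner M p, a ∈ M ∧ p * a = a ∧ a * p = a := by
    rintro a ⟨haM, ha⟩
    refine ⟨haM, ?_, ?_⟩
    · calc p * a = p * (p * a * p) := by rw [ha]
        _ = (p * p) * a * p := by noncomm_ring
        _ = a := by rw [hpp, ha]
    · calc a * p = (p * a * p) * p := by rw [ha]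
        _ = p * a * (p * p) := by noncomm_ring
        _ = a := by rw [hpp, ha]
  have hL : ∀ a ∈ corner M p, Null ξ U fun n => f n * T a n - T a n := by
    intro a ha
    obtain ⟨haM, ha1, -⟩ := hcorner a ha
    obtain ⟨D, hD⟩ := Tbdd a haM
    have h1 := ca_mulR hT hfT (fun n => sub_mem (hfM n) (Tmem p hpM n)) (fun n => Tmem a haM n) hD
    have h2 := Tmul p hpM a haM
    rw [ha1] at h2
    refine ca_eq (ca_add hT h1 (ca_neg h2)) fun n => ?_
    noncomm_ring
  have hR : ∀ a ∈ corner M p, Null ξ U fun n => T a n * f n - T a n := by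
    intro a ha
    obtain ⟨haM, -, ha1⟩ := hcorner a ha
    obtain ⟨D, hD⟩ := Tbdd a haM
    have h1 := ca_mulL hT hfT hD
    have h2 := Tmul a haM p hpM
    rw [ha1] at h2
    refine ca_eq (ca_add hT h1 (ca_neg h2)) fun n => ?_
    noncomm_ring
  have hru : ∀ n, r * u n = u n * f n := fun n => by
    rw [← hu3 n, mul_assoc, hu1, mul_one]
  have hur : ∀ n, star (u n) * r = f n * star (u n) := fun n => by
    rw [← hu3 n, ← mul_assoc, ← mul_assoc, hu1, one_mul]
  have hrr : ∀ n y, r * K n y * r = K n y := fun n y => by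
    rw [hKd]
    calc r * (u n * (f n * y * f n) * star (u n)) * r = (r * u n) * (f n * y * f n) * (star (u n) * r) := by noncomm_ring
      _ = (u n * f n) * (f n * y * f n) * (f n * star (u n)) := by rw [hru, hur]
      _ = u n * ((f n * f n) * y * (f n * f n)) * star (u n) := by noncomm_ring
      _ = _ := by rw [hff]
  refine ⟨fun a n => K n (T a n), ?_, ?_, ?_, ?_, ?_, ?_, ?_, ?_⟩
  · intro a ha n
    exact ⟨hKM n _ (Tmem a ha.1 n), hrr n _⟩
  · intro a ha
    obtain ⟨D, hD⟩ := Tbdd a ha.1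
    refine ⟨D, fun n => ?_⟩
    have hD0 : 0 ≤ D := (norm_nonneg _).trans (hD n)
    show ‖K n (T a n)‖ ≤ D
    rw [hKd]
    have h1 : ‖f n * T a n * f n‖ ≤ D := by
      refine (norm_mul_le _ _).trans ?_
      have h2 : ‖f n * T a n‖ ≤ D := by
        refine (norm_mul_le _ _).trans ?_
        have := mul_le_mul (hfb n) (hD n) (norm_nonneg _) zero_le_one
        linarith
      have := mul_le_mul h2 (hfb n) (norm_nonneg _) hD0
      linarith
    refine (norm_mul_le _ _).trans ?_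
    have h2 : ‖u n * (f n * T a n * f n)‖ ≤ D := by
      refine (norm_mul_le _ _).trans ?_
      have := mul_le_mul (hub n) h1 (norm_nonneg _) zero_le_one
      linarith
    have := mul_le_mul h2 (hsub n) (norm_nonneg _) hD0
    linarith
  · intro a ha b hb
    refine ca_eq (hKn (fun n => sub_mem (Tmem _ (add_mem ha.1 hb.1) n) (add_mem (Tmem a ha.1 n) (Tmem b hb.1 n)))
      (Tadd a ha.1 b hb.1)) fun n => ?_
    simp only [hKd]
    noncomm_ring
  · intro c a ha
    refine ca_eq (hKn (fun n => sub_mem (Tmem _ (smul_mem' c ha.1) n) (smul_mem' c (Tmem a ha.1 n))) (Tsmul c a ha.1)) fun n => ?_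
    simp only [hKd, mul_sub, sub_mul, mul_smul_comm, smul_mul_assoc]
  · intro a ha b hb
    obtain ⟨D, hD⟩ := Tbdd a ha.1
    have h1 := ca_mulL hT (hL b hb) hD
    have h2 := ca_add hT (Tmul a ha.1 b hb.1) (ca_neg h1)
    have h3 : Null ξ U fun n => T (a * b) n - T a n * f n * T b n := by
      refine ca_eq h2 fun n => ?_
      noncomm_ring
    refine ca_eq (hKn (fun n => sub_mem (Tmem _ (mul_mem ha.1 hb.1) n)
      (mul_mem (mul_mem (Tmem a ha.1 n) (hfM n)) (Tmem b hb.1 n))) h3) fun n => ?_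
    have h4 : K n (T a n) * K n (T b n) = K n (T a n * f n * T b n) := by
      simp only [hKd]
      calc u n * (f n * T a n * f n) * star (u n) * (u n * (f n * T b n * f n) * star (u n))
          = u n * (f n * T a n * f n) * (star (u n) * u n) * (f n * T b n * f n) * star (u n) := by noncomm_ring
        _ = u n * (f n * T a n * (f n * f n) * T b n * f n) * star (u n) := by rw [hu1]; noncomm_ring
        _ = _ := by rw [hff]; noncomm_ring
    show K n (T (a * b) n) - K n (T a n) * K n (T b n) = K n (T (a * b) n - T a n * f n * T b n)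
    rw [h4]
    simp only [hKd]
    noncomm_ring
  · intro a ha
    refine ca_eq (hKn (fun n => sub_mem (Tmem _ (star_mem ha.1) n) (star_mem (Tmem a ha.1 n))) (Tstar a ha.1)) fun n => ?_
    simp only [hKd, star_mul, star_star, hfs]
    noncomm_ring
  · have h1 : Null ξ U fun n => T p n - f n := by
      refine ca_eq (ca_neg hfT) fun n => ?_
      abel
    refine ca_eq (hKn (fun n => sub_mem (Tmem p hpM n) (hfM n)) h1) fun n => ?_
    have h2 : K n (f n) = r := by
      rw [hKd, hff, hff]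
      exact hu3 n
    show K n (T p n) - r = K n (T p n - f n)
    rw [← h2]
    simp only [hKd]
    noncomm_ring
  · intro a ha
    have h1 : ∀ n, tr ξ (K n (T a n)) = tr ξ (f n * T a n * f n) := fun n => by
      rw [hKd]
      exact tr_conj hT (huM n) (mul_mem (mul_mem (hfM n) (Tmem a ha.1 n)) (hfM n)) (hu1 n)
    have h2 := ca_mulR hT (hL a ha) (fun n => sub_mem (mul_mem (hfM n) (Tmem a ha.1 n)) (Tmem a ha.1 n)) hfM hfb
    have h3 : Null ξ U fun n => f n * T a n * f n - T a n := by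
      refine ca_eq (ca_add hT h2 (hR a ha)) fun n => ?_
      noncomm_ring
    refine (ca_tr hT h3 (Ttr a ha.1)).congr fun n => ?_
    exact (h1 n).symm

end Pool.Agent.Lib.UPE
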