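import Pool.Agent.Lib.UPE.CCA

/-!
# UPE / CCB (120 lines): all corners embed in the ultrapowers of each other

PROOF.  `cc_sum`: `Θ a n = Θ₁ a n + Θ₂ a n`; the mixed products vanish (`Θ₁ a n = r Θ₁ a n r`, `Θ₂ b n = r' Θ₂ b n r'`, `r * r' = 0 = r' * r`), so
all clauses add up; `(r + r') * Θ a n * (r + r') = Θ a n`; trace `tr r / tr p * tr a + tr r' / tr p * tr a`.
`cc_all`: for all `k ≥ 1` and all non-zero projections `r ∈ M` with `(tr r).re ≤ k * (tr p).re`: induction on `k`.  If
`(tr r).re ≤ (tr p).re`: `cc_small`.  Otherwise `exists_trace` with `q = r`, `s = (tr p).re` gives a projection `r1 ∈ M`, `r1 * r = r1`,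
`tr r1 = tr p`; `r2 = r - r1` is a projection in `M` with `(tr r2).re = (tr r).re - (tr p).re ∈ (0, (k - 1) (tr p).re]`, `r1 * r2 = 0 = r2 * r1`; use
`cc_small` for `r1`, the induction for `r2`, and `cc_sum`.  (`(tr p).re > 0` by `proj_eq_zero`, so `k` exists.)
`cc_one`: restrict `Θ` to `M.toStarSubalgebra`; `corner M 1 = M`, `tr 1 = 1`.
-/

set_option autoImplicit false

open Filter Topology

namespace Pool.Agent.Lib.UPE

variable {H : Type*} [NormedAddCommGroup H] [InnerProductSpace ℂ H] [CompleteSpace H]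
variable {M : VonNeumannAlgebra H} {ξ : ℕ → H}

private theorem null_add' (h : IsTrace M ξ) {U : Ultrafilter ℕ} {x y : ℕ → (H →L[ℂ] H)} (hx : Null ξ U x)
    (hy : Null ξ U y) : Null ξ U fun n => x n + y n := by
  unfold Null at hx hy ⊢
  have h1 := hx.add hy
  rw [add_zero] at h1
  exact squeeze_zero (fun n => n2_nonneg _) (fun n => n2_add_le h _ _) h1

private theorem null_congr' {U : Ultrafilter ℕ} {x y : ℕ → (H →L[ℂ] H)} (hx : Null ξ U x)
    (hxy : ∀ n, y n = x n) : Null ξ U y := by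
  rwa [show y = x from funext hxy]

private theorem cc_sides {r x : H →L[ℂ] H} (hr : IsStarProjection r) (hx : r * x * r = x) :
    r * x = x ∧ x * r = x := by
  have hrr : r * r = r := hr.isIdempotentElem
  constructor
  · calc r * x = r * (r * x * r) := by rw [hx]
      _ = r * r * x * r := by simp only [mul_assoc]
      _ = x := by rw [hrr, hx]
  · calc x * r = r * x * r * r := by rw [hx]
      _ = r * x * (r * r) := by simp only [mul_assoc]
      _ = x := by rw [hrr, hx]

private theorem cc_cross {r r' x y : H →L[ℂ] H} (hr : IsStarProjection r) (hr' : IsStarProjection r')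
    (h0 : r * r' = 0) (hx : r * x * r = x) (hy : r' * y * r' = y) : x * y = 0 := by
  have h1 := (cc_sides hr hx).2
  have h2 := (cc_sides hr' hy).1
  calc x * y = x * r * (r' * y) := by rw [h1, h2]
    _ = x * (r * r') * y := by simp only [mul_assoc]
    _ = 0 := by rw [h0, mul_zero, zero_mul]

theorem cc_sum (h : IsTrace M ξ) {U : Ultrafilter ℕ} {p r r' : H →L[ℂ] H} (hr : IsStarProjection r)
    (hr' : IsStarProjection r') (h0 : r * r' = 0) (h0' : r' * r = 0) (h1 : CCEmb M ξ U p r)
    (h2 : CCEmb M ξ U p r') : CCEmb M ξ U p (r + r') := by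
  obtain ⟨A, hA⟩ := h1
  obtain ⟨B, hB⟩ := h2
  refine ⟨fun a n => A a n + B a n, ?_, ?_, ?_, ?_, ?_, ?_, ?_, ?_⟩
  · intro a ha n
    obtain ⟨hxM, hx⟩ := hA.mem a ha n
    obtain ⟨hyM, hy⟩ := hB.mem a ha n
    refine ⟨add_mem hxM hyM, ?_⟩
    obtain ⟨hx1, hx2⟩ := cc_sides hr hx
    obtain ⟨hy1, hy2⟩ := cc_sides hr' hy
    have e1 : r * B a n = 0 := by rw [← hy1, ← mul_assoc, h0, zero_mul]
    have e2 : r' * A a n = 0 := by rw [← hx1, ← mul_assoc, h0', zero_mul]
    have e3 : B a n * r = 0 := by rw [← hy2, mul_assoc, h0', mul_zero]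
    have e4 : A a n * r' = 0 := by rw [← hx2, mul_assoc, h0, mul_zero]
    have e5 : (r + r') * (A a n + B a n) = A a n + B a n := by
      rw [add_mul, mul_add, mul_add, hx1, e1, e2, hy1, add_zero, zero_add]
    rw [e5, mul_add, add_mul, add_mul, hx2, e3, e4, hy2, add_zero, zero_add]
  · intro a ha
    obtain ⟨C, hC⟩ := hA.bdd a ha
    obtain ⟨D, hD⟩ := hB.bdd a ha
    exact ⟨C + D, fun n => (norm_add_le _ _).trans (add_le_add (hC n) (hD n))⟩
  · intro a ha b hb
    refine null_congr' (null_add' h (hA.add a ha b hb) (hB.add a ha b hb)) (fun n => ?_)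
    abel
  · intro c a ha
    refine null_congr' (null_add' h (hA.smul c a ha) (hB.smul c a ha)) (fun n => ?_)
    rw [smul_add]
    abel
  · intro a ha b hb
    refine null_congr' (null_add' h (hA.mul a ha b hb) (hB.mul a ha b hb)) (fun n => ?_)
    have e1 := cc_cross hr hr' h0 (hA.mem a ha n).2 (hB.mem b hb n).2
    have e2 := cc_cross hr' hr h0' (hB.mem a ha n).2 (hA.mem b hb n).2
    rw [mul_add, add_mul, add_mul, e1, e2]
    abel
  · intro a ha
    refine null_congr' (null_add' h (hA.star_ a ha) (hB.star_ a ha)) (fun n => ?_)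
    rw [star_add]
    abel
  · refine null_congr' (null_add' h hA.unit hB.unit) (fun n => ?_)
    abel
  · intro a ha
    have h3 := (hA.trace a ha).add (hB.trace a ha)
    have e1 : (fun n => tr ξ (A a n + B a n)) = fun n => tr ξ (A a n) + tr ξ (B a n) :=
      funext fun n => tr_add h _ _
    rw [e1, tr_add h, add_div, add_mul]
    exact h3

theorem cc_all (h : IsIIOne M ξ) {U : Ultrafilter ℕ}
    (hall : ∀ e ∈ M, IsStarProjection e → e ≠ 0 → CornerEmb M ξ U e) {p r : H →L[ℂ] H}
    (hp : IsStarProjection p) (hr : IsStarProjection r) (hpM : p ∈ M) (hrM : r ∈ M) (hp0 : p ≠ 0) (hr0 : r ≠ 0) :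
    CCEmb M ξ U p r := by
  have hT : IsTrace M ξ := h.toIsTrace
  obtain ⟨hp1, -, hp3⟩ := re_tr_proj_mem hT hp
  have hpos : 0 < (tr ξ p).re := lt_of_le_of_ne hp1 fun h0 => hp0 (proj_eq_zero hT hp hpM h0.symm)
  have key : ∀ k : ℕ, ∀ r : H →L[ℂ] H, IsStarProjection r → r ∈ M → r ≠ 0 →
      (tr ξ r).re ≤ k * (tr ξ p).re → CCEmb M ξ U p r := by
    intro k
    induction k with
    | zero =>
      intro r hr hrM hr0 hle
      exfalso
      refine hr0 (proj_eq_zero hT hr hrM (le_antisymm ?_ (re_tr_proj_mem hT hr).1))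
      simpa using hle
    | succ k ih =>
      intro r hr hrM hr0 hle
      by_cases hc : (tr ξ r).re ≤ (tr ξ p).re
      · exact cc_small h hall hp hr hpM hrM hp0 hr0 hc
      have hc' : (tr ξ p).re < (tr ξ r).re := not_le.1 hc
      obtain ⟨s, hsM, hs, hsr, hst⟩ := exists_trace h hr hrM hp1 hc'.le
      have hss : s * s = s := hs.isIdempotentElem
      have hrs : r * s = s := by
        have h1 := congrArg star hsr
        rwa [star_mul, hr.isSelfAdjoint.star_eq, hs.isSelfAdjoint.star_eq] at h1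
      have hsre : (tr ξ s).re = (tr ξ p).re := by rw [hst, Complex.ofReal_re]
      have hs0 : s ≠ 0 := by
        rintro rfl
        rw [tr_zero, Complex.zero_re] at hsre
        exact hpos.ne hsre
      have ht : IsStarProjection (r - s) := hs.sub_of_mul_eq_left hr hsr
      have htre : (tr ξ (r - s)).re = (tr ξ r).re - (tr ξ p).re := by
        rw [tr_sub hT, Complex.sub_re, hsre]
      have ht0 : r - s ≠ 0 := by
        intro h1
        rw [h1, tr_zero, Complex.zero_re] at htre
        linarith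
      have h1 : CCEmb M ξ U p s := cc_small h hall hp hs hpM hsM hp0 hs0 hsre.le
      have h2 : CCEmb M ξ U p (r - s) := by
        refine ih (r - s) ht (sub_mem hrM hsM) ht0 ?_
        rw [htre]
        push_cast at hle
        linarith
      have h3 := cc_sum hT hs ht (by rw [mul_sub, hsr, hss, sub_self]) (by rw [sub_mul, hrs, hss, sub_self]) h1 h2
      rwa [add_sub_cancel] at h3
  obtain ⟨k, hk⟩ := exists_nat_ge (1 / (tr ξ p).re)
  refine key k r hr hrM hr0 ?_
  have h1 := (re_tr_proj_mem hT hr).2.1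
  have h2 : 1 ≤ k * (tr ξ p).re := by
    rwa [div_le_iff₀ hpos] at hk
  exact h1.trans h2

theorem cc_one (h : IsTrace M ξ) {U : Ultrafilter ℕ} {q : H →L[ℂ] H} (hc : CCEmb M ξ U 1 q) :
    CornerEmb M ξ U q := by
  obtain ⟨T, hT⟩ := hc
  have hm : ∀ a : M.toStarSubalgebra, (a : H →L[ℂ] H) ∈ corner M 1 := fun a =>
    ⟨a.2, by rw [one_mul, mul_one]⟩
  refine ⟨fun a n => T (a : H →L[ℂ] H) n, ⟨?_, ?_, ?_, ?_, ?_, ?_, ?_⟩, ?_, ?_⟩
  · intro a n
    exact (hT.mem _ (hm a) n).1
  · intro a
    exact hT.bdd _ (hm a)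
  · intro a b
    exact hT.add _ (hm a) _ (hm b)
  · intro c a
    exact hT.smul c _ (hm a)
  · intro a b
    exact hT.mul _ (hm a) _ (hm b)
  · intro a
    exact hT.star_ _ (hm a)
  · intro a
    have h1 := hT.trace _ (hm a)
    rwa [tr_one h, div_one] at h1
  · intro a n
    exact (hT.mem _ (hm a) n).2
  · exact hT.unit

end Pool.Agent.Lib.UPE
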