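import Pool.Agent.Lib.UPE.DF

/-!
# UPE / CCU (140 lines): covering 1 by copies of subprojections of `p`, orthogonal projections

PROOF.  `cover`: claim by induction on `k`: for every projection `r ∈ M` with `(tr r).re ≤ k * (tr p).re` there are `n` and `v : Fin n → M` with
the first four properties (`v i ∈ M`, ...) and `∑ i, v i * star (v i) = r`.  `k = 0`: `r = 0` (`proj_eq_zero`), `n = 0`.  Step: if
`(tr r).re ≤ (tr p).re`: `compare` gives `w ∈ M` with `star w * w = r`, `p * w = w`; take `n = 1`, `v 0 = star w` (`v 0 * star (v 0) = r`,
`star w * p = star w`, `v * star v * v = v` since `w * (star w * w) = w`: `(w - w r)` has `star (w - w r) * (w - w r) = 0`).  Otherwise `compare` for `p`, `r`: `w ∈ M`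
with `star w * w = p`, `r * w = w`; `r' = r - w * star w` is a projection in `M` of trace `tr r - tr p` (`r * (w * star w) = w * star w`);
take the family for `r'` and add `w` (`Fin.cons` / `Fin.snoc`): `star w * v i = star w * r' * v i = 0` because `v i = r' * v i`
(`r' * v i = ∑ j, v j * star (v j) * v i = v i`) and `star w * r' = star w * r - star w * w * star w = 0`.  `k` with `1 ≤ k * (tr p).re` exists since
`(tr p).re > 0`; use the claim for `r = 1`.
`orth`: induction on `n`: choose `g 0` ... one after the other: the sum `e` of those already chosen is a projection in `M` with trace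
`∑_(j<i) t j`, `exists_trace` for `1 - e` gives `g i` with `g i * (1 - e) = g i`, so `g i * g j = g i * (1 - e) * g j = 0` for `j < i` and (adjoint) `g j * g i = 0`.
-/

set_option autoImplicit false

open Filter Topology

namespace Pool.Agent.Lib.UPE

variable {H : Type*} [NormedAddCommGroup H] [InnerProductSpace ℂ H] [CompleteSpace H]
variable {M : VonNeumannAlgebra H} {ξ : ℕ → H}

/-- `w * r = w` when `star w * w = r` is idempotent and self-adjoint -/
private theorem mul_of_star_mul {w r : H →L[ℂ] H} (hr : IsStarProjection r) (hw : star w * w = r) : w * r = w := by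
  have hrr : r * r = r := hr.isIdempotentElem
  have hrs : star r = r := hr.isSelfAdjoint
  have h1 : star (w - w * r) * (w - w * r) = 0 := by
    have h2 : star (w - w * r) * (w - w * r) =
        star w * w - star w * w * r - star r * (star w * w) + star r * (star w * w) * r := by
      rw [star_sub, star_mul]
      noncomm_ring
    rw [h2, hw, hrs, hrr, hrr]
    abel
  exact (sub_eq_zero.1 ((CStarRing.star_mul_self_eq_zero_iff _).1 h1)).symm

private theorem cover_aux (h : IsIIOne M ξ) {p : H →L[ℂ] H} (hp : IsStarProjection p) (hpM : p ∈ M) (k : ℕ) :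
    ∀ r : H →L[ℂ] H, IsStarProjection r → r ∈ M → (tr ξ r).re ≤ k * (tr ξ p).re →
    ∃ (n : ℕ) (v : Fin n → (H →L[ℂ] H)), (∀ i, v i ∈ M) ∧ (∀ i, v i * star (v i) * v i = v i) ∧
      (∀ i, v i * p = v i) ∧ (∀ i j, i ≠ j → star (v i) * v j = 0) ∧ ∑ i, v i * star (v i) = r := by
  have hps : star p = p := hp.isSelfAdjoint
  induction k with
  | zero =>
    intro r hr hrM hle
    have h0 : (tr ξ r).re = 0 := by
      have h1 := (re_tr_proj_mem h.toIsTrace hr).1
      have h2 : (tr ξ r).re ≤ 0 := by simpa using hle
      exact le_antisymm h2 h1
    have hr0 := proj_eq_zero h.toIsTrace hr hrM h0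
    exact ⟨0, fun i => i.elim0, fun i => i.elim0, fun i => i.elim0, fun i => i.elim0, fun i => i.elim0, by
      rw [hr0]; simp⟩
  | succ k ih =>
    intro r hr hrM hle
    have hrs : star r = r := hr.isSelfAdjoint
    rcases le_or_gt (tr ξ r).re (tr ξ p).re with hc | hc
    · obtain ⟨w, hwM, hw, hpw⟩ := compare h hr hp hrM hpM hc
      have hwr : w * r = w := mul_of_star_mul hr hw
      refine ⟨1, fun _ => star w, fun _ => star_mem hwM, fun _ => ?_, fun _ => ?_, fun i j hij => ?_, ?_⟩
      · show star w * star (star w) * star w = star w
        rw [star_star, hw]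
        have := congrArg star hwr
        rwa [star_mul, hrs] at this
      · show star w * p = star w
        have := congrArg star hpw
        rwa [star_mul, hps] at this
      · exact absurd (Subsingleton.elim i j) hij
      · simp [hw]
    · obtain ⟨w, hwM, hw, hrw⟩ := compare h hp hr hpM hrM hc.le
      have hwp : w * p = w := mul_of_star_mul hp hw
      have hpw : p * star w = star w := by
        have := congrArg star hwp
        rwa [star_mul, hps] at this
      have hwr : star w * r = star w := by
        have := congrArg star hrw
        rwa [star_mul, hrs] at this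
      have hf : IsStarProjection (w * star w) := by
        refine ⟨?_, ?_⟩
        · show w * star w * (w * star w) = w * star w
          rw [mul_assoc, ← mul_assoc (star w), hw, hpw]
        · show star (w * star w) = w * star w
          rw [star_mul, star_star]
      have hfM : w * star w ∈ M := mul_mem hwM (star_mem hwM)
      have hr' : IsStarProjection (r - w * star w) := hf.sub_of_mul_eq_left hr (by rw [mul_assoc, hwr])
      have htr : (tr ξ (r - w * star w)).re ≤ k * (tr ξ p).re := by
        rw [tr_sub h.toIsTrace, h.tracial w hwM (star w) (star_mem hwM), hw, Complex.sub_re]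
        push_cast at hle
        linarith
      obtain ⟨n, v, hvM, hv1, hv2, hv3, hv4⟩ := ih (r - w * star w) hr' (sub_mem hrM hfM) htr
      have hrv : ∀ i, (r - w * star w) * v i = v i := by
        intro i
        rw [← hv4, Finset.sum_mul, Finset.sum_eq_single i]
        · exact hv1 i
        · intro j _ hj
          rw [mul_assoc, hv3 j i hj, mul_zero]
        · intro hi
          exact absurd (Finset.mem_univ i) hi
      have hwr' : star w * (r - w * star w) = 0 := by
        rw [mul_sub, hwr, ← mul_assoc, hw, hpw, sub_self]
      have hwv : ∀ i, star w * v i = 0 := by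
        intro i
        rw [← hrv i, ← mul_assoc, hwr', zero_mul]
      have hvw : ∀ i, star (v i) * w = 0 := by
        intro i
        have := congrArg star (hwv i)
        rwa [star_mul, star_star, star_zero] at this
      refine ⟨n + 1, Fin.cons w v, ?_, ?_, ?_, ?_, ?_⟩
      · intro i
        refine Fin.cases ?_ (fun i => ?_) i
        · simpa using hwM
        · simpa using hvM i
      · intro i
        refine Fin.cases ?_ (fun i => ?_) i
        · simp only [Fin.cons_zero]
          rw [mul_assoc, hw, hwp]
        · simp only [Fin.cons_succ]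
          exact hv1 i
      · intro i
        refine Fin.cases ?_ (fun i => ?_) i
        · simp only [Fin.cons_zero]
          exact hwp
        · simp only [Fin.cons_succ]
          exact hv2 i
      · intro i j
        refine Fin.cases ?_ (fun i => ?_) i
        · refine Fin.cases ?_ (fun j => ?_) j
          · intro hij
            exact absurd rfl hij
          · intro _
            simp only [Fin.cons_zero, Fin.cons_succ]
            exact hwv j
        · refine Fin.cases ?_ (fun j => ?_) j
          · intro _
            simp only [Fin.cons_zero, Fin.cons_succ]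
            exact hvw i
          · intro hij
            simp only [Fin.cons_succ]
            exact hv3 i j fun hh => hij (by rw [hh])
      · rw [Fin.sum_univ_succ]
        simp only [Fin.cons_zero, Fin.cons_succ]
        rw [hv4]
        abel

theorem cover (h : IsIIOne M ξ) {p : H →L[ℂ] H} (hp : IsStarProjection p) (hpM : p ∈ M) (hp0 : p ≠ 0) :
    ∃ (n : ℕ) (v : Fin n → (H →L[ℂ] H)), (∀ i, v i ∈ M) ∧ (∀ i, v i * star (v i) * v i = v i) ∧
      (∀ i, v i * p = v i) ∧ (∀ i j, i ≠ j → star (v i) * v j = 0) ∧ ∑ i, v i * star (v i) = 1 := by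
  have hpos : 0 < (tr ξ p).re := by
    refine lt_of_le_of_ne (re_tr_proj_mem h.toIsTrace hp).1 fun h0 => hp0 ?_
    exact proj_eq_zero h.toIsTrace hp hpM h0.symm
  obtain ⟨k, hk⟩ := exists_nat_ge (1 / (tr ξ p).re)
  refine cover_aux h hp hpM k 1 (IsStarProjection.one _) (one_mem M) ?_
  rw [tr_one h.toIsTrace, Complex.one_re]
  rwa [div_le_iff₀ hpos] at hk

theorem orth (h : IsIIOne M ξ) {n : ℕ} (t : Fin n → ℝ) (ht : ∀ i, 0 ≤ t i) (hs : ∑ i, t i ≤ 1) :
    ∃ g : Fin n → (H →L[ℂ] H), (∀ i, g i ∈ M ∧ IsStarProjection (g i) ∧ tr ξ (g i) = (t i : ℂ)) ∧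
      ∀ i j, i ≠ j → g i * g j = 0 := by
  induction n with
  | zero => exact ⟨fun i => i.elim0, fun i => i.elim0, fun i => i.elim0⟩
  | succ n ih =>
    rw [Fin.sum_univ_succ] at hs
    obtain ⟨g, hg, hgo⟩ := ih (fun i => t i.succ) (fun i => ht i.succ) (by linarith [ht 0])
    have heM : ∑ i, g i ∈ M := sum_mem fun i _ => (hg i).1
    have heg : ∀ j, (∑ i, g i) * g j = g j := by
      intro j
      rw [Finset.sum_mul, Finset.sum_eq_single j]
      · exact (hg j).2.1.isIdempotentElem
      · intro i _ hij
        exact hgo i j hij
      · intro hj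
        exact absurd (Finset.mem_univ j) hj
    have he : IsStarProjection (∑ i, g i) := by
      refine ⟨?_, ?_⟩
      · show (∑ i, g i) * (∑ i, g i) = ∑ i, g i
        rw [Finset.mul_sum]
        exact Finset.sum_congr rfl fun j _ => heg j
      · show star (∑ i, g i) = ∑ i, g i
        rw [star_sum]
        exact Finset.sum_congr rfl fun j _ => (hg j).2.1.isSelfAdjoint
    have hte : tr ξ (∑ i, g i) = ((∑ i : Fin n, t i.succ : ℝ) : ℂ) := by
      rw [tr_sum h.toIsTrace, Complex.ofReal_sum]
      exact Finset.sum_congr rfl fun j _ => (hg j).2.2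
    obtain ⟨q, hqM, hq, hqe, hqt⟩ := exists_trace h he.one_sub (sub_mem (one_mem M) heM) (ht 0) (by
      rw [tr_sub h.toIsTrace, tr_one h.toIsTrace, hte, Complex.sub_re, Complex.one_re, Complex.ofReal_re]
      linarith)
    have hqg : ∀ j, q * g j = 0 := by
      intro j
      have h1 : q * g j = q * (1 - ∑ i, g i) * g j := by rw [hqe]
      rw [h1, mul_assoc, sub_mul, one_mul, heg j, sub_self, mul_zero]
    have hgq : ∀ j, g j * q = 0 := by
      intro j
      have := congrArg star (hqg j)
      rwa [star_mul, (hg j).2.1.isSelfAdjoint.star_eq, hq.isSelfAdjoint.star_eq, star_zero] at this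
    refine ⟨Fin.cons q g, ?_, ?_⟩
    · intro i
      refine Fin.cases ?_ (fun i => ?_) i
      · simp only [Fin.cons_zero]
        exact ⟨hqM, hq, hqt⟩
      · simp only [Fin.cons_succ]
        exact hg i
    · intro i j
      refine Fin.cases ?_ (fun i => ?_) i
      · refine Fin.cases ?_ (fun j => ?_) j
        · intro hij
          exact absurd rfl hij
        · intro _
          simp only [Fin.cons_zero, Fin.cons_succ]
          exact hqg j
      · refine Fin.cases ?_ (fun j => ?_) j
        · intro _
          simp only [Fin.cons_zero, Fin.cons_succ]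
          exact hgq i
        · intro hij
          simp only [Fin.cons_succ]
          exact hgo i j fun hh => hij (by rw [hh])

end Pool.Agent.Lib.UPE
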