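import Pool.Agent.Lib.UPE.CDefs
import Pool.Agent.Lib.UPE.CCU
import Pool.Agent.Lib.UPE.UC
import Pool.Agent.Lib.UPE.AP

/-!
# UPE / CCC: an embedding in a smaller corner gives a scale below 1

Let `s = (tr q).re / (tr p).re < 1`, let `Θ` embed `p M p` in the ultrapower of `q M q`, and let `v i ∈ M` be
partial isometries with `v i * p = v i` and `∑ v i * star (v i) = 1` (`cover`).  The projections
`star (v i) * v i` of `p M p` are sent close to projections `f i k` of trace `s * tr (star (v i) * v i)`; the sum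
of these numbers is `s ≤ 1`, so there are `w i k ∈ M` with `star (w i k) * w i k = f i k` and
`star (w i k) * w j k = 0` for `i ≠ j`.  Then `Ψ a k = ∑ i j, w i k * Θ (star (v i) * a * v j) k * star (w j k)`
is an embedding of `M` which scales the trace by `s`.
-/

set_option autoImplicit false

open Filter Topology

namespace Pool.Agent.Lib.UPE

variable {H : Type*} [NormedAddCommGroup H] [InnerProductSpace ℂ H] [CompleteSpace H]
variable {M : VonNeumannAlgebra H} {ξ : ℕ → H}

/-- bounded sequences in `M` -/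
private def CBd (M : VonNeumannAlgebra H) (x : ℕ → (H →L[ℂ] H)) : Prop :=
  (∀ k, x k ∈ M) ∧ ∃ C : ℝ, ∀ k, ‖x k‖ ≤ C

private theorem cbd_add {x y : ℕ → (H →L[ℂ] H)} (hx : CBd M x) (hy : CBd M y) :
    CBd M fun k => x k + y k := by
  obtain ⟨h1, C, h2⟩ := hx
  obtain ⟨h3, D, h4⟩ := hy
  exact ⟨fun k => add_mem (h1 k) (h3 k), C + D,
    fun k => (norm_add_le _ _).trans (add_le_add (h2 k) (h4 k))⟩

private theorem cbd_mul {x y : ℕ → (H →L[ℂ] H)} (hx : CBd M x) (hy : CBd M y) :
    CBd M fun k => x k * y k := by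
  obtain ⟨h1, C, h2⟩ := hx
  obtain ⟨h3, D, h4⟩ := hy
  refine ⟨fun k => mul_mem (h1 k) (h3 k), C * D, fun k => (norm_mul_le _ _).trans ?_⟩
  exact mul_le_mul (h2 k) (h4 k) (norm_nonneg _) ((norm_nonneg _).trans (h2 k))

private theorem cbd_star {x : ℕ → (H →L[ℂ] H)} (hx : CBd M x) : CBd M fun k => star (x k) := by
  obtain ⟨h1, C, h2⟩ := hx
  exact ⟨fun k => star_mem (h1 k), C, fun k => by rw [norm_star]; exact h2 k⟩

private theorem cbd_sum {ι : Type*} (S : Finset ι) {x : ι → ℕ → (H →L[ℂ] H)} (hx : ∀ i, CBd M (x i)) :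
    CBd M fun k => ∑ i ∈ S, x i k := by
  classical
  induction S using Finset.induction_on with
  | empty => exact ⟨fun k => by simp, 0, fun k => by simp⟩
  | insert j S hj ih =>
    simp only [Finset.sum_insert hj]
    exact cbd_add (hx j) ih

/-- sequences with null difference -/
private def CEq (ξ : ℕ → H) (U : Ultrafilter ℕ) (x y : ℕ → (H →L[ℂ] H)) : Prop :=
  Tendsto (fun k => n2 ξ (x k - y k)) U (𝓝 0)

private theorem ceq_refl {U : Ultrafilter ℕ} (x : ℕ → (H →L[ℂ] H)) : CEq ξ U x x := by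
  unfold CEq
  simp only [sub_self, n2_zero]
  exact tendsto_const_nhds

private theorem ceq_symm {U : Ultrafilter ℕ} {x y : ℕ → (H →L[ℂ] H)} (h1 : CEq ξ U x y) : CEq ξ U y x := by
  unfold CEq at *
  simpa only [n2_sub_comm (ξ := ξ) (x _) (y _)] using h1

private theorem ceq_trans (h : IsTrace M ξ) {U : Ultrafilter ℕ} {x y z : ℕ → (H →L[ℂ] H)}
    (h1 : CEq ξ U x y) (h2 : CEq ξ U y z) : CEq ξ U x z := by
  unfold CEq at *
  have h3 := h1.add h2
  rw [add_zero] at h3
  exact squeeze_zero (fun k => n2_nonneg _) (fun k => n2_sub_le_sub h _ _ _) h3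

private theorem ceq_add (h : IsTrace M ξ) {U : Ultrafilter ℕ} {x y z w : ℕ → (H →L[ℂ] H)}
    (h1 : CEq ξ U x y) (h2 : CEq ξ U z w) : CEq ξ U (fun k => x k + z k) fun k => y k + w k := by
  unfold CEq at *
  have h3 := h1.add h2
  rw [add_zero] at h3
  refine squeeze_zero (fun k => n2_nonneg _) (fun k => ?_) h3
  dsimp only
  rw [add_sub_add_comm]
  exact n2_add_le h _ _

private theorem ceq_sum (h : IsTrace M ξ) {U : Ultrafilter ℕ} {ι : Type*} (S : Finset ι)
    {x y : ι → ℕ → (H →L[ℂ] H)} (h1 : ∀ i, CEq ξ U (x i) (y i)) :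
    CEq ξ U (fun k => ∑ i ∈ S, x i k) fun k => ∑ i ∈ S, y i k := by
  classical
  induction S using Finset.induction_on with
  | empty => simpa using ceq_refl (ξ := ξ) (U := U) fun _ => (0 : H →L[ℂ] H)
  | insert j S hj ih =>
    simp only [Finset.sum_insert hj]
    exact ceq_add h (h1 j) ih

private theorem ceq_mul_left (h : IsTrace M ξ) {U : Ultrafilter ℕ} {x y z : ℕ → (H →L[ℂ] H)}
    (hz : CBd M z) (h1 : CEq ξ U x y) : CEq ξ U (fun k => z k * x k) fun k => z k * y k := by
  obtain ⟨-, C, hC⟩ := hz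
  unfold CEq at *
  have h3 := h1.const_mul C
  rw [mul_zero] at h3
  refine squeeze_zero (fun k => n2_nonneg _) (fun k => ?_) h3
  dsimp only
  rw [← mul_sub]
  exact (n2_mul_le h _ _).trans (mul_le_mul_of_nonneg_right (hC k) (n2_nonneg _))

private theorem ceq_mul_right (h : IsTrace M ξ) {U : Ultrafilter ℕ} {x y z : ℕ → (H →L[ℂ] H)}
    (hx : CBd M x) (hy : CBd M y) (hz : CBd M z) (h1 : CEq ξ U x y) :
    CEq ξ U (fun k => x k * z k) fun k => y k * z k := by
  obtain ⟨hzM, C, hC⟩ := hz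
  unfold CEq at *
  have h3 := h1.mul_const C
  rw [zero_mul] at h3
  refine squeeze_zero (fun k => n2_nonneg _) (fun k => ?_) h3
  dsimp only
  rw [← sub_mul]
  exact (n2_mul_le' h (sub_mem (hx.1 k) (hy.1 k)) (hzM k)).trans
    (mul_le_mul_of_nonneg_left (hC k) (n2_nonneg _))

private theorem ceq_tr (h : IsTrace M ξ) {U : Ultrafilter ℕ} {x y : ℕ → (H →L[ℂ] H)} {c : ℂ}
    (h1 : CEq ξ U x y) (h2 : Tendsto (fun k => tr ξ (y k)) U (𝓝 c)) :
    Tendsto (fun k => tr ξ (x k)) U (𝓝 c) := by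
  have h3 : Tendsto (fun k => tr ξ (x k) - tr ξ (y k)) U (𝓝 0) := by
    rw [tendsto_zero_iff_norm_tendsto_zero]
    refine squeeze_zero (fun k => norm_nonneg _) (fun k => ?_) h1
    rw [← tr_sub h]
    exact norm_tr_le h _
  have h4 := h3.add h2
  simpa using h4

/-- almost projections in a bounded sequence are close to projections of the right trace -/
private theorem ccc_near (h : IsIIOne M ξ) {U : Ultrafilter ℕ} {y : ℕ → (H →L[ℂ] H)} (hy : CBd M y)
    (h1 : CEq ξ U y fun k => star (y k)) (h2 : CEq ξ U (fun k => y k * y k) y) {t : ℝ} (ht0 : 0 ≤ t)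
    (ht1 : t ≤ 1) (htr : Tendsto (fun k => tr ξ (y k)) U (𝓝 (t : ℂ))) :
    ∃ f : ℕ → (H →L[ℂ] H), (∀ k, f k ∈ M ∧ IsStarProjection (f k) ∧ tr ξ (f k) = (t : ℂ)) ∧ CEq ξ U y f := by
  have hT := h.toIsTrace
  set x : ℕ → (H →L[ℂ] H) := fun k => (1 / 2 : ℂ) • (y k + star (y k)) with hx
  have hxsa : ∀ k, IsSelfAdjoint (x k) := by
    intro k
    rw [isSelfAdjoint_iff, hx]
    simp only [star_smul, star_add, star_star]
    rw [add_comm (star (y k))]
    congr 1
    norm_num
  have hxB : CBd M x := by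
    obtain ⟨h3, C, h4⟩ := hy
    refine ⟨fun k => smul_mem' _ (add_mem (h3 k) (star_mem (h3 k))), C, fun k => ?_⟩
    have h5 := norm_add_le (y k) (star (y k))
    rw [norm_star] at h5
    have h6 : ‖x k‖ = (1 / 2) * ‖y k + star (y k)‖ := by
      simp only [hx, norm_smul]
      norm_num
    have h7 := h4 k
    rw [h6]
    linarith
  have hxy : CEq ξ U x y := by
    unfold CEq at *
    have h3 := h1.const_mul (1 / 2)
    rw [mul_zero] at h3
    refine h3.congr fun k => ?_
    have h4 : x k - y k = (-(1 / 2) : ℂ) • (y k - star (y k)) := by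
      simp only [hx]
      module
    rw [h4, n2_smul]
    norm_num
  have hxx : CEq ξ U (fun k => x k * x k) x := by
    refine ceq_trans hT (ceq_mul_right hT hxB hy hxB hxy) ?_
    refine ceq_trans hT (ceq_mul_left hT hy hxy) ?_
    exact ceq_trans hT h2 (ceq_symm hxy)
  have hxt := ceq_tr hT hxy htr
  choose f hf using fun k => near_proj h (hxB.1 k) (hxsa k) ht0 ht1
  refine ⟨f, fun k => ⟨(hf k).1, (hf k).2.1, (hf k).2.2.1⟩, ceq_trans hT (ceq_symm hxy) ?_⟩
  unfold CEq at *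
  have h3 : Tendsto (fun k => ‖tr ξ (x k) - (t : ℂ)‖) U (𝓝 0) := by
    have h4 := (hxt.sub_const (t : ℂ)).norm
    simpa using h4
  have h5 := hxx.const_mul 2
  have h6 := (Real.continuous_sqrt.tendsto _).comp (h3.add h5)
  have h7 := h5.add h6
  simp only [mul_zero, add_zero, Real.sqrt_zero] at h7
  exact squeeze_zero (fun k => n2_nonneg _) (fun k => (hf k).2.2.2) h7

/-- sequences of partial isometries with given right supports and orthogonal ranges -/
private theorem ccc_w (h : IsIIOne M ξ) {n : ℕ} (t : Fin n → ℝ) (ht : ∀ i, 0 ≤ t i) (hs : ∑ i, t i ≤ 1)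
    (f : Fin n → ℕ → (H →L[ℂ] H))
    (hf : ∀ i k, f i k ∈ M ∧ IsStarProjection (f i k) ∧ tr ξ (f i k) = (t i : ℂ)) :
    ∃ w : Fin n → ℕ → (H →L[ℂ] H), (∀ i k, w i k ∈ M) ∧ (∀ i k, ‖w i k‖ ≤ 1) ∧
      (∀ i j k, i ≠ j → star (w i k) * w j k = 0) ∧ ∀ i k, star (w i k) * w i k = f i k := by
  obtain ⟨g, hg, hgo⟩ := orth h t ht hs
  choose u hu1 hu2 hu3 hu4 using fun i k =>
    exists_unitary h (hf i k).2.1 (hg i).2.1 (hf i k).1 (hg i).1 ((hf i k).2.2.trans (hg i).2.2.symm)
  have hff : ∀ i k, f i k * f i k = f i k := fun i k => (hf i k).2.1.isIdempotentElem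
  have hfs : ∀ i k, star (f i k) = f i k := fun i k => (hf i k).2.1.isSelfAdjoint.star_eq
  have hgs : ∀ i, star (g i) = g i := fun i => (hg i).2.1.isSelfAdjoint.star_eq
  have hww : ∀ i k, star (u i k * f i k) * (u i k * f i k) = f i k := by
    intro i k
    rw [star_mul, hfs, mul_assoc, ← mul_assoc (star (u i k)), hu2, one_mul, hff]
  have hgw : ∀ i k, g i * (u i k * f i k) = u i k * f i k := by
    intro i k
    rw [← hu4 i k, mul_assoc (u i k * f i k), ← mul_assoc (star (u i k)), hu2, one_mul, mul_assoc, hff]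
  refine ⟨fun i k => u i k * f i k, fun i k => mul_mem (hu1 i k) (hf i k).1, fun i k => ?_, ?_, hww⟩
  · have h1 : ‖u i k * f i k‖ * ‖u i k * f i k‖ ≤ 1 := by
      rw [← CStarRing.norm_star_mul_self, hww]
      exact norm_proj_le (hf i k).2.1
    nlinarith [norm_nonneg (u i k * f i k)]
  · intro i j k hij
    show star (u i k * f i k) * (u j k * f j k) = 0
    rw [← hgw i k, ← hgw j k, star_mul, hgs, mul_assoc, ← mul_assoc (g i), hgo i j hij, zero_mul, mul_zero]

/-- the block operator `∑ i j, w i k * X i j k * star (w j k)` -/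
private noncomputable def cW {n : ℕ} (w : Fin n → ℕ → (H →L[ℂ] H)) (X : Fin n → Fin n → ℕ → (H →L[ℂ] H)) (k : ℕ) :
    H →L[ℂ] H :=
  ∑ i, ∑ j, w i k * X i j k * star (w j k)

private theorem cW_ceq (h : IsTrace M ξ) {U : Ultrafilter ℕ} {n : ℕ} {w : Fin n → ℕ → (H →L[ℂ] H)}
    (hw : ∀ i, CBd M (w i)) {X Y : Fin n → Fin n → ℕ → (H →L[ℂ] H)} (hX : ∀ i j, CBd M (X i j))
    (hY : ∀ i j, CBd M (Y i j)) (h1 : ∀ i j, CEq ξ U (X i j) (Y i j)) : CEq ξ U (cW w X) (cW w Y) := by
  unfold cW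
  refine ceq_sum h _ fun i => ceq_sum h _ fun j => ?_
  exact ceq_mul_right h (cbd_mul (hw i) (hX i j)) (cbd_mul (hw i) (hY i j)) (cbd_star (hw j))
    (ceq_mul_left h (hw i) (h1 i j))

private theorem cW_bd {n : ℕ} {w : Fin n → ℕ → (H →L[ℂ] H)}
    (hw : ∀ i, CBd M (w i)) {X : Fin n → Fin n → ℕ → (H →L[ℂ] H)} (hX : ∀ i j, CBd M (X i j)) :
    CBd M (cW w X) :=
  cbd_sum _ fun i => cbd_sum _ fun j => cbd_mul (cbd_mul (hw i) (hX i j)) (cbd_star (hw j))

private theorem cW_add {n : ℕ} (w : Fin n → ℕ → (H →L[ℂ] H)) (X Y : Fin n → Fin n → ℕ → (H →L[ℂ] H)) (k : ℕ) :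
    cW w X k + cW w Y k = cW w (fun i j k => X i j k + Y i j k) k := by
  unfold cW
  rw [← Finset.sum_add_distrib]
  refine Finset.sum_congr rfl fun i _ => ?_
  rw [← Finset.sum_add_distrib]
  refine Finset.sum_congr rfl fun j _ => ?_
  rw [mul_add, add_mul]

private theorem cW_smul {n : ℕ} (w : Fin n → ℕ → (H →L[ℂ] H)) (X : Fin n → Fin n → ℕ → (H →L[ℂ] H)) (c : ℂ)
    (k : ℕ) : c • cW w X k = cW w (fun i j k => c • X i j k) k := by
  unfold cW
  rw [Finset.smul_sum]
  refine Finset.sum_congr rfl fun i _ => ?_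
  rw [Finset.smul_sum]
  refine Finset.sum_congr rfl fun j _ => ?_
  rw [mul_smul_comm, smul_mul_assoc]

private theorem cW_star {n : ℕ} (w : Fin n → ℕ → (H →L[ℂ] H)) (X : Fin n → Fin n → ℕ → (H →L[ℂ] H))
    (k : ℕ) : star (cW w X k) = cW w (fun i j k => star (X j i k)) k := by
  unfold cW
  rw [star_sum, Finset.sum_comm]
  simp only [star_sum]
  rw [Finset.sum_comm]
  rw [Finset.sum_comm]
  refine Finset.sum_congr rfl fun i _ => ?_
  refine Finset.sum_congr rfl fun j _ => ?_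
  rw [star_mul, star_mul, star_star, mul_assoc]

private theorem cW_mul {n : ℕ} {w f : Fin n → ℕ → (H →L[ℂ] H)} (h0 : ∀ i j k, i ≠ j → star (w i k) * w j k = 0)
    (hf : ∀ i k, star (w i k) * w i k = f i k) (X Y : Fin n → Fin n → ℕ → (H →L[ℂ] H)) (k : ℕ) :
    cW w X k * cW w Y k = cW w (fun i l k => ∑ j, X i j k * f j k * Y j l k) k := by
  unfold cW
  rw [Finset.sum_mul]
  refine Finset.sum_congr rfl fun i _ => ?_
  rw [Finset.sum_mul]
  have h1 : ∀ j, w i k * X i j k * star (w j k) * ∑ i', ∑ l, w i' k * Y i' l k * star (w l k) =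
      ∑ l, w i k * (X i j k * f j k * Y j l k) * star (w l k) := by
    intro j
    rw [Finset.mul_sum, Finset.sum_eq_single j]
    · rw [Finset.mul_sum]
      refine Finset.sum_congr rfl fun l _ => ?_
      rw [← hf j k]
      simp only [mul_assoc]
    · intro i' _ hi'
      rw [Finset.mul_sum]
      refine Finset.sum_eq_zero fun l _ => ?_
      rw [show w i k * X i j k * star (w j k) * (w i' k * Y i' l k * star (w l k)) =
        w i k * X i j k * (star (w j k) * w i' k) * (Y i' l k * star (w l k)) by simp only [mul_assoc],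
        h0 j i' k (Ne.symm hi'), mul_zero, zero_mul]
    · intro hj
      exact absurd (Finset.mem_univ j) hj
  simp only [h1]
  rw [Finset.sum_comm]
  refine Finset.sum_congr rfl fun l _ => ?_
  rw [Finset.mul_sum, Finset.sum_mul]

private theorem cW_tr (h : IsTrace M ξ) {n : ℕ} {w f : Fin n → ℕ → (H →L[ℂ] H)} (hw : ∀ i k, w i k ∈ M)
    (h0 : ∀ i j k, i ≠ j → star (w i k) * w j k = 0)
    (hf : ∀ i k, star (w i k) * w i k = f i k) {X : Fin n → Fin n → ℕ → (H →L[ℂ] H)}
    (hX : ∀ i j k, X i j k ∈ M) (k : ℕ) : tr ξ (cW w X k) = ∑ i, tr ξ (f i k * X i i k) := by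
  unfold cW
  rw [tr_sum h]
  refine Finset.sum_congr rfl fun i _ => ?_
  rw [tr_sum h]
  have h1 : ∀ j, tr ξ (w i k * X i j k * star (w j k)) = tr ξ (star (w j k) * w i k * X i j k) := by
    intro j
    rw [h.tracial _ (mul_mem (hw i k) (hX i j k)) _ (star_mem (hw j k)), mul_assoc (star (w j k))]
  rw [Finset.sum_eq_single i]
  · rw [h1, hf]
  · intro j _ hj
    rw [h1, h0 j i k hj, zero_mul, tr_zero]
  · intro hj
    exact absurd (Finset.mem_univ i) hj

theorem cc_big (h : IsIIOne M ξ) {U : Ultrafilter ℕ} {p q : H →L[ℂ] H}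
    (hp : IsStarProjection p) (hq : IsStarProjection q) (hpM : p ∈ M) (hqM : q ∈ M) (hq0 : q ≠ 0)
    (hlt : (tr ξ q).re < (tr ξ p).re) (hc : CCEmb M ξ U p q) :
    ScEmb M ξ U ((tr ξ q).re / (tr ξ p).re) := by
  have hT := h.toIsTrace
  obtain ⟨hq1, hq2, hq3⟩ := re_tr_proj_mem hT hq
  obtain ⟨hp1, hp2, hp3⟩ := re_tr_proj_mem hT hp
  have hp0' : 0 < (tr ξ p).re := lt_of_le_of_lt hq1 hlt
  have hp0 : p ≠ 0 := by
    rintro rfl
    rw [tr_zero] at hp0'
    exact lt_irrefl _ hp0'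
  have hsc : tr ξ q / tr ξ p = (((tr ξ q).re / (tr ξ p).re : ℝ) : ℂ) := by
    rw [Complex.ofReal_div, ← hq3, ← hp3]
  have hs0 : 0 ≤ (tr ξ q).re / (tr ξ p).re := div_nonneg hq1 hp1
  have hs1 : (tr ξ q).re / (tr ξ p).re ≤ 1 := (div_le_one hp0').2 hlt.le
  generalize (tr ξ q).re / (tr ξ p).re = s at hsc hs0 hs1 ⊢
  obtain ⟨Θ, hΘ⟩ := hc
  obtain ⟨n, v, hvM, hvv, hvp, hvo, hv1⟩ := cover h hp hpM hp0
  have hpsa : star p = p := hp.isSelfAdjoint.star_eq
  have hpv : ∀ i, p * star (v i) = star (v i) := by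
    intro i
    have h1 := congrArg star (hvp i)
    rwa [star_mul, hpsa] at h1
  have hE : ∀ a ∈ M, ∀ i j, star (v i) * a * v j ∈ corner M p := by
    intro a ha i j
    refine ⟨mul_mem (mul_mem (star_mem (hvM i)) ha) (hvM j), ?_⟩
    rw [show p * (star (v i) * a * v j) * p = (p * star (v i)) * a * (v j * p) by simp only [mul_assoc],
      hpv, hvp]
  have hΘB : ∀ a ∈ corner M p, CBd M (Θ a) := fun a ha => ⟨fun k => (hΘ.mem a ha k).1, hΘ.bdd a ha⟩
  -- the projections `star (v i) * v i`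
  have hPc : ∀ i, star (v i) * v i ∈ corner M p := by
    intro i
    have h1 := hE 1 (one_mem M) i i
    rwa [mul_one] at h1
  have hvvv : ∀ i, v i * (star (v i) * v i) = v i := fun i => by rw [← mul_assoc, hvv]
  have hPP : ∀ i, star (v i) * v i * (star (v i) * v i) = star (v i) * v i := by
    intro i
    rw [mul_assoc, hvvv]
  have hPs : ∀ i, star (star (v i) * v i) = star (v i) * v i := by
    intro i
    rw [star_mul, star_star]
  have hPproj : ∀ i, IsStarProjection (star (v i) * v i) := fun i => ⟨hPP i, hPs i⟩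
  have hPt := fun i => re_tr_proj_mem hT (hPproj i)
  have hPsum : ∑ i, (tr ξ (star (v i) * v i)).re = 1 := by
    have h1 : ∑ i, tr ξ (star (v i) * v i) = 1 := by
      rw [← tr_one hT, ← hv1, tr_sum hT]
      refine Finset.sum_congr rfl fun i _ => ?_
      exact hT.tracial _ (star_mem (hvM i)) _ (hvM i)
    rw [← Complex.re_sum, h1, Complex.one_re]
  have hex : ∀ i, ∃ f : ℕ → (H →L[ℂ] H), (∀ k, f k ∈ M ∧ IsStarProjection (f k) ∧
      tr ξ (f k) = ((s * (tr ξ (star (v i) * v i)).re : ℝ) : ℂ)) ∧ CEq ξ U (Θ (star (v i) * v i)) f := by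
    intro i
    refine ccc_near h (hΘB _ (hPc i)) ?_ ?_ (mul_nonneg hs0 (hPt i).1) ?_ ?_
    · have h1 := hΘ.star_ _ (hPc i)
      rw [hPs] at h1
      exact h1
    · have h1 := hΘ.mul _ (hPc i) _ (hPc i)
      rw [hPP] at h1
      exact ceq_symm h1
    · nlinarith [(hPt i).1, (hPt i).2.1]
    · have h1 := hΘ.trace _ (hPc i)
      rw [hsc, (hPt i).2.2, ← Complex.ofReal_mul] at h1
      exact h1
  choose f hf hfe using hex
  obtain ⟨w, hwM, hwn, hw0, hwf⟩ := ccc_w h (fun i => s * (tr ξ (star (v i) * v i)).re)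
    (fun i => mul_nonneg hs0 (hPt i).1) (by rw [← Finset.mul_sum, hPsum, mul_one]; exact hs1) f hf
  have hwB : ∀ i, CBd M (w i) := fun i => ⟨hwM i, 1, hwn i⟩
  have hfB : ∀ i, CBd M (f i) := fun i => ⟨fun k => (hf i k).1, 1, fun k => norm_proj_le (hf i k).2.1⟩
  have hXB : ∀ a ∈ M, ∀ i j, CBd M (Θ (star (v i) * a * v j)) := fun a ha i j => hΘB _ (hE a ha i j)
  refine ⟨fun a k => cW w (fun i j => Θ (star (v i) * (a : H →L[ℂ] H) * v j)) k, ?_⟩
  refine ⟨?_, ?_, ?_, ?_, ?_, ?_, ?_⟩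
  · intro a k
    exact (cW_bd hwB (hXB a a.2)).1 k
  · intro a
    exact (cW_bd hwB (hXB a a.2)).2
  · intro a b
    have h1 : CEq ξ U (cW w (fun i j => Θ (star (v i) * ((a : H →L[ℂ] H) + b) * v j)))
        (cW w (fun i j k => Θ (star (v i) * (a : H →L[ℂ] H) * v j) k + Θ (star (v i) * (b : H →L[ℂ] H) * v j) k)) := by
      refine cW_ceq hT hwB (hXB _ (add_mem a.2 b.2)) (fun i j => cbd_add (hXB a a.2 i j) (hXB b b.2 i j)) ?_
      intro i j
      have h2 := hΘ.add _ (hE a a.2 i j) _ (hE b b.2 i j)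
      rw [← add_mul, ← mul_add] at h2
      exact h2
    refine Tendsto.congr (fun k => ?_) h1
    dsimp only
    rw [cW_add]
    rfl
  · intro c a
    have h1 : CEq ξ U (cW w (fun i j => Θ (star (v i) * (c • (a : H →L[ℂ] H)) * v j)))
        (cW w (fun i j k => c • Θ (star (v i) * (a : H →L[ℂ] H) * v j) k)) := by
      refine cW_ceq hT hwB (hXB _ (smul_mem' c a.2)) (fun i j => ?_) ?_
      · obtain ⟨h3, C, h4⟩ := hXB a a.2 i j
        refine ⟨fun k => smul_mem' c (h3 k), ‖c‖ * C, fun k => ?_⟩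
        rw [norm_smul]
        exact mul_le_mul_of_nonneg_left (h4 k) (norm_nonneg c)
      · intro i j
        have h2 := hΘ.smul c _ (hE a a.2 i j)
        rw [← smul_mul_assoc, ← mul_smul_comm] at h2
        exact h2
    refine Tendsto.congr (fun k => ?_) h1
    dsimp only
    rw [cW_smul]
    rfl
  · intro a b
    have h1 : CEq ξ U (cW w (fun i j => Θ (star (v i) * ((a : H →L[ℂ] H) * b) * v j)))
        (cW w (fun i l k => ∑ j, Θ (star (v i) * (a : H →L[ℂ] H) * v j) k * f j k *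
          Θ (star (v j) * (b : H →L[ℂ] H) * v l) k)) := by
      refine cW_ceq hT hwB (hXB _ (mul_mem a.2 b.2)) (fun i l => cbd_sum _ fun j =>
        cbd_mul (cbd_mul (hXB a a.2 i j) (hfB j)) (hXB b b.2 j l)) ?_
      intro i l
      -- the product of the entries
      have h2 : ∀ j, CEq ξ U (Θ ((star (v i) * (a : H →L[ℂ] H) * v j) * (star (v j) * (b : H →L[ℂ] H) * v l)))
          (fun k => Θ (star (v i) * (a : H →L[ℂ] H) * v j) k * f j k *
            Θ (star (v j) * (b : H →L[ℂ] H) * v l) k) := by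
        intro j
        refine ceq_trans hT (hΘ.mul _ (hE a a.2 i j) _ (hE b b.2 j l)) ?_
        refine ceq_mul_right hT (hXB a a.2 i j) (cbd_mul (hXB a a.2 i j) (hfB j)) (hXB b b.2 j l) ?_
        have h3 := hΘ.mul _ (hE a a.2 i j) _ (hPc j)
        rw [show star (v i) * (a : H →L[ℂ] H) * v j * (star (v j) * v j) =
          star (v i) * (a : H →L[ℂ] H) * (v j * (star (v j) * v j)) by simp only [mul_assoc], hvvv] at h3
        exact ceq_trans hT h3 (ceq_mul_left hT (hXB a a.2 i j) (hfe j))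
      have h4 : ∀ S : Finset (Fin n), (∑ j ∈ S, (star (v i) * (a : H →L[ℂ] H) * v j) *
          (star (v j) * (b : H →L[ℂ] H) * v l)) ∈ corner M p ∧
          CEq ξ U (Θ (∑ j ∈ S, (star (v i) * (a : H →L[ℂ] H) * v j) * (star (v j) * (b : H →L[ℂ] H) * v l)))
          (fun k => ∑ j ∈ S, Θ (star (v i) * (a : H →L[ℂ] H) * v j) k * f j k *
            Θ (star (v j) * (b : H →L[ℂ] H) * v l) k) := by
        intro S
        induction S using Finset.induction_on with
        | empty =>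
          simp only [Finset.sum_empty]
          have h0c : (0 : H →L[ℂ] H) ∈ corner M p := ⟨zero_mem M, by simp⟩
          refine ⟨h0c, ?_⟩
          have h5 := hΘ.smul 0 _ h0c
          simp only [zero_smul] at h5
          exact h5
        | insert j S hj ih =>
          simp only [Finset.sum_insert hj]
          have hjc : (star (v i) * (a : H →L[ℂ] H) * v j) * (star (v j) * (b : H →L[ℂ] H) * v l) ∈ corner M p := by
            have h5 := hE (a * v j * (star (v j) * b)) (mul_mem (mul_mem a.2 (hvM j))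
              (mul_mem (star_mem (hvM j)) b.2)) i l
            simpa only [mul_assoc] using h5
          refine ⟨⟨add_mem hjc.1 ih.1.1, ?_⟩, ?_⟩
          · rw [mul_add, add_mul, hjc.2, ih.1.2]
          · exact ceq_trans hT (hΘ.add _ hjc _ ih.1) (ceq_add hT (h2 j) ih.2)
      have h6 : ∑ j, (star (v i) * (a : H →L[ℂ] H) * v j) * (star (v j) * (b : H →L[ℂ] H) * v l) =
          star (v i) * ((a : H →L[ℂ] H) * b) * v l := by
        have h7 : ∀ j, (star (v i) * (a : H →L[ℂ] H) * v j) * (star (v j) * (b : H →L[ℂ] H) * v l) =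
            star (v i) * (a : H →L[ℂ] H) * (v j * star (v j)) * ((b : H →L[ℂ] H) * v l) := by
          intro j
          simp only [mul_assoc]
        simp only [h7]
        rw [← Finset.sum_mul, ← Finset.mul_sum, hv1]
        simp only [mul_assoc, mul_one]
      have h8 := (h4 Finset.univ).2
      rw [h6] at h8
      exact h8
    refine Tendsto.congr (fun k => ?_) h1
    dsimp only
    rw [cW_mul hw0 hwf]
    rfl
  · intro a
    have h1 : CEq ξ U (cW w (fun i j => Θ (star (v i) * (star (a : H →L[ℂ] H)) * v j)))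
        (cW w (fun i j k => star (Θ (star (v j) * (a : H →L[ℂ] H) * v i) k))) := by
      refine cW_ceq hT hwB (hXB _ (star_mem a.2)) (fun i j => cbd_star (hXB a a.2 j i)) ?_
      intro i j
      have h2 := hΘ.star_ _ (hE a a.2 j i)
      rw [star_mul, star_mul, star_star, ← mul_assoc] at h2
      exact h2
    refine Tendsto.congr (fun k => ?_) h1
    dsimp only
    rw [cW_star]
    rfl
  · intro a
    have h1 : ∀ k, tr ξ (cW w (fun i j => Θ (star (v i) * (a : H →L[ℂ] H) * v j)) k) =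
        ∑ i, tr ξ (f i k * Θ (star (v i) * (a : H →L[ℂ] H) * v i) k) := fun k =>
      cW_tr hT hwM hw0 hwf (fun i j k => (hXB a a.2 i j).1 k) k
    have h2 : ∀ i, Tendsto (fun k => tr ξ (f i k * Θ (star (v i) * (a : H →L[ℂ] H) * v i) k)) U
        (𝓝 ((s : ℂ) * tr ξ (star (v i) * (a : H →L[ℂ] H) * v i))) := by
      intro i
      have h3 := hΘ.trace _ (hE a a.2 i i)
      rw [hsc] at h3
      refine ceq_tr hT ?_ h3
      refine ceq_trans hT (ceq_mul_right hT (hfB i) (hΘB _ (hPc i)) (hXB a a.2 i i) (ceq_symm (hfe i))) ?_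
      have h4 := hΘ.mul _ (hPc i) _ (hE a a.2 i i)
      rw [show star (v i) * v i * (star (v i) * (a : H →L[ℂ] H) * v i) =
        star (v i * (star (v i) * v i)) * (a : H →L[ℂ] H) * v i by
          rw [star_mul, hPs]; simp only [mul_assoc], hvvv] at h4
      exact ceq_symm h4
    have h3 := tendsto_finsetSum Finset.univ fun i _ => h2 i
    have h4 : ∑ i, (s : ℂ) * tr ξ (star (v i) * (a : H →L[ℂ] H) * v i) = (s : ℂ) * tr ξ (a : H →L[ℂ] H) := by
      rw [← Finset.mul_sum]
      congr 1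
      have h5 : ∀ i, tr ξ (star (v i) * (a : H →L[ℂ] H) * v i) = tr ξ ((a : H →L[ℂ] H) * (v i * star (v i))) := by
        intro i
        rw [mul_assoc, hT.tracial _ (star_mem (hvM i)) _ (mul_mem a.2 (hvM i)), mul_assoc]
      simp only [h5]
      rw [← tr_sum hT, ← Finset.mul_sum, hv1, mul_one]
    rw [h4] at h3
    refine h3.congr fun k => ?_
    rw [← h1]

end Pool.Agent.Lib.UPE
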