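import Pool.Agent.Lib.UPE.Defs

/-!
# Ultrapower embeddings of II_1 factors: embeddings between two corners
-/

set_option autoImplicit false

open Filter Topology

namespace Pool.Agent.Lib.UPE

variable {H : Type*} [NormedAddCommGroup H] [InnerProductSpace ℂ H] [CompleteSpace H]

/-- the corner `p M p` -/
def corner (M : VonNeumannAlgebra H) (p : H →L[ℂ] H) : Set (H →L[ℂ] H) := {a | a ∈ M ∧ p * a * p = a}

/-- `Θ` induces a *-homomorphism from `p M p` to the ultrapower of `q M q` along `U` which maps the unit `p` to the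
unit `q` and preserves the normalised traces `tr ξ a / tr ξ p` and `tr ξ b / tr ξ q`: for `a` in `p M p` the
sequence `Θ a` is bounded in `q M q`, and `Θ` is additive, homogeneous, multiplicative and compatible with the
adjoint up to null sequences. -/
structure IsCC (M : VonNeumannAlgebra H) (ξ : ℕ → H) (U : Ultrafilter ℕ) (p q : H →L[ℂ] H)
    (Θ : (H →L[ℂ] H) → ℕ → (H →L[ℂ] H)) : Prop where
  mem : ∀ a ∈ corner M p, ∀ n, Θ a n ∈ corner M q
  bdd : ∀ a ∈ corner M p, ∃ C : ℝ, ∀ n, ‖Θ a n‖ ≤ C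
  add : ∀ a ∈ corner M p, ∀ b ∈ corner M p, Null ξ U fun n => Θ (a + b) n - (Θ a n + Θ b n)
  smul : ∀ c : ℂ, ∀ a ∈ corner M p, Null ξ U fun n => Θ (c • a) n - c • Θ a n
  mul : ∀ a ∈ corner M p, ∀ b ∈ corner M p, Null ξ U fun n => Θ (a * b) n - Θ a n * Θ b n
  star_ : ∀ a ∈ corner M p, Null ξ U fun n => Θ (star a) n - star (Θ a n)
  unit : Null ξ U fun n => Θ p n - q
  trace : ∀ a ∈ corner M p, Tendsto (fun n => tr ξ (Θ a n)) U (𝓝 (tr ξ q / tr ξ p * tr ξ a))

/-- `p M p` embeds in the ultrapower of `q M q` (unital, trace preserving) -/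
def CCEmb (M : VonNeumannAlgebra H) (ξ : ℕ → H) (U : Ultrafilter ℕ) (p q : H →L[ℂ] H) : Prop :=
  ∃ Θ : (H →L[ℂ] H) → ℕ → (H →L[ℂ] H), IsCC M ξ U p q Θ

end Pool.Agent.Lib.UPE
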