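import Pool.Agent.Lib.UPE.MU
import Pool.Agent.Lib.UPE.WD

/-!
# UPE / CEN (150 lines): Connes embeddable factors

PROOF.  `exists_trace` for `q = 1` and `1/(2 d)` gives `p`, `exists_units` for `n = 2 * d` gives `v : Fin (2 * d) → M`, `star (v a) * v b = if a = b then p else 0`.
For `a : Fin d` let `u a = v (Fin.castLE _ a)`.  `π A = ∑ a b, A a b • (u a * star (u b))` for `A : Matrix (Fin d) (Fin d) ℂ` is a (non-unital) *-homomorphism:
`u a * star (u b) * (u c * star (u e)) = if b = c then u a * p * star (u e)`, and `u a * p = u a` (`(u a - u a p)^* (u a - u a p) = 0`).  So `ev (fun i => π (y i)) w = π (ev y w)` for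
`w ≠ []`, `tr (π A) = ∑ a b, A a b * tr (star (u b) * u a) = (1/(2 d)) * trace A`, and `‖π A‖ ≤ 1` if `A` is a contraction: `hA : (1 - star A * A).PosSemidef` is
`1 - star A * A = star B * B` (`Matrix.posSemidef_iff_eq_conjTranspose_mul_self`), so `π 1 - star (π A) * π A = star (π B) * π B ≥ 0` with the projection `π 1 ≤ 1`, so
`‖π A ζ‖^2 ≤ ‖ζ‖^2`.  Given `x, m, ε` take `y` from `hce`: `y' i = π (y i)`, `tr (ev y' w) = (1/2) * ((1/d) * trace (ev y w))`, within `ε/2` of `(1/2) * tr (ev x w)`.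
-/

set_option autoImplicit false

open Filter Topology
open scoped ComplexOrder

namespace Pool.Agent.Lib.UPE

variable {H : Type*} [NormedAddCommGroup H] [InnerProductSpace ℂ H] [CompleteSpace H]
variable {M : VonNeumannAlgebra H} {ξ : ℕ → H}

/-- the tracial von Neumann algebra `(M, tr ξ)` is Connes embeddable: the laws of tuples of contractions of `M` can be
approximated by laws of tuples of contractive complex matrices (with the normalised trace) -/
def CEmb (M : VonNeumannAlgebra H) (ξ : ℕ → H) : Prop :=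
  ∀ (k m : ℕ) (x : Fin k → (H →L[ℂ] H)), (∀ i, x i ∈ M) → (∀ i, ‖x i‖ ≤ 1) → ∀ ε : ℝ, 0 < ε →
    ∃ (d : ℕ) (y : Fin k → Matrix (Fin d) (Fin d) ℂ), 0 < d ∧ (∀ i, (1 - star (y i) * y i).PosSemidef) ∧
      ∀ w : List (Fin k × Bool), w.length ≤ m →
        ‖(1 / (d : ℂ)) * Matrix.trace (ev y w) - tr ξ (ev x w)‖ < ε

/-- the matrix with respect to the system `u` -/
private noncomputable def cenP {d : ℕ} (u : Fin d → (H →L[ℂ] H)) (A : Matrix (Fin d) (Fin d) ℂ) : H →L[ℂ] H :=
  ∑ a, ∑ b, A a b • (u a * star (u b))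

private theorem cenP_add {d : ℕ} (u : Fin d → (H →L[ℂ] H)) (A B : Matrix (Fin d) (Fin d) ℂ) :
    cenP u (A + B) = cenP u A + cenP u B := by
  unfold cenP
  simp only [Matrix.add_apply, add_smul, Finset.sum_add_distrib]

private theorem cenP_zero {d : ℕ} (u : Fin d → (H →L[ℂ] H)) : cenP u 0 = 0 := by
  unfold cenP
  simp

private theorem cenP_star {d : ℕ} (u : Fin d → (H →L[ℂ] H)) (A : Matrix (Fin d) (Fin d) ℂ) :
    cenP u (star A) = star (cenP u A) := by
  unfold cenP
  rw [star_sum, Finset.sum_comm]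
  refine Finset.sum_congr rfl fun b _ => ?_
  rw [star_sum]
  refine Finset.sum_congr rfl fun a _ => ?_
  rw [Matrix.star_apply, star_smul, star_mul, star_star]

private theorem cenP_mul {d : ℕ} {u : Fin d → (H →L[ℂ] H)} {p : H →L[ℂ] H}
    (hu : ∀ a b, star (u a) * u b = if a = b then p else 0) (hup : ∀ a, u a * p = u a)
    (A B : Matrix (Fin d) (Fin d) ℂ) : cenP u (A * B) = cenP u A * cenP u B := by
  have h1 : ∀ a b c e, (A a b • (u a * star (u b))) * (B c e • (u c * star (u e))) =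
      if b = c then (A a b * B c e) • (u a * star (u e)) else 0 := by
    intro a b c e
    rw [smul_mul_smul_comm]
    have h2 : u a * star (u b) * (u c * star (u e)) = u a * (star (u b) * u c) * star (u e) := by
      simp only [mul_assoc]
    rw [h2, hu]
    split_ifs with h3
    · rw [hup]
    · simp
  unfold cenP
  rw [Finset.sum_mul]
  refine Finset.sum_congr rfl fun a _ => ?_
  rw [Finset.sum_mul]
  have h4 : ∀ b, (A a b • (u a * star (u b))) * (∑ c, ∑ e, B c e • (u c * star (u e))) =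
      ∑ e, (A a b * B b e) • (u a * star (u e)) := by
    intro b
    rw [Finset.mul_sum]
    rw [Finset.sum_eq_single b]
    · rw [Finset.mul_sum]
      refine Finset.sum_congr rfl fun e _ => ?_
      rw [h1, if_pos rfl]
    · intro c _ hc
      rw [Finset.mul_sum]
      refine Finset.sum_eq_zero fun e _ => ?_
      rw [h1, if_neg (fun h => hc h.symm)]
    · intro h
      exact absurd (Finset.mem_univ b) h
  rw [Finset.sum_congr rfl fun b _ => h4 b, Finset.sum_comm]
  refine Finset.sum_congr rfl fun e _ => ?_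
  rw [Matrix.mul_apply, Finset.sum_smul]

private theorem cenP_mem {d : ℕ} {u : Fin d → (H →L[ℂ] H)} (hu : ∀ a, u a ∈ M) (A : Matrix (Fin d) (Fin d) ℂ) :
    cenP u A ∈ M :=
  sum_mem fun a _ => sum_mem fun b _ => smul_mem' _ (mul_mem (hu a) (star_mem (hu b)))

private theorem cenP_tr (h : IsTrace M ξ) {d : ℕ} {u : Fin d → (H →L[ℂ] H)} {p : H →L[ℂ] H} (huM : ∀ a, u a ∈ M)
    (hu : ∀ a b, star (u a) * u b = if a = b then p else 0) (A : Matrix (Fin d) (Fin d) ℂ) :
    tr ξ (cenP u A) = tr ξ p * Matrix.trace A := by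
  unfold cenP
  rw [tr_sum h, Matrix.trace, Finset.mul_sum]
  refine Finset.sum_congr rfl fun a _ => ?_
  rw [tr_sum h, Finset.sum_eq_single a]
  · rw [tr_smul, h.tracial _ (huM a) _ (star_mem (huM a)), hu, if_pos rfl, Matrix.diag_apply]
    ring
  · intro b _ hb
    rw [tr_smul, h.tracial _ (huM a) _ (star_mem (huM b)), hu, if_neg hb, tr_zero, mul_zero]
  · intro h'
    exact absurd (Finset.mem_univ a) h'

private theorem re_star_mul_self (x : H →L[ℂ] H) (ζ : H) : (inner ℂ ζ ((star x * x) ζ)).re = ‖x ζ‖ ^ 2 := by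
  rw [ContinuousLinearMap.mul_apply, ContinuousLinearMap.star_eq_adjoint, ContinuousLinearMap.adjoint_inner_right,
    inner_self_eq_norm_sq_to_K]
  norm_cast

open scoped MatrixOrder in
private theorem cenP_pos {d : ℕ} {u : Fin d → (H →L[ℂ] H)} {p : H →L[ℂ] H}
    (hu : ∀ a b, star (u a) * u b = if a = b then p else 0) (hup : ∀ a, u a * p = u a)
    {A : Matrix (Fin d) (Fin d) ℂ} (hA : A.PosSemidef) (ζ : H) : 0 ≤ (inner ℂ ζ (cenP u A ζ)).re := by
  have h1 : A ∈ AddSubmonoid.closure (Set.range fun s : Matrix (Fin d) (Fin d) ℂ => star s * s) :=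
    StarOrderedRing.nonneg_iff.1 hA.nonneg
  clear hA
  induction h1 using AddSubmonoid.closure_induction with
  | mem x hx =>
    obtain ⟨s, rfl⟩ := hx
    show 0 ≤ (inner ℂ ζ (cenP u (star s * s) ζ)).re
    rw [cenP_mul hu hup, cenP_star, re_star_mul_self]
    positivity
  | zero => rw [cenP_zero]; simp
  | add x y hx hy ihx ihy =>
    rw [cenP_add, ContinuousLinearMap.add_apply, inner_add_right, Complex.add_re]
    exact add_nonneg ihx ihy

private theorem cenP_norm {d : ℕ} {u : Fin d → (H →L[ℂ] H)} {p : H →L[ℂ] H}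
    (hu : ∀ a b, star (u a) * u b = if a = b then p else 0) (hup : ∀ a, u a * p = u a)
    {A : Matrix (Fin d) (Fin d) ℂ} (hA : (1 - star A * A).PosSemidef) : ‖cenP u A‖ ≤ 1 := by
  have h1 : IsStarProjection (cenP u 1) := by
    refine ⟨?_, ?_⟩
    · show cenP u 1 * cenP u 1 = cenP u 1
      rw [← cenP_mul hu hup, mul_one]
    · show star (cenP u 1) = cenP u 1
      rw [← cenP_star, star_one]
  have h2 : cenP u 1 = cenP u (1 - star A * A) + star (cenP u A) * cenP u A := by
    rw [← cenP_star, ← cenP_mul hu hup, ← cenP_add, sub_add_cancel]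
  refine ContinuousLinearMap.opNorm_le_bound _ zero_le_one fun ζ => ?_
  rw [one_mul]
  have h3 : (inner ℂ ζ (cenP u 1 ζ)).re = (inner ℂ ζ (cenP u (1 - star A * A) ζ)).re + ‖cenP u A ζ‖ ^ 2 := by
    rw [← re_star_mul_self, ← Complex.add_re, ← inner_add_right, ← ContinuousLinearMap.add_apply, ← h2]
  have h4 := cenP_pos hu hup hA ζ
  have h5 : (inner ℂ ζ (cenP u 1 ζ)).re ≤ ‖ζ‖ ^ 2 := by
    calc (inner ℂ ζ (cenP u 1 ζ)).re ≤ ‖inner ℂ ζ (cenP u 1 ζ)‖ := Complex.re_le_norm _
      _ ≤ ‖ζ‖ * ‖cenP u 1 ζ‖ := norm_inner_le_norm _ _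
      _ ≤ ‖ζ‖ * (‖cenP u 1‖ * ‖ζ‖) := by
          gcongr
          exact ContinuousLinearMap.le_opNorm _ _
      _ ≤ ‖ζ‖ * (1 * ‖ζ‖) := by
          gcongr
          exact norm_proj_le h1
      _ = ‖ζ‖ ^ 2 := by ring
  have h6 : ‖cenP u A ζ‖ ^ 2 ≤ ‖ζ‖ ^ 2 := by linarith
  exact le_of_sq_le_sq h6 (norm_nonneg _)

private theorem cenP_ev {d : ℕ} {u : Fin d → (H →L[ℂ] H)} {p : H →L[ℂ] H}
    (hu : ∀ a b, star (u a) * u b = if a = b then p else 0) (hup : ∀ a, u a * p = u a) {k : ℕ}
    (y : Fin k → Matrix (Fin d) (Fin d) ℂ) (w : List (Fin k × Bool)) (hw : w ≠ []) :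
    ev (fun i => cenP u (y i)) w = cenP u (ev y w) := by
  have hlt : ∀ l : Fin k × Bool, lt (fun i => cenP u (y i)) l = cenP u (lt y l) := by
    intro l
    unfold lt
    split_ifs
    · rfl
    · exact (cenP_star u _).symm
  induction w with
  | nil => exact absurd rfl hw
  | cons l w ih =>
    rw [ev_cons, ev_cons, hlt]
    by_cases h0 : w = []
    · rw [h0, ev_nil, ev_nil, mul_one, mul_one]
    · rw [ih h0, cenP_mul hu hup]

theorem ce_ap (h : IsIIOne M ξ) (hce : CEmb M ξ) : Ap M ξ (1 / 2) := by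
  intro k m x hx hx1 ε hε
  obtain ⟨d, y, hd, hy, hw⟩ := hce k m x hx hx1 ε hε
  have hdr : (0 : ℝ) < d := by exact_mod_cast hd
  obtain ⟨p, hpM, hp, -, hpt⟩ := exists_trace h (q := 1) (s := 1 / ((2 * d : ℕ) : ℝ)) (IsStarProjection.one _) (one_mem M)
    (by positivity) (by
      rw [tr_one h.toIsTrace, Complex.one_re, div_le_one (by positivity)]
      exact_mod_cast (by omega : 1 ≤ 2 * d))
  have hpt' : tr ξ p = 1 / ((2 * d : ℕ) : ℂ) := by
    rw [hpt]
    push_cast
    rfl
  obtain ⟨v, hvM, hv, -⟩ := exists_units h (n := 2 * d) (by omega) hp hpM hpt'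
  obtain ⟨u, hu⟩ : ∃ u : Fin d → (H →L[ℂ] H), u = fun a => v (Fin.castLE (by omega) a) := ⟨_, rfl⟩
  have huM : ∀ a, u a ∈ M := fun a => by rw [hu]; exact hvM _
  have huu : ∀ a b, star (u a) * u b = if a = b then p else 0 := by
    intro a b
    rw [hu]
    show star (v (Fin.castLE _ a)) * v (Fin.castLE _ b) = _
    rw [hv]
    simp only [Fin.ext_iff, Fin.val_castLE]
  have hup : ∀ a, u a * p = u a := by
    intro a
    have hpp : p * p = p := hp.isIdempotentElem
    have hps : star p = p := hp.isSelfAdjoint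
    have h1 : star (u a - u a * p) * (u a - u a * p) = 0 := by
      have h2 : star (u a - u a * p) * (u a - u a * p) =
          star (u a) * u a - star (u a) * u a * p - star p * (star (u a) * u a) + star p * (star (u a) * u a) * p := by
        rw [star_sub, star_mul]
        noncomm_ring
      rw [h2, huu, if_pos rfl, hps, hpp, hpp]
      abel
    exact (sub_eq_zero.1 ((CStarRing.star_mul_self_eq_zero_iff _).1 h1)).symm
  refine ⟨fun i => cenP u (y i), fun i => cenP_mem huM _, fun i => cenP_norm huu hup (hy i), fun w hw0 hwm => ?_⟩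
  rw [cenP_ev huu hup y w hw0, cenP_tr h.toIsTrace huM huu, hpt']
  have h1 := hw w hwm
  have hd0 : (d : ℂ) ≠ 0 := by exact_mod_cast hd.ne'
  have h2 : 1 / ((2 * d : ℕ) : ℂ) * Matrix.trace (ev y w) - (((1 / 2 : ℝ)) : ℂ) * tr ξ (ev x w) =
      (((1 / 2 : ℝ)) : ℂ) * ((1 / (d : ℂ)) * Matrix.trace (ev y w) - tr ξ (ev x w)) := by
    push_cast
    field_simp
  rw [h2, norm_mul, Complex.norm_real, Real.norm_of_nonneg (by norm_num)]
  linarith

end Pool.Agent.Lib.UPE
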