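import Pool.Agent.Lib.UPE.AP
import Pool.Agent.Lib.UPE.UC
import Pool.Agent.Lib.UPE.WD

/-!
# UPE / CL (180 lines): approximation inside a corner

PROOF.  Given `x : Fin k → M` contractions, `m`, `ε`.  Apply `hs` to the `k + 1` contractions `(x, 1)` (`Fin.snoc x 1` or
`Fin.cons 1 x`), length `max m 6`, tolerance `δ`: get `y` and `y0` (contractions).  All trace identities of degree `≤ 6`
which hold for `(x, 1)` hold for `(y, y0)` up to `C δ`.  In particular `n2 (y0 - star y0)^2`, `n2 (y0 * y0 - y0)^2`,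
`n2 (y i - y0 * y i * y0)^2`, `‖tr y0 - s‖` are `≤ C δ` (expand `tr (star a * a)` with `tr_star_mul_self`; for `(x, 1)` these are
0).  `b = (1/2) • (y0 + star y0)` is self-adjoint, `‖b‖ ≤ 1`, `n2 (b - y0)` small, so `n2 (b * b - b)` and `‖tr b - s‖` small; `near_proj`: a
projection `f ∈ M`, `tr f = s = tr p`, `n2 (b - f)` small, so `n2 (y0 - f) ≤ η`.  `exists_unitary`: `u * f * star u = p`.
`z i = u * f * y i * f * star u`: `‖z i‖ ≤ 1`, `p * z i * p = z i` (`p * u = u * f`).  `n2 (y i - f * y i * f) ≤ n2 (y i - y0 * y i * y0) + 2 η` small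
(`n2_mul_le`, `n2_mul_le'`).  For `y' i = f * y i * f`: `ev z w = u * ev y' w * star u` for `w ≠ []` (`star u * u = 1`; induction), so `tr (ev z w) =
tr (ev y' w)` (`tr_conj`), and `tr (ev y' w)` is close to `tr (ev y w)` by `tr_ev_sub_le` (`R = 1`), which is within `δ` of
`s * tr (ev x w)`.
-/

set_option autoImplicit false

open Filter Topology

namespace Pool.Agent.Lib.UPE

variable {H : Type*} [NormedAddCommGroup H] [InnerProductSpace ℂ H] [CompleteSpace H]
variable {M : VonNeumannAlgebra H} {ξ : ℕ → H}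

/-- the choice of the tolerance -/
private theorem cl_delta (m : ℕ) {ε : ℝ} (hε : 0 < ε) :
    ∃ δ : ℝ, 0 < δ ∧ (m : ℝ) * (2 * Real.sqrt δ + 2 * (7 * (2 * Real.sqrt δ) +
      Real.sqrt (δ + 7 * (2 * Real.sqrt δ)))) + δ < ε := by
  have hc : Continuous fun δ : ℝ => (m : ℝ) * (2 * Real.sqrt δ + 2 * (7 * (2 * Real.sqrt δ) +
      Real.sqrt (δ + 7 * (2 * Real.sqrt δ)))) + δ := by
    fun_prop
  have h0 : (fun δ : ℝ => (m : ℝ) * (2 * Real.sqrt δ + 2 * (7 * (2 * Real.sqrt δ) +
      Real.sqrt (δ + 7 * (2 * Real.sqrt δ)))) + δ) 0 < ε := by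
    simpa using hε
  have h1 := (hc.tendsto 0).eventually_lt_const h0
  have h2 : ∀ᶠ δ : ℝ in 𝓝[>] 0, (m : ℝ) * (2 * Real.sqrt δ + 2 * (7 * (2 * Real.sqrt δ) +
      Real.sqrt (δ + 7 * (2 * Real.sqrt δ)))) + δ < ε := nhdsWithin_le_nhds h1
  obtain ⟨δ, h3, h4⟩ := (h2.and self_mem_nhdsWithin).exists
  exact ⟨δ, h4, h3⟩

/-- the adjoint word -/
private def cl_adj {k : ℕ} (w : List (Fin k × Bool)) : List (Fin k × Bool) :=
  (w.map fun l => (l.1, !l.2)).reverse

private theorem cl_star_ev {k : ℕ} (x : Fin k → (H →L[ℂ] H)) (w : List (Fin k × Bool)) :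
    star (ev x w) = ev x (cl_adj w) := by
  induction w with
  | nil => simp [cl_adj, ev]
  | cons l w ih =>
    have h1 : cl_adj (l :: w) = cl_adj w ++ [(l.1, !l.2)] := by
      simp [cl_adj]
    rw [h1, ev_append, ev_cons, star_mul, ih]
    congr 1
    rcases l with ⟨i, b⟩
    cases b <;> simp [ev, lt]

private theorem cl_adj_ne {k : ℕ} {w : List (Fin k × Bool)} (hw : w ≠ []) : cl_adj w ≠ [] := by
  simpa [cl_adj] using hw

private theorem cl_adj_len {k : ℕ} (w : List (Fin k × Bool)) : (cl_adj w).length = w.length := by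
  simp [cl_adj]

/-- two words with the same value at `x` have close values at `Y` -/
private theorem cl_pair (hT : IsTrace M ξ) {k N : ℕ} {x Y : Fin k → (H →L[ℂ] H)} {s δ : ℝ}
    (hY : ∀ w : List (Fin k × Bool), w ≠ [] → w.length ≤ N → ‖tr ξ (ev Y w) - (s : ℂ) * tr ξ (ev x w)‖ < δ)
    {w1 w2 : List (Fin k × Bool)} (h1 : w1 ≠ []) (l1 : 2 * w1.length ≤ N) (l2 : 2 * w2.length ≤ N)
    (h2 : w2 ≠ []) (e : ev x w1 = ev x w2) : n2 ξ (ev Y w1 - ev Y w2) ≤ 2 * Real.sqrt δ := by
  have key : ∀ v1 v2 : List (Fin k × Bool), v2 ≠ [] → v1.length + v2.length ≤ N → ev x v1 = ev x w1 →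
      ev x v2 = ev x w1 → ‖tr ξ (star (ev Y v1) * ev Y v2) - (s : ℂ) * tr ξ (star (ev x w1) * ev x w1)‖ < δ := by
    intro v1 v2 hv hl e1 e2
    have h3 := hY (cl_adj v1 ++ v2) (by simp [hv]) (by rw [List.length_append, cl_adj_len]; exact hl)
    rw [ev_append, ev_append, ← cl_star_ev, ← cl_star_ev, e1, e2] at h3
    exact h3
  have k1 := key w1 w1 h1 (by omega) rfl rfl
  have k2 := key w1 w2 h2 (by omega) rfl e.symm
  have k3 := key w2 w1 h1 (by omega) e.symm rfl
  have k4 := key w2 w2 h2 (by omega) e.symm e.symm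
  set A := ev Y w1
  set B := ev Y w2
  set c : ℂ := (s : ℂ) * tr ξ (star (ev x w1) * ev x w1)
  have h4 : tr ξ (star (A - B) * (A - B))
      = (tr ξ (star A * A) - c) - (tr ξ (star A * B) - c) - (tr ξ (star B * A) - c) + (tr ξ (star B * B) - c) := by
    have h5 : star (A - B) * (A - B) = star A * A - star A * B - star B * A + star B * B := by
      rw [star_sub]
      noncomm_ring
    rw [h5, tr_add hT, tr_sub hT, tr_sub hT]
    ring
  have h6 : ‖tr ξ (star (A - B) * (A - B))‖ ≤ 4 * δ := by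
    rw [h4]
    refine (norm_add_le _ _).trans ?_
    refine (add_le_add_left ((norm_sub_le _ _).trans (add_le_add_left (norm_sub_le _ _) _)) _).trans ?_
    linarith
  rw [tr_star_mul_self, Complex.norm_real, Real.norm_of_nonneg (by positivity)] at h6
  have h7 : n2 ξ (A - B) ≤ Real.sqrt (4 * δ) := Real.le_sqrt_of_sq_le h6
  have h8 : Real.sqrt (4 * δ) = 2 * Real.sqrt δ := by
    rw [Real.sqrt_mul (by norm_num)]
    congr 1
    rw [show (4 : ℝ) = 2 ^ 2 by norm_num]
    exact Real.sqrt_sq (by norm_num)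
  exact h7.trans h8.le

/-- conjugation of a word -/
private theorem cl_conj {k : ℕ} {u : H →L[ℂ] H} (hu : star u * u = 1) (y : Fin k → (H →L[ℂ] H))
    (w : List (Fin k × Bool)) (hw : w ≠ []) :
    ev (fun i => u * y i * star u) w = u * ev y w * star u := by
  have hl : ∀ l : Fin k × Bool, lt (fun i => u * y i * star u) l = u * lt y l * star u := by
    rintro ⟨i, b⟩
    cases b
    · simp [lt, mul_assoc]
    · simp [lt]
  induction w with
  | nil => exact absurd rfl hw
  | cons l w ih =>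
    rw [ev_cons, ev_cons, hl]
    rcases w with - | ⟨l', w'⟩
    · rw [ev_nil, ev_nil, mul_one, mul_one]
    · rw [ih (by simp)]
      calc u * lt y l * star u * (u * ev y (l' :: w') * star u)
          = u * lt y l * (star u * u) * ev y (l' :: w') * star u := by noncomm_ring
        _ = u * (lt y l * ev y (l' :: w')) * star u := by
          rw [hu]
          noncomm_ring

private theorem cl_unit_norm {u : H →L[ℂ] H} (hu : star u * u = 1) : ‖u‖ ≤ 1 := by
  have h1 : ‖star u * u‖ = ‖u‖ * ‖u‖ := CStarRing.norm_star_mul_self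
  rw [hu] at h1
  have h2 : ‖(1 : H →L[ℂ] H)‖ ≤ 1 := ContinuousLinearMap.norm_id_le
  nlinarith [norm_nonneg u]

theorem ap_corner (h : IsIIOne M ξ) {s : ℝ} (hs : Ap M ξ s) {p : H →L[ℂ] H} (hp : IsStarProjection p)
    (hpM : p ∈ M) (ht : tr ξ p = (s : ℂ)) : ApC M ξ p := by
  intro k m x hxM hx ε hε
  have hT : IsTrace M ξ := h.toIsTrace
  have hs01 : 0 ≤ s ∧ s ≤ 1 := by
    have h1 := re_tr_proj_mem hT hp
    rw [ht, Complex.ofReal_re] at h1
    exact ⟨h1.1, h1.2.1⟩
  obtain ⟨δ, hδ, hF⟩ := cl_delta m hε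
  have h1le : ‖(1 : H →L[ℂ] H)‖ ≤ 1 := ContinuousLinearMap.norm_id_le
  obtain ⟨Y, hYM, hYn, hY⟩ := hs (k + 1) (max m 6) (Fin.cons 1 x)
    (by intro i; refine Fin.cases ?_ (fun j => ?_) i
        · rw [Fin.cons_zero]; exact one_mem M
        · rw [Fin.cons_succ]; exact hxM j)
    (by intro i; refine Fin.cases ?_ (fun j => ?_) i
        · rw [Fin.cons_zero]; exact h1le
        · rw [Fin.cons_succ]; exact hx j) δ hδ
  set θ : ℝ := 2 * Real.sqrt δ with hθ
  have hθ0 : 0 ≤ θ := by positivity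
  set y0 := Y 0 with hy0
  have hy0M : y0 ∈ M := hYM 0
  have hy0n : ‖y0‖ ≤ 1 := hYn 0
  -- the relations
  have hN : 6 ≤ max m 6 := le_max_right _ _
  have rA : n2 ξ (y0 - star y0) ≤ θ := by
    have := cl_pair hT hY (w1 := [((0 : Fin (k + 1)), true)]) (w2 := [((0 : Fin (k + 1)), false)]) (by simp)
      (by simp) (by simp) (by simp) (by simp [ev, lt])
    simpa [ev, lt] using this
  have rB : n2 ξ (y0 * y0 - y0) ≤ θ := by
    have := cl_pair hT hY (w1 := [((0 : Fin (k + 1)), true), (0, true)]) (w2 := [((0 : Fin (k + 1)), true)]) (by simp)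
      (by simp) (by simp) (by simp) (by simp [ev, lt])
    simpa [ev, lt] using this
  have rC : ∀ i : Fin k, n2 ξ (Y i.succ - y0 * Y i.succ * y0) ≤ θ := by
    intro i
    have := cl_pair hT hY (w1 := [(i.succ, true)]) (w2 := [((0 : Fin (k + 1)), true), (i.succ, true), (0, true)]) (by simp)
      (by simp) (by simp) (by simp) (by simp [ev, lt])
    simpa [ev, lt, mul_assoc] using this
  have rD : ‖tr ξ y0 - (s : ℂ)‖ < δ := by
    have := hY [((0 : Fin (k + 1)), true)] (by simp) (by simp)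
    simpa [ev, lt, tr_one hT] using this
  -- the self-adjoint part
  set b : H →L[ℂ] H := (1 / 2 : ℂ) • (y0 + star y0) with hb
  have hsM : star y0 ∈ M := star_mem hy0M
  have hbM : b ∈ M := smul_mem' _ (add_mem hy0M hsM)
  have hbsa : IsSelfAdjoint b := by
    rw [isSelfAdjoint_iff, hb, star_smul, star_add, star_star, add_comm]
    congr 1
    simp
  have hbn : ‖b‖ ≤ 1 := by
    rw [hb, norm_smul]
    have h2 : ‖y0 + star y0‖ ≤ 2 := by
      refine (norm_add_le _ _).trans ?_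
      rw [norm_star]
      linarith
    have h3 : ‖(1 / 2 : ℂ)‖ = 1 / 2 := by simp
    rw [h3]
    linarith
  have hb1 : n2 ξ (b - y0) ≤ θ / 2 := by
    have h2 : b - y0 = (1 / 2 : ℂ) • (star y0 - y0) := by
      rw [hb]
      module
    rw [h2, n2_smul, n2_sub_comm]
    have h3 : ‖(1 / 2 : ℂ)‖ = 1 / 2 := by simp
    rw [h3]
    linarith
  have hbyM : b - y0 ∈ M := sub_mem hbM hy0M
  have hb2 : n2 ξ (b * b - b) ≤ 3 * θ := by
    have h2 : n2 ξ (b * b - y0 * y0) ≤ θ := by
      have h3 : b * b - y0 * y0 = b * (b - y0) + (b - y0) * y0 := by noncomm_ring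
      rw [h3]
      refine (n2_add_le hT _ _).trans ?_
      have h4 := n2_mul_le hT b (b - y0)
      have h5 := n2_mul_le' hT hbyM hy0M
      have h6 := n2_nonneg (ξ := ξ) (b - y0)
      nlinarith
    have h3 := n2_sub_le_sub hT (b * b) (y0 * y0) b
    have h4 := n2_sub_le_sub hT (y0 * y0) y0 b
    rw [n2_sub_comm y0 b] at h4
    linarith
  have hb3 : ‖tr ξ b - (s : ℂ)‖ ≤ δ + θ := by
    have h2 : tr ξ b - (s : ℂ) = tr ξ (b - y0) + (tr ξ y0 - s) := by
      rw [tr_sub hT]
      ring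
    rw [h2]
    refine (norm_add_le _ _).trans ?_
    have h3 := norm_tr_le hT (b - y0)
    linarith
  obtain ⟨f, hfM, hf, hft, hfn⟩ := near_proj h hbM hbsa hs01.1 hs01.2
  set η : ℝ := 7 * θ + Real.sqrt (δ + 7 * θ) with hη
  have hη0 : 0 ≤ η := by positivity
  have hyf : n2 ξ (y0 - f) ≤ η := by
    have h2 := n2_sub_le_sub hT y0 b f
    rw [n2_sub_comm y0 b] at h2
    have h3 : Real.sqrt (‖tr ξ b - (s : ℂ)‖ + 2 * n2 ξ (b * b - b)) ≤ Real.sqrt (δ + 7 * θ) :=
      Real.sqrt_le_sqrt (by linarith)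
    rw [hη]
    linarith
  have hfn1 : ‖f‖ ≤ 1 := norm_proj_le hf
  -- the corner of `f`
  have hyfM : y0 - f ∈ M := sub_mem hy0M hfM
  have hcl : ∀ i : Fin k, n2 ξ (Y i.succ - f * Y i.succ * f) ≤ θ + 2 * η := by
    intro i
    have hyi : ‖Y i.succ‖ ≤ 1 := hYn _
    have h2 : n2 ξ (y0 * Y i.succ * y0 - f * Y i.succ * f) ≤ 2 * η := by
      have h3 : y0 * Y i.succ * y0 - f * Y i.succ * f
          = (y0 * Y i.succ) * (y0 - f) + (y0 - f) * (Y i.succ * f) := by noncomm_ring
      rw [h3]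
      refine (n2_add_le hT _ _).trans ?_
      have h4 := n2_mul_le hT (y0 * Y i.succ) (y0 - f)
      have h5 := n2_mul_le' hT hyfM (mul_mem (hYM i.succ) hfM)
      have h6 : ‖y0 * Y i.succ‖ ≤ 1 := (norm_mul_le _ _).trans (mul_le_one₀ hy0n (norm_nonneg _) hyi)
      have h7 : ‖Y i.succ * f‖ ≤ 1 := (norm_mul_le _ _).trans (mul_le_one₀ hyi (norm_nonneg _) hfn1)
      have h8 := n2_nonneg (ξ := ξ) (y0 - f)
      have h9 : ‖y0 * Y i.succ‖ * n2 ξ (y0 - f) ≤ 1 * n2 ξ (y0 - f) := mul_le_mul_of_nonneg_right h6 h8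
      have h10 : n2 ξ (y0 - f) * ‖Y i.succ * f‖ ≤ n2 ξ (y0 - f) * 1 := mul_le_mul_of_nonneg_left h7 h8
      linarith
    have h3 := n2_sub_le_sub hT (Y i.succ) (y0 * Y i.succ * y0) (f * Y i.succ * f)
    have h4 := rC i
    linarith
  obtain ⟨u, huM, hu1, hu2, hu3⟩ := exists_unitary h hf hp hfM hpM (hft.trans ht.symm)
  have hun : ‖u‖ ≤ 1 := cl_unit_norm hu1
  have husn : ‖star u‖ ≤ 1 := by rw [norm_star]; exact hun
  have hpu : p * u = u * f := by
    rw [← hu3, mul_assoc, hu1, mul_one]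
  have hup : star u * p = f * star u := by
    rw [← hu3, ← mul_assoc, ← mul_assoc, hu1, one_mul]
  have hff : f * f = f := hf.isIdempotentElem
  have hy'M : ∀ i : Fin k, f * Y i.succ * f ∈ M := fun i => mul_mem (mul_mem hfM (hYM _)) hfM
  have hy'n : ∀ i : Fin k, ‖f * Y i.succ * f‖ ≤ 1 := fun i =>
    (norm_mul_le _ _).trans (mul_le_one₀ ((norm_mul_le _ _).trans (mul_le_one₀ hfn1 (norm_nonneg _) (hYn _)))
      (norm_nonneg _) hfn1)
  refine ⟨fun i => u * (f * Y i.succ * f) * star u, fun i => mul_mem (mul_mem huM (hy'M i)) (star_mem huM),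
    fun i => (norm_mul_le _ _).trans (mul_le_one₀ ((norm_mul_le _ _).trans (mul_le_one₀ hun (norm_nonneg _) (hy'n i)))
      (norm_nonneg _) husn), fun i => ?_, fun w hw hwl => ?_⟩
  · calc p * (u * (f * Y i.succ * f) * star u) * p
        = (p * u) * (f * Y i.succ * f) * (star u * p) := by noncomm_ring
      _ = u * ((f * f) * Y i.succ * (f * f)) * star u := by
        rw [hpu, hup]
        noncomm_ring
      _ = u * (f * Y i.succ * f) * star u := by rw [hff]
  · have e1 : tr ξ (ev (fun i => u * (f * Y i.succ * f) * star u) w) = tr ξ (ev (fun i : Fin k => f * Y i.succ * f) w) := by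
      rw [cl_conj hu1 (fun i : Fin k => f * Y i.succ * f) w hw]
      exact tr_conj hT huM (ev_mem hy'M w) hu1
    have e2 : ‖tr ξ (ev (fun i : Fin k => Y i.succ) w) - tr ξ (ev (fun i : Fin k => f * Y i.succ * f) w)‖
        ≤ w.length * 1 ^ w.length * (θ + 2 * η) :=
      tr_ev_sub_le hT le_rfl (fun i => hYM _) hy'M (fun i => hYn _) hy'n hcl (by positivity) w
    rw [one_pow, mul_one] at e2
    have e3 : ‖tr ξ (ev (fun i : Fin k => Y i.succ) w) - (s : ℂ) * tr ξ (ev x w)‖ < δ := by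
      have := hY (w.map fun l => (l.1.succ, l.2)) (by simpa using hw) (by rw [List.length_map]; exact hwl.trans (le_max_left _ _))
      have e4 : ev Y (w.map fun l => (l.1.succ, l.2)) = ev (fun i : Fin k => Y i.succ) w := by
        unfold ev
        rw [List.map_map]
        rfl
      have e5 : ev (Fin.cons 1 x : Fin (k + 1) → (H →L[ℂ] H)) (w.map fun l => (l.1.succ, l.2)) = ev x w := by
        unfold ev
        rw [List.map_map]
        congr 1
      rw [e4, e5] at this
      exact this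
    rw [e1, ht]
    have e6 : tr ξ (ev (fun i : Fin k => f * Y i.succ * f) w) - (s : ℂ) * tr ξ (ev x w)
        = (tr ξ (ev (fun i : Fin k => f * Y i.succ * f) w) - tr ξ (ev (fun i : Fin k => Y i.succ) w))
          + (tr ξ (ev (fun i : Fin k => Y i.succ) w) - (s : ℂ) * tr ξ (ev x w)) := by ring
    rw [e6]
    refine (norm_add_le _ _).trans_lt ?_
    rw [norm_sub_rev (tr ξ (ev (fun i : Fin k => f * Y i.succ * f) w))]
    have e7 : (w.length : ℝ) * (θ + 2 * η) ≤ m * (θ + 2 * η) :=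
      mul_le_mul_of_nonneg_right (by exact_mod_cast hwl) (by positivity)
    linarith

end Pool.Agent.Lib.UPE
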