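import Pool.Agent.Lib.UPE.CDefs

/-!
# Ultrapower embeddings of II_1 factors: two factors
-/

set_option autoImplicit false

open Filter Topology

namespace Pool.Agent.Lib.UPE

variable {H : Type*} [NormedAddCommGroup H] [InnerProductSpace ℂ H] [CompleteSpace H]
variable {K : Type*} [NormedAddCommGroup K] [InnerProductSpace ℂ K] [CompleteSpace K]

/-- `Θ` induces a *-homomorphism (not necessarily unital) from `p M p` to the ultrapower of `N` along `U`, and its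
composition with the trace of the ultrapower is `t`: for `a` in `p M p` the sequence `Θ a` is bounded in `N`, and `Θ` is
additive, homogeneous, multiplicative and compatible with the adjoint up to null sequences. -/
structure IsCS (M : VonNeumannAlgebra H) (p : H →L[ℂ] H) (N : VonNeumannAlgebra K) (η : ℕ → K)
    (U : Ultrafilter ℕ) (t : (H →L[ℂ] H) → ℂ) (Θ : (H →L[ℂ] H) → ℕ → (K →L[ℂ] K)) : Prop where
  mem : ∀ a ∈ corner M p, ∀ n, Θ a n ∈ N
  bdd : ∀ a ∈ corner M p, ∃ C : ℝ, ∀ n, ‖Θ a n‖ ≤ C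
  add : ∀ a ∈ corner M p, ∀ b ∈ corner M p, Null η U fun n => Θ (a + b) n - (Θ a n + Θ b n)
  smul : ∀ z : ℂ, ∀ a ∈ corner M p, Null η U fun n => Θ (z • a) n - z • Θ a n
  mul : ∀ a ∈ corner M p, ∀ b ∈ corner M p, Null η U fun n => Θ (a * b) n - Θ a n * Θ b n
  star_ : ∀ a ∈ corner M p, Null η U fun n => Θ (star a) n - star (Θ a n)
  trace : ∀ a ∈ corner M p, Tendsto (fun n => tr η (Θ a n)) U (𝓝 (t a))

/-- some corner `p M p` has a non-zero *-homomorphism to an ultrapower of `N` (not necessarily unital, no condition on the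
traces: `t` is arbitrary).  `U` may be principal, so this is the case when some non-zero corner of `M` embeds
in `N`. -/
def Below (M : VonNeumannAlgebra H) (N : VonNeumannAlgebra K) (η : ℕ → K) : Prop :=
  ∃ (U : Ultrafilter ℕ) (p : H →L[ℂ] H) (t : (H →L[ℂ] H) → ℂ) (Θ : (H →L[ℂ] H) → ℕ → (K →L[ℂ] K)),
    p ∈ M ∧ IsStarProjection p ∧ IsCS M p N η U t Θ ∧ ¬ Null η U fun n => Θ p n

/-- the laws of `p M p`, multiplied by `c`, can be approximated in `N` (on non-empty words) -/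
def ApS (M : VonNeumannAlgebra H) (ξ : ℕ → H) (p : H →L[ℂ] H) (N : VonNeumannAlgebra K) (η : ℕ → K)
    (c : ℝ) : Prop :=
  ∀ (k m : ℕ) (x : Fin k → (H →L[ℂ] H)), (∀ i, x i ∈ corner M p) → (∀ i, ‖x i‖ ≤ 1) → ∀ ε : ℝ, 0 < ε →
    ∃ y : Fin k → (K →L[ℂ] K), (∀ i, y i ∈ N) ∧ (∀ i, ‖y i‖ ≤ 1) ∧
      ∀ w : List (Fin k × Bool), w ≠ [] → w.length ≤ m → ‖tr η (ev y w) - (c : ℂ) * tr ξ (ev x w)‖ < ε

/-- the same, with approximation inside the corner `e N e` -/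
def ApSC (M : VonNeumannAlgebra H) (ξ : ℕ → H) (p : H →L[ℂ] H) (N : VonNeumannAlgebra K) (η : ℕ → K)
    (e : K →L[ℂ] K) (c : ℝ) : Prop :=
  ∀ (k m : ℕ) (x : Fin k → (H →L[ℂ] H)), (∀ i, x i ∈ corner M p) → (∀ i, ‖x i‖ ≤ 1) → ∀ ε : ℝ, 0 < ε →
    ∃ y : Fin k → (K →L[ℂ] K), (∀ i, y i ∈ corner N e) ∧ (∀ i, ‖y i‖ ≤ 1) ∧
      ∀ w : List (Fin k × Bool), w ≠ [] → w.length ≤ m → ‖tr η (ev y w) - (c : ℂ) * tr ξ (ev x w)‖ < ε

end Pool.Agent.Lib.UPE
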