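import Pool.Agent.Lib.UPE.AP
import Pool.Agent.Lib.UPE.UC
import Pool.Agent.Lib.UPE.WD
import Pool.Agent.Lib.UPE.IDefs

/-!
# UPE / CL2 (190 lines): approximation inside a corner, two algebras (copy of CL)

PROOF.  As `ap_corner` in CL, with the unit replaced by `q`.  `corner M q ⊆ corner M p` (`q * p = q`, adjoint `p * q = q`).  Given `x i ∈ corner M q` contractions, `m`, `ε`.
Apply `hap` to the `k + 1` contractions `(x, q)` (`Fin.snoc x q` or `Fin.cons q x`), length `max m 6`, tolerance `δ`: `y`, `y0` contractions in `N`.  With `s = c * tr ξ q = tr η e`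
(so `0 ≤ s ≤ 1` is real, `re_tr_proj_mem`): `n2 (y0 - star y0)^2`, `n2 (y0 * y0 - y0)^2`, `n2 (y i - y0 * y i * y0)^2`, `‖tr y0 - s‖` are `≤ C δ` (expand
`tr (star a * a)` with `tr_star_mul_self`; for `(x, q)` the same expressions are 0, since `q x i q = x i`).  `b = (1/2) • (y0 + star y0)`; `near_proj`: a projection `f ∈ N`, `tr η f = s`,
`n2 (b - f)` small.  `exists_unitary`: `u * f * star u = e`.  `z i = u * f * y i * f * star u`: `‖z i‖ ≤ 1`, `e * z i * e = z i`.  `n2 (y i - f * y i * f)` small; for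
`y' i = f * y i * f`: `tr (ev z w) = tr (ev y' w)` (`w ≠ []`; `tr_conj`) is close to `tr (ev y w)` (`tr_ev_sub_le`, `R = 1`), which is within `δ` of `c * tr ξ (ev x w)`.
-/

set_option autoImplicit false

open Filter Topology

namespace Pool.Agent.Lib.UPE

variable {H : Type*} [NormedAddCommGroup H] [InnerProductSpace ℂ H] [CompleteSpace H]
variable {K : Type*} [NormedAddCommGroup K] [InnerProductSpace ℂ K] [CompleteSpace K]
variable {M : VonNeumannAlgebra H} {ξ : ℕ → H} {N : VonNeumannAlgebra K} {η : ℕ → K}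

/-- the choice of the tolerance -/
private theorem cl2_delta (m : ℕ) {ε : ℝ} (hε : 0 < ε) :
    ∃ δ : ℝ, 0 < δ ∧ (m : ℝ) * (2 * Real.sqrt δ + 2 * (7 * (2 * Real.sqrt δ) +
      Real.sqrt (δ + 7 * (2 * Real.sqrt δ)))) + δ < ε := by
  have hc : Continuous fun δ : ℝ => (m : ℝ) * (2 * Real.sqrt δ + 2 * (7 * (2 * Real.sqrt δ) +
      Real.sqrt (δ + 7 * (2 * Real.sqrt δ)))) + δ := by
    fun_prop
  have h0 : (fun δ : ℝ => (m : ℝ) * (2 * Real.sqrt δ + 2 * (7 * (2 * Real.sqrt δ) +
      Real.sqrt (δ + 7 * (2 * Real.sqrt δ)))) + δ) 0 < ε := by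
    simpa using hε
  have h1 := (hc.tendsto 0).eventually_lt_const h0
  have h2 : ∀ᶠ δ : ℝ in 𝓝[>] 0, (m : ℝ) * (2 * Real.sqrt δ + 2 * (7 * (2 * Real.sqrt δ) +
      Real.sqrt (δ + 7 * (2 * Real.sqrt δ)))) + δ < ε := nhdsWithin_le_nhds h1
  obtain ⟨δ, h3, h4⟩ := (h2.and self_mem_nhdsWithin).exists
  exact ⟨δ, h4, h3⟩

/-- the adjoint word -/
private def cl2_adj {k : ℕ} (w : List (Fin k × Bool)) : List (Fin k × Bool) :=
  (w.map fun l => (l.1, !l.2)).reverse

private theorem cl2_star_ev {k : ℕ} (x : Fin k → (H →L[ℂ] H)) (w : List (Fin k × Bool)) :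
    star (ev x w) = ev x (cl2_adj w) := by
  induction w with
  | nil => simp [cl2_adj, ev]
  | cons l w ih =>
    have h1 : cl2_adj (l :: w) = cl2_adj w ++ [(l.1, !l.2)] := by
      simp [cl2_adj]
    rw [h1, ev_append, ev_cons, star_mul, ih]
    congr 1
    rcases l with ⟨i, b⟩
    cases b <;> simp [ev, lt]

private theorem cl2_adj_ne {k : ℕ} {w : List (Fin k × Bool)} (hw : w ≠ []) : cl2_adj w ≠ [] := by
  simpa [cl2_adj] using hw

private theorem cl2_adj_len {k : ℕ} (w : List (Fin k × Bool)) : (cl2_adj w).length = w.length := by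
  simp [cl2_adj]

/-- two words with the same value at `x` have close values at `Y` -/
private theorem cl2_pair (hN : IsTrace N η) {k n : ℕ} {x : Fin k → (H →L[ℂ] H)} {Y : Fin k → (K →L[ℂ] K)} {c δ : ℝ}
    (hY : ∀ w : List (Fin k × Bool), w ≠ [] → w.length ≤ n → ‖tr η (ev Y w) - (c : ℂ) * tr ξ (ev x w)‖ < δ)
    {w1 w2 : List (Fin k × Bool)} (h1 : w1 ≠ []) (l1 : 2 * w1.length ≤ n) (l2 : 2 * w2.length ≤ n)
    (h2 : w2 ≠ []) (e : ev x w1 = ev x w2) : n2 η (ev Y w1 - ev Y w2) ≤ 2 * Real.sqrt δ := by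
  have key : ∀ v1 v2 : List (Fin k × Bool), v2 ≠ [] → v1.length + v2.length ≤ n → ev x v1 = ev x w1 →
      ev x v2 = ev x w1 → ‖tr η (star (ev Y v1) * ev Y v2) - (c : ℂ) * tr ξ (star (ev x w1) * ev x w1)‖ < δ := by
    intro v1 v2 hv hl e1 e2
    have h3 := hY (cl2_adj v1 ++ v2) (by simp [hv]) (by rw [List.length_append, cl2_adj_len]; exact hl)
    rw [ev_append, ev_append, ← cl2_star_ev, ← cl2_star_ev, e1, e2] at h3
    exact h3
  have k1 := key w1 w1 h1 (by omega) rfl rfl
  have k2 := key w1 w2 h2 (by omega) rfl e.symm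
  have k3 := key w2 w1 h1 (by omega) e.symm rfl
  have k4 := key w2 w2 h2 (by omega) e.symm e.symm
  set A := ev Y w1
  set B := ev Y w2
  set d : ℂ := (c : ℂ) * tr ξ (star (ev x w1) * ev x w1)
  have h4 : tr η (star (A - B) * (A - B))
      = (tr η (star A * A) - d) - (tr η (star A * B) - d) - (tr η (star B * A) - d) + (tr η (star B * B) - d) := by
    have h5 : star (A - B) * (A - B) = star A * A - star A * B - star B * A + star B * B := by
      rw [star_sub]
      noncomm_ring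
    rw [h5, tr_add hN, tr_sub hN, tr_sub hN]
    ring
  have h6 : ‖tr η (star (A - B) * (A - B))‖ ≤ 4 * δ := by
    rw [h4]
    refine (norm_add_le _ _).trans ?_
    refine (add_le_add_left ((norm_sub_le _ _).trans (add_le_add_left (norm_sub_le _ _) _)) _).trans ?_
    linarith
  rw [tr_star_mul_self, Complex.norm_real, Real.norm_of_nonneg (by positivity)] at h6
  have h7 : n2 η (A - B) ≤ Real.sqrt (4 * δ) := Real.le_sqrt_of_sq_le h6
  have h8 : Real.sqrt (4 * δ) = 2 * Real.sqrt δ := by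
    rw [Real.sqrt_mul (by norm_num)]
    congr 1
    rw [show (4 : ℝ) = 2 ^ 2 by norm_num]
    exact Real.sqrt_sq (by norm_num)
  exact h7.trans h8.le

/-- conjugation of a word -/
private theorem cl2_conj {k : ℕ} {u : H →L[ℂ] H} (hu : star u * u = 1) (y : Fin k → (H →L[ℂ] H))
    (w : List (Fin k × Bool)) (hw : w ≠ []) :
    ev (fun i => u * y i * star u) w = u * ev y w * star u := by
  have hl : ∀ l : Fin k × Bool, lt (fun i => u * y i * star u) l = u * lt y l * star u := by
    rintro ⟨i, b⟩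
    cases b
    · simp [lt, mul_assoc]
    · simp [lt]
  induction w with
  | nil => exact absurd rfl hw
  | cons l w ih =>
    rw [ev_cons, ev_cons, hl]
    rcases w with - | ⟨l', w'⟩
    · rw [ev_nil, ev_nil, mul_one, mul_one]
    · rw [ih (by simp)]
      calc u * lt y l * star u * (u * ev y (l' :: w') * star u)
          = u * lt y l * (star u * u) * ev y (l' :: w') * star u := by noncomm_ring
        _ = u * (lt y l * ev y (l' :: w')) * star u := by
          rw [hu]
          noncomm_ring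

private theorem cl2_unit_norm {u : H →L[ℂ] H} (hu : star u * u = 1) : ‖u‖ ≤ 1 := by
  have h1 : ‖star u * u‖ = ‖u‖ * ‖u‖ := CStarRing.norm_star_mul_self
  rw [hu] at h1
  have h2 : ‖(1 : H →L[ℂ] H)‖ ≤ 1 := ContinuousLinearMap.norm_id_le
  nlinarith [norm_nonneg u]

theorem aps_corner (h : IsTrace M ξ) (hN : IsIIOne N η) {p q : H →L[ℂ] H} (hp : IsStarProjection p)
    (hq : IsStarProjection q) (hqM : q ∈ M) (hqp : q * p = q) {c : ℝ} (hap : ApS M ξ p N η c)
    {e : K →L[ℂ] K} (he : IsStarProjection e) (heN : e ∈ N) (ht : tr η e = (c : ℂ) * tr ξ q) :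
    ApSC M ξ q N η e c := by
  intro k m x hxM hx ε hε
  obtain ⟨q0, q1, q2⟩ := re_tr_proj_mem h hq
  obtain ⟨s, hsdef⟩ : ∃ s : ℝ, s = c * (tr ξ q).re := ⟨_, rfl⟩
  have hcs : (c : ℂ) * tr ξ q = (s : ℂ) := by
    rw [hsdef, Complex.ofReal_mul, ← q2]
  rw [hcs] at ht
  have hT : IsTrace N η := hN.toIsTrace
  have hs01 : 0 ≤ s ∧ s ≤ 1 := by
    have h1 := re_tr_proj_mem hT he
    rw [ht, Complex.ofReal_re] at h1
    exact ⟨h1.1, h1.2.1⟩
  have hqs : star q = q := hq.isSelfAdjoint.star_eq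
  have hps : star p = p := hp.isSelfAdjoint.star_eq
  have hqq : q * q = q := hq.isIdempotentElem
  have hpq : p * q = q := by
    have h1 := congrArg star hqp
    rw [star_mul, hqs, hps] at h1
    exact h1
  obtain ⟨δ, hδ, hF⟩ := cl2_delta m hε
  obtain ⟨Y, hYM, hYn, hY⟩ := hap (k + 1) (max m 6) (Fin.cons q x)
    (by intro i; refine Fin.cases ?_ (fun j => ?_) i
        · rw [Fin.cons_zero]
          exact ⟨hqM, by rw [hpq, hqp]⟩
        · rw [Fin.cons_succ]
          refine ⟨(hxM j).1, ?_⟩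
          have h1 := (hxM j).2
          calc p * x j * p = p * (q * x j * q) * p := by rw [h1]
            _ = (p * q) * x j * (q * p) := by noncomm_ring
            _ = x j := by rw [hpq, hqp, h1])
    (by intro i; refine Fin.cases ?_ (fun j => ?_) i
        · rw [Fin.cons_zero]; exact norm_proj_le hq
        · rw [Fin.cons_succ]; exact hx j) δ hδ
  set θ : ℝ := 2 * Real.sqrt δ with hθ
  have hθ0 : 0 ≤ θ := by positivity
  set y0 := Y 0 with hy0
  have hy0M : y0 ∈ N := hYM 0
  have hy0n : ‖y0‖ ≤ 1 := hYn 0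
  -- the relations
  have rA : n2 η (y0 - star y0) ≤ θ := by
    have := cl2_pair hT hY (w1 := [((0 : Fin (k + 1)), true)]) (w2 := [((0 : Fin (k + 1)), false)]) (by simp)
      (by simp) (by simp) (by simp) (by simp [ev, lt, hqs])
    simpa [ev, lt] using this
  have rB : n2 η (y0 * y0 - y0) ≤ θ := by
    have := cl2_pair hT hY (w1 := [((0 : Fin (k + 1)), true), (0, true)]) (w2 := [((0 : Fin (k + 1)), true)]) (by simp)
      (by simp) (by simp) (by simp) (by simp [ev, lt, hqq])
    simpa [ev, lt] using this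
  have rC : ∀ i : Fin k, n2 η (Y i.succ - y0 * Y i.succ * y0) ≤ θ := by
    intro i
    have := cl2_pair hT hY (w1 := [(i.succ, true)]) (w2 := [((0 : Fin (k + 1)), true), (i.succ, true), (0, true)]) (by simp)
      (by simp) (by simp) (by simp) (by
        have h1 := (hxM i).2
        rw [mul_assoc] at h1
        simp [ev, lt, h1])
    simpa [ev, lt, mul_assoc] using this
  have rD : ‖tr η y0 - (s : ℂ)‖ < δ := by
    have := hY [((0 : Fin (k + 1)), true)] (by simp) (by simp)
    rw [← hcs]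
    simpa [ev, lt] using this
  -- the self-adjoint part
  set b : K →L[ℂ] K := (1 / 2 : ℂ) • (y0 + star y0) with hb
  have hsM : star y0 ∈ N := star_mem hy0M
  have hbM : b ∈ N := smul_mem' _ (add_mem hy0M hsM)
  have hbsa : IsSelfAdjoint b := by
    rw [isSelfAdjoint_iff, hb, star_smul, star_add, star_star, add_comm]
    congr 1
    simp
  have hbn : ‖b‖ ≤ 1 := by
    rw [hb, norm_smul]
    have h2 : ‖y0 + star y0‖ ≤ 2 := by
      refine (norm_add_le _ _).trans ?_
      rw [norm_star]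
      linarith
    have h3 : ‖(1 / 2 : ℂ)‖ = 1 / 2 := by simp
    rw [h3]
    linarith
  have hb1 : n2 η (b - y0) ≤ θ / 2 := by
    have h2 : b - y0 = (1 / 2 : ℂ) • (star y0 - y0) := by
      rw [hb]
      module
    rw [h2, n2_smul, n2_sub_comm]
    have h3 : ‖(1 / 2 : ℂ)‖ = 1 / 2 := by simp
    rw [h3]
    linarith
  have hbyM : b - y0 ∈ N := sub_mem hbM hy0M
  have hb2 : n2 η (b * b - b) ≤ 3 * θ := by
    have h2 : n2 η (b * b - y0 * y0) ≤ θ := by
      have h3 : b * b - y0 * y0 = b * (b - y0) + (b - y0) * y0 := by noncomm_ring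
      rw [h3]
      refine (n2_add_le hT _ _).trans ?_
      have h4 := n2_mul_le hT b (b - y0)
      have h5 := n2_mul_le' hT hbyM hy0M
      have h6 := n2_nonneg (ξ := η) (b - y0)
      nlinarith
    have h3 := n2_sub_le_sub hT (b * b) (y0 * y0) b
    have h4 := n2_sub_le_sub hT (y0 * y0) y0 b
    rw [n2_sub_comm y0 b] at h4
    linarith
  have hb3 : ‖tr η b - (s : ℂ)‖ ≤ δ + θ := by
    have h2 : tr η b - (s : ℂ) = tr η (b - y0) + (tr η y0 - s) := by
      rw [tr_sub hT]
      ring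
    rw [h2]
    refine (norm_add_le _ _).trans ?_
    have h3 := norm_tr_le hT (b - y0)
    linarith
  obtain ⟨f, hfM, hf, hft, hfn⟩ := near_proj hN hbM hbsa hs01.1 hs01.2
  set ζ : ℝ := 7 * θ + Real.sqrt (δ + 7 * θ) with hζ
  have hζ0 : 0 ≤ ζ := by positivity
  have hyf : n2 η (y0 - f) ≤ ζ := by
    have h2 := n2_sub_le_sub hT y0 b f
    rw [n2_sub_comm y0 b] at h2
    have h3 : Real.sqrt (‖tr η b - (s : ℂ)‖ + 2 * n2 η (b * b - b)) ≤ Real.sqrt (δ + 7 * θ) :=
      Real.sqrt_le_sqrt (by linarith)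
    rw [hζ]
    linarith
  have hfn1 : ‖f‖ ≤ 1 := norm_proj_le hf
  -- the corner of `f`
  have hyfM : y0 - f ∈ N := sub_mem hy0M hfM
  have hcl : ∀ i : Fin k, n2 η (Y i.succ - f * Y i.succ * f) ≤ θ + 2 * ζ := by
    intro i
    have hyi : ‖Y i.succ‖ ≤ 1 := hYn _
    have h2 : n2 η (y0 * Y i.succ * y0 - f * Y i.succ * f) ≤ 2 * ζ := by
      have h3 : y0 * Y i.succ * y0 - f * Y i.succ * f
          = (y0 * Y i.succ) * (y0 - f) + (y0 - f) * (Y i.succ * f) := by noncomm_ring
      rw [h3]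
      refine (n2_add_le hT _ _).trans ?_
      have h4 := n2_mul_le hT (y0 * Y i.succ) (y0 - f)
      have h5 := n2_mul_le' hT hyfM (mul_mem (hYM i.succ) hfM)
      have h6 : ‖y0 * Y i.succ‖ ≤ 1 := (norm_mul_le _ _).trans (mul_le_one₀ hy0n (norm_nonneg _) hyi)
      have h7 : ‖Y i.succ * f‖ ≤ 1 := (norm_mul_le _ _).trans (mul_le_one₀ hyi (norm_nonneg _) hfn1)
      have h8 := n2_nonneg (ξ := η) (y0 - f)
      have h9 : ‖y0 * Y i.succ‖ * n2 η (y0 - f) ≤ 1 * n2 η (y0 - f) := mul_le_mul_of_nonneg_right h6 h8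
      have h10 : n2 η (y0 - f) * ‖Y i.succ * f‖ ≤ n2 η (y0 - f) * 1 := mul_le_mul_of_nonneg_left h7 h8
      linarith
    have h3 := n2_sub_le_sub hT (Y i.succ) (y0 * Y i.succ * y0) (f * Y i.succ * f)
    have h4 := rC i
    linarith
  obtain ⟨u, huM, hu1, hu2, hu3⟩ := exists_unitary hN hf he hfM heN (hft.trans ht.symm)
  have hun : ‖u‖ ≤ 1 := cl2_unit_norm hu1
  have husn : ‖star u‖ ≤ 1 := by rw [norm_star]; exact hun
  have hpu : e * u = u * f := by
    rw [← hu3, mul_assoc, hu1, mul_one]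
  have hup : star u * e = f * star u := by
    rw [← hu3, ← mul_assoc, ← mul_assoc, hu1, one_mul]
  have hff : f * f = f := hf.isIdempotentElem
  have hy'M : ∀ i : Fin k, f * Y i.succ * f ∈ N := fun i => mul_mem (mul_mem hfM (hYM _)) hfM
  have hy'n : ∀ i : Fin k, ‖f * Y i.succ * f‖ ≤ 1 := fun i =>
    (norm_mul_le _ _).trans (mul_le_one₀ ((norm_mul_le _ _).trans (mul_le_one₀ hfn1 (norm_nonneg _) (hYn _)))
      (norm_nonneg _) hfn1)
  refine ⟨fun i => u * (f * Y i.succ * f) * star u, fun i => ⟨mul_mem (mul_mem huM (hy'M i)) (star_mem huM), ?_⟩,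
    fun i => (norm_mul_le _ _).trans (mul_le_one₀ ((norm_mul_le _ _).trans (mul_le_one₀ hun (norm_nonneg _) (hy'n i)))
      (norm_nonneg _) husn), fun w hw hwl => ?_⟩
  · calc e * (u * (f * Y i.succ * f) * star u) * e
        = (e * u) * (f * Y i.succ * f) * (star u * e) := by noncomm_ring
      _ = u * ((f * f) * Y i.succ * (f * f)) * star u := by
        rw [hpu, hup]
        noncomm_ring
      _ = u * (f * Y i.succ * f) * star u := by rw [hff]
  · have e1 : tr η (ev (fun i => u * (f * Y i.succ * f) * star u) w) = tr η (ev (fun i : Fin k => f * Y i.succ * f) w) := by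
      rw [cl2_conj hu1 (fun i : Fin k => f * Y i.succ * f) w hw]
      exact tr_conj hT huM (ev_mem hy'M w) hu1
    have e2 : ‖tr η (ev (fun i : Fin k => Y i.succ) w) - tr η (ev (fun i : Fin k => f * Y i.succ * f) w)‖
        ≤ w.length * 1 ^ w.length * (θ + 2 * ζ) :=
      tr_ev_sub_le hT le_rfl (fun i => hYM _) hy'M (fun i => hYn _) hy'n hcl (by positivity) w
    rw [one_pow, mul_one] at e2
    have e3 : ‖tr η (ev (fun i : Fin k => Y i.succ) w) - (c : ℂ) * tr ξ (ev x w)‖ < δ := by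
      have := hY (w.map fun l => (l.1.succ, l.2)) (by simpa using hw) (by rw [List.length_map]; exact hwl.trans (le_max_left _ _))
      have e4 : ev Y (w.map fun l => (l.1.succ, l.2)) = ev (fun i : Fin k => Y i.succ) w := by
        unfold ev
        rw [List.map_map]
        rfl
      have e5 : ev (Fin.cons q x : Fin (k + 1) → (H →L[ℂ] H)) (w.map fun l => (l.1.succ, l.2)) = ev x w := by
        unfold ev
        rw [List.map_map]
        congr 1
      rw [e4, e5] at this
      exact this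
    rw [e1]
    have e6 : tr η (ev (fun i : Fin k => f * Y i.succ * f) w) - (c : ℂ) * tr ξ (ev x w)
        = (tr η (ev (fun i : Fin k => f * Y i.succ * f) w) - tr η (ev (fun i : Fin k => Y i.succ) w))
          + (tr η (ev (fun i : Fin k => Y i.succ) w) - (c : ℂ) * tr ξ (ev x w)) := by ring
    rw [e6]
    refine (norm_add_le _ _).trans_lt ?_
    rw [norm_sub_rev (tr η (ev (fun i : Fin k => f * Y i.succ * f) w))]
    have e7 : (w.length : ℝ) * (θ + 2 * ζ) ≤ m * (θ + 2 * ζ) :=
      mul_le_mul_of_nonneg_right (by exact_mod_cast hwl) (by positivity)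
    linarith

end Pool.Agent.Lib.UPE
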