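import Pool.Agent.Lib.UPE.Defs

/-!
# UPE / FA (100 lines): factors

PROOF.  `K` = closure of the span of all `x (q v)`, `x ∈ M`, `v : H`; `z` = orthogonal projection onto `K`
(`K.starProjection`, `isStarProjection_starProjection`).  `K` is invariant under `M` (`M` is an algebra) and under the
commutant `M'` (`y x q v = x q y v`).  So `z ∈ M` by `IsStarProjection.mem_iff` for `M`, and `z` commutes with `M`:
`IsStarProjection.mem_iff` for `M.commutant` (`commutant_commutant`) gives `z ∈ M.commutant`, `mem_commutant_iff`.
`h.factor`: `z = c • 1`, `z` idempotent, so `c = 0` or `c = 1` (or `H` trivial: then `p = 0`), `z = 0` or `z = 1`.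
`z = 0`: `q v = 1 (q v) ∈ K = 0`, so `q = 0`.  `z = 1`: `p` vanishes on all `x q v`, so on `K = H`, so `p = 0`.
-/

set_option autoImplicit false

open Filter Topology

namespace Pool.Agent.Lib.UPE

variable {H : Type*} [NormedAddCommGroup H] [InnerProductSpace ℂ H] [CompleteSpace H]
variable {M : VonNeumannAlgebra H} {ξ : ℕ → H}

/-- an operator which maps the generating set into the submodule maps the closure of the span into its closure -/
private theorem fa_map (S : Set H) (y : H →L[ℂ] H) (hy : ∀ s ∈ S, y s ∈ S) :
    ∀ v ∈ (Submodule.span ℂ S).topologicalClosure, y v ∈ (Submodule.span ℂ S).topologicalClosure := by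
  have h1 : Submodule.span ℂ S ≤ (Submodule.span ℂ S).comap (y : H →ₗ[ℂ] H) := by
    rw [Submodule.span_le]
    intro s hs
    exact Submodule.subset_span (hy s hs)
  intro v hv
  have hv' : v ∈ closure ((Submodule.span ℂ S : Submodule ℂ H) : Set H) := by
    rw [← Submodule.topologicalClosure_coe]; exact hv
  have h2 : y v ∈ closure ((Submodule.span ℂ S : Submodule ℂ H) : Set H) := by
    refine map_mem_closure y.continuous hv' ?_
    intro w hw
    exact h1 hw
  rw [← Submodule.topologicalClosure_coe] at h2
  exact h2

theorem factor_mul (h : IsIIOne M ξ) {p q : H →L[ℂ] H} (hp : p ∈ M) (hq : q ∈ M)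
    (h0 : ∀ x ∈ M, p * x * q = 0) : p = 0 ∨ q = 0 := by
  set S : Set H := {w | ∃ x ∈ M, ∃ v : H, w = x (q v)} with hS
  set K : Submodule ℂ H := (Submodule.span ℂ S).topologicalClosure with hK
  haveI : CompleteSpace K := (Submodule.isClosed_topologicalClosure _).completeSpace_coe
  have hz : IsStarProjection K.starProjection := isStarProjection_starProjection
  have hrange : (K.starProjection).range = K := Submodule.range_starProjection K
  -- invariance under `M`
  have hinvM : ∀ y ∈ M, (K.starProjection).range ∈ Module.End.invtSubmodule (y : H →ₗ[ℂ] H) := by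
    intro y hy
    rw [hrange, Module.End.mem_invtSubmodule]
    intro v hv
    refine fa_map S y ?_ v hv
    rintro s ⟨x, hx, v, rfl⟩
    exact ⟨y * x, mul_mem hy hx, v, rfl⟩
  have hinvC : ∀ y ∈ M.commutant, (K.starProjection).range ∈ Module.End.invtSubmodule (y : H →ₗ[ℂ] H) := by
    intro y hy
    rw [VonNeumannAlgebra.mem_commutant_iff] at hy
    rw [hrange, Module.End.mem_invtSubmodule]
    intro v hv
    refine fa_map S y ?_ v hv
    rintro s ⟨x, hx, v, rfl⟩
    refine ⟨x, hx, y v, ?_⟩
    have h1 : y (x (q v)) = (y * x) (q v) := rfl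
    have h2 : q (y v) = (q * y) v := rfl
    have h3 : x ((y * q) v) = (x * y) (q v) := rfl
    rw [h1, h2, hy q hq, h3, hy x hx]
  have hzM : K.starProjection ∈ M := (VonNeumannAlgebra.IsStarProjection.mem_iff hz M).2 hinvC
  have hzC : K.starProjection ∈ M.commutant := by
    refine (VonNeumannAlgebra.IsStarProjection.mem_iff hz M.commutant).2 ?_
    rw [VonNeumannAlgebra.commutant_commutant]
    exact hinvM
  have hcomm : ∀ b ∈ M, K.starProjection * b = b * K.starProjection := by
    intro b hb
    exact ((VonNeumannAlgebra.mem_commutant_iff.1 hzC) b hb).symm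
  obtain ⟨c, hc⟩ := h.factor _ hzM hcomm
  have hmemK : ∀ x ∈ M, ∀ v : H, x (q v) ∈ K := by
    intro x hx v
    exact Submodule.le_topologicalClosure _ (Submodule.subset_span ⟨x, hx, v, rfl⟩)
  -- `p` vanishes on `K`
  have hpK : ∀ v ∈ K, p v = 0 := by
    intro v hv
    have hv' : v ∈ closure ((Submodule.span ℂ S : Submodule ℂ H) : Set H) := by
      rw [← Submodule.topologicalClosure_coe]; exact hv
    have hle : Submodule.span ℂ S ≤ LinearMap.ker (p : H →ₗ[ℂ] H) := by
      rw [Submodule.span_le]
      rintro s ⟨x, hx, v, rfl⟩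
      have := h0 x hx
      have h1 : (p * x * q) v = 0 := by rw [this]; rfl
      exact h1
    have hcl : IsClosed {w : H | p w = 0} := isClosed_eq p.continuous continuous_const
    exact closure_minimal (fun w hw => hle hw) hcl hv'
  by_cases hc0 : c = 0
  · right
    ext v
    have h1 : q v ∈ K := hmemK 1 (one_mem _) v
    have h2 : K.starProjection (q v) = q v := Submodule.starProjection_eq_self_iff.2 h1
    rw [hc, hc0] at h2
    simpa using h2.symm
  · left
    ext v
    have h1 : K.starProjection v ∈ K := Submodule.starProjection_apply_mem K v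
    have h2 := hpK _ h1
    rw [hc] at h2
    have h3 : c • p v = 0 := by simpa using h2
    rcases smul_eq_zero.1 h3 with h4 | h4
    · exact absurd h4 hc0
    · simpa using h4

end Pool.Agent.Lib.UPE
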