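import Pool.Agent.Lib.UPE.SP

/-!
# UPE / PI (130 lines): partial isometries from non-zero elements

PROOF.  Replace `x` by `p * x * q` (so `p x = x = x q`, `x ≠ 0`).  `a = star x * x ≥ 0`, `a ≠ 0`, `c = ‖a‖ / 2 > 0`,
`e = spr a c`, `G = cfc (fun t => 1 / Real.sqrt (max t c)) a`, `w = x * G * e`.  `e, G, a` commute (`spr_comm`).
`star w * w = e * G * a * G * e = cfc (fun t => t / max t c) a * e` and `1 - t / max t c = (1/c) * max (c - t) 0` for all
real `t ≤ ...` (for `t ≥ 0`; on the spectrum of `a ≥ 0` this suffices: `cfc_congr`), so by `cfc_mul_spr_neg`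
`star w * w = e`.  `e ≠ 0`: otherwise `‖a‖ ≤ c` by `norm_le_of_spr`.  So `w ≠ 0`, `w * (star w * w) = w * e = w`.
`p * w = w`.  `q * a = a` (since `x q = x`), so `q * e = e` by `spr_le` and `e * q = e` (adjoint), `w * q = w * e * q = w`.
-/

set_option autoImplicit false

open Filter Topology

namespace Pool.Agent.Lib.UPE

variable {H : Type*} [NormedAddCommGroup H] [InnerProductSpace ℂ H] [CompleteSpace H]
variable {M : VonNeumannAlgebra H} {ξ : ℕ → H}

theorem exists_piso {p q x : H →L[ℂ] H} (hp : IsStarProjection p) (hq : IsStarProjection q)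
    (hpM : p ∈ M) (hqM : q ∈ M) (hxM : x ∈ M) (hx : p * x * q ≠ 0) :
    ∃ w ∈ M, w ≠ 0 ∧ w * star w * w = w ∧ p * w = w ∧ w * q = w := by
  obtain ⟨x', hx'⟩ : ∃ x' : H →L[ℂ] H, x' = p * x * q := ⟨_, rfl⟩
  rw [← hx'] at hx
  have hx'M : x' ∈ M := by
    rw [hx']
    exact mul_mem (mul_mem hpM hxM) hqM
  have hpx : p * x' = x' := by
    rw [hx', mul_assoc p x q, ← mul_assoc p p, hp.isIdempotentElem.eq]
  have hxq : x' * q = x' := by
    rw [hx', mul_assoc (p * x) q q, hq.isIdempotentElem.eq]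
  obtain ⟨a, haa⟩ : ∃ a : H →L[ℂ] H, a = star x' * x' := ⟨_, rfl⟩
  have ha : 0 ≤ a := by
    rw [haa]
    exact star_mul_self_nonneg x'
  have hsa : IsSelfAdjoint a := by
    rw [haa]
    exact IsSelfAdjoint.star_mul_self x'
  have haM : a ∈ M := by
    rw [haa]
    exact mul_mem (star_mem hx'M) hx'M
  have hna : 0 < ‖a‖ := by
    rw [haa, CStarRing.norm_star_mul_self]
    have := norm_pos_iff.2 hx
    positivity
  obtain ⟨c, hcc⟩ : ∃ c : ℝ, c = ‖a‖ / 2 := ⟨_, rfl⟩
  have hc : 0 < c := by
    rw [hcc]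
    positivity
  obtain ⟨e, hee⟩ : ∃ e : H →L[ℂ] H, e = spr a c := ⟨_, rfl⟩
  have he : IsStarProjection e := by
    rw [hee]
    exact spr_proj a c
  have heM : e ∈ M := by
    rw [hee]
    exact spr_mem haM c
  have he2 : e * e = e := he.isIdempotentElem.eq
  have hes : star e = e := he.isSelfAdjoint.star_eq
  have he0 : e ≠ 0 := by
    intro h
    rw [hee] at h
    have := norm_le_of_spr ha hc.le h
    rw [hcc] at this
    linarith
  obtain ⟨g, hg⟩ : ∃ g : ℝ → ℝ, g = fun t => 1 / Real.sqrt (max t c) := ⟨_, rfl⟩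
  have hmax : ∀ t : ℝ, 0 < max t c := fun t => lt_max_of_lt_right hc
  have hgc : Continuous g := by
    rw [hg]
    refine continuous_const.div (by fun_prop) (fun t => ?_)
    exact (Real.sqrt_pos.2 (hmax t)).ne'
  have hsG : star (cfc g a) = cfc g a := (cfc_predicate g a : IsSelfAdjoint (cfc g a)).star_eq
  have hGaG : cfc g a * a * cfc g a = cfc (fun t : ℝ => g t * t * g t) a := by
    rw [cfc_mul (fun t : ℝ => g t * t) g a (by fun_prop) (by fun_prop),
      cfc_mul g (fun t : ℝ => t) a (by fun_prop) (by fun_prop), cfc_id' ℝ a]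
  have hfun : (fun t : ℝ => (1 / c) * max (c - t) 0) = fun t : ℝ => 1 - g t * t * g t := by
    funext t
    have h1 : g t * t * g t = t / max t c := by
      have h2 := hmax t
      have h3 : Real.sqrt (max t c) * Real.sqrt (max t c) = max t c := Real.mul_self_sqrt h2.le
      rw [hg]
      simp only
      rw [one_div_mul_eq_div, div_mul_div_comm, mul_one, h3]
    rw [h1]
    rcases le_total t c with h | h
    · rw [max_eq_right h, max_eq_left (by linarith)]
      field_simp
    · have h2 : 0 < t := hc.trans_le h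
      rw [max_eq_left h, max_eq_right (by linarith), div_self h2.ne']
      ring
  have hne := cfc_mul_spr_neg (a := a) hsa c (g := fun _ => 1 / c) continuous_const
  rw [hfun, cfc_sub (fun _ : ℝ => (1 : ℝ)) (fun t : ℝ => g t * t * g t) a (by fun_prop) (by fun_prop),
    cfc_const_one ℝ a, ← hee, sub_mul, one_mul, sub_eq_zero] at hne
  obtain ⟨w, hw⟩ : ∃ w : H →L[ℂ] H, w = x' * cfc g a * e := ⟨_, rfl⟩
  have hww : star w * w = e := by
    rw [hw, star_mul, star_mul, hsG, hes]
    calc e * (cfc g a * star x') * (x' * cfc g a * e)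
        = e * ((cfc g a * (star x' * x') * cfc g a) * e) := by noncomm_ring
      _ = e := by rw [← haa, hGaG, ← hne, he2]
  have hqa : q * a = a := by
    have h1 : q * star x' = star x' := by
      have h2 : star (x' * q) = star x' := by rw [hxq]
      rwa [star_mul, hq.isSelfAdjoint.star_eq] at h2
    rw [haa, ← mul_assoc, h1]
  have hqe : q * e = e := by
    rw [hee]
    exact spr_le hsa hqa hc
  have heq : e * q = e := by
    have h2 : star (q * e) = star e := by rw [hqe]
    rwa [star_mul, hq.isSelfAdjoint.star_eq, hes] at h2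
  refine ⟨w, ?_, ?_, ?_, ?_, ?_⟩
  · rw [hw]
    exact mul_mem (mul_mem hx'M (cfc_mem haM g)) heM
  · intro h
    rw [h, mul_zero] at hww
    exact he0 hww.symm
  · rw [mul_assoc, hww, hw, mul_assoc, he2]
  · rw [hw, ← mul_assoc, ← mul_assoc, hpx]
  · rw [hw, mul_assoc, heq]

end Pool.Agent.Lib.UPE
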