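import Pool.Agent.Lib.UPE.MX
import Pool.Agent.Lib.UPE.PI
import Pool.Agent.Lib.UPE.FA

/-!
# UPE / CMP (130 lines): comparison of projections in a II_1 factor

PROOF.  `exists_max` for `S = {v ∈ M : v * star v * v = v, q * v = v, v * p = v}`, `v0 = 0` (`hlim` from the two clauses about
`a`): a maximal `u`.  `e = star u * u` and `f = u * star u` are projections in `M`, `p * e = e = e * p`, `q * f = f = f * q`.
Put `p' = p - e`, `q' = q - f` (projections).  If `q' * x * p' ≠ 0` for some `x ∈ M`, `exists_piso` gives `w ≠ 0` in `M`,
partial isometry with `q' * w = w`, `w * p' = w`; then `v = u + w` is in `S`: `star u * w = star u * f * q' * w = 0`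
(`f * q' = 0`), `w * star u = 0` (`w * e = w * p' * e = 0`, `star u = e * star u`), so `star v * v = e + star w * w`,
`v * star v * v = v`; `v * (star u * u) = u + w * e = u`; maximality: `v = u`, `w = 0`.  Contradiction.  So `factor_mul`:
`q' = 0` or `p' = 0`.  `p' = 0`: `star u * u = p`, done (`v = u`).  `q' = 0`: `q = f`, `tr q = tr (u * star u) = tr e`, so
`tr p' = tr p - tr q` has real part `≤ 0`, and `≥ 0`, so `p' = 0` (`proj_eq_zero`), done.
-/

set_option autoImplicit false

open Filter Topology

namespace Pool.Agent.Lib.UPE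

variable {H : Type*} [NormedAddCommGroup H] [InnerProductSpace ℂ H] [CompleteSpace H]
variable {M : VonNeumannAlgebra H} {ξ : ℕ → H}

theorem compare (h : IsIIOne M ξ) {p q : H →L[ℂ] H} (hp : IsStarProjection p) (hq : IsStarProjection q)
    (hpM : p ∈ M) (hqM : q ∈ M) (hle : (tr ξ p).re ≤ (tr ξ q).re) :
    ∃ v ∈ M, star v * v = p ∧ q * v = v := by
  have hpp : p * p = p := hp.isIdempotentElem
  have hps : star p = p := hp.isSelfAdjoint
  have hqq : q * q = q := hq.isIdempotentElem
  have hqs : star q = q := hq.isSelfAdjoint
  obtain ⟨u, hu, -, hmax⟩ := exists_max h.toIsTrace {v | v ∈ M ∧ v * star v * v = v ∧ q * v = v ∧ v * p = v}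
    (fun v hv => ⟨hv.1, hv.2.1⟩)
    (fun v u hv hu1 hu2 _ h3 h4 _ _ => ⟨hu1, hu2, h3 q fun n => (hv n).2.2.1, h4 p fun n => (hv n).2.2.2⟩)
    (v0 := 0) ⟨zero_mem M, by simp, by simp, by simp⟩
  obtain ⟨huM, hu1, hqu, hup⟩ := hu
  have hsM : star u ∈ M := star_mem huM
  -- the adjoint relations
  have hsu : star u * u * star u = star u := by
    have := congrArg star hu1
    rw [star_mul, star_mul, star_star, ← mul_assoc] at this
    exact this
  have hsq : star u * q = star u := by
    have := congrArg star hqu
    rwa [star_mul, hqs] at this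
  have hps' : p * star u = star u := by
    have := congrArg star hup
    rwa [star_mul, hps] at this
  have heM : star u * u ∈ M := mul_mem hsM huM
  have hfM : u * star u ∈ M := mul_mem huM hsM
  have hee : star u * u * (star u * u) = star u * u := by
    rw [← mul_assoc, hsu]
  have hff : u * star u * (u * star u) = u * star u := by
    rw [← mul_assoc, hu1]
  have hes : star (star u * u) = star u * u := by rw [star_mul, star_star]
  have hfs : star (u * star u) = u * star u := by rw [star_mul, star_star]
  have hpe : p * (star u * u) = star u * u := by rw [← mul_assoc, hps']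
  have hep : star u * u * p = star u * u := by rw [mul_assoc, hup]
  have hqf : q * (u * star u) = u * star u := by rw [← mul_assoc, hqu]
  have hfq : u * star u * q = u * star u := by rw [mul_assoc, hsq]
  have hp' : IsStarProjection (p - star u * u) := by
    refine ⟨?_, ?_⟩
    · show (p - star u * u) * (p - star u * u) = p - star u * u
      rw [sub_mul, mul_sub, mul_sub, hpp, hpe, hep, hee]
      abel
    · show star (p - star u * u) = p - star u * u
      rw [star_sub, hps, hes]
  have hq' : IsStarProjection (q - u * star u) := by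
    refine ⟨?_, ?_⟩
    · show (q - u * star u) * (q - u * star u) = q - u * star u
      rw [sub_mul, mul_sub, mul_sub, hqq, hqf, hfq, hff]
      abel
    · show star (q - u * star u) = q - u * star u
      rw [star_sub, hqs, hfs]
  have hp'M : p - star u * u ∈ M := sub_mem hpM heM
  have hq'M : q - u * star u ∈ M := sub_mem hqM hfM
  have key : ∀ x ∈ M, (q - u * star u) * x * (p - star u * u) = 0 := by
    intro x hx
    by_contra hne
    obtain ⟨w, hwM, hw0, hw1, hw2, hw3⟩ := exists_piso hq' hp' hq'M hp'M hx hne
    have a1 : star u * w = 0 := by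
      rw [← hw2, ← mul_assoc, mul_sub, hsq, ← mul_assoc, hsu, sub_self, zero_mul]
    have a2 : w * star u = 0 := by
      rw [← hw3, mul_assoc, sub_mul, hps', hsu, sub_self, mul_zero]
    have a3 : star w * u = 0 := by
      have := congrArg star a1
      rwa [star_mul, star_star, star_zero] at this
    have a4 : u * star w = 0 := by
      have := congrArg star a2
      rwa [star_mul, star_star, star_zero] at this
    have hqw : q * w = w := by
      rw [← hw2, ← mul_assoc, mul_sub, hqq, hqf]
    have hwp : w * p = w := by
      rw [← hw3, mul_assoc, sub_mul, hpp, hep]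
    have hv : u + w ∈ {v | v ∈ M ∧ v * star v * v = v ∧ q * v = v ∧ v * p = v} := by
      refine ⟨add_mem huM hwM, ?_, ?_, ?_⟩
      · have b1 : (u + w) * star (u + w) = u * star u + w * star w := by
          rw [star_add, add_mul, mul_add, mul_add, a4, a2, add_zero, zero_add]
        rw [b1, add_mul, mul_add, mul_add, hu1, hw1, mul_assoc u, a1, mul_assoc w, a3, mul_zero, mul_zero, add_zero,
          zero_add]
      · rw [mul_add, hqu, hqw]
      · rw [add_mul, hup, hwp]
    have h1 := hmax (u + w) hv (by rw [add_mul, ← mul_assoc, ← mul_assoc, hu1, a2, zero_mul, add_zero])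
    exact hw0 (by simpa using h1)
  rcases factor_mul h hq'M hp'M key with h0 | h0
  · have hqe : q = u * star u := sub_eq_zero.1 h0
    have ht : tr ξ q = tr ξ (star u * u) := by
      conv_lhs => rw [hqe]
      exact h.tracial u huM (star u) hsM
    have h1 : tr ξ (p - star u * u) = tr ξ p - tr ξ q := by rw [tr_sub h.toIsTrace, ht]
    have h2 := (re_tr_proj_mem h.toIsTrace hp').1
    have h3 : (tr ξ (p - star u * u)).re = 0 := by
      have : (tr ξ (p - star u * u)).re = (tr ξ p).re - (tr ξ q).re := by rw [h1, Complex.sub_re]
      linarith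
    have h4 := proj_eq_zero h.toIsTrace hp' hp'M h3
    exact ⟨u, huM, (sub_eq_zero.1 h4).symm, hqu⟩
  · exact ⟨u, huM, (sub_eq_zero.1 h0).symm, hqu⟩

end Pool.Agent.Lib.UPE
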