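import Pool.Agent.Lib.UPE.Bas

/-!
# UPE / CO1 (100 lines): the relative commutant

PROOF.  `corner_comm`: `Θ₁`, `Θ₂` from the two corner embeddings, `Θ a n = Θ₁ a n + Θ₂ a n`.  The mixed products vanish
(`Θ₁ a n = p Θ₁ a n p`, `Θ₂ b n = (1-p) Θ₂ b n (1-p)`), so `mul` etc. add up; trace `tr p * tr a + tr (1 - p) * tr a = tr a`;
`Θ 1 n - 1 = (Θ₁ 1 n - p) + (Θ₂ 1 n - (1 - p))` is null.  `x n = p` (constant): `p * Θ a n = Θ₁ a n = Θ a n * p`, so the commutator is 0.  If
`Null (fun _ => p - c • 1)` then `n2 (p - c • 1) = 0` (`tendsto_const_nhds`, `tendsto_nhds_unique`), `p = c • 1` (`eq_zero_of_n2`), `p` idempotent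
gives `c = 0` or `c = 1` (or `1 = 0`, impossible by `tr_one`), so `p = 0` or `p = 1`, a contradiction.
`gamma_comm`: `Θ a n = a`.
-/

set_option autoImplicit false

open Filter Topology

namespace Pool.Agent.Lib.UPE

variable {H : Type*} [NormedAddCommGroup H] [InnerProductSpace ℂ H] [CompleteSpace H]
variable {M : VonNeumannAlgebra H} {ξ : ℕ → H}

private theorem co1_add (h : IsTrace M ξ) {U : Ultrafilter ℕ} {x y : ℕ → (H →L[ℂ] H)}
    (hx : Null ξ U x) (hy : Null ξ U y) : Null ξ U fun n => x n + y n := by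
  have h0 : Tendsto (fun n => n2 ξ (x n) + n2 ξ (y n)) U (𝓝 0) := by
    have := Tendsto.add hx hy
    rwa [add_zero] at this
  exact squeeze_zero (fun n => n2_nonneg _) (fun n => n2_add_le h _ _) h0

private theorem co1_zero {U : Ultrafilter ℕ} {x : ℕ → (H →L[ℂ] H)} (hx : ∀ n, x n = 0) :
    Null ξ U x := by
  have : x = fun _ => 0 := funext hx
  rw [this]
  unfold Null
  simp only [n2_zero]
  exact tendsto_const_nhds

theorem corner_comm (h : IsTrace M ξ) {U : Ultrafilter ℕ} {p : H →L[ℂ] H} (hp : IsStarProjection p)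
    (hpM : p ∈ M) (hp0 : p ≠ 0) (hp1 : p ≠ 1) (h1 : CornerEmb M ξ U p) (h2 : CornerEmb M ξ U (1 - p)) :
    CommEmb M ξ U := by
  obtain ⟨T, eT, cT, uT⟩ := h1
  obtain ⟨S, eS, cS, uS⟩ := h2
  have hpp : p * p = p := hp.isIdempotentElem
  have pl : ∀ a n, p * T a n = T a n := fun a n => by
    conv_lhs => rw [← cT a n]
    conv_rhs => rw [← cT a n]
    rw [← mul_assoc, ← mul_assoc, hpp]
  have pr : ∀ a n, T a n * p = T a n := fun a n => by
    conv_lhs => rw [← cT a n]
    conv_rhs => rw [← cT a n]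
    rw [mul_assoc, hpp]
  have hq1 : p * (1 - p) = 0 := by rw [mul_sub, mul_one, hpp, sub_self]
  have hq2 : (1 - p) * p = 0 := by rw [sub_mul, one_mul, hpp, sub_self]
  have ql : ∀ a n, p * S a n = 0 := fun a n => by
    rw [← cS a n, ← mul_assoc, ← mul_assoc, hq1, zero_mul, zero_mul]
  have qr : ∀ a n, S a n * p = 0 := fun a n => by
    rw [← cS a n, mul_assoc, hq2, mul_zero]
  have m1 : ∀ a b n, T a n * S b n = 0 := fun a b n => by
    rw [← pr a n, mul_assoc, ql, mul_zero]
  have m2 : ∀ a b n, S a n * T b n = 0 := fun a b n => by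
    rw [← pl b n, ← mul_assoc, qr, zero_mul]
  refine ⟨fun a n => T a n + S a n, ⟨fun a n => ?_, fun a => ?_, fun a b => ?_, fun c a => ?_,
    fun a b => ?_, fun a => ?_, fun a => ?_⟩, ?_, fun _ => p, fun _ => hpM, ⟨‖p‖, fun _ => le_rfl⟩,
    fun a => ?_, fun c hc => ?_⟩
  · exact add_mem (eT.mem a n) (eS.mem a n)
  · obtain ⟨C, hC⟩ := eT.bdd a
    obtain ⟨D, hD⟩ := eS.bdd a
    exact ⟨C + D, fun n => (norm_add_le _ _).trans (add_le_add (hC n) (hD n))⟩
  · have := co1_add h (eT.add a b) (eS.add a b)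
    refine (show (fun n => T (a + b) n + S (a + b) n - (T a n + S a n + (T b n + S b n))) = _ from
      funext fun n => ?_) ▸ this
    abel
  · have := co1_add h (eT.smul c a) (eS.smul c a)
    refine (show (fun n => T (c • a) n + S (c • a) n - c • (T a n + S a n)) = _ from
      funext fun n => ?_) ▸ this
    rw [smul_add]; abel
  · have := co1_add h (eT.mul a b) (eS.mul a b)
    refine (show (fun n => T (a * b) n + S (a * b) n - (T a n + S a n) * (T b n + S b n)) = _ from
      funext fun n => ?_) ▸ this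
    rw [add_mul, mul_add, mul_add, m1, m2]; abel
  · have := co1_add h (eT.star_ a) (eS.star_ a)
    refine (show (fun n => T (star a) n + S (star a) n - star (T a n + S a n)) = _ from
      funext fun n => ?_) ▸ this
    rw [star_add]; abel
  · have e1 := Tendsto.add (eT.trace a) (eS.trace a)
    have e2 : tr ξ p * tr ξ (a : H →L[ℂ] H) + tr ξ (1 - p) * tr ξ (a : H →L[ℂ] H) =
        tr ξ (a : H →L[ℂ] H) := by
      rw [tr_sub h, tr_one h]; ring
    simp only [e2] at e1
    simp only [tr_add h]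
    exact e1
  · have := co1_add h uT uS
    refine (show (fun n => T 1 n + S 1 n - 1) = _ from funext fun n => ?_) ▸ this
    abel
  · refine co1_zero fun n => ?_
    show p * (T a n + S a n) - (T a n + S a n) * p = 0
    rw [mul_add, add_mul, pl, pr, ql, qr, sub_self]
  · have e1 : n2 ξ (p - c • (1 : H →L[ℂ] H)) = 0 := tendsto_nhds_unique tendsto_const_nhds hc
    have e2 := eq_zero_of_n2 h (sub_mem hpM (smul_mem' c (one_mem M))) e1
    have e3 : p = c • (1 : H →L[ℂ] H) := sub_eq_zero.1 e2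
    have e4 : tr ξ (p * p) = tr ξ p := by rw [hpp]
    have e6 : tr ξ p = c := by rw [e3, tr_smul, tr_one h, mul_one]
    have e8 : tr ξ (p * p) = c * c := by
      rw [e3, smul_mul_smul_comm, mul_one, tr_smul, tr_one h, mul_one]
    have e5 : c * c = c := by rw [← e8, e4, e6]
    have e7 : c * (c - 1) = 0 := by rw [mul_sub, e5, mul_one, sub_self]
    rcases mul_eq_zero.1 e7 with h0 | h0
    · exact hp0 (by rw [e3, h0, zero_smul])
    · exact hp1 (by rw [e3, sub_eq_zero.1 h0, one_smul])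

theorem gamma_comm (h : IsTrace M ξ) {U : Ultrafilter ℕ} (x : ℕ → (H →L[ℂ] H)) (hx : ∀ n, x n ∈ M)
    (hb : ∃ C : ℝ, ∀ n, ‖x n‖ ≤ C) (hc : ∀ a ∈ M, Null ξ U fun n => x n * a - a * x n)
    (hn : ∀ c : ℂ, ¬ Null ξ U fun n => x n - c • (1 : H →L[ℂ] H)) : CommEmb M ξ U := by
  refine ⟨fun a _ => (a : H →L[ℂ] H), ⟨fun a n => a.2, fun a => ⟨‖(a : H →L[ℂ] H)‖, fun _ => le_rfl⟩,
    fun a b => ?_, fun c a => ?_, fun a b => ?_, fun a => ?_, fun a => tendsto_const_nhds⟩, ?_, x, hx,
    hb, fun a => hc a a.2, hn⟩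
  · refine co1_zero fun n => ?_
    simp
  · refine co1_zero fun n => ?_
    simp
  · refine co1_zero fun n => ?_
    simp
  · refine co1_zero fun n => ?_
    simp
  · refine co1_zero fun n => ?_
    simp

end Pool.Agent.Lib.UPE
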