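import Pool.Agent.Lib.UPE.SP

/-!
# UPE / FC (100 lines): functional calculus in the relative commutant

PROOF.  For a polynomial `P`: `Null (fun n => P(x n) * b n - b n * P(x n))`: for powers by induction
(`x^(j+1) b - b x^(j+1) = x (x^j b - b x^j) + (x b - b x) x^j`, `n2_mul_le`, `n2_mul_le'`, `‖x n‖ ≤ R`), linear
combinations.  For continuous `f` and `ε > 0` take a polynomial `P` with `|P - f| ≤ ε` on `[-R, R]`
(`exists_polynomial_near_of_continuousOn`): `‖cfc f (x n) - P(x n)‖ ≤ ε` (`norm_cfc_le`, `cfc_sub`, the spectrum of `x n` is in `[-R, R]`), so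
`n2 (commutator for f) ≤ 2 ε C + n2 (commutator for P)`.
-/

set_option autoImplicit false

open Filter Topology

namespace Pool.Agent.Lib.UPE

variable {H : Type*} [NormedAddCommGroup H] [InnerProductSpace ℂ H] [CompleteSpace H]
variable {M : VonNeumannAlgebra H} {ξ : ℕ → H}

private theorem fc_mem {a : H →L[ℂ] H} {t : ℝ} (ht : t ∈ spectrum ℝ a) : |t| ≤ ‖a‖ := by
  have h1 := spectrum.norm_le_norm_mul_of_mem ht
  have h2 : ‖(1 : H →L[ℂ] H)‖ ≤ 1 := by
    rcases subsingleton_or_nontrivial H with h | h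
    · have : (1 : H →L[ℂ] H) = 0 := Subsingleton.elim _ _
      rw [this, norm_zero]
      norm_num
    · exact (norm_one).le
  rw [Real.norm_eq_abs] at h1
  nlinarith [norm_nonneg a]

/-- the commutators with powers -/
private theorem fc_pow (h : IsTrace M ξ) {R : ℝ} (hR : 0 ≤ R) (j : ℕ) : ∃ K : ℝ, 0 ≤ K ∧
    ∀ x b : H →L[ℂ] H, x ∈ M → b ∈ M → ‖x‖ ≤ R → n2 ξ (x ^ j * b - b * x ^ j) ≤ K * n2 ξ (x * b - b * x) := by
  induction j with
  | zero =>
    refine ⟨0, le_rfl, fun x b _ _ _ => ?_⟩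
    simp [n2_zero]
  | succ j ih =>
    obtain ⟨K, hK, hb⟩ := ih
    refine ⟨R * K + R ^ j, by positivity, fun x b hx hb' hxR => ?_⟩
    have e : x ^ (j + 1) * b - b * x ^ (j + 1) = x * (x ^ j * b - b * x ^ j) + (x * b - b * x) * x ^ j := by
      rw [pow_succ']
      noncomm_ring
    have hn : ‖x ^ j‖ ≤ R ^ j ∨ j = 0 := by
      rcases Nat.eq_zero_or_pos j with h0 | h0
      · exact Or.inr h0
      · exact Or.inl ((norm_pow_le' x h0).trans (by gcongr))
    have h1 := n2_add_le h (x * (x ^ j * b - b * x ^ j)) ((x * b - b * x) * x ^ j)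
    have h2 := n2_mul_le h x (x ^ j * b - b * x ^ j)
    have hcm : x * b - b * x ∈ M := sub_mem (mul_mem hx hb') (mul_mem hb' hx)
    have h3 : n2 ξ ((x * b - b * x) * x ^ j) ≤ R ^ j * n2 ξ (x * b - b * x) := by
      rcases hn with hn | hn
      · have h4 := n2_mul_le' h hcm (pow_mem hx j)
        refine h4.trans ?_
        rw [mul_comm]
        exact mul_le_mul_of_nonneg_right hn (n2_nonneg _)
      · rw [hn]; simp
    have h5 : ‖x‖ * n2 ξ (x ^ j * b - b * x ^ j) ≤ R * (K * n2 ξ (x * b - b * x)) :=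
      mul_le_mul hxR (hb x b hx hb' hxR) (n2_nonneg _) hR
    rw [e]
    calc _ ≤ n2 ξ (x * (x ^ j * b - b * x ^ j)) + n2 ξ ((x * b - b * x) * x ^ j) := h1
      _ ≤ R * (K * n2 ξ (x * b - b * x)) + R ^ j * n2 ξ (x * b - b * x) := add_le_add (h2.trans h5) h3
      _ = (R * K + R ^ j) * n2 ξ (x * b - b * x) := by ring

/-- the commutators with polynomials -/
private theorem fc_poly (h : IsTrace M ξ) {R : ℝ} (hR : 0 ≤ R) (P : Polynomial ℝ) : ∃ K : ℝ, 0 ≤ K ∧
    ∀ x b : H →L[ℂ] H, x ∈ M → b ∈ M → ‖x‖ ≤ R →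
      n2 ξ (Polynomial.aeval x P * b - b * Polynomial.aeval x P) ≤ K * n2 ξ (x * b - b * x) := by
  induction P using Polynomial.induction_on' with
  | add P Q hP hQ =>
    obtain ⟨K, hK, hP⟩ := hP
    obtain ⟨L, hL, hQ⟩ := hQ
    refine ⟨K + L, by positivity, fun x b hx hb hxR => ?_⟩
    have e : Polynomial.aeval x (P + Q) * b - b * Polynomial.aeval x (P + Q) =
        (Polynomial.aeval x P * b - b * Polynomial.aeval x P) + (Polynomial.aeval x Q * b - b * Polynomial.aeval x Q) := by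
      rw [map_add]
      noncomm_ring
    rw [e, add_mul]
    exact (n2_add_le h _ _).trans (add_le_add (hP x b hx hb hxR) (hQ x b hx hb hxR))
  | monomial j r =>
    obtain ⟨K, hK, hj⟩ := fc_pow (M := M) h hR j
    refine ⟨|r| * K, by positivity, fun x b hx hb hxR => ?_⟩
    have e : Polynomial.aeval x (Polynomial.monomial j r) * b - b * Polynomial.aeval x (Polynomial.monomial j r) =
        (r : ℂ) • (x ^ j * b - b * x ^ j) := by
      have e1 : Polynomial.aeval x (Polynomial.monomial j r) = (r : ℂ) • x ^ j := by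
        rw [Polynomial.aeval_monomial, ← Algebra.smul_def]
        rfl
      rw [e1, smul_sub, smul_mul_assoc, mul_smul_comm]
    rw [e, n2_smul, Complex.norm_real, Real.norm_eq_abs, mul_assoc]
    exact mul_le_mul_of_nonneg_left (hj x b hx hb hxR) (abs_nonneg r)

theorem comm_cfc (h : IsTrace M ξ) {U : Ultrafilter ℕ} {x b : ℕ → (H →L[ℂ] H)} {R C : ℝ}
    (hx : ∀ n, x n ∈ M) (hsa : ∀ n, IsSelfAdjoint (x n)) (hxR : ∀ n, ‖x n‖ ≤ R) (hb : ∀ n, b n ∈ M)
    (hbC : ∀ n, ‖b n‖ ≤ C) (hc : Null ξ U fun n => x n * b n - b n * x n) {f : ℝ → ℝ} (hf : Continuous f) :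
    Null ξ U fun n => cfc f (x n) * b n - b n * cfc f (x n) := by
  have hR : 0 ≤ R := (norm_nonneg _).trans (hxR 0)
  have hC : 0 ≤ C := (norm_nonneg _).trans (hbC 0)
  unfold Null at hc ⊢
  rw [Metric.tendsto_nhds] at hc ⊢
  intro ε hε
  set δ : ℝ := ε / (4 * (C + 1)) with hδ
  have hδ0 : 0 < δ := by positivity
  obtain ⟨P, hP⟩ := exists_polynomial_near_of_continuousOn (-R) R f hf.continuousOn δ hδ0
  obtain ⟨K, hK, hPK⟩ := fc_poly (M := M) h hR P
  have hc1 := hc (ε / (2 * (K + 1))) (by positivity)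
  filter_upwards [hc1] with n hn
  rw [Real.dist_eq, sub_zero, abs_of_nonneg (n2_nonneg _)] at hn ⊢
  have hd : ‖cfc f (x n) - Polynomial.aeval (x n) P‖ ≤ δ := by
    rw [← cfc_polynomial P (x n) (hsa n), ← cfc_sub f P.eval (x n) hf.continuousOn P.continuous.continuousOn]
    apply norm_cfc_le hδ0.le
    intro t ht
    have h1 := (fc_mem ht).trans (hxR n)
    have h2 := hP t (Set.mem_Icc.2 (abs_le.1 h1))
    rw [Real.norm_eq_abs, abs_sub_comm]
    exact h2.le
  set y := cfc f (x n) with hy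
  set z := Polynomial.aeval (x n) P with hz
  have hyM : y ∈ M := cfc_mem (hx n) f
  have hzM : z ∈ M := by
    rw [hz, ← cfc_polynomial P (x n) (hsa n)]
    exact cfc_mem (hx n) _
  have e : y * b n - b n * y = ((y - z) * b n - b n * (y - z)) + (z * b n - b n * z) := by noncomm_ring
  have h1 : n2 ξ ((y - z) * b n) ≤ δ * C := by
    refine (n2_le_norm h _).trans ((norm_mul_le _ _).trans ?_)
    exact mul_le_mul hd (hbC n) (norm_nonneg _) hδ0.le
  have h2 : n2 ξ (b n * (y - z)) ≤ δ * C := by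
    refine (n2_le_norm h _).trans ((norm_mul_le _ _).trans ?_)
    rw [mul_comm δ C]
    exact mul_le_mul (hbC n) hd (norm_nonneg _) hC
  have h3 := hPK (x n) (b n) (hx n) (hb n) (hxR n)
  have h4 := n2_sub_le h ((y - z) * b n) (b n * (y - z))
  have h5 := n2_add_le h ((y - z) * b n - b n * (y - z)) (z * b n - b n * z)
  rw [← e] at h5
  have h6 : K * n2 ξ (x n * b n - b n * x n) < ε / 2 := by
    rcases hK.eq_or_lt with h0 | h0
    · rw [← h0, zero_mul]; positivity
    · calc K * n2 ξ (x n * b n - b n * x n) < K * (ε / (2 * (K + 1))) := mul_lt_mul_of_pos_left hn h0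
        _ ≤ (K + 1) * (ε / (2 * (K + 1))) := by
            apply mul_le_mul_of_nonneg_right (by linarith) (by positivity)
        _ = ε / 2 := by field_simp
  have h7 : δ * C ≤ ε / 4 := by
    have h8 : δ * (4 * (C + 1)) = ε := by
      rw [hδ]; field_simp
    nlinarith
  linarith

end Pool.Agent.Lib.UPE
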