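import Pool.Agent.Lib.UPE.NM

/-!
# UPE / DF (130 lines): projections of every trace

PROOF.  (1) Every non-zero projection `r ∈ M` and every `ε > 0` have a projection `e ∈ M`, `e * r = e`, `e ≠ 0`, `(tr e).re < ε`: by
`exists_sub` there is `e`, `e ≠ 0, r`; `e` or `r - e` has trace at most half of that of `r`; iterate.
(2) `exists_max` for `S = {e ∈ M : IsStarProjection e, e * q = e, (tr e).re ≤ s}` with `v0 = 0`; `hlim`: `u` is a strong limit of
projections, so idempotent and self-adjoint (`⟪u ζ, η⟫ = lim`; or: `u * (star (v n) * v n) = v n` is `u * v n = v n` ...), `u * q = u` by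
the clause `∀ n, v n * q = v n`, and the trace passes to the limit (`star (v n) * v n = v n`).  So a maximal `p ∈ S`.  If
`(tr p).re < s ≤ (tr q).re` then `q - p` is a non-zero projection; take `e` from (1) below `q - p` with trace `≤ s - (tr p).re`;
`p + e ∈ S` and `(p + e) * (star p * p) = p`: maximality gives `e = 0`, contradiction.  So `(tr p).re = s` and
`tr p = s` by `re_tr_proj_mem`.
-/

set_option autoImplicit false

open Filter Topology

namespace Pool.Agent.Lib.UPE

variable {H : Type*} [NormedAddCommGroup H] [InnerProductSpace ℂ H] [CompleteSpace H]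
variable {M : VonNeumannAlgebra H} {ξ : ℕ → H}

private theorem exists_half (h : IsIIOne M ξ) {r : H →L[ℂ] H} (hr : IsStarProjection r) (hrM : r ∈ M) (hr0 : r ≠ 0) (n : ℕ) :
    ∃ e ∈ M, IsStarProjection e ∧ e * r = e ∧ e ≠ 0 ∧ (tr ξ e).re ≤ (tr ξ r).re / 2 ^ n := by
  induction n with
  | zero => exact ⟨r, hrM, hr, hr.isIdempotentElem, hr0, by simp⟩
  | succ n ih =>
    obtain ⟨e, heM, he, her, he0, hle⟩ := ih
    obtain ⟨f, hfM, hf, hfe, hf0, hfne⟩ := exists_sub h he heM he0
    have hfr : f * r = f := by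
      calc f * r = f * e * r := by rw [hfe]
        _ = f * (e * r) := mul_assoc _ _ _
        _ = f := by rw [her, hfe]
    have hs : (tr ξ (e - f)).re = (tr ξ e).re - (tr ξ f).re := by
      rw [tr_sub h.toIsTrace]; simp
    have h2 : (tr ξ r).re / 2 ^ (n + 1) = (tr ξ r).re / 2 ^ n / 2 := by
      rw [pow_succ]; field_simp
    rcases le_total (tr ξ f).re ((tr ξ e).re / 2) with hc | hc
    · exact ⟨f, hfM, hf, hfr, hf0, by rw [h2]; linarith⟩
    · refine ⟨e - f, sub_mem heM hfM, hf.sub_of_mul_eq_left he hfe, ?_, ?_, ?_⟩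
      · rw [sub_mul, her, hfr]
      · intro h0
        exact hfne (sub_eq_zero.1 h0).symm
      · rw [h2, hs]; linarith

private theorem exists_small (h : IsIIOne M ξ) {r : H →L[ℂ] H} (hr : IsStarProjection r) (hrM : r ∈ M) (hr0 : r ≠ 0)
    {ε : ℝ} (hε : 0 < ε) :
    ∃ e ∈ M, IsStarProjection e ∧ e * r = e ∧ e ≠ 0 ∧ (tr ξ e).re ≤ ε := by
  obtain ⟨n, hn⟩ := exists_pow_lt_of_lt_one hε (by norm_num : (1 / 2 : ℝ) < 1)
  obtain ⟨e, heM, he, her, he0, hle⟩ := exists_half h hr hrM hr0 n
  refine ⟨e, heM, he, her, he0, ?_⟩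
  have h1 := (re_tr_proj_mem h.toIsTrace hr).2.1
  have h2 : (tr ξ r).re / 2 ^ n ≤ (1 / 2 : ℝ) ^ n := by
    rw [one_div, inv_pow, ← one_div]
    exact div_le_div_of_nonneg_right h1 (by positivity)
  linarith

theorem exists_trace (h : IsIIOne M ξ) {q : H →L[ℂ] H} (hq : IsStarProjection q) (hqM : q ∈ M) {s : ℝ}
    (hs0 : 0 ≤ s) (hs : s ≤ (tr ξ q).re) :
    ∃ p ∈ M, IsStarProjection p ∧ p * q = p ∧ tr ξ p = (s : ℂ) := by
  have key : ∀ e : H →L[ℂ] H, IsStarProjection e → star e * e = e := fun e he => by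
    rw [he.isSelfAdjoint.star_eq, he.isIdempotentElem]
  obtain ⟨p, hpS, -, hmax⟩ := exists_max h.toIsTrace
    {e : H →L[ℂ] H | e ∈ M ∧ IsStarProjection e ∧ e * q = e ∧ (tr ξ e).re ≤ s}
    (by
      rintro v ⟨hvM, hv, -, -⟩
      exact ⟨hvM, by rw [mul_assoc, key v hv, hv.isIdempotentElem]⟩)
    (by
      intro v u hv huM _ huv hcl hcr hlim htr
      have huv' : ∀ n, u * v n = v n := fun n => by
        have := huv n
        rwa [key _ (hv n).2.1] at this
      have hid : u * u = u := hcl u huv'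
      have hsa : IsSelfAdjoint u := by
        rw [ContinuousLinearMap.isSelfAdjoint_iff_isSymmetric]
        intro ζ η
        have h1 : Tendsto (fun n => inner ℂ (v n ζ) η) atTop (𝓝 (inner ℂ (u ζ) η)) :=
          (hlim ζ).inner tendsto_const_nhds
        have h2 : Tendsto (fun n => inner ℂ ζ (v n η)) atTop (𝓝 (inner ℂ ζ (u η))) :=
          tendsto_const_nhds.inner (hlim η)
        refine tendsto_nhds_unique h1 (h2.congr fun n => ?_)
        have h3 := (ContinuousLinearMap.isSelfAdjoint_iff_isSymmetric.1 (hv n).2.1.isSelfAdjoint) ζ η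
        exact h3.symm
      have hu : IsStarProjection u := ⟨hid, hsa⟩
      refine ⟨huM, hu, hcr q fun n => (hv n).2.2.1, ?_⟩
      rw [key u hu] at htr
      refine le_of_tendsto htr (Eventually.of_forall fun n => ?_)
      rw [key _ (hv n).2.1]
      exact (hv n).2.2.2)
    (v0 := 0) ⟨zero_mem _, IsStarProjection.zero _, by simp, by rw [tr_zero]; simpa using hs0⟩
  obtain ⟨hpM, hp, hpq, hps⟩ := hpS
  have hpre := (re_tr_proj_mem h.toIsTrace hp).2.2
  rcases lt_or_eq_of_le hps with hlt | heq
  · exfalso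
    have hqp : q * p = p := by
      have := congrArg star hpq
      rwa [star_mul, hp.isSelfAdjoint.star_eq, hq.isSelfAdjoint.star_eq] at this
    have hr : IsStarProjection (q - p) := hp.sub_of_mul_eq_left hq hpq
    have hr0 : q - p ≠ 0 := by
      intro h0
      rw [sub_eq_zero.1 h0] at hs
      linarith
    obtain ⟨e, heM, he, her, he0, hle⟩ := exists_small h hr (sub_mem hqM hpM) hr0 (sub_pos.2 hlt)
    have hep : e * p = 0 := by
      have h1 : e * p = e * (q - p) * p := by rw [her]
      rw [h1, mul_assoc, sub_mul, hqp, hp.isIdempotentElem, sub_self, mul_zero]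
    have hpe : p * e = 0 := by
      have := congrArg star hep
      rwa [star_mul, hp.isSelfAdjoint.star_eq, he.isSelfAdjoint.star_eq, star_zero] at this
    have heq : e * q = e := by
      have h1 : e * q = e * (q - p) + e * p := by rw [mul_sub]; abel
      rw [h1, her, hep, add_zero]
    have hm := hmax (p + e) ⟨add_mem hpM heM, hp.add he hpe, by rw [add_mul, hpq, heq], by
      rw [tr_add h.toIsTrace, Complex.add_re]; linarith⟩ (by
        rw [key p hp, add_mul, hp.isIdempotentElem, hep, add_zero])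
    exact he0 (by simpa using hm)
  · exact ⟨p, hpM, hp, hpq, by rw [hpre, heq]⟩

end Pool.Agent.Lib.UPE
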