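import Pool.Agent.Lib.UPE.DY
import Pool.Agent.Lib.UPE.DF
import Pool.Agent.Lib.UPE.UC

/-!
# UPE / TU (200 lines): uniqueness of the trace

PROOF.  `φ` is linear on `M` (`φ 0 = 0`, `φ (-a) = - φ a` from `hsmul`).  `φ` is real and `≥ 0` on positive elements of `M` (`a = star b * b`, `b = cfc sqrt a ∈ M`, `cfc_mem`)
and real on self-adjoint ones; for `a = star a ∈ M`: `|φ a| ≤ ‖a‖ * φ 1` (`‖a‖ • 1 ± a ≥ 0`).
(1) `tr p = tr q` (projections of `M`) gives `φ p = φ q`: `exists_unitary`, `φ (u * p * star u) = φ (star u * (u * p)) = φ p`.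
(2) So `φ p = F (tr p)` with `F : [0,1] → [0, φ 1]` (`exists_trace`), `F (s + t) = F s + F t` for `s + t ≤ 1` (orthogonal projections with traces
`s, t`: `exists_trace` for `q = 1` and `q = 1 - p`), `F ≥ 0`, `F 1 = φ 1`.  So `F` is monotone, `F (1/n) = F 1 / n`, `F (j/n) = (j/n) F 1`,
and `F s = s * F 1` for all `s ∈ [0,1]`.
(3) `0 ≤ a ≤ 1`: `dyadic`: `φ (∑ ..) = φ 1 * tr (∑ ..)` by (2), and both `φ` and `tr` change by at most `(1/2)^n (φ 1 + 1)`; `n → ∞`.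
(4) General `a`: real and imaginary parts, `a + ‖a‖ • 1`, scaling.
-/

set_option autoImplicit false

open Filter Topology

namespace Pool.Agent.Lib.UPE

variable {H : Type*} [NormedAddCommGroup H] [InnerProductSpace ℂ H] [CompleteSpace H]
variable {M : VonNeumannAlgebra H} {ξ : ℕ → H}

/-- a non-negative additive function on `[0,1]` is linear -/
private theorem lin01 (F : ℝ → ℝ) (hF : ∀ s t, 0 ≤ s → 0 ≤ t → s + t ≤ 1 → F (s + t) = F s + F t)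
    (h0 : ∀ s, 0 ≤ s → s ≤ 1 → 0 ≤ F s) {s : ℝ} (hs0 : 0 ≤ s) (hs1 : s ≤ 1) : F s = s * F 1 := by
  have hz : F 0 = 0 := by
    have := hF 0 0 le_rfl le_rfl (by norm_num)
    simp only [add_zero] at this
    linarith
  have hmono : ∀ a b, 0 ≤ a → a ≤ b → b ≤ 1 → F a ≤ F b := by
    intro a b ha hab hb
    have h1 := hF a (b - a) ha (by linarith) (by linarith)
    rw [add_sub_cancel] at h1
    have h2 := h0 (b - a) (by linarith) (by linarith)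
    linarith
  have hmul : ∀ (k : ℕ) (a : ℝ), 0 ≤ a → (k : ℝ) * a ≤ 1 → F (k * a) = k * F a := by
    intro k
    induction k with
    | zero => intro a _ _; simp [hz]
    | succ k ih =>
      intro a ha hk
      push_cast at hk ⊢
      have h1 : (k : ℝ) * a ≤ 1 := by nlinarith
      have h2 := ih a ha h1
      have h3 : ((k : ℝ) + 1) * a = k * a + a := by ring
      rw [h3, hF _ _ (by positivity) ha (by linarith), h2]
      ring
  have hF1 : 0 ≤ F 1 := h0 1 (by norm_num) le_rfl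
  have hrat : ∀ n : ℕ, 0 < n → ∀ j : ℕ, j ≤ n → F ((j : ℝ) / n) = (j : ℝ) / n * F 1 := by
    intro n hn j hj
    have hn' : (0 : ℝ) < n := by exact_mod_cast hn
    have h1 := hmul n (1 / n) (by positivity) (by rw [mul_one_div_cancel hn'.ne'])
    rw [mul_one_div_cancel hn'.ne'] at h1
    have hj' : (j : ℝ) ≤ n := by exact_mod_cast hj
    have h2 := hmul j (1 / n) (by positivity) (by rw [mul_one_div]; exact (div_le_one hn').mpr hj')
    rw [mul_one_div] at h2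
    rw [h2, h1]
    field_simp
  have key : ∀ n : ℕ, 0 < n → |F s - s * F 1| ≤ (1 / n) * F 1 := by
    intro n hn
    have hn' : (0 : ℝ) < n := by exact_mod_cast hn
    set j := ⌊s * n⌋₊ with hj
    have hj1 : (j : ℝ) ≤ s * n := Nat.floor_le (by positivity)
    have hj2 : s * n < j + 1 := Nat.lt_floor_add_one _
    have hjn : j ≤ n := by
      have : (j : ℝ) ≤ n := by nlinarith
      exact_mod_cast this
    have ha : (j : ℝ) / n ≤ s := by rw [div_le_iff₀ hn']; exact hj1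
    have hb : s ≤ ((j : ℝ) + 1) / n := by rw [le_div_iff₀ hn']; exact hj2.le
    have h1 : (j : ℝ) / n * F 1 ≤ F s := by
      rw [← hrat n hn j hjn]
      exact hmono _ _ (by positivity) ha hs1
    have h2 : F s ≤ ((j : ℝ) + 1) / n * F 1 := by
      by_cases hc : j + 1 ≤ n
      · have h3 := hrat n hn (j + 1) hc
        push_cast at h3
        rw [← h3]
        refine hmono _ _ hs0 hb ?_
        rw [div_le_one hn']
        exact_mod_cast hc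
      · have h4 : n ≤ j := by omega
        have h5 : (n : ℝ) ≤ j := by exact_mod_cast h4
        have h6 : F s ≤ F 1 := hmono _ _ hs0 hs1 le_rfl
        have h7 : 1 ≤ ((j : ℝ) + 1) / n := by
          rw [le_div_iff₀ hn']
          linarith
        nlinarith
    have h3 : ((j : ℝ) + 1) / n = (j : ℝ) / n + 1 / n := by ring
    rw [h3] at h2 hb
    have hn1 : 0 < 1 / (n : ℝ) := by positivity
    rw [abs_le]
    constructor
    · nlinarith
    · nlinarith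
  by_contra hne
  have hpos : 0 < |F s - s * F 1| := abs_pos.mpr (sub_ne_zero.mpr hne)
  obtain ⟨n, hn⟩ := exists_nat_gt (F 1 / |F s - s * F 1|)
  have hn0 : 0 < n := by
    have : (0 : ℝ) < n := lt_of_le_of_lt (by positivity) hn
    exact_mod_cast this
  have hn' : (0 : ℝ) < n := by exact_mod_cast hn0
  have h1 := key n hn0
  rw [div_lt_iff₀ hpos] at hn
  have h2 : (n : ℝ) * |F s - s * F 1| ≤ F 1 := by
    calc (n : ℝ) * |F s - s * F 1| ≤ n * (1 / n * F 1) := by gcongr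
      _ = F 1 := by field_simp
  linarith

/-- a positive element of `M` is `star b * b` with `b` in `M` -/
private theorem exists_root {a : H →L[ℂ] H} (ha : a ∈ M) (h0 : 0 ≤ a) :
    ∃ b ∈ M, star b * b = a := by
  have hsa : IsSelfAdjoint a := IsSelfAdjoint.of_nonneg h0
  refine ⟨cfc Real.sqrt a, cfc_mem ha _, ?_⟩
  have h1 : IsSelfAdjoint (cfc Real.sqrt a) := cfc_predicate _ _
  rw [h1.star_eq, ← cfc_mul Real.sqrt Real.sqrt a Real.continuous_sqrt.continuousOn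
    Real.continuous_sqrt.continuousOn]
  conv_rhs => rw [← cfc_id' ℝ a hsa]
  exact cfc_congr fun t ht => Real.mul_self_sqrt (spectrum_nonneg_of_nonneg h0 ht)

private theorem one_mem' : (1 : H →L[ℂ] H) ∈ M := one_mem M

private structure TF (M : VonNeumannAlgebra H) (φ : (H →L[ℂ] H) → ℂ) : Prop where
  add : ∀ a ∈ M, ∀ b ∈ M, φ (a + b) = φ a + φ b
  smul : ∀ (c : ℂ), ∀ a ∈ M, φ (c • a) = c * φ a
  tr : ∀ a ∈ M, ∀ b ∈ M, φ (a * b) = φ (b * a)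
  pos : ∀ a ∈ M, 0 ≤ (φ (star a * a)).re ∧ (φ (star a * a)).im = 0

private theorem TF.sub {φ : (H →L[ℂ] H) → ℂ} (hφ : TF M φ) :
    ∀ a ∈ M, ∀ b ∈ M, φ (a - b) = φ a - φ b := by
  intro a ha b hb
  have h1 := hφ.add a ha ((-1 : ℂ) • b) (smul_mem' _ hb)
  rw [hφ.smul _ b hb, neg_one_smul, ← sub_eq_add_neg] at h1
  rw [h1]; ring

private theorem TF.nn {φ : (H →L[ℂ] H) → ℂ} (hφ : TF M φ) :
    ∀ a ∈ M, 0 ≤ a → 0 ≤ (φ a).re ∧ (φ a).im = 0 := by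
  intro a ha h0
  obtain ⟨b, hb, rfl⟩ := exists_root ha h0
  exact hφ.pos b hb

private theorem TF.one {φ : (H →L[ℂ] H) → ℂ} (hφ : TF M φ) : 0 ≤ (φ 1).re ∧ (φ 1).im = 0 :=
  hφ.nn 1 (one_mem M) zero_le_one

private theorem TF.one' {φ : (H →L[ℂ] H) → ℂ} (hφ : TF M φ) : φ 1 = (((φ 1).re : ℝ) : ℂ) :=
  Complex.ext (by simp) (by simp [hφ.one.2])

private theorem halg (r : ℝ) :
    algebraMap ℝ (H →L[ℂ] H) r = ((r : ℝ) : ℂ) • (1 : H →L[ℂ] H) := by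
  rw [Algebra.algebraMap_eq_smul_one, Complex.coe_smul]

private theorem le_nrm {a : H →L[ℂ] H} (hs : IsSelfAdjoint a) :
    a ≤ ((‖a‖ : ℝ) : ℂ) • (1 : H →L[ℂ] H) := by
  rw [← halg]; exact hs.le_algebraMap_norm_self

private theorem nrm_le {a : H →L[ℂ] H} (hs : IsSelfAdjoint a) :
    0 ≤ a + ((‖a‖ : ℝ) : ℂ) • (1 : H →L[ℂ] H) := by
  have h2 : -(((‖a‖ : ℝ) : ℂ) • (1 : H →L[ℂ] H)) ≤ a := by
    rw [← halg]; exact hs.neg_algebraMap_norm_le_self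
  have := sub_nonneg.mpr h2
  rwa [sub_neg_eq_add] at this

private theorem TF.bd {φ : (H →L[ℂ] H) → ℂ} (hφ : TF M φ) :
    ∀ a ∈ M, IsSelfAdjoint a → ‖φ a‖ ≤ ‖a‖ * (φ 1).re := by
  intro a ha hs
  have h1M : (1 : H →L[ℂ] H) ∈ M := one_mem M
  have hc : ((‖a‖ : ℝ) : ℂ) • (1 : H →L[ℂ] H) ∈ M := smul_mem' _ h1M
  have h3 := hφ.nn _ (sub_mem hc ha) (sub_nonneg.mpr (le_nrm hs))
  have h4 := hφ.nn _ (add_mem ha hc) (nrm_le hs)
  rw [hφ.sub _ hc a ha, hφ.smul _ 1 h1M] at h3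
  rw [hφ.add a ha _ hc, hφ.smul _ 1 h1M] at h4
  simp only [Complex.sub_re, Complex.sub_im, Complex.add_re, Complex.add_im, Complex.mul_re,
    Complex.mul_im, Complex.ofReal_re, Complex.ofReal_im, hφ.one.2, mul_zero, zero_mul, sub_zero,
    add_zero] at h3 h4
  have h5 : φ a = (((φ a).re : ℝ) : ℂ) := Complex.ext (by simp) (by simpa using h4.2)
  rw [h5, Complex.norm_real, Real.norm_eq_abs, abs_le]
  constructor
  · linarith [h4.1]
  · linarith [h3.1]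

private theorem TF.pq (h : IsIIOne M ξ) {φ : (H →L[ℂ] H) → ℂ} (hφ : TF M φ) :
    ∀ p ∈ M, ∀ q ∈ M, IsStarProjection p → IsStarProjection q → UPE.tr ξ p = UPE.tr ξ q →
      φ p = φ q := by
  intro p hpM q hqM hpp hqp ht
  obtain ⟨u, hu, hu1, hu2, hu3⟩ := exists_unitary h hpp hqp hpM hqM ht
  rw [← hu3, hφ.tr (u * p) (mul_mem hu hpM) (star u) (star_mem hu), ← mul_assoc, hu1, one_mul]

private theorem hone : IsStarProjection (1 : H →L[ℂ] H) :=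
  ⟨by simp [IsIdempotentElem], by simp [IsSelfAdjoint]⟩

private theorem hex (h : IsIIOne M ξ) : ∀ s : ℝ, 0 ≤ s → s ≤ 1 →
    ∃ p ∈ M, IsStarProjection p ∧ tr ξ p = (s : ℂ) := by
  intro s hs0 hs1
  have h1re : (tr ξ (1 : H →L[ℂ] H)).re = 1 := by rw [tr_one h.toIsTrace]; simp
  obtain ⟨p, hpM, hpp, _, hpt⟩ := exists_trace h hone (one_mem M) hs0 (by rw [h1re]; exact hs1)
  exact ⟨p, hpM, hpp, hpt⟩

private theorem hsum {p r : H →L[ℂ] H} (hpp : IsStarProjection p) (hrp : IsStarProjection r)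
    (hr1 : r * (1 - p) = r) : IsStarProjection (p + r) := by
  have hrpz : r * p = 0 := by
    rw [mul_sub, mul_one] at hr1
    exact sub_eq_self.mp hr1
  have hprz : p * r = 0 := by
    have := congrArg star hrpz
    rwa [star_mul, hrp.isSelfAdjoint.star_eq, hpp.isSelfAdjoint.star_eq, star_zero] at this
  refine ⟨?_, hpp.isSelfAdjoint.add hrp.isSelfAdjoint⟩
  show (p + r) * (p + r) = p + r
  rw [add_mul, mul_add, mul_add, hprz, hrpz, hpp.isIdempotentElem.eq, hrp.isIdempotentElem.eq]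
  simp

private theorem TF.proj (h : IsIIOne M ξ) {φ : (H →L[ℂ] H) → ℂ} (hφ : TF M φ) :
    ∀ p ∈ M, IsStarProjection p → φ p = φ 1 * UPE.tr ξ p := by
  have hT : IsTrace M ξ := h.toIsTrace
  have h1M : (1 : H →L[ℂ] H) ∈ M := one_mem M
  classical
  let F : ℝ → ℝ := fun s => if hs : 0 ≤ s ∧ s ≤ 1 then (φ (hex h s hs.1 hs.2).choose).re else 0
  have hFp : ∀ p ∈ M, IsStarProjection p → φ p = ((F (UPE.tr ξ p).re : ℝ) : ℂ) := by
    intro p hpM hpp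
    have hm := re_tr_proj_mem hT hpp
    have hs : 0 ≤ (UPE.tr ξ p).re ∧ (UPE.tr ξ p).re ≤ 1 := ⟨hm.1, hm.2.1⟩
    have hch := (hex h _ hs.1 hs.2).choose_spec
    have h1 := hφ.pq h p hpM _ hch.1 hpp hch.2.1 (by rw [hch.2.2]; exact hm.2.2)
    have h2 : F (UPE.tr ξ p).re = (φ p).re := by
      simp only [F, hs, and_self, dif_pos]
      rw [h1]
    have h3 : 0 ≤ p := hpp.nonneg
    rw [h2]
    exact Complex.ext (by simp) (by simp [(hφ.nn p hpM h3).2])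
  have hFadd : ∀ s t, 0 ≤ s → 0 ≤ t → s + t ≤ 1 → F (s + t) = F s + F t := by
    intro s t hs ht hst
    obtain ⟨p, hpM, hpp, hpt⟩ := hex h s hs (by linarith)
    obtain ⟨r, hrM, hrp, hr1, hrt⟩ := exists_trace h hpp.one_sub (sub_mem h1M hpM) ht (by
      rw [tr_sub hT, tr_one hT, hpt]
      simp
      linarith)
    have e1 := hFp p hpM hpp
    have e2 := hFp r hrM hrp
    have e3 := hFp (p + r) (add_mem hpM hrM) (hsum hpp hrp hr1)
    have t3 : (UPE.tr ξ (p + r)).re = s + t := by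
      rw [tr_add hT, hpt, hrt]; simp
    rw [hφ.add p hpM r hrM, e1, e2, t3, hpt, hrt] at e3
    simp only [Complex.ofReal_re] at e3
    have e4 : ((F s + F t : ℝ) : ℂ) = ((F (s + t) : ℝ) : ℂ) := by push_cast; exact e3
    exact (Complex.ofReal_injective e4).symm
  have hF0 : ∀ s, 0 ≤ s → s ≤ 1 → 0 ≤ F s := by
    intro s hs0 hs1
    obtain ⟨p, hpM, hpp, hpt⟩ := hex h s hs0 hs1
    have e1 := hFp p hpM hpp
    have e2 := (hφ.nn p hpM hpp.nonneg).1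
    rw [e1, hpt] at e2
    simpa using e2
  have hF1 : F 1 = (φ 1).re := by
    have e1 := hFp 1 h1M hone
    rw [tr_one hT, Complex.one_re] at e1
    rw [e1]; simp
  intro p hpM hpp
  have hm := re_tr_proj_mem hT hpp
  rw [hFp p hpM hpp, lin01 F hFadd hF0 hm.1 hm.2.1, hF1]
  conv_rhs => rw [hφ.one', hm.2.2]
  push_cast
  ring

private theorem TF.dsum (h : IsIIOne M ξ) {φ : (H →L[ℂ] H) → ℂ} (hφ : TF M φ)
    {p : ℕ → (H →L[ℂ] H)} (hpM : ∀ k, p k ∈ M ∧ IsStarProjection (p k)) (n : ℕ) :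
    φ (∑ k ∈ Finset.range n, (((1 / 2 : ℝ) ^ (k + 1) : ℝ) : ℂ) • p k) =
        φ 1 * UPE.tr ξ (∑ k ∈ Finset.range n, (((1 / 2 : ℝ) ^ (k + 1) : ℝ) : ℂ) • p k) := by
  have hT : IsTrace M ξ := h.toIsTrace
  have hSM : ∀ n : ℕ, (∑ k ∈ Finset.range n, (((1 / 2 : ℝ) ^ (k + 1) : ℝ) : ℂ) • p k) ∈ M :=
    fun n => sum_mem fun k _ => smul_mem' _ (hpM k).1
  induction n with
  | zero =>
    simp only [Finset.range_zero, Finset.sum_empty]
    have := hφ.smul 0 1 (one_mem M)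
    rw [zero_smul, zero_mul] at this
    rw [this, tr_zero, mul_zero]
  | succ n ih =>
    rw [Finset.sum_range_succ, hφ.add _ (hSM n) _ (smul_mem' _ (hpM n).1), ih, tr_add hT,
      hφ.smul _ _ (hpM n).1, tr_smul, hφ.proj h _ (hpM n).1 (hpM n).2]
    ring

private theorem dsum_sa {p : ℕ → (H →L[ℂ] H)} (hpM : ∀ k, p k ∈ M ∧ IsStarProjection (p k))
    (n : ℕ) : IsSelfAdjoint (∑ k ∈ Finset.range n, (((1 / 2 : ℝ) ^ (k + 1) : ℝ) : ℂ) • p k) := by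
  refine isSelfAdjoint_sum _ fun k _ => ?_
  show star _ = _
  rw [star_smul, (hpM k).2.isSelfAdjoint.star_eq]
  congr 1
  exact Complex.conj_ofReal _

private theorem TF.unit (h : IsIIOne M ξ) {φ : (H →L[ℂ] H) → ℂ} (hφ : TF M φ) :
    ∀ a ∈ M, 0 ≤ a → a ≤ 1 → φ a = φ 1 * UPE.tr ξ a := by
  have hT : IsTrace M ξ := h.toIsTrace
  intro a ha h0 h1
  obtain ⟨p, hpM, hpn⟩ := dyadic ha h0 h1
  have hbd : ∀ n : ℕ, ‖φ a - φ 1 * UPE.tr ξ a‖ ≤ (1 / 2 : ℝ) ^ n * (2 * (φ 1).re) := by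
    intro n
    have hS := hφ.dsum h hpM n
    have hSs := (IsSelfAdjoint.of_nonneg h0).sub (dsum_sa hpM n)
    have hSM : (∑ k ∈ Finset.range n, (((1 / 2 : ℝ) ^ (k + 1) : ℝ) : ℂ) • p k) ∈ M :=
      sum_mem fun k _ => smul_mem' _ (hpM k).1
    have hn := hpn n
    generalize (∑ k ∈ Finset.range n, (((1 / 2 : ℝ) ^ (k + 1) : ℝ) : ℂ) • p k) = S at hS hSs hSM hn
    have e1 : φ a - φ 1 * UPE.tr ξ a = φ (a - S) - φ 1 * UPE.tr ξ (a - S) := by
      rw [hφ.sub a ha S hSM, tr_sub hT, hS]; ring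
    have e2 : ‖φ (a - S)‖ ≤ ‖a - S‖ * (φ 1).re := hφ.bd _ (sub_mem ha hSM) hSs
    have e3 : ‖φ 1 * UPE.tr ξ (a - S)‖ ≤ (φ 1).re * ‖a - S‖ := by
      rw [norm_mul]
      have e4 : ‖φ 1‖ = (φ 1).re := by
        rw [hφ.one', Complex.norm_real, Real.norm_eq_abs, Complex.ofReal_re,
          abs_of_nonneg hφ.one.1]
      rw [e4]
      exact mul_le_mul_of_nonneg_left ((norm_tr_le hT _).trans (n2_le_norm hT _)) hφ.one.1
    rw [e1]
    calc ‖φ (a - S) - φ 1 * UPE.tr ξ (a - S)‖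
        ≤ ‖φ (a - S)‖ + ‖φ 1 * UPE.tr ξ (a - S)‖ := norm_sub_le _ _
      _ ≤ ‖a - S‖ * (φ 1).re + (φ 1).re * ‖a - S‖ := add_le_add e2 e3
      _ = ‖a - S‖ * (2 * (φ 1).re) := by ring
      _ ≤ (1 / 2 : ℝ) ^ n * (2 * (φ 1).re) :=
        mul_le_mul_of_nonneg_right hn (by linarith [hφ.one.1])
  have hlim : Tendsto (fun n : ℕ => (1 / 2 : ℝ) ^ n * (2 * (φ 1).re)) atTop (𝓝 0) := by
    have := (tendsto_pow_atTop_nhds_zero_of_lt_one (by norm_num : (0 : ℝ) ≤ 1 / 2)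
      (by norm_num)).mul_const (2 * (φ 1).re)
    simpa using this
  have := ge_of_tendsto' hlim hbd
  exact sub_eq_zero.mp (norm_le_zero_iff.mp this)

private theorem scale {a : H →L[ℂ] H} (hs : IsSelfAdjoint a) :
    0 ≤ (((2 * ‖a‖ + 1)⁻¹ : ℝ) : ℂ) • (a + ((‖a‖ : ℝ) : ℂ) • (1 : H →L[ℂ] H)) ∧
      (((2 * ‖a‖ + 1)⁻¹ : ℝ) : ℂ) • (a + ((‖a‖ : ℝ) : ℂ) • (1 : H →L[ℂ] H)) ≤ 1 := by
  have hr : (0 : ℝ) < 2 * ‖a‖ + 1 := by positivity
  have h2 : (0 : ℝ) ≤ (2 * ‖a‖ + 1)⁻¹ := (inv_pos.mpr hr).le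
  have h3 : a + ((‖a‖ : ℝ) : ℂ) • (1 : H →L[ℂ] H) ≤ (2 * ‖a‖ + 1) • (1 : H →L[ℂ] H) := by
    have e1 : a + ((‖a‖ : ℝ) : ℂ) • (1 : H →L[ℂ] H) ≤
        ((‖a‖ : ℝ) : ℂ) • (1 : H →L[ℂ] H) + ((‖a‖ : ℝ) : ℂ) • (1 : H →L[ℂ] H) :=
      add_le_add_left (le_nrm hs) _
    have e2 : ((‖a‖ : ℝ) : ℂ) • (1 : H →L[ℂ] H) + ((‖a‖ : ℝ) : ℂ) • (1 : H →L[ℂ] H) =
        (2 * ‖a‖) • (1 : H →L[ℂ] H) := by
      rw [Complex.coe_smul, ← add_smul, two_mul]
    rw [e2] at e1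
    have e3 : (2 * ‖a‖ + 1) • (1 : H →L[ℂ] H) = (2 * ‖a‖) • (1 : H →L[ℂ] H) + 1 := by
      rw [add_smul, one_smul]
    rw [e3]
    exact e1.trans (le_add_of_nonneg_right zero_le_one)
  rw [Complex.coe_smul]
  refine ⟨smul_nonneg h2 (nrm_le hs), ?_⟩
  have h4 := smul_le_smul_of_nonneg_left h3 h2
  rwa [smul_smul, inv_mul_cancel₀ hr.ne', one_smul] at h4

private theorem TF.sa (h : IsIIOne M ξ) {φ : (H →L[ℂ] H) → ℂ} (hφ : TF M φ) :
    ∀ a ∈ M, IsSelfAdjoint a → φ a = φ 1 * UPE.tr ξ a := by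
  have hT : IsTrace M ξ := h.toIsTrace
  intro a ha hs
  have h1M : (1 : H →L[ℂ] H) ∈ M := one_mem M
  have hcM : ((‖a‖ : ℝ) : ℂ) • (1 : H →L[ℂ] H) ∈ M := smul_mem' _ h1M
  have hr : (0 : ℝ) < 2 * ‖a‖ + 1 := by positivity
  have e := hφ.unit h _ (smul_mem' (((2 * ‖a‖ + 1)⁻¹ : ℝ) : ℂ) (add_mem ha hcM))
    (scale hs).1 (scale hs).2
  rw [hφ.smul _ _ (add_mem ha hcM), hφ.add _ ha _ hcM, hφ.smul _ _ h1M, tr_smul, tr_add hT,
    tr_smul, tr_one hT] at e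
  have hr' : (((2 * ‖a‖ + 1)⁻¹ : ℝ) : ℂ) ≠ 0 := by
    exact_mod_cast (inv_pos.mpr hr).ne'
  have e2 : (((2 * ‖a‖ + 1)⁻¹ : ℝ) : ℂ) * (φ a + ((‖a‖ : ℝ) : ℂ) * φ 1) =
      (((2 * ‖a‖ + 1)⁻¹ : ℝ) : ℂ) * (φ 1 * (UPE.tr ξ a + ((‖a‖ : ℝ) : ℂ) * 1)) := by
    rw [e]; ring
  have e3 := mul_left_cancel₀ hr' e2
  linear_combination e3

private theorem sa1 (a : H →L[ℂ] H) : IsSelfAdjoint ((1 / 2 : ℂ) • (a + star a)) := by
  show star _ = _
  rw [star_smul, star_add, star_star, add_comm]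
  congr 1
  simp

private theorem sa2 (a : H →L[ℂ] H) : IsSelfAdjoint ((-Complex.I / 2 : ℂ) • (a - star a)) := by
  show star _ = _
  rw [star_smul, star_sub, star_star, ← neg_sub a (star a), smul_neg, ← neg_smul]
  congr 1
  simp [neg_div]

private theorem dec (a : H →L[ℂ] H) :
    a = (1 / 2 : ℂ) • (a + star a) + Complex.I • ((-Complex.I / 2 : ℂ) • (a - star a)) := by
  have e1 : Complex.I * (-Complex.I / 2) = 1 / 2 := by
    rw [mul_div_assoc', mul_neg, Complex.I_mul_I]; norm_num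
  have e3 : a + star a + (a - star a) = (2 : ℂ) • a := by rw [two_smul]; abel
  rw [smul_smul, e1, ← smul_add, e3, smul_smul]
  norm_num

theorem trace_unique (h : IsIIOne M ξ) (φ : (H →L[ℂ] H) → ℂ)
    (hadd : ∀ a ∈ M, ∀ b ∈ M, φ (a + b) = φ a + φ b) (hsmul : ∀ (c : ℂ), ∀ a ∈ M, φ (c • a) = c * φ a)
    (htr : ∀ a ∈ M, ∀ b ∈ M, φ (a * b) = φ (b * a))
    (hpos : ∀ a ∈ M, 0 ≤ (φ (star a * a)).re ∧ (φ (star a * a)).im = 0) {a : H →L[ℂ] H} (ha : a ∈ M) :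
    φ a = φ 1 * tr ξ a := by
  have hφ : TF M φ := ⟨hadd, hsmul, htr, hpos⟩
  have hT : IsTrace M ξ := h.toIsTrace
  have hb1 : (1 / 2 : ℂ) • (a + star a) ∈ M := smul_mem' _ (add_mem ha (star_mem ha))
  have hb2 : (-Complex.I / 2 : ℂ) • (a - star a) ∈ M := smul_mem' _ (sub_mem ha (star_mem ha))
  have e1 := hφ.sa h _ hb1 (sa1 a)
  have e2 := hφ.sa h _ hb2 (sa2 a)
  have e3 := dec a
  generalize (1 / 2 : ℂ) • (a + star a) = b at e1 e3 hb1
  generalize (-Complex.I / 2 : ℂ) • (a - star a) = c at e2 e3 hb2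
  rw [e3, hadd _ hb1 _ (smul_mem' _ hb2), hsmul _ _ hb2, tr_add hT, tr_smul Complex.I, e1, e2]
  ring

end Pool.Agent.Lib.UPE
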