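import Pool.Agent.Lib.UPE.CUT
import Pool.Agent.Lib.UPE.FC
import Pool.Agent.Lib.UPE.TU

/-!
# UPE / CO2 (220 lines): a non-scalar commutant gives a scale below 1

PROOF.  `Θ, x` from `CommEmb`, `‖x n‖ ≤ C`.
(1) `star (x n)` also commutes with all `Θ a` up to null sequences: take adjoints of the relation for `star a`
(`n2_star`, `Θ (star a) - star (Θ a)` null).  So `x' n = (1/2) • (x n + star (x n))` and `x'' n = (-i/2) • (x n - star (x n))` do; if both were scalar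
up to null sequences (`Null (x' - c')`, `Null (x'' - c'')`) then `x` would be (`x = x' + i x''`).  So one of them, call it `y n`, self-adjoint,
bounded, in `M`, is not scalar: for all real `c` not `Null (y n - c • 1)` (if it is `Null` for a complex `c`, then also for real part of `c`:
`y n - re c = re part of (y n - c)`, `n2 ((A + star A)/2) ≤ n2 A`).
(2) `exists_cut`: `c, s`; `q n = spr (y n) c`.  For every `a`: `Null (fun n => q n * Θ a n - Θ a n * q n)`: for `ε > 0` take `δ` from `exists_cut`;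
with `f t = min 1 (max (t - c) 0 / δ)`, `n2 (q n - cfc f (y n)) ≤ sqrt ε` (`spr_cfc`) `U`-eventually, and `cfc f (y n)` commutes with `Θ a n` up to a null
sequence (`comm_cfc`); `n2 (q Θ - Θ q) ≤ 2 ‖Θ a n‖ sqrt ε + n2 (..)`.
(3) `Θ' a n = q n * Θ a n`.  `mem`, `bdd` clear; `add`, `smul` from those of `Θ`; `mul`: `q Θ(ab) - q Θ(a) q Θ(b) = q (Θ(ab) - Θ(a)Θ(b)) +
q (q Θ(a) - Θ(a) q) Θ(b)` (`q q = q`); `star_`: `q Θ(a*) - star (q Θ(a)) = q (Θ(a*) - star Θ(a)) + (q star Θ(a) - star Θ(a) q)`, the last is minus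
the adjoint of `q Θ(a) - Θ(a) q`.
(4) `trace`: `φ a = lim_U tr (q n * Θ a n)` for `a ∈ M` (bounded complex sequence along an ultrafilter; `φ = 0` outside `M`, or use `dite`).  `φ` is linear
(null sequences), tracial: `tr (q Θ(ab)) ≈ tr (q Θ(a) Θ(b)) ≈ tr (Θ(a) q Θ(b)) = tr (q Θ(b) Θ(a)) ≈ tr (q Θ(ba))`; positive:
`tr (q Θ(a* a)) ≈ tr (q star Θ(a) Θ(a)) ≈ tr (star Θ(a) q Θ(a)) = n2 (q Θ(a))^2`.  `trace_unique`: `φ a = φ 1 * tr a`, and
`φ 1 = lim tr (q n * Θ 1 n) = lim tr (q n) = s` (`Θ 1 n - 1` null).  So `ScEmb M ξ U s`.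
-/

set_option autoImplicit false

open Filter Topology

namespace Pool.Agent.Lib.UPE

variable {H : Type*} [NormedAddCommGroup H] [InnerProductSpace ℂ H] [CompleteSpace H]
variable {M : VonNeumannAlgebra H} {ξ : ℕ → H}

private theorem nl_add (h : IsTrace M ξ) {U : Ultrafilter ℕ} {x y : ℕ → (H →L[ℂ] H)} (hx : Null ξ U x)
    (hy : Null ξ U y) : Null ξ U fun n => x n + y n := by
  have h1 := Tendsto.add hx hy
  rw [add_zero] at h1
  exact squeeze_zero (fun n => n2_nonneg _) (fun n => n2_add_le h _ _) h1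

private theorem nl_sub (h : IsTrace M ξ) {U : Ultrafilter ℕ} {x y : ℕ → (H →L[ℂ] H)} (hx : Null ξ U x)
    (hy : Null ξ U y) : Null ξ U fun n => x n - y n := by
  have h1 := Tendsto.add hx hy
  rw [add_zero] at h1
  exact squeeze_zero (fun n => n2_nonneg _) (fun n => n2_sub_le h _ _) h1

private theorem nl_neg {U : Ultrafilter ℕ} {x : ℕ → (H →L[ℂ] H)} (hx : Null ξ U x) :
    Null ξ U fun n => -x n := by
  unfold Null at hx ⊢
  simpa only [n2_neg] using hx

private theorem nl_smul {U : Ultrafilter ℕ} {x : ℕ → (H →L[ℂ] H)} (c : ℂ) (hx : Null ξ U x) :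
    Null ξ U fun n => c • x n := by
  unfold Null at hx ⊢
  simp only [n2_smul]
  simpa using hx.const_mul ‖c‖

private theorem nl_mul_left (h : IsTrace M ξ) {U : Ultrafilter ℕ} {b x : ℕ → (H →L[ℂ] H)} {C : ℝ}
    (hb : ∀ n, ‖b n‖ ≤ C) (hx : Null ξ U x) : Null ξ U fun n => b n * x n := by
  have h1 := Tendsto.const_mul C hx
  rw [mul_zero] at h1
  exact squeeze_zero (fun n => n2_nonneg _) (fun n => (n2_mul_le h _ _).trans
    (mul_le_mul_of_nonneg_right (hb n) (n2_nonneg _))) h1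

private theorem nl_mul_right (h : IsTrace M ξ) {U : Ultrafilter ℕ} {b x : ℕ → (H →L[ℂ] H)} {C : ℝ}
    (hb : ∀ n, ‖b n‖ ≤ C) (hbM : ∀ n, b n ∈ M) (hxM : ∀ n, x n ∈ M) (hx : Null ξ U x) :
    Null ξ U fun n => x n * b n := by
  have h1 := Tendsto.mul_const C hx
  rw [zero_mul] at h1
  exact squeeze_zero (fun n => n2_nonneg _) (fun n => (n2_mul_le' h (hxM n) (hbM n)).trans
    (mul_le_mul_of_nonneg_left (hb n) (n2_nonneg _))) h1

private theorem nl_star (h : IsTrace M ξ) {U : Ultrafilter ℕ} {x : ℕ → (H →L[ℂ] H)}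
    (hxM : ∀ n, x n ∈ M) (hx : Null ξ U x) : Null ξ U fun n => star (x n) := by
  unfold Null at hx ⊢
  have h1 : (fun n => n2 ξ (star (x n))) = fun n => n2 ξ (x n) := funext fun n => n2_star h (hxM n)
  rw [h1]
  exact hx

private theorem nl_tr (h : IsTrace M ξ) {U : Ultrafilter ℕ} {x y : ℕ → (H →L[ℂ] H)} {z : ℂ}
    (hxy : Null ξ U fun n => x n - y n) (hx : Tendsto (fun n => tr ξ (x n)) U (𝓝 z)) :
    Tendsto (fun n => tr ξ (y n)) U (𝓝 z) := by
  have h1 : Tendsto (fun n => tr ξ (x n - y n)) U (𝓝 0) :=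
    squeeze_zero_norm (fun n => norm_tr_le h _) hxy
  have h2 := hx.sub h1
  rw [sub_zero] at h2
  refine h2.congr fun n => ?_
  rw [tr_sub h, sub_sub_cancel]

private theorem nl_congr {U : Ultrafilter ℕ} {x y : ℕ → (H →L[ℂ] H)} (hx : Null ξ U x)
    (e : ∀ n, x n = y n) : Null ξ U y := by
  have h1 : x = y := funext e
  rwa [← h1]

/-- the case of a self-adjoint sequence -/
private theorem co_sa (h : IsIIOne M ξ) {U : Ultrafilter ℕ} {Θ : M.toStarSubalgebra → ℕ → (H →L[ℂ] H)}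
    (hΘ : IsEmb M ξ U (fun a : M.toStarSubalgebra => tr ξ (a : H →L[ℂ] H)) Θ)
    (hΘ1 : Null ξ U fun n => Θ 1 n - 1) {y : ℕ → (H →L[ℂ] H)} (hyM : ∀ n, y n ∈ M)
    (hsa : ∀ n, IsSelfAdjoint (y n)) {R : ℝ} (hyR : ∀ n, ‖y n‖ ≤ R)
    (hyc : ∀ a, Null ξ U fun n => y n * Θ a n - Θ a n * y n)
    (hyn : ∀ c : ℝ, ¬ Null ξ U fun n => y n - (c : ℂ) • (1 : H →L[ℂ] H)) :
    ∃ s : ℝ, 0 < s ∧ s < 1 ∧ ScEmb M ξ U s := by
  have hI : IsTrace M ξ := h.toIsTrace
  obtain ⟨c, s, hs0, hs1, hts, hcut⟩ := exists_cut hI hyM hsa hyR hyn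
  refine ⟨s, hs0, hs1, ?_⟩
  set q : ℕ → (H →L[ℂ] H) := fun n => spr (y n) c with hq
  have hqP : ∀ n, IsStarProjection (q n) := fun n => spr_proj (y n) c
  have hqM : ∀ n, q n ∈ M := fun n => spr_mem (hyM n) c
  have hq1 : ∀ n, ‖q n‖ ≤ 1 := fun n => norm_proj_le (hqP n)
  have hqq : ∀ n, q n * q n = q n := fun n => (hqP n).isIdempotentElem
  have hqs : ∀ n, star (q n) = q n := fun n => (hqP n).isSelfAdjoint
  -- the commutation
  have hcomm : ∀ a, Null ξ U fun n => q n * Θ a n - Θ a n * q n := by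
    intro a
    obtain ⟨C, hC⟩ := hΘ.bdd a
    have hC0 : 0 ≤ C := (norm_nonneg _).trans (hC 0)
    unfold Null
    rw [Metric.tendsto_nhds]
    intro η hη
    set ε : ℝ := (η / (4 * (C + 1))) ^ 2 with hε
    have hε0 : 0 < ε := by positivity
    obtain ⟨δ, hδ, hev⟩ := hcut ε hε0
    have hf : Continuous fun t : ℝ => min 1 (max (t - c) 0 / δ) := by fun_prop
    have h1 := comm_cfc hI hyM hsa hyR (hΘ.mem a) hC (hyc a) hf
    have h2 := (Metric.tendsto_nhds.mp h1) (η / 2) (half_pos hη)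
    filter_upwards [hev, h2] with n hn1 hn2
    rw [Real.dist_eq, sub_zero, abs_of_nonneg (n2_nonneg _)] at hn2 ⊢
    set F : H →L[ℂ] H := cfc (fun t : ℝ => min 1 (max (t - c) 0 / δ)) (y n) with hF
    have hFM : F ∈ M := cfc_mem (hyM n) _
    have h3 : n2 ξ (q n - F) ≤ η / (4 * (C + 1)) := by
      have h4 := (spr_cfc hI (hyM n) (hsa n) c hδ).trans hn1
      exact abs_le_of_sq_le_sq' h4 (by positivity) |>.2
    have h5 : q n * Θ a n - Θ a n * q n =
        ((q n - F) * Θ a n - Θ a n * (q n - F)) + (F * Θ a n - Θ a n * F) := by noncomm_ring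
    have h6 : n2 ξ ((q n - F) * Θ a n) ≤ η / (4 * (C + 1)) * C :=
      (n2_mul_le' hI (sub_mem (hqM n) hFM) (hΘ.mem a n)).trans
        (mul_le_mul h3 (hC n) (norm_nonneg _) (by positivity))
    have h7 : n2 ξ (Θ a n * (q n - F)) ≤ C * (η / (4 * (C + 1))) :=
      (n2_mul_le hI _ _).trans (mul_le_mul (hC n) h3 (n2_nonneg _) hC0)
    have h8 : η / (4 * (C + 1)) * C + C * (η / (4 * (C + 1))) ≤ η / 2 := by
      have h9 : η / (4 * (C + 1)) * C + C * (η / (4 * (C + 1))) = η / 2 * (C / (C + 1)) := by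
        field_simp
        ring
      rw [h9]
      have h10 : C / (C + 1) ≤ 1 := by
        rw [div_le_one (by linarith)]
        linarith
      nlinarith
    rw [h5]
    have h11 := n2_add_le hI ((q n - F) * Θ a n - Θ a n * (q n - F)) (F * Θ a n - Θ a n * F)
    have h12 := n2_sub_le hI ((q n - F) * Θ a n) (Θ a n * (q n - F))
    linarith
  -- the limits
  have hlim : ∀ a : M.toStarSubalgebra, ∃ z : ℂ, Tendsto (fun n => tr ξ (q n * Θ a n)) U (𝓝 z) := by
    intro a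
    obtain ⟨C, hC⟩ := hΘ.bdd a
    have h1 : ∀ n, tr ξ (q n * Θ a n) ∈ Metric.closedBall (0 : ℂ) C := by
      intro n
      rw [mem_closedBall_zero_iff]
      refine (norm_tr_le hI _).trans ((n2_le_norm hI _).trans ((norm_mul_le _ _).trans ?_))
      calc ‖q n‖ * ‖Θ a n‖ ≤ 1 * C := mul_le_mul (hq1 n) (hC n) (norm_nonneg _) zero_le_one
        _ = C := one_mul C
    have h2 := (isCompact_closedBall (0 : ℂ) C).ultrafilter_le_nhds (U.map fun n => tr ξ (q n * Θ a n))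
      (by
        rw [Ultrafilter.coe_map, Filter.le_principal_iff]
        exact Filter.mem_map.mpr (Filter.univ_mem' h1))
    obtain ⟨z, -, hz⟩ := h2
    exact ⟨z, hz⟩
  choose ψ hψ using hlim
  have hmul : ∀ a b, Null ξ U fun n => q n * Θ (a * b) n - q n * Θ a n * Θ b n := by
    intro a b
    refine nl_congr (nl_mul_left hI hq1 (hΘ.mul a b)) fun n => ?_
    noncomm_ring
  have hmul2 : ∀ a b, Null ξ U fun n => q n * Θ a n * Θ b n - Θ a n * q n * Θ b n := by
    intro a b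
    obtain ⟨C, hC⟩ := hΘ.bdd b
    have hm : ∀ n, q n * Θ a n - Θ a n * q n ∈ M := fun n =>
      sub_mem (mul_mem (hqM n) (hΘ.mem a n)) (mul_mem (hΘ.mem a n) (hqM n))
    refine nl_congr (nl_mul_right hI hC (hΘ.mem b) hm (hcomm a)) fun n => ?_
    noncomm_ring
  classical
  let φ : (H →L[ℂ] H) → ℂ := fun a => if ha : a ∈ M then ψ ⟨a, ha⟩ else 0
  have hφ : ∀ a : M.toStarSubalgebra, φ (a : H →L[ℂ] H) = ψ a := fun a => dif_pos a.2
  have hadd : ∀ a ∈ M, ∀ b ∈ M, φ (a + b) = φ a + φ b := by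
    intro a ha b hb
    have e : φ (a + b) = ψ (⟨a, ha⟩ + ⟨b, hb⟩) := hφ (⟨a, ha⟩ + ⟨b, hb⟩)
    rw [e, hφ ⟨a, ha⟩, hφ ⟨b, hb⟩]
    have h1 : Null ξ U fun n => q n * Θ (⟨a, ha⟩ + ⟨b, hb⟩) n - (q n * Θ ⟨a, ha⟩ n + q n * Θ ⟨b, hb⟩ n) := by
      refine nl_congr (nl_mul_left hI hq1 (hΘ.add ⟨a, ha⟩ ⟨b, hb⟩)) fun n => ?_
      noncomm_ring
    have h2 := nl_tr hI h1 (hψ _)
    have h3 := (hψ ⟨a, ha⟩).add (hψ ⟨b, hb⟩)
    exact tendsto_nhds_unique h2 (h3.congr fun n => (tr_add hI _ _).symm)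
  have hsmul : ∀ (c : ℂ), ∀ a ∈ M, φ (c • a) = c * φ a := by
    intro c a ha
    have e : φ (c • a) = ψ (c • ⟨a, ha⟩) := hφ (c • ⟨a, ha⟩)
    rw [e, hφ ⟨a, ha⟩]
    have h1 : Null ξ U fun n => q n * Θ (c • ⟨a, ha⟩) n - c • (q n * Θ ⟨a, ha⟩ n) := by
      refine nl_congr (nl_mul_left hI hq1 (hΘ.smul c ⟨a, ha⟩)) fun n => ?_
      rw [mul_sub, mul_smul_comm]
    have h2 := nl_tr hI h1 (hψ _)
    have h3 := (hψ ⟨a, ha⟩).const_mul c
    exact tendsto_nhds_unique h2 (h3.congr fun n => (tr_smul _ _).symm)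
  have htr : ∀ a ∈ M, ∀ b ∈ M, φ (a * b) = φ (b * a) := by
    intro a ha b hb
    have e : φ (a * b) = ψ (⟨a, ha⟩ * ⟨b, hb⟩) := hφ (⟨a, ha⟩ * ⟨b, hb⟩)
    have e' : φ (b * a) = ψ (⟨b, hb⟩ * ⟨a, ha⟩) := hφ (⟨b, hb⟩ * ⟨a, ha⟩)
    rw [e, e']
    have h1 := nl_tr hI (hmul2 ⟨a, ha⟩ ⟨b, hb⟩) (nl_tr hI (hmul ⟨a, ha⟩ ⟨b, hb⟩) (hψ _))
    have h2 := nl_tr hI (hmul ⟨b, hb⟩ ⟨a, ha⟩) (hψ _)
    refine tendsto_nhds_unique (h1.congr fun n => ?_) h2
    rw [mul_assoc]
    exact hI.tracial _ (hΘ.mem _ n) _ (mul_mem (hqM n) (hΘ.mem _ n))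
  have hpos : ∀ a ∈ M, 0 ≤ (φ (star a * a)).re ∧ (φ (star a * a)).im = 0 := by
    intro a ha
    obtain ⟨A, hA⟩ : ∃ A : M.toStarSubalgebra, (A : H →L[ℂ] H) = a := ⟨⟨a, ha⟩, rfl⟩
    have e0 : ((star A * A : M.toStarSubalgebra) : H →L[ℂ] H) = star a * a := by
      rw [MulMemClass.coe_mul, StarMemClass.coe_star, hA]
    rw [← e0, hφ]
    obtain ⟨C, hC⟩ := hΘ.bdd A
    obtain ⟨C', hC'⟩ := hΘ.bdd (star A)
    have h1 := nl_tr hI (hmul2 (star A) A) (nl_tr hI (hmul (star A) A) (hψ _))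
    have h2 : Null ξ U fun n => Θ (star A) n * q n * Θ A n - star (q n * Θ A n) * (q n * Θ A n) := by
      have hm : ∀ n, Θ (star A) n - star (Θ A n) ∈ M := fun n =>
        sub_mem (hΘ.mem _ n) (star_mem (hΘ.mem A n))
      have hb : ∀ n, ‖q n * Θ A n‖ ≤ C := fun n => (norm_mul_le _ _).trans
        (calc ‖q n‖ * ‖Θ A n‖ ≤ 1 * C := mul_le_mul (hq1 n) (hC n) (norm_nonneg _) zero_le_one
          _ = C := one_mul C)
      refine nl_congr (nl_mul_right hI hb (fun n => mul_mem (hqM n) (hΘ.mem A n)) hm (hΘ.star_ A)) fun n => ?_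
      rw [star_mul, hqs]
      have h3 : star (Θ A n) * q n * (q n * Θ A n) = star (Θ A n) * (q n * Θ A n) := by
        rw [mul_assoc, ← mul_assoc (q n) (q n), hqq]
      rw [h3]
      noncomm_ring
    have h3 := nl_tr hI h2 h1
    have h4 : (fun n => tr ξ (star (q n * Θ A n) * (q n * Θ A n))) =
        fun n => ((n2 ξ (q n * Θ A n) ^ 2 : ℝ) : ℂ) := funext fun n => tr_star_mul_self _
    rw [h4] at h3
    have h5 := (Complex.continuous_re.tendsto _).comp h3
    have h6 := (Complex.continuous_im.tendsto _).comp h3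
    constructor
    · refine ge_of_tendsto' h5 fun n => ?_
      simp only [Function.comp_apply, Complex.ofReal_re]
      positivity
    · refine tendsto_nhds_unique h6 (tendsto_const_nhds.congr fun n => ?_)
      simp only [Function.comp_apply, Complex.ofReal_im]
  have hφ1 : φ 1 = (s : ℂ) := by
    have e : φ 1 = ψ 1 := hφ 1
    rw [e]
    have h1 : Null ξ U fun n => q n * Θ 1 n - q n := by
      refine nl_congr (nl_mul_left hI hq1 hΘ1) fun n => ?_
      noncomm_ring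
    have h2 := nl_tr hI h1 (hψ 1)
    have h3 := (Complex.continuous_ofReal.tendsto _).comp hts
    refine tendsto_nhds_unique h2 (h3.congr fun n => ?_)
    exact (re_tr_proj_mem hI (hqP n)).2.2.symm
  refine ⟨fun a n => q n * Θ a n, ?_, ?_, ?_, ?_, ?_, ?_, ?_⟩
  · exact fun a n => mul_mem (hqM n) (hΘ.mem a n)
  · intro a
    obtain ⟨C, hC⟩ := hΘ.bdd a
    refine ⟨C, fun n => (norm_mul_le _ _).trans ?_⟩
    calc ‖q n‖ * ‖Θ a n‖ ≤ 1 * C := mul_le_mul (hq1 n) (hC n) (norm_nonneg _) zero_le_one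
      _ = C := one_mul C
  · intro a b
    refine nl_congr (nl_mul_left hI hq1 (hΘ.add a b)) fun n => ?_
    noncomm_ring
  · intro c a
    refine nl_congr (nl_mul_left hI hq1 (hΘ.smul c a)) fun n => ?_
    rw [mul_sub, mul_smul_comm]
  · intro a b
    refine nl_congr (nl_add hI (hmul a b) (nl_mul_left hI hq1 (hmul2 a b))) fun n => ?_
    have h3 : q n * (q n * Θ a n * Θ b n - Θ a n * q n * Θ b n) =
        q n * Θ a n * Θ b n - q n * Θ a n * (q n * Θ b n) := by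
      rw [mul_sub, ← mul_assoc, ← mul_assoc, hqq]
      noncomm_ring
    rw [h3]
    noncomm_ring
  · intro a
    have h1 := nl_star hI (fun n => sub_mem (mul_mem (hqM n) (hΘ.mem a n)) (mul_mem (hΘ.mem a n) (hqM n)))
      (hcomm a)
    refine nl_congr (nl_sub hI (nl_mul_left hI hq1 (hΘ.star_ a)) h1) fun n => ?_
    rw [star_sub, star_mul, star_mul, hqs]
    noncomm_ring
  · intro a
    have h1 := trace_unique h φ hadd hsmul htr hpos a.2
    rw [hφ a, hφ1] at h1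
    rw [← h1]
    exact hψ a

theorem comm_sc (h : IsIIOne M ξ) {U : Ultrafilter ℕ} (hc : CommEmb M ξ U) :
    ∃ s : ℝ, 0 < s ∧ s < 1 ∧ ScEmb M ξ U s := by
  obtain ⟨Θ, hΘ, hΘ1, x, hxM, ⟨C, hC⟩, hxc, hxn⟩ := hc
  have hI : IsTrace M ξ := h.toIsTrace
  have hC0 : 0 ≤ C := (norm_nonneg _).trans (hC 0)
  have hC' : ∀ n, ‖star (x n)‖ ≤ C := fun n => by rw [norm_star]; exact hC n
  have hstar : ∀ a, Null ξ U fun n => star (x n) * Θ a n - Θ a n * star (x n) := by
    intro a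
    have hD : Null ξ U fun n => Θ a n - star (Θ (star a) n) := by
      have h1 := hΘ.star_ (star a)
      rwa [star_star] at h1
    have hDM : ∀ n, Θ a n - star (Θ (star a) n) ∈ M := fun n =>
      sub_mem (hΘ.mem _ n) (star_mem (hΘ.mem _ n))
    have h2 := nl_star hI (fun n => sub_mem (mul_mem (hxM n) (hΘ.mem (star a) n))
      (mul_mem (hΘ.mem (star a) n) (hxM n))) (hxc (star a))
    have h3 := nl_mul_left hI hC' hD
    have h4 := nl_mul_right hI hC' (fun n => star_mem (hxM n)) hDM hD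
    refine nl_congr (nl_sub hI (nl_sub hI h3 h4) h2) fun n => ?_
    rw [star_sub, star_mul, star_mul]
    noncomm_ring
  by_cases h1 : ∀ c : ℝ, ¬ Null ξ U fun n => (1 / 2 : ℂ) • (x n + star (x n)) - (c : ℂ) • (1 : H →L[ℂ] H)
  · refine co_sa h hΘ hΘ1 (y := fun n => (1 / 2 : ℂ) • (x n + star (x n))) (R := C)
      (fun n => smul_mem' _ (add_mem (hxM n) (star_mem (hxM n)))) (fun n => ?_) (fun n => ?_) (fun a => ?_) h1
    · rw [IsSelfAdjoint, star_smul, star_add, star_star, add_comm]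
      congr 1
      simp
    · rw [norm_smul]
      have h2 := norm_add_le (x n) (star (x n))
      have h3 := hC n
      have h4 := hC' n
      have h5 : ‖(1 / 2 : ℂ)‖ = 1 / 2 := by norm_num
      rw [h5]
      linarith
    · refine nl_congr (nl_smul (1 / 2 : ℂ) (nl_add hI (hxc a) (hstar a))) fun n => ?_
      rw [smul_mul_assoc, mul_smul_comm, ← smul_sub]
      congr 1
      noncomm_ring
  push Not at h1
  obtain ⟨c1, h1⟩ := h1
  refine co_sa h hΘ hΘ1 (y := fun n => (-Complex.I / 2 : ℂ) • (x n - star (x n))) (R := C)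
      (fun n => smul_mem' _ (sub_mem (hxM n) (star_mem (hxM n)))) (fun n => ?_) (fun n => ?_) (fun a => ?_) ?_
  · rw [IsSelfAdjoint, star_smul, star_sub, star_star]
    have h2 : star (-Complex.I / 2 : ℂ) = -(-Complex.I / 2) := by
      rw [star_div₀, star_neg]
      simp
      ring
    rw [h2, neg_smul, ← smul_neg, neg_sub]
  · rw [norm_smul]
    have h2 := norm_sub_le (x n) (star (x n))
    have h3 := hC n
    have h4 := hC' n
    have h5 : ‖(-Complex.I / 2 : ℂ)‖ = 1 / 2 := by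
      rw [norm_div, norm_neg, Complex.norm_I]
      norm_num
    rw [h5]
    linarith
  · refine nl_congr (nl_smul (-Complex.I / 2 : ℂ) (nl_sub hI (hxc a) (hstar a))) fun n => ?_
    rw [smul_mul_assoc, mul_smul_comm, ← smul_sub]
    congr 1
    noncomm_ring
  · intro c2 h2
    refine hxn ((c1 : ℂ) + Complex.I * c2) ?_
    refine nl_congr (nl_add hI h1 (nl_smul Complex.I h2)) fun n => ?_
    rw [smul_sub, smul_smul, smul_smul, add_smul]
    have h3 : Complex.I * (-Complex.I / 2) = 1 / 2 := by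
      rw [mul_div_assoc', mul_neg, Complex.I_mul_I]
      norm_num
    rw [h3]
    module

end Pool.Agent.Lib.UPE
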