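import Pool.Agent.Lib.UPE.TU
import Pool.Agent.Lib.UPE.CCU
import Pool.Agent.Lib.UPE.IDefs

/-!
# UPE / CT (170 lines): a *-homomorphism on a corner multiplies the trace by a constant

PROOF.  (The proof of `hom_sc` in EU.lean, landed, contains the limit arguments of (1) for `p = 1`: copy its private lemmas.)
(1) On `C = corner M p` (closed under sums, scalars, products, `star`; `p * a = a = a * p`): `t` is additive and homogeneous, `t (a * b) = t (b * a)`, and `t (star a * a)` is the limit of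
`n2 η (Θ a n) ^ 2`, so it is real and `≥ 0` (null sequences: `‖tr η x‖ ≤ n2 η x`).
(2) `p ≠ 0`, since otherwise `Θ p = Θ 0` is null by `smul 0`.  `cover`: `v : Fin n → M` with `v i * p = v i`, `∑ v i * star (v i) = 1`.  Put `φ a = ∑ i, t (star (v i) * a * v i)`;
`star (v i) * a * v j ∈ C` for `a ∈ M`.  `φ` is additive and homogeneous.  Tracial: `star (v i) * (a * b) * v i = ∑ j, (star (v i) * a * v j) * (star (v j) * b * v i)`, so
`φ (a * b) = ∑ i j, t ((star (v i) * a * v j) * (star (v j) * b * v i)) = ∑ i j, t ((star (v j) * b * v i) * (star (v i) * a * v j)) = φ (b * a)`.  Positive: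
`star (v i) * (star a * a) * v i = ∑ j, star (star (v j) * a * v i) * (star (v j) * a * v i)`.
(3) `trace_unique h`: `φ a = φ 1 * tr ξ a` for `a ∈ M`; `φ 1` is real and `≥ 0` (positivity for `a = 1`); `c = (φ 1).re`.
(4) `φ a = t a` for `a ∈ C`: `star (v i) * a * v i = star (p * v i) * a * (p * v i)` with `p * v i ∈ C` (`p * (p * v i) * p = p * v i`), so
`t (star (v i) * a * v i) = t (a * ((p * v i) * star (p * v i))) = t (a * (p * (v i * star (v i)) * p))`, and the sum over `i` is `t (a * (p * 1 * p)) = t a`.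
(5) So `t a = c * tr ξ a` on `C` and `hΘ` gives the new `IsCS` (only `trace` changes).  `c ≠ 0`: otherwise `t p = t (star p * p) = 0` and `n2 η (Θ p n) → 0`, against `h0`.
-/

set_option autoImplicit false

open Filter Topology

namespace Pool.Agent.Lib.UPE

variable {H : Type*} [NormedAddCommGroup H] [InnerProductSpace ℂ H] [CompleteSpace H]
variable {K : Type*} [NormedAddCommGroup K] [InnerProductSpace ℂ K] [CompleteSpace K]
variable {M : VonNeumannAlgebra H} {ξ : ℕ → H} {N : VonNeumannAlgebra K} {η : ℕ → K}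

private theorem ct_tr0 (h : IsTrace N η) {U : Ultrafilter ℕ} {x : ℕ → (K →L[ℂ] K)} (hx : Null η U x) :
    Tendsto (fun n => tr η (x n)) U (𝓝 0) :=
  squeeze_zero_norm (fun n => norm_tr_le h (x n)) hx

private theorem ct_eq (h : IsTrace N η) {U : Ultrafilter ℕ} {x y : ℕ → (K →L[ℂ] K)} {a b : ℂ}
    (hxy : Null η U fun n => x n - y n) (hx : Tendsto (fun n => tr η (x n)) U (𝓝 a))
    (hy : Tendsto (fun n => tr η (y n)) U (𝓝 b)) : a = b := by
  have h1 : Tendsto (fun n => tr η (x n) - tr η (y n)) U (𝓝 0) := by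
    simpa only [tr_sub h] using ct_tr0 h hxy
  exact sub_eq_zero.1 (tendsto_nhds_unique (hx.sub hy) h1)

private theorem ct_null_add (h : IsTrace N η) {U : Ultrafilter ℕ} {x y : ℕ → (K →L[ℂ] K)}
    (hx : Null η U x) (hy : Null η U y) : Null η U fun n => x n + y n := by
  refine squeeze_zero (fun n => n2_nonneg _) (fun n => n2_add_le h (x n) (y n)) ?_
  simpa using Tendsto.add hx hy

private theorem ct_null_mul (h : IsTrace N η) {U : Ultrafilter ℕ} {x y : ℕ → (K →L[ℂ] K)} {C : ℝ}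
    (hx : Null η U x) (hxM : ∀ n, x n ∈ N) (hyM : ∀ n, y n ∈ N) (hC : ∀ n, ‖y n‖ ≤ C) :
    Null η U fun n => x n * y n := by
  refine squeeze_zero (fun n => n2_nonneg _) (fun n => (n2_mul_le' h (hxM n) (hyM n)).trans
    (mul_le_mul_of_nonneg_left (hC n) (n2_nonneg _))) ?_
  simpa using Tendsto.mul_const C hx

private theorem ct_null_of_sq {U : Ultrafilter ℕ} {x : ℕ → (K →L[ℂ] K)}
    (hx : Tendsto (fun n => (n2 η (x n)) ^ 2) U (𝓝 0)) : Null η U x := by
  have h1 := (Real.continuous_sqrt.tendsto _).comp hx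
  rw [Real.sqrt_zero] at h1
  exact h1.congr fun n => Real.sqrt_sq (n2_nonneg _)

/-! ### the corner -/

private theorem cn_left {p a : H →L[ℂ] H} (hp : IsStarProjection p) (ha : a ∈ corner M p) : p * a = a := by
  have hpp : p * p = p := hp.isIdempotentElem
  calc p * a = p * (p * a * p) := by rw [ha.2]
    _ = (p * p) * a * p := by simp only [mul_assoc]
    _ = a := by rw [hpp, ha.2]

private theorem cn_right {p a : H →L[ℂ] H} (hp : IsStarProjection p) (ha : a ∈ corner M p) : a * p = a := by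
  have hpp : p * p = p := hp.isIdempotentElem
  calc a * p = (p * a * p) * p := by rw [ha.2]
    _ = p * a * (p * p) := by simp only [mul_assoc]
    _ = a := by rw [hpp, ha.2]

private theorem cn_of {p a : H →L[ℂ] H} (haM : a ∈ M) (h1 : p * a = a) (h2 : a * p = a) : a ∈ corner M p :=
  ⟨haM, by rw [h1, h2]⟩

private theorem cn_add {p a b : H →L[ℂ] H} (ha : a ∈ corner M p) (hb : b ∈ corner M p) :
    a + b ∈ corner M p :=
  ⟨add_mem ha.1 hb.1, by rw [mul_add, add_mul, ha.2, hb.2]⟩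

private theorem cn_smul {p a : H →L[ℂ] H} (z : ℂ) (ha : a ∈ corner M p) : z • a ∈ corner M p :=
  ⟨smul_mem' z ha.1, by rw [mul_smul_comm, smul_mul_assoc, ha.2]⟩

private theorem cn_mul {p a b : H →L[ℂ] H} (hp : IsStarProjection p) (ha : a ∈ corner M p)
    (hb : b ∈ corner M p) : a * b ∈ corner M p :=
  cn_of (mul_mem ha.1 hb.1) (by rw [← mul_assoc, cn_left hp ha]) (by rw [mul_assoc, cn_right hp hb])

private theorem cn_star {p a : H →L[ℂ] H} (hp : IsStarProjection p) (ha : a ∈ corner M p) :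
    star a ∈ corner M p := by
  have hps : star p = p := hp.isSelfAdjoint
  refine ⟨star_mem ha.1, ?_⟩
  conv_rhs => rw [← ha.2]
  rw [star_mul, star_mul, hps, mul_assoc]

private theorem cn_conj {p a v w : H →L[ℂ] H} (hp : IsStarProjection p) (haM : a ∈ M) (hvM : v ∈ M) (hwM : w ∈ M)
    (hv : v * p = v) (hw : w * p = w) : star v * a * w ∈ corner M p := by
  have hps : star p = p := hp.isSelfAdjoint
  refine cn_of (mul_mem (mul_mem (star_mem hvM) haM) hwM) ?_ (by rw [mul_assoc, hw])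
  have h1 : p * star v = star v := by
    rw [← hps, ← star_mul, hv]
  rw [← mul_assoc, ← mul_assoc, h1]

/-! ### the functional on the corner -/

private structure CF (M : VonNeumannAlgebra H) (p : H →L[ℂ] H) (t : (H →L[ℂ] H) → ℂ) : Prop where
  add : ∀ a ∈ corner M p, ∀ b ∈ corner M p, t (a + b) = t a + t b
  smul : ∀ z : ℂ, ∀ a ∈ corner M p, t (z • a) = z * t a
  tr : ∀ a ∈ corner M p, ∀ b ∈ corner M p, t (a * b) = t (b * a)
  pos : ∀ a ∈ corner M p, 0 ≤ (t (star a * a)).re ∧ (t (star a * a)).im = 0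

private theorem CF.sum {p : H →L[ℂ] H} {t : (H →L[ℂ] H) → ℂ} (ht : CF M p t) {ι : Type} (s : Finset ι)
    (f : ι → (H →L[ℂ] H)) (hf : ∀ i ∈ s, f i ∈ corner M p) :
    (∑ i ∈ s, f i ∈ corner M p) ∧ t (∑ i ∈ s, f i) = ∑ i ∈ s, t (f i) := by
  classical
  have h0 : (0 : H →L[ℂ] H) ∈ corner M p := ⟨zero_mem M, by simp⟩
  have ht0 : t 0 = 0 := by
    have := ht.smul 0 0 h0
    rwa [zero_smul, zero_mul] at this
  induction s using Finset.induction_on with
  | empty => exact ⟨by simpa using h0, by simpa using ht0⟩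
  | insert j s hj ih =>
    have h1 := ih fun i hi => hf i (Finset.mem_insert_of_mem hi)
    have h2 := hf j (Finset.mem_insert_self j s)
    rw [Finset.sum_insert hj, Finset.sum_insert hj]
    exact ⟨cn_add h2 h1.1, by rw [ht.add _ h2 _ h1.1, h1.2]⟩

private theorem ct_sq (hN : IsTrace N η) {U : Ultrafilter ℕ} {p : H →L[ℂ] H} (hp : IsStarProjection p)
    {t : (H →L[ℂ] H) → ℂ} {Θ : (H →L[ℂ] H) → ℕ → (K →L[ℂ] K)}
    (hΘ : IsCS M p N η U t Θ) {a : H →L[ℂ] H} (ha : a ∈ corner M p) :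
    Tendsto (fun n => (((n2 η (Θ a n)) ^ 2 : ℝ) : ℂ)) U (𝓝 (t (star a * a))) := by
  obtain ⟨C, hC⟩ := hΘ.bdd a ha
  have hsa := cn_star hp ha
  have h1 := ct_null_add hN (hΘ.mul (star a) hsa a ha) (ct_null_mul hN (hΘ.star_ a ha)
    (fun n => sub_mem (hΘ.mem _ hsa n) (star_mem (hΘ.mem _ ha n))) (hΘ.mem a ha) hC)
  have h2 : Null η U fun n => Θ (star a * a) n - star (Θ a n) * Θ a n := by
    refine h1.congr fun n => ?_
    congr 1
    beta_reduce
    rw [sub_mul]
    abel
  have h3 := (hΘ.trace (star a * a) (cn_mul hp hsa ha)).sub (ct_tr0 hN h2)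
  rw [sub_zero] at h3
  refine h3.congr fun n => ?_
  rw [tr_sub hN, tr_star_mul_self]
  ring

private theorem ct_re (hN : IsTrace N η) {U : Ultrafilter ℕ} {p : H →L[ℂ] H} (hp : IsStarProjection p)
    {t : (H →L[ℂ] H) → ℂ} {Θ : (H →L[ℂ] H) → ℕ → (K →L[ℂ] K)}
    (hΘ : IsCS M p N η U t Θ) {a : H →L[ℂ] H} (ha : a ∈ corner M p) :
    Tendsto (fun n => (n2 η (Θ a n)) ^ 2) U (𝓝 (t (star a * a)).re) ∧ 0 ≤ (t (star a * a)).re ∧
      (t (star a * a)).im = 0 := by
  have h1 := ct_sq hN hp hΘ ha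
  have h2 : Tendsto (fun n => (n2 η (Θ a n)) ^ 2) U (𝓝 (t (star a * a)).re) :=
    ((Complex.continuous_re.tendsto _).comp h1).congr fun n => Complex.ofReal_re _
  have h3 : Tendsto (fun _ : ℕ => (0 : ℝ)) U (𝓝 (t (star a * a)).im) :=
    ((Complex.continuous_im.tendsto _).comp h1).congr fun n => Complex.ofReal_im _
  exact ⟨h2, ge_of_tendsto' h2 fun n => sq_nonneg _, tendsto_nhds_unique h3 tendsto_const_nhds⟩

private theorem ct_cf (hN : IsTrace N η) {U : Ultrafilter ℕ} {p : H →L[ℂ] H} (hp : IsStarProjection p)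
    {t : (H →L[ℂ] H) → ℂ} {Θ : (H →L[ℂ] H) → ℕ → (K →L[ℂ] K)}
    (hΘ : IsCS M p N η U t Θ) : CF M p t := by
  refine ⟨?_, ?_, ?_, fun a ha => (ct_re hN hp hΘ ha).2⟩
  · intro a ha b hb
    refine ct_eq hN (hΘ.add a ha b hb) (hΘ.trace _ (cn_add ha hb)) ?_
    simpa only [tr_add hN] using (hΘ.trace a ha).add (hΘ.trace b hb)
  · intro z a ha
    refine ct_eq hN (hΘ.smul z a ha) (hΘ.trace _ (cn_smul z ha)) ?_
    simpa only [tr_smul] using (hΘ.trace a ha).const_mul z
  · intro a ha b hb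
    have h2 : Tendsto (fun n => tr η (Θ a n * Θ b n)) U (𝓝 (t (a * b))) := by
      have h3 := (hΘ.trace (a * b) (cn_mul hp ha hb)).sub (ct_tr0 hN (hΘ.mul a ha b hb))
      rw [sub_zero] at h3
      refine h3.congr fun n => ?_
      rw [tr_sub hN]
      ring
    have h4 : Tendsto (fun n => tr η (Θ b n * Θ a n)) U (𝓝 (t (b * a))) := by
      have h3 := (hΘ.trace (b * a) (cn_mul hp hb ha)).sub (ct_tr0 hN (hΘ.mul b hb a ha))
      rw [sub_zero] at h3
      refine h3.congr fun n => ?_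
      rw [tr_sub hN]
      ring
    exact tendsto_nhds_unique h2 (h4.congr fun n => hN.tracial _ (hΘ.mem _ hb n) _ (hΘ.mem _ ha n))

/-- the trace on the corner is a multiple of `tr ξ` -/
private theorem cf_unique (h : IsIIOne M ξ) {p : H →L[ℂ] H} (hp : IsStarProjection p) (hpM : p ∈ M) (hp0 : p ≠ 0)
    {t : (H →L[ℂ] H) → ℂ} (ht : CF M p t) :
    ∃ c : ℝ, 0 ≤ c ∧ ∀ a ∈ corner M p, t a = (c : ℂ) * tr ξ a := by
  obtain ⟨n, v, hvM, -, hvp, -, hv1⟩ := cover h hp hpM hp0
  have hps : star p = p := hp.isSelfAdjoint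
  have hpp : p * p = p := hp.isIdempotentElem
  obtain ⟨φ, hφ⟩ : ∃ φ : (H →L[ℂ] H) → ℂ, ∀ a, φ a = ∑ i, t (star (v i) * a * v i) := ⟨_, fun a => rfl⟩
  have hcj : ∀ a ∈ M, ∀ i j, star (v i) * a * v j ∈ corner M p := fun a ha i j =>
    cn_conj hp ha (hvM i) (hvM j) (hvp i) (hvp j)
  have hadd : ∀ a ∈ M, ∀ b ∈ M, φ (a + b) = φ a + φ b := by
    intro a ha b hb
    rw [hφ, hφ, hφ, ← Finset.sum_add_distrib]
    refine Finset.sum_congr rfl fun i _ => ?_
    rw [mul_add, add_mul, ht.add _ (hcj a ha i i) _ (hcj b hb i i)]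
  have hsmul : ∀ (c : ℂ), ∀ a ∈ M, φ (c • a) = c * φ a := by
    intro c a ha
    rw [hφ, hφ, Finset.mul_sum]
    refine Finset.sum_congr rfl fun i _ => ?_
    rw [mul_smul_comm, smul_mul_assoc, ht.smul _ _ (hcj a ha i i)]
  have hins : ∀ a ∈ M, ∀ b ∈ M, ∀ i, t (star (v i) * (a * b) * v i) =
      ∑ j, t ((star (v i) * a * v j) * (star (v j) * b * v i)) := by
    intro a ha b hb i
    rw [← (ht.sum Finset.univ (fun j => (star (v i) * a * v j) * (star (v j) * b * v i))
      fun j _ => cn_mul hp (hcj a ha i j) (hcj b hb j i)).2]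
    congr 1
    have h1 : star (v i) * (a * b) * v i = star (v i) * a * 1 * (b * v i) := by
      simp only [mul_assoc, one_mul]
    rw [h1, ← hv1, Finset.mul_sum, Finset.sum_mul]
    refine Finset.sum_congr rfl fun j _ => ?_
    simp only [mul_assoc]
  have htr : ∀ a ∈ M, ∀ b ∈ M, φ (a * b) = φ (b * a) := by
    intro a ha b hb
    rw [hφ, hφ]
    simp only [hins a ha b hb, hins b hb a ha]
    rw [Finset.sum_comm]
    refine Finset.sum_congr rfl fun i _ => Finset.sum_congr rfl fun j _ => ?_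
    exact ht.tr _ (hcj a ha j i) _ (hcj b hb i j)
  have hpos : ∀ a ∈ M, 0 ≤ (φ (star a * a)).re ∧ (φ (star a * a)).im = 0 := by
    intro a ha
    have h1 : φ (star a * a) = ∑ i, ∑ j, t (star (star (v j) * a * v i) * (star (v j) * a * v i)) := by
      rw [hφ]
      refine Finset.sum_congr rfl fun i _ => ?_
      rw [hins (star a) (star_mem ha) a ha i]
      refine Finset.sum_congr rfl fun j _ => ?_
      congr 2
      rw [star_mul, star_mul, star_star, mul_assoc]
    rw [h1]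
    constructor
    · simp only [Complex.re_sum]
      exact Finset.sum_nonneg fun i _ => Finset.sum_nonneg fun j _ => (ht.pos _ (hcj a ha j i)).1
    · simp only [Complex.im_sum]
      exact Finset.sum_eq_zero fun i _ => Finset.sum_eq_zero fun j _ => (ht.pos _ (hcj a ha j i)).2
  have hu := fun (a : H →L[ℂ] H) (ha : a ∈ M) => trace_unique h φ hadd hsmul htr hpos ha
  have h11 := hpos 1 (one_mem M)
  rw [star_one, one_mul] at h11
  have hreal : φ 1 = (((φ 1).re : ℝ) : ℂ) := Complex.ext (by simp) (by simp [h11.2])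
  refine ⟨(φ 1).re, h11.1, fun a ha => ?_⟩
  rw [← hreal, ← hu a ha.1, hφ]
  -- the sum gives back `t a`
  have hw : ∀ i, p * v i ∈ corner M p := fun i =>
    cn_of (mul_mem hpM (hvM i)) (by rw [← mul_assoc, hpp]) (by rw [mul_assoc, hvp i])
  have h3 : ∀ i, t (star (v i) * a * v i) = t (a * ((p * v i) * star (p * v i))) := by
    intro i
    have e1 : star (v i) * a * v i = star (p * v i) * (a * (p * v i)) := by
      rw [star_mul, hps]
      calc star (v i) * a * v i = star (v i) * (p * a * p) * v i := by rw [ha.2]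
        _ = _ := by simp only [mul_assoc]
    rw [e1, ht.tr _ (cn_star hp (hw i)) _ (cn_mul hp ha (hw i)), mul_assoc]
  simp only [h3]
  rw [← (ht.sum Finset.univ (fun i => a * ((p * v i) * star (p * v i)))
      fun i _ => cn_mul hp ha (cn_mul hp (hw i) (cn_star hp (hw i)))).2]
  congr 1
  rw [← Finset.mul_sum]
  have h4 : ∑ i, (p * v i) * star (p * v i) = p := by
    have e2 : ∀ i, (p * v i) * star (p * v i) = p * (v i * star (v i)) * p := by
      intro i
      rw [star_mul, hps]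
      simp only [mul_assoc]
    simp only [e2]
    rw [← Finset.sum_mul, ← Finset.mul_sum, hv1, mul_one, hpp]
  rw [h4, cn_right hp ha]

theorem cs_trace (h : IsIIOne M ξ) (hN : IsTrace N η) {U : Ultrafilter ℕ} {p : H →L[ℂ] H}
    (hp : IsStarProjection p) (hpM : p ∈ M) {t : (H →L[ℂ] H) → ℂ} {Θ : (H →L[ℂ] H) → ℕ → (K →L[ℂ] K)}
    (hΘ : IsCS M p N η U t Θ) (h0 : ¬ Null η U fun n => Θ p n) :
    ∃ c : ℝ, 0 < c ∧ IsCS M p N η U (fun a => (c : ℂ) * tr ξ a) Θ := by
  have hps : star p = p := hp.isSelfAdjoint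
  have hpp : p * p = p := hp.isIdempotentElem
  have hpC : p ∈ corner M p := ⟨hpM, by rw [hpp, hpp]⟩
  have hp0 : p ≠ 0 := by
    intro hz
    apply h0
    have h1 := hΘ.smul 0 p hpC
    refine h1.congr fun n => ?_
    simp only [zero_smul, sub_zero]
    rw [← hz]
  obtain ⟨c, hc0, hc⟩ := cf_unique h hp hpM hp0 (ct_cf hN hp hΘ)
  refine ⟨c, lt_of_le_of_ne hc0 fun hcz => h0 (ct_null_of_sq ?_), hΘ.mem, hΘ.bdd, hΘ.add, hΘ.smul, hΘ.mul,
    hΘ.star_, fun a ha => ?_⟩
  · have h1 := (ct_re hN hp hΘ hpC).1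
    rw [hps, hpp, hc p hpC, ← hcz] at h1
    simpa using h1
  · rw [← hc a ha]
    exact hΘ.trace a ha

end Pool.Agent.Lib.UPE
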