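import Pool.Agent.Lib.UPE.WD
import Pool.Agent.Lib.UPE.CDefs

/-!
# UPE / MW (150 lines): words in matrices

`mi l i j` is the index of the entry `(i, j)` of the `l`-th matrix; `mw k n w i j` lists the words in the entries whose values add up to the entry `(i, j)` of the word `w` in
the matrices.

PROOF.  `mem_mw`: induction on `w`.  For `a ∈ corner M e`: `e * a = a = a * e`, `star a ∈ corner M e`.
`ev_mw` (private): for `w ≠ []`: `ev z w = ∑ i, ∑ j, v i * B w i j * star (v j)` with `z l = ∑ i, ∑ j, v i * y (mi l i j) * star (v j)`, `B w i j = ((mw k n w i j).map (ev y)).sum`.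
One letter `(l, true)`: `B = y (mi l i j)` (`mw` of the empty word is `[[]]` on the diagonal, so `∑ r` has one term); `(l, false)`: `star (z l) = ∑ i j, v j * star (y (mi l i j)) *
star (v i)`, exchange `i` and `j`.  Step: `lt z (l, b) * ev z w = ∑ i r s j, v i * Y i r * (star (v r) * v s) * B w s j * star (v j)`, `Y i r = lt y (..)` in the corner,
`star (v r) * v s = if r = s then e else 0`, `Y i r * e = Y i r`; and `∑ r, Y i r * B w r j = B ((l, b) :: w) i j` (`List.sum_flatMap`/`List.map_flatMap`, `List.sum_map_mul_left`, `Finset` sum over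
`Fin n` versus `List.finRange n`: `List.sum_finRange`/`Fin.sum_univ_def`).
`tr_mw`: `tr (v i * B * star (v j)) = tr (star (v j) * v i * B)` (`h.tracial`), 0 for `i ≠ j`, `tr (e * B) = tr B` for `i = j` (all words in `mw` are non-empty, so `e * ev y u = ev y u`); `tr_sum`.
-/

set_option autoImplicit false

open Filter Topology

namespace Pool.Agent.Lib.UPE

variable {H : Type*} [NormedAddCommGroup H] [InnerProductSpace ℂ H] [CompleteSpace H]
variable {M : VonNeumannAlgebra H} {ξ : ℕ → H}

/-- the index of the entry `(i, j)` of the matrix `l` -/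
def mi {k n : ℕ} (l : Fin k) (i j : Fin n) : Fin (k * (n * n)) := finProdFinEquiv (l, finProdFinEquiv (i, j))

/-- the words which add up to the entry `(i, j)` of the word `w` -/
def mw (k n : ℕ) : List (Fin k × Bool) → Fin n → Fin n → List (List (Fin (k * (n * n)) × Bool))
  | [], i, j => if i = j then [[]] else []
  | l :: w, i, j => (List.finRange n).flatMap fun r =>
      (mw k n w r j).map fun u => ((if l.2 then mi l.1 i r else mi l.1 r i), l.2) :: u

theorem mem_mw {k n : ℕ} {w : List (Fin k × Bool)} {i j : Fin n} {u : List (Fin (k * (n * n)) × Bool)}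
    (hu : u ∈ mw k n w i j) : u.length = w.length := by
  induction w generalizing i u with
  | nil =>
    unfold mw at hu
    split_ifs at hu
    · rw [List.mem_singleton.1 hu]
      rfl
    · exact absurd hu List.not_mem_nil
  | cons l w ih =>
    unfold mw at hu
    rw [List.mem_flatMap] at hu
    obtain ⟨r, -, hu⟩ := hu
    rw [List.mem_map] at hu
    obtain ⟨u', hu', rfl⟩ := hu
    rw [List.length_cons, List.length_cons, ih hu']

private def yy {A : Type*} [Star A] {k n : ℕ} (y : Fin (k * (n * n)) → A) (l : Fin k × Bool)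
    (i r : Fin n) : A := lt y ((if l.2 then mi l.1 i r else mi l.1 r i), l.2)

private def bb {A : Type*} [Ring A] [Star A] {k n : ℕ} (y : Fin (k * (n * n)) → A)
    (w : List (Fin k × Bool)) (i j : Fin n) : A := ((mw k n w i j).map (ev y)).sum

private theorem sum_flat {A : Type*} [Ring A] {ι κ : Type*} (l : List ι) (f : ι → List κ) (g : κ → A) :
    ((l.flatMap f).map g).sum = (l.map fun i => ((f i).map g).sum).sum := by
  induction l with
  | nil => simp
  | cons i l ih =>
    rw [List.flatMap_cons, List.map_append, List.sum_append, ih, List.map_cons, List.sum_cons]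

private theorem bb_nil {A : Type*} [Ring A] [Star A] {k n : ℕ} (y : Fin (k * (n * n)) → A)
    (i j : Fin n) : bb y [] i j = if i = j then 1 else 0 := by
  unfold bb mw
  split_ifs
  · simp [ev_nil]
  · simp

private theorem bb_cons {A : Type*} [Ring A] [Star A] {k n : ℕ} (y : Fin (k * (n * n)) → A)
    (l : Fin k × Bool) (w : List (Fin k × Bool)) (i j : Fin n) :
    bb y (l :: w) i j = ∑ r, yy y l i r * bb y w r j := by
  have h1 : bb y (l :: w) i j = ((mw k n (l :: w) i j).map (ev y)).sum := rfl
  rw [h1, mw, sum_flat, Fin.sum_univ_def]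
  refine congrArg List.sum (List.map_congr_left fun r _ => ?_)
  unfold bb yy
  rw [← List.sum_map_mul_left, List.map_map]
  refine congrArg List.sum (List.map_congr_left fun u _ => ?_)
  exact ev_cons _ _ _

private theorem lt_z {A : Type*} [Ring A] [StarRing A] {k n : ℕ} (y : Fin (k * (n * n)) → A) (v : Fin n → A)
    (l : Fin k × Bool) :
    lt (fun l => ∑ i, ∑ j, v i * y (mi l i j) * star (v j)) l = ∑ i, ∑ r, v i * yy y l i r * star (v r) := by
  unfold lt yy
  by_cases h : l.2 = true
  · rw [if_pos h]
    refine Finset.sum_congr rfl fun i _ => Finset.sum_congr rfl fun r _ => ?_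
    rw [if_pos h]
    unfold lt
    rw [if_pos h]
  · rw [if_neg h, star_sum]
    rw [Finset.sum_congr rfl fun i _ => star_sum _ _, Finset.sum_comm]
    refine Finset.sum_congr rfl fun i _ => Finset.sum_congr rfl fun r _ => ?_
    rw [if_neg h]
    unfold lt
    rw [if_neg h, star_mul, star_mul, star_star, mul_assoc]

private theorem ev_z {A : Type*} [Ring A] [StarRing A] {k n : ℕ} (y : Fin (k * (n * n)) → A) (v : Fin n → A)
    {e : A} (hvv : ∀ i j, star (v i) * v j = if i = j then e else 0)
    (hY : ∀ l i r, yy y l i r * e = yy y l i r) (w : List (Fin k × Bool)) (hw : w ≠ []) :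
    ev (fun l => ∑ i, ∑ j, v i * y (mi l i j) * star (v j)) w = ∑ i, ∑ j, v i * bb y w i j * star (v j) := by
  induction w with
  | nil => exact absurd rfl hw
  | cons l w ih =>
    rw [ev_cons, lt_z]
    rcases eq_or_ne w [] with rfl | hw'
    · rw [ev_nil, mul_one]
      refine Finset.sum_congr rfl fun i _ => Finset.sum_congr rfl fun j _ => ?_
      rw [bb_cons, Finset.sum_eq_single j]
      · rw [bb_nil, if_pos rfl, mul_one]
      · intro r _ hr
        rw [bb_nil, if_neg hr, mul_zero]
      · intro h
        exact absurd (Finset.mem_univ _) h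
    · rw [ih hw', Finset.sum_mul]
      refine Finset.sum_congr rfl fun i _ => ?_
      rw [Finset.sum_mul]
      have h1 : ∀ r : Fin n, v i * yy y l i r * star (v r) * (∑ s, ∑ j, v s * bb y w s j * star (v j)) =
          ∑ j, v i * (yy y l i r * bb y w r j) * star (v j) := by
        intro r
        rw [Finset.mul_sum, Finset.sum_eq_single r]
        · rw [Finset.mul_sum]
          refine Finset.sum_congr rfl fun j _ => ?_
          have e1 : v i * yy y l i r * star (v r) * (v r * bb y w r j * star (v j)) =
              v i * (yy y l i r * (star (v r) * v r)) * bb y w r j * star (v j) := by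
            simp only [mul_assoc]
          rw [e1, hvv, if_pos rfl, hY]
          simp only [mul_assoc]
        · intro s _ hs
          rw [Finset.mul_sum]
          refine Finset.sum_eq_zero fun j _ => ?_
          have e1 : v i * yy y l i r * star (v r) * (v s * bb y w s j * star (v j)) =
              v i * yy y l i r * (star (v r) * v s) * bb y w s j * star (v j) := by
            simp only [mul_assoc]
          rw [e1, hvv, if_neg (Ne.symm hs), mul_zero, zero_mul, zero_mul]
        · intro h
          exact absurd (Finset.mem_univ _) h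
      rw [Finset.sum_congr rfl fun r _ => h1 r, Finset.sum_comm]
      refine Finset.sum_congr rfl fun j _ => ?_
      rw [bb_cons, Finset.mul_sum, Finset.sum_mul]

private theorem tr_list (h : IsTrace M ξ) {ι : Type*} (L : List ι) (f : ι → (H →L[ℂ] H)) :
    tr ξ ((L.map f).sum) = (L.map fun u => tr ξ (f u)).sum := by
  induction L with
  | nil => exact tr_zero
  | cons u L ih => rw [List.map_cons, List.sum_cons, tr_add h, ih, List.map_cons, List.sum_cons]

private theorem corner_mul {e a : H →L[ℂ] H} (he : IsStarProjection e) (ha : a ∈ corner M e) :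
    e * a = a ∧ a * e = a ∧ star a ∈ corner M e := by
  have hee : e * e = e := he.isIdempotentElem.eq
  have hes : star e = e := he.isSelfAdjoint.star_eq
  obtain ⟨h1, h2⟩ := ha
  refine ⟨?_, ?_, star_mem h1, ?_⟩
  · calc e * a = e * (e * a * e) := by rw [h2]
      _ = e * e * a * e := by simp only [mul_assoc]
      _ = a := by rw [hee, h2]
  · calc a * e = e * a * e * e := by rw [h2]
      _ = e * a * (e * e) := by simp only [mul_assoc]
      _ = a := by rw [hee, h2]
  · calc e * star a * e = star (e * a * e) := by
          rw [star_mul, star_mul, hes]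
          simp only [mul_assoc]
      _ = star a := by rw [h2]

private theorem yy_mem {k n : ℕ} {e : H →L[ℂ] H} (he : IsStarProjection e)
    {y : Fin (k * (n * n)) → (H →L[ℂ] H)} (hy : ∀ c, y c ∈ corner M e) (l : Fin k × Bool) (i r : Fin n) :
    yy y l i r ∈ corner M e := by
  unfold yy lt
  split_ifs
  · exact hy _
  · exact (corner_mul he (hy _)).2.2

theorem tr_mw (h : IsTrace M ξ) {k n : ℕ} {e : H →L[ℂ] H} (he : IsStarProjection e) (heM : e ∈ M)
    {v : Fin n → (H →L[ℂ] H)} (hv : ∀ i, v i ∈ M) (hvv : ∀ i j, star (v i) * v j = if i = j then e else 0)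
    {y : Fin (k * (n * n)) → (H →L[ℂ] H)} (hy : ∀ c, y c ∈ corner M e) {w : List (Fin k × Bool)} (hw : w ≠ []) :
    tr ξ (ev (fun l => ∑ i, ∑ j, v i * y (mi l i j) * star (v j)) w) =
      ∑ i, ((mw k n w i i).map fun u => tr ξ (ev y u)).sum := by
  have hB : ∀ i j, bb y w i j ∈ M := by
    intro i j
    unfold bb
    refine list_sum_mem fun a ha => ?_
    rw [List.mem_map] at ha
    obtain ⟨u, -, rfl⟩ := ha
    exact ev_mem (fun c => (hy c).1) u
  have heB : ∀ i j, e * bb y w i j = bb y w i j := by
    intro i j
    obtain ⟨l, w', rfl⟩ := List.exists_cons_of_ne_nil hw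
    rw [bb_cons, Finset.mul_sum]
    refine Finset.sum_congr rfl fun r _ => ?_
    rw [← mul_assoc, (corner_mul he (yy_mem he hy l i r)).1]
  rw [ev_z y v hvv (fun l i r => (corner_mul he (yy_mem he hy l i r)).2.1) w hw, tr_sum h]
  refine Finset.sum_congr rfl fun i _ => ?_
  rw [tr_sum h, Finset.sum_eq_single i]
  · rw [h.tracial _ (mul_mem (hv i) (hB i i)) _ (star_mem (hv i)), ← mul_assoc, hvv, if_pos rfl, heB, ← tr_list h]
    rfl
  · intro j _ hj
    rw [h.tracial _ (mul_mem (hv i) (hB i j)) _ (star_mem (hv j)), ← mul_assoc, hvv, if_neg hj, zero_mul, tr_zero]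
  · intro hi
    exact absurd (Finset.mem_univ _) hi

end Pool.Agent.Lib.UPE
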