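import Pool.Agent.Lib.UPE.TC
import Pool.Agent.Lib.UPE.WD

/-!
# UPE / TR (110 lines): truncation of tuples

PROOF.  Given `m`, `ε`.  `R' = max 1 R`.  Let `κ > 0` with `m * R'^m * κ < ε/2`.  `trunc` for `R'` and `κ` gives `m1, δ1`.  `hap` for length `max m (2 * m1)` and
tolerance `min (ε/2) δ1` gives `y`.  `(star (y i) * y i) ^ j` is the value at `y` of the word `[(i, false), (i, true)]` repeated `j` times (`j ≥ 1`: non-empty, length `2 j`), the
same for `x`.  So `trunc` applies to `x i`, `y i`: contractions `z i ∈ M` with `n2 (z i - y i) ≤ κ`, and `tr_ev_sub_le` for `R'` gives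
`‖tr (ev z w) - tr (ev y w)‖ ≤ m * R'^m * κ < ε/2` for the words of length `≤ m` (the bound is monotone in the length).
-/

set_option autoImplicit false

open Filter Topology

namespace Pool.Agent.Lib.UPE

variable {H : Type*} [NormedAddCommGroup H] [InnerProductSpace ℂ H] [CompleteSpace H]
variable {M : VonNeumannAlgebra H} {ξ : ℕ → H}

/-- the word whose value is `(star (x i) * x i) ^ j` -/
private def TR_w {k : ℕ} (i : Fin k) : ℕ → List (Fin k × Bool)
  | 0 => []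
  | j + 1 => (i, false) :: (i, true) :: TR_w i j

private theorem TR_ev {A : Type*} [Monoid A] [Star A] {k : ℕ} (x : Fin k → A) (i : Fin k) (j : ℕ) :
    ev x (TR_w i j) = (star (x i) * x i) ^ j := by
  induction j with
  | zero =>
    rw [TR_w, ev_nil, pow_zero]
  | succ j ih =>
    rw [TR_w, ev_cons, ev_cons, ih, pow_succ', ← mul_assoc]
    rfl

private theorem TR_len {k : ℕ} (i : Fin k) (j : ℕ) : (TR_w i j).length = 2 * j := by
  induction j with
  | zero => rfl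
  | succ j ih =>
    rw [TR_w, List.length_cons, List.length_cons, ih]
    ring

/-- approximations of bounded norm can be replaced by contractions -/
theorem apx_trunc (h : IsTrace M ξ) {s : ℝ} (hs0 : 0 ≤ s) (hs1 : s ≤ 1) {k : ℕ} {x : Fin k → (H →L[ℂ] H)}
    (hx : ∀ i, x i ∈ M) (hx1 : ∀ i, ‖x i‖ ≤ 1) {R : ℝ}
    (hap : ∀ (m : ℕ) (ε : ℝ), 0 < ε → ∃ y : Fin k → (H →L[ℂ] H), (∀ i, y i ∈ M) ∧ (∀ i, ‖y i‖ ≤ R) ∧
      ∀ w : List (Fin k × Bool), w ≠ [] → w.length ≤ m → ‖tr ξ (ev y w) - (s : ℂ) * tr ξ (ev x w)‖ < ε)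
    (m : ℕ) {ε : ℝ} (hε : 0 < ε) :
    ∃ y : Fin k → (H →L[ℂ] H), (∀ i, y i ∈ M) ∧ (∀ i, ‖y i‖ ≤ 1) ∧
      ∀ w : List (Fin k × Bool), w ≠ [] → w.length ≤ m → ‖tr ξ (ev y w) - (s : ℂ) * tr ξ (ev x w)‖ < ε := by
  set R' : ℝ := max 1 R with hR'
  have hR1 : 1 ≤ R' := le_max_left _ _
  have hRR : R ≤ R' := le_max_right _ _
  have hA : 0 ≤ (m : ℝ) * R' ^ m := by positivity
  set κ : ℝ := ε / (2 * ((m : ℝ) * R' ^ m + 1)) with hκ
  have hκ0 : 0 < κ := by positivity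
  have hκ1 : (m : ℝ) * R' ^ m * κ ≤ ε / 2 := by
    have e : ((m : ℝ) * R' ^ m + 1) * κ = ε / 2 := by
      rw [hκ]
      field_simp
    nlinarith
  obtain ⟨m1, δ1, hδ1, htr⟩ := trunc h hR1 hκ0
  obtain ⟨y, hyM, hyR, hyw⟩ := hap (max m (2 * m1)) (min (ε / 2) δ1) (lt_min (by positivity) hδ1)
  have hz : ∀ i, ∃ z ∈ M, ‖z‖ ≤ 1 ∧ n2 ξ (z - y i) ≤ κ := by
    intro i
    refine htr s hs0 hs1 (x i) (hx i) (hx1 i) (y i) (hyM i) ((hyR i).trans hRR) fun j hj1 hj2 => ?_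
    have h1 := hyw (TR_w i j) (by
      intro he
      have := congrArg List.length he
      rw [TR_len, List.length_nil] at this
      omega) (by
      rw [TR_len]
      exact (Nat.mul_le_mul_left 2 hj2).trans (le_max_right _ _))
    rw [TR_ev, TR_ev] at h1
    exact h1.le.trans (min_le_right _ _)
  choose z hzM hz1 hzn using hz
  refine ⟨z, hzM, hz1, fun w hw hwm => ?_⟩
  have h1 := hyw w hw (hwm.trans (le_max_left _ _))
  have h2 := tr_ev_sub_le h hR1 hzM hyM (fun i => (hz1 i).trans hR1) (fun i => (hyR i).trans hRR) hzn hκ0.le w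
  have h3 : (w.length : ℝ) * R' ^ w.length * κ ≤ (m : ℝ) * R' ^ m * κ := by
    refine mul_le_mul_of_nonneg_right ?_ hκ0.le
    refine mul_le_mul (by exact_mod_cast hwm) (pow_le_pow_right₀ hR1 hwm) (by positivity) (by positivity)
  have h4 : ‖tr ξ (ev z w) - (s : ℂ) * tr ξ (ev x w)‖ ≤
      ‖tr ξ (ev z w) - tr ξ (ev y w)‖ + ‖tr ξ (ev y w) - (s : ℂ) * tr ξ (ev x w)‖ := by
    have e : tr ξ (ev z w) - (s : ℂ) * tr ξ (ev x w) =
        (tr ξ (ev z w) - tr ξ (ev y w)) + (tr ξ (ev y w) - (s : ℂ) * tr ξ (ev x w)) := by ring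
    rw [e]
    exact norm_add_le _ _
  have h5 := min_le_left (ε / 2) δ1
  linarith

end Pool.Agent.Lib.UPE
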