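import Pool.Agent.Lib.UPE.MU
import Pool.Agent.Lib.UPE.CCU
import Pool.Agent.Lib.UPE.CL2
import Pool.Agent.Lib.UPE.TR
import Pool.Agent.Lib.UPE.MW

/-!
# UPE / CUP: from a corner to the whole algebra

PROOF.  `n ≥ 1` with `1/n ≤ (tr p).re`; a projection `q ∈ M` below `p` with `tr q = 1/n`; matrix units `v i` for `q`;
a projection `e` with `tr e = s/n` and `b i` with `star (b i) * b j = if i = j then e else 0`.  The entries
`X (mi l i j) = star (v i) * x l * v j` are in `corner M q`; `aps_corner` gives `Y c ∈ corner M e`, and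
`z l = ∑ i j, b i * Y (mi l i j) * star (b j)`.  `tr_mw` twice, and `apx_trunc`.
-/

set_option autoImplicit false

open Filter Topology

namespace Pool.Agent.Lib.UPE

variable {H : Type*} [NormedAddCommGroup H] [InnerProductSpace ℂ H] [CompleteSpace H]
variable {M : VonNeumannAlgebra H} {ξ : ℕ → H}

private theorem cup_mul {v e : H →L[ℂ] H} (he : IsStarProjection e) (hv : star v * v = e) : v * e = v := by
  have h1 : star (v - v * e) * (v - v * e) = 0 := by
    rw [star_sub, star_mul, he.isSelfAdjoint.star_eq]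
    have h2 : (star v - e * star v) * (v - v * e) =
        star v * v - star v * v * e - e * (star v * v) + e * (star v * v) * e := by noncomm_ring
    rw [h2, hv, he.isIdempotentElem.eq, he.isIdempotentElem.eq]
    abel
  have h3 : v - v * e = 0 := by
    have h4 := CStarRing.norm_star_mul_self (x := v - v * e)
    rw [h1, norm_zero] at h4
    exact norm_eq_zero.1 (mul_self_eq_zero.1 h4.symm)
  exact (sub_eq_zero.1 h3).symm

private theorem cup_norm {v e : H →L[ℂ] H} (he : IsStarProjection e) (hv : star v * v = e) : ‖v‖ ≤ 1 := by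
  have h4 := CStarRing.norm_star_mul_self (x := v)
  rw [hv] at h4
  have h5 := norm_proj_le he
  nlinarith [norm_nonneg v]

private theorem cup_units (h : IsIIOne M ξ) {n : ℕ} {t : ℝ} (ht0 : 0 ≤ t) (hnt : (n : ℝ) * t ≤ 1)
    (ht1 : t ≤ 1) :
    ∃ e ∈ M, IsStarProjection e ∧ tr ξ e = (t : ℂ) ∧ ∃ b : Fin n → (H →L[ℂ] H), (∀ i, b i ∈ M) ∧
      ∀ i j, star (b i) * b j = if i = j then e else 0 := by
  obtain ⟨e, heM, he, -, hte⟩ := exists_trace h (q := 1) (IsStarProjection.one _) (one_mem M) ht0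
    (by rw [tr_one h.toIsTrace]; simpa using ht1)
  obtain ⟨g, hg, hgg⟩ := orth h (fun _ : Fin n => t) (fun _ => ht0) (by simpa using hnt)
  have h1 : ∀ i, ∃ v ∈ M, star v * v = e ∧ g i * v = v := fun i =>
    compare h he (hg i).2.1 heM (hg i).1 (by rw [hte, (hg i).2.2])
  choose b hbM hbe hgb using h1
  refine ⟨e, heM, he, hte, b, hbM, fun i j => ?_⟩
  split_ifs with hij
  · rw [hij]
    exact hbe j
  · have h2 : star (b i) = star (b i) * g i := by
      have h3 := congrArg star (hgb i)
      rw [star_mul, (hg i).2.1.isSelfAdjoint.star_eq] at h3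
      exact h3.symm
    calc star (b i) * b j = star (b i) * g i * (g j * b j) := by rw [← h2, hgb j]
      _ = star (b i) * (g i * g j) * b j := by noncomm_ring
      _ = 0 := by rw [hgg i j hij, mul_zero, zero_mul]

private theorem cup_list {α : Type*} (f g : α → ℂ) (s : ℂ) {δ : ℝ} :
    ∀ L : List α, (∀ u ∈ L, ‖f u - s * g u‖ ≤ δ) →
      ‖(L.map f).sum - s * (L.map g).sum‖ ≤ (L.length : ℝ) * δ
  | [], _ => by simp
  | a :: L, hL => by
    have h1 := cup_list f g s L fun u hu => hL u (List.mem_cons_of_mem _ hu)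
    have h2 := hL a List.mem_cons_self
    have h3 : ((a :: L).map f).sum - s * ((a :: L).map g).sum =
        (f a - s * g a) + ((L.map f).sum - s * (L.map g).sum) := by
      simp only [List.map_cons, List.sum_cons]
      ring
    rw [h3]
    refine (norm_add_le _ _).trans ?_
    rw [List.length_cons]
    push_cast
    linarith

theorem cup (h : IsIIOne M ξ) {p : H →L[ℂ] H} (hp : IsStarProjection p) (hpM : p ∈ M) (hp0 : p ≠ 0) {s : ℝ}
    (hs0 : 0 < s) (hs1 : s ≤ 1) (hap : ApS M ξ p M ξ s) : Ap M ξ s := by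
  have hT := h.toIsTrace
  have htp : 0 < (tr ξ p).re :=
    lt_of_le_of_ne (re_tr_proj_mem hT hp).1 fun h6 => hp0 (proj_eq_zero hT hp hpM h6.symm)
  obtain ⟨n0, hn0⟩ := exists_nat_one_div_lt htp
  obtain ⟨n, hn, hnp⟩ : ∃ n : ℕ, 1 ≤ n ∧ 1 / (n : ℝ) ≤ (tr ξ p).re :=
    ⟨n0 + 1, Nat.le_add_left 1 n0, by push_cast; exact hn0.le⟩
  have hnR : (0 : ℝ) < n := by exact_mod_cast hn
  obtain ⟨q, hqM, hq, hqp, htq⟩ := exists_trace h hp hpM (s := 1 / (n : ℝ)) (by positivity) hnp
  have htq' : tr ξ q = 1 / (n : ℂ) := by rw [htq]; push_cast; rfl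
  obtain ⟨v, hvM, hvv, hvs⟩ := exists_units h hn hq hqM htq'
  obtain ⟨e, heM, he, hte, b, hbM, hbb⟩ := cup_units h (n := n) (t := s / n) (by positivity)
    (by rw [mul_div_cancel₀ _ hnR.ne']; exact hs1)
    (by
      rw [div_le_one hnR]
      exact hs1.trans (by exact_mod_cast hn))
  have hte' : tr ξ e = (s : ℂ) * tr ξ q := by
    rw [hte, htq]
    push_cast
    ring
  have hA := aps_corner hT h hp hq hqM hqp hap he heM hte'
  have hvq : ∀ i, v i * q = v i := fun i => cup_mul hq (by rw [hvv, if_pos rfl])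
  have hqv : ∀ i, q * star (v i) = star (v i) := fun i => by
    have h1 := congrArg star (hvq i)
    rwa [star_mul, hq.isSelfAdjoint.star_eq] at h1
  have hv1 : ∀ i, ‖v i‖ ≤ 1 := fun i => cup_norm hq (by rw [hvv, if_pos rfl])
  have hb1 : ∀ i, ‖b i‖ ≤ 1 := fun i => cup_norm he (by rw [hbb, if_pos rfl])
  intro k m x hxM hx1 ε hε
  -- the entries of `x`
  let X : Fin (k * (n * n)) → (H →L[ℂ] H) := fun c =>
    star (v (finProdFinEquiv.symm (finProdFinEquiv.symm c).2).1) * x (finProdFinEquiv.symm c).1 *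
      v (finProdFinEquiv.symm (finProdFinEquiv.symm c).2).2
  have hXmi : ∀ l i j, X (mi l i j) = star (v i) * x l * v j := fun l i j => by
    simp only [X, mi, Equiv.symm_apply_apply]
  have hXc : ∀ c, X c ∈ corner M q := fun c => ⟨mul_mem (mul_mem (star_mem (hvM _)) (hxM _)) (hvM _), by
    simp only [X]
    rw [← mul_assoc, ← mul_assoc, hqv, mul_assoc _ _ q, hvq]⟩
  have hX1 : ∀ c, ‖X c‖ ≤ 1 := fun c => by
    simp only [X]
    refine (norm_mul_le _ _).trans ?_
    refine (mul_le_mul ((norm_mul_le _ _).trans (mul_le_mul ?_ (hx1 _) (norm_nonneg _) zero_le_one)) (hv1 _)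
      (norm_nonneg _) (by norm_num)).trans (by norm_num)
    rw [norm_star]
    exact hv1 _
  have hxX : (fun l => ∑ i, ∑ j, v i * X (mi l i j) * star (v j)) = x := by
    funext l
    calc ∑ i, ∑ j, v i * X (mi l i j) * star (v j)
        = ∑ i, ∑ j, (v i * star (v i)) * x l * (v j * star (v j)) := by
          refine Finset.sum_congr rfl fun i _ => Finset.sum_congr rfl fun j _ => ?_
          rw [hXmi]
          noncomm_ring
      _ = (∑ i, v i * star (v i)) * x l * ∑ j, v j * star (v j) := by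
          rw [Finset.sum_mul, Finset.sum_mul]
          exact Finset.sum_congr rfl fun i _ => (Finset.mul_sum _ _ _).symm
      _ = x l := by rw [hvs, one_mul, mul_one]
  refine apx_trunc hT hs0.le hs1 hxM hx1 (R := (n : ℝ) * n) (fun m' ε' hε' => ?_) m hε
  -- the finitely many words
  have hfin := List.finite_length_le (Fin k × Bool) m'
  set B : ℝ := ∑ w ∈ hfin.toFinset, ∑ i : Fin n, ((mw k n w i i).length : ℝ) with hB
  have hB0 : 0 ≤ B := Finset.sum_nonneg fun w _ => Finset.sum_nonneg fun i _ => Nat.cast_nonneg _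
  have hδ : 0 < ε' / (B + 1) := by positivity
  obtain ⟨Y, hYc, hY1, hY⟩ := hA (k * (n * n)) m' X hXc hX1 (ε' / (B + 1)) hδ
  refine ⟨fun l => ∑ i, ∑ j, b i * Y (mi l i j) * star (b j), fun l => ?_, fun l => ?_, fun w hw hwm => ?_⟩
  · exact sum_mem fun i _ => sum_mem fun j _ => mul_mem (mul_mem (hbM i) (hYc _).1) (star_mem (hbM j))
  · refine (norm_sum_le _ _).trans ((Finset.sum_le_sum fun i _ => (norm_sum_le _ _).trans
      (Finset.sum_le_sum fun j _ => (show ‖b i * Y (mi l i j) * star (b j)‖ ≤ 1 from ?_))).trans (by simp))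
    refine (norm_mul_le _ _).trans ?_
    refine (mul_le_mul ((norm_mul_le _ _).trans (mul_le_mul (hb1 i) (hY1 _) (norm_nonneg _) zero_le_one)) ?_
      (norm_nonneg _) (by norm_num)).trans (by norm_num : (1 : ℝ) * 1 * 1 ≤ 1)
    rw [norm_star]
    exact hb1 j
  · have h1 := tr_mw hT he heM hbM hbb hYc hw
    have h2 := tr_mw hT hq hqM hvM hvv hXc hw
    rw [hxX] at h2
    rw [h1, h2]
    have h3 : ∑ i, ((mw k n w i i).map fun u => tr ξ (ev Y u)).sum -
        (s : ℂ) * ∑ i, ((mw k n w i i).map fun u => tr ξ (ev X u)).sum =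
        ∑ i, (((mw k n w i i).map fun u => tr ξ (ev Y u)).sum -
          (s : ℂ) * ((mw k n w i i).map fun u => tr ξ (ev X u)).sum) := by
      rw [Finset.mul_sum, Finset.sum_sub_distrib]
    rw [h3]
    calc ‖∑ i, (((mw k n w i i).map fun u => tr ξ (ev Y u)).sum -
          (s : ℂ) * ((mw k n w i i).map fun u => tr ξ (ev X u)).sum)‖
        ≤ ∑ i, ((mw k n w i i).length : ℝ) * (ε' / (B + 1)) := by
          refine (norm_sum_le _ _).trans (Finset.sum_le_sum fun i _ => cup_list _ _ _ _ fun u hu => ?_)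
          have h4 := mem_mw hu
          refine (hY u (fun h5 => ?_) (by rw [h4]; exact hwm)).le
          rw [h5, List.length_nil] at h4
          exact hw (List.length_eq_zero_iff.1 h4.symm)
      _ = (∑ i, ((mw k n w i i).length : ℝ)) * (ε' / (B + 1)) := by rw [Finset.sum_mul]
      _ ≤ B * (ε' / (B + 1)) := by
          refine mul_le_mul_of_nonneg_right ?_ hδ.le
          exact Finset.single_le_sum (f := fun w => ∑ i : Fin n, ((mw k n w i i).length : ℝ))
            (fun w _ => Finset.sum_nonneg fun i _ => Nat.cast_nonneg _) (hfin.mem_toFinset.2 hwm)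
      _ < ε' := by
          rw [mul_div_assoc', div_lt_iff₀ (by positivity)]
          nlinarith

end Pool.Agent.Lib.UPE
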