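import Pool.Agent.Lib.UPE.SPF

/-!
# UPE / CUT (150 lines): a good cutting point

PROOF.  `F c = lim_U (tr (spr (x n) c)).re` exists (bounded real sequence along an ultrafilter: `Ultrafilter` limits in the compact
`[0,1]`, `IsCompact.ultrafilter_le_nhds'` or `Ultrafilter.le_nhds_lim`), is antitone (`spr_mono`), `F c = 0` for `c ≥ R`, `F c = 1` for
`c < - R`.  CLAIM: there are `c1 < c2` with `0 < F c < 1` for all `c ∈ [c1, c2]`.  Otherwise, `F` takes a value in `(0,1)` at
no more than one point, so with `c0 = sup {c : F c = 1}`: `F c = 1` for `c < c0`, `F c = 0` for `c > c0` (if `F c ∈ (0,1)` for some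
`c ≠ c0`, take the interval between `c` and a point towards `c0`).  By `spr_scalar`, for every `δ > 0`, `lim_U n2 (x n - c0)^2 ≤ δ^2`, so
`Null (x n - c0 • 1)`: contradiction to `hn`.  The antitone function `F` has only countably many discontinuities
(`Antitone.countable_not_continuousAt`), so it is continuous at some `c ∈ (c1, c2)`; `s = F c`, and for `ε > 0` there is `δ > 0`
with `F c - F (c + δ) < ε`, so `U`-eventually `(tr (spr (x n) c)).re - (tr (spr (x n) (c + δ))).re ≤ ε`.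
-/

set_option autoImplicit false

open Filter Topology

namespace Pool.Agent.Lib.UPE

variable {H : Type*} [NormedAddCommGroup H] [InnerProductSpace ℂ H] [CompleteSpace H]
variable {M : VonNeumannAlgebra H} {ξ : ℕ → H}

theorem exists_cut (h : IsTrace M ξ) {U : Ultrafilter ℕ} {x : ℕ → (H →L[ℂ] H)} {R : ℝ}
    (hx : ∀ n, x n ∈ M) (hsa : ∀ n, IsSelfAdjoint (x n)) (hxR : ∀ n, ‖x n‖ ≤ R)
    (hn : ∀ c : ℝ, ¬ Null ξ U fun n => x n - (c : ℂ) • (1 : H →L[ℂ] H)) :
    ∃ c s : ℝ, 0 < s ∧ s < 1 ∧ Tendsto (fun n => (tr ξ (spr (x n) c)).re) U (𝓝 s) ∧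
      ∀ ε : ℝ, 0 < ε → ∃ δ : ℝ, 0 < δ ∧
        ∀ᶠ n in (U : Filter ℕ), (tr ξ (spr (x n) c)).re - (tr ξ (spr (x n) (c + δ))).re ≤ ε := by
  classical
  have hb : ∀ n c, (tr ξ (spr (x n) c)).re ∈ Set.Icc (0 : ℝ) 1 := fun n c => by
    have := re_tr_proj_mem h (spr_proj (x n) c)
    exact ⟨this.1, this.2.1⟩
  have hlim : ∀ c : ℝ, ∃ L ∈ Set.Icc (0 : ℝ) 1,
      Tendsto (fun n => (tr ξ (spr (x n) c)).re) (U : Filter ℕ) (𝓝 L) := fun c => by
    have hm : Set.Icc (0 : ℝ) 1 ∈ U.map (fun n => (tr ξ (spr (x n) c)).re) := by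
      rw [Ultrafilter.mem_map]
      exact Filter.univ_mem' (fun n => hb n c)
    obtain ⟨L, hL, hle⟩ := isCompact_Icc.ultrafilter_le_nhds' _ hm
    exact ⟨L, hL, hle⟩
  choose F hF01 hF using hlim
  have hR : 0 ≤ R := (norm_nonneg _).trans (hxR 0)
  have hanti : Antitone F := fun c c' hc =>
    le_of_tendsto_of_tendsto' (hF c') (hF c) (fun n => spr_mono h (hsa n) hc)
  have hzero : ∀ c, R ≤ c → F c = 0 := fun c hc => by
    refine tendsto_nhds_unique (hF c) ?_
    refine tendsto_const_nhds.congr (fun n => ?_)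
    rw [spr_eq_zero (hsa n) ((hxR n).trans hc), tr_zero, Complex.zero_re]
  have hone : ∀ c, c < -R → F c = 1 := fun c hc => by
    refine tendsto_nhds_unique (hF c) ?_
    refine tendsto_const_nhds.congr (fun n => ?_)
    rw [spr_eq_one (hsa n) (lt_of_lt_of_le hc (neg_le_neg (hxR n))), tr_one h, Complex.one_re]
  -- the interval
  have hint : ∃ c1 c2 : ℝ, c1 < c2 ∧ ∀ c, c1 < c → c < c2 → 0 < F c ∧ F c < 1 := by
    set S : Set ℝ := {c | F c = 1} with hS
    have hSne : S.Nonempty := ⟨-R - 1, hone _ (by linarith)⟩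
    have hSb : BddAbove S := ⟨R, fun c hc => by
      by_contra hcon
      have h0 := hzero c (le_of_lt (not_le.mp hcon))
      rw [hS, Set.mem_ofPred_eq] at hc
      rw [h0] at hc
      exact zero_ne_one hc⟩
    set c0 := sSup S with hc0
    have hlt : ∀ c, c < c0 → F c = 1 := fun c hc => by
      obtain ⟨c', hc', hcc⟩ := exists_lt_of_lt_csSup hSne hc
      exact le_antisymm (hF01 c).2 (by
        have := hanti hcc.le
        rw [hS, Set.mem_ofPred_eq] at hc'
        rwa [hc'] at this)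
    have hgt : ∀ c, c0 < c → F c < 1 := fun c hc => by
      refine lt_of_le_of_ne (hF01 c).2 (fun h1 => ?_)
      exact absurd (le_csSup hSb (show c ∈ S from h1)) (not_le.mpr hc)
    by_contra hcon
    have hz : ∀ c, c0 < c → F c = 0 := fun c hc => by
      by_contra hne
      have hpos : 0 < F c := lt_of_le_of_ne (hF01 c).1 (Ne.symm hne)
      exact hcon ⟨c0, c, hc, fun c' h1 h2 => ⟨lt_of_lt_of_le hpos (hanti h2.le), hgt c' h1⟩⟩
    apply hn c0
    unfold Null
    rw [Metric.tendsto_nhds]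
    intro ε hε
    -- with `δ = ε / 2`
    have hδ : (0 : ℝ) < ε / 2 := by linarith
    have hK : Tendsto (fun n => (ε / 2) ^ 2 + (R + |c0|) ^ 2 *
        ((1 - (tr ξ (spr (x n) (c0 - ε / 2))).re) + (tr ξ (spr (x n) (c0 + ε / 2))).re))
        (U : Filter ℕ) (𝓝 ((ε / 2) ^ 2 + (R + |c0|) ^ 2 * ((1 - F (c0 - ε / 2)) + F (c0 + ε / 2)))) :=
      tendsto_const_nhds.add (tendsto_const_nhds.mul
        ((tendsto_const_nhds.sub (hF _)).add (hF _)))
    rw [hlt _ (by linarith), hz _ (by linarith)] at hK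
    have hev := hK.eventually (gt_mem_nhds (show (ε / 2) ^ 2 + (R + |c0|) ^ 2 * ((1 - 1) + 0) < ε ^ 2 by
      nlinarith))
    filter_upwards [hev] with n hn'
    have hs := spr_scalar h (hx n) (hsa n) c0 hδ
    have hfac : 0 ≤ (1 - (tr ξ (spr (x n) (c0 - ε / 2))).re) + (tr ξ (spr (x n) (c0 + ε / 2))).re := by
      have h1 := (hb n (c0 - ε / 2)).2
      have h2 := (hb n (c0 + ε / 2)).1
      linarith
    have hmul : (‖x n‖ + |c0|) ^ 2 * ((1 - (tr ξ (spr (x n) (c0 - ε / 2))).re) +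
        (tr ξ (spr (x n) (c0 + ε / 2))).re) ≤ (R + |c0|) ^ 2 *
        ((1 - (tr ξ (spr (x n) (c0 - ε / 2))).re) + (tr ξ (spr (x n) (c0 + ε / 2))).re) := by
      refine mul_le_mul_of_nonneg_right ?_ hfac
      refine pow_le_pow_left₀ (by positivity) ?_ 2
      linarith [hxR n]
    have hsq : n2 ξ (x n - (c0 : ℂ) • (1 : H →L[ℂ] H)) ^ 2 < ε ^ 2 := by linarith
    have h0 := n2_nonneg (ξ := ξ) (x n - (c0 : ℂ) • (1 : H →L[ℂ] H))
    rw [Real.dist_eq, sub_zero, abs_of_nonneg h0]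
    exact lt_of_pow_lt_pow_left₀ 2 hε.le hsq
  obtain ⟨c1, c2, h12, hI⟩ := hint
  obtain ⟨c, hcC, hc1, hc2⟩ :=
    (hanti.countable_not_continuousAt.dense_compl ℝ).exists_between h12
  have hcont : ContinuousAt F c := by
    by_contra hcon
    exact hcC hcon
  refine ⟨c, F c, (hI c hc1 hc2).1, (hI c hc1 hc2).2, hF c, fun ε hε => ?_⟩
  rw [Metric.continuousAt_iff] at hcont
  obtain ⟨δ, hδ, hd⟩ := hcont ε hε
  refine ⟨δ / 2, by linarith, ?_⟩
  have h1 : dist (F (c + δ / 2)) (F c) < ε := hd (by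
    rw [Real.dist_eq, add_sub_cancel_left, abs_of_pos (by linarith)]; linarith)
  rw [Real.dist_eq, abs_lt] at h1
  have h2 : F c - F (c + δ / 2) < ε := by linarith
  have h3 := ((hF c).sub (hF (c + δ / 2))).eventually (gt_mem_nhds h2)
  filter_upwards [h3] with n hn'
  exact le_of_lt hn'

end Pool.Agent.Lib.UPE
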