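import Pool.Agent.Lib.UPE.SG

/-!
# UPE / CV (180 lines): convexity of the closure of the laws

PROOF.  A NEIGHBOURHOOD LEMMA: `f ∈ closure (laws M ξ k)` iff for all `m` and `ε > 0` there is a tuple `x` of contractions in `M` with
`‖tr (ev x w) - f w‖ < ε` for all words of length `≤ m` (product topology: basic neighbourhoods given by finite sets of words, a finite set
of words has bounded length, and the words of length `≤ m` are finitely many: `List.finite_length_le`; `mem_closure_iff`,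
`mem_closure_pi`, `isOpen_pi_iff`, or `mem_closure_iff_seq_limit`).
`convex_ap`: `x` a tuple of contractions; `law x` and `law 0` are in `laws`, so `f = (1/2) law x + (1/2) law 0` is in the closure; for `w ≠ []`
`tr (ev 0 w) = 0`, so the neighbourhood lemma gives `y` with `‖tr (ev y w) - (1/2) tr (ev x w)‖ < ε`, `w ≠ []`, length `≤ m`.
`ap_convex`: `f, g` in the closure, `a, b ≥ 0`, `a + b = 1`: approximate `f` by `law x`, `g` by `law y` (tolerance `ε/3`).
`exists_trace` for `q = 1`: `p` with `tr p = a`; `tr (1 - p) = b`.  `ap_corner` (with `hall a`, `hall b`): `x' i ∈ p M p`, `y' i ∈ (1-p) M (1-p)`,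
`z i = x' i + y' i` contraction in `M`, `ev z w = ev x' w + ev y' w` for `w ≠ []` (as in SG), `tr (ev z w)` within `2ε/3` of
`a tr (ev x w) + b tr (ev y w)`; for `w = []` all values are `tr 1 = 1 = a + b` (`ev_nil`).
-/

set_option autoImplicit false

open Filter Topology

namespace Pool.Agent.Lib.UPE

variable {H : Type*} [NormedAddCommGroup H] [InnerProductSpace ℂ H] [CompleteSpace H]
variable {M : VonNeumannAlgebra H} {ξ : ℕ → H}

private theorem cv_nhds {k : ℕ} {f : List (Fin k × Bool) → ℂ} : f ∈ closure (laws M ξ k) ↔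
    ∀ (m : ℕ) (ε : ℝ), 0 < ε → ∃ x : Fin k → (H →L[ℂ] H), (∀ i, x i ∈ M) ∧ (∀ i, ‖x i‖ ≤ 1) ∧
      ∀ w : List (Fin k × Bool), w.length ≤ m → ‖tr ξ (ev x w) - f w‖ < ε := by
  constructor
  · intro hf m ε hε
    have hfin : {l : List (Fin k × Bool) | l.length ≤ m}.Finite := List.finite_length_le _ m
    have hopen : IsOpen (Set.pi {l : List (Fin k × Bool) | l.length ≤ m} fun w => Metric.ball (f w) ε) :=
      isOpen_set_pi hfin fun w _ => Metric.isOpen_ball
    obtain ⟨g, hg1, x, hxM, hx, rfl⟩ := mem_closure_iff.1 hf _ hopen (fun w _ => Metric.mem_ball_self hε)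
    refine ⟨x, hxM, hx, fun w hw => ?_⟩
    have := hg1 w hw
    rwa [Metric.mem_ball, dist_eq_norm] at this
  · intro h
    choose X hXM hX hXw using fun n : ℕ => h n (1 / ((n : ℝ) + 1)) (by positivity)
    have hlim : Tendsto (fun n => (fun w => tr ξ (ev (X n) w) : List (Fin k × Bool) → ℂ)) atTop (𝓝 f) := by
      rw [tendsto_pi_nhds]
      intro w
      rw [tendsto_iff_norm_sub_tendsto_zero]
      refine squeeze_zero' (Eventually.of_forall fun _ => norm_nonneg _) ?_ tendsto_one_div_add_atTop_nhds_zero_nat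
      filter_upwards [eventually_ge_atTop w.length] with n hn
      exact (hXw n w hn).le
    exact mem_closure_of_tendsto hlim (Eventually.of_forall fun n => ⟨X n, hXM n, hX n, rfl⟩)

private theorem cv_lt {k : ℕ} {p : H →L[ℂ] H} (hp : IsStarProjection p) {x : Fin k → (H →L[ℂ] H)}
    (hx : ∀ i, p * x i * p = x i) (l : Fin k × Bool) : p * lt x l * p = lt x l := by
  unfold lt
  split
  · exact hx _
  · have h1 := congrArg star (hx l.1)
    rw [star_mul, star_mul, hp.isSelfAdjoint.star_eq, ← mul_assoc] at h1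
    exact h1

private theorem cv_lt_left {k : ℕ} {p : H →L[ℂ] H} (hp : IsStarProjection p) {x : Fin k → (H →L[ℂ] H)}
    (hx : ∀ i, p * x i * p = x i) (l : Fin k × Bool) : p * lt x l = lt x l := by
  rw [← cv_lt hp hx l, ← mul_assoc, ← mul_assoc, hp.isIdempotentElem.eq]

private theorem cv_lt_right {k : ℕ} {p : H →L[ℂ] H} (hp : IsStarProjection p) {x : Fin k → (H →L[ℂ] H)}
    (hx : ∀ i, p * x i * p = x i) (l : Fin k × Bool) : lt x l * p = lt x l := by
  rw [← cv_lt hp hx l, mul_assoc, hp.isIdempotentElem.eq]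

private theorem cv_ev {k : ℕ} {p : H →L[ℂ] H} (hp : IsStarProjection p) {x : Fin k → (H →L[ℂ] H)}
    (hx : ∀ i, p * x i * p = x i) {w : List (Fin k × Bool)} (hw : w ≠ []) : p * ev x w = ev x w := by
  cases w with
  | nil => exact absurd rfl hw
  | cons l w => rw [ev_cons, ← mul_assoc, cv_lt_left hp hx]

private theorem cv_add {k : ℕ} {p : H →L[ℂ] H} (hp : IsStarProjection p) {x y : Fin k → (H →L[ℂ] H)}
    (hx : ∀ i, p * x i * p = x i) (hy : ∀ i, (1 - p) * y i * (1 - p) = y i) (w : List (Fin k × Bool))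
    (hw : w ≠ []) : ev (fun i => x i + y i) w = ev x w + ev y w := by
  have hp' : IsStarProjection (1 - p) := hp.one_sub
  have h1 : p * (1 - p) = 0 := by rw [mul_sub, mul_one, hp.isIdempotentElem.eq, sub_self]
  have h2 : (1 - p) * p = 0 := by rw [sub_mul, one_mul, hp.isIdempotentElem.eq, sub_self]
  have hl : ∀ l : Fin k × Bool, lt (fun i => x i + y i) l = lt x l + lt y l := by
    intro l
    unfold lt
    split
    · rfl
    · rw [star_add]
  induction w with
  | nil => exact absurd rfl hw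
  | cons l w ih =>
    rw [ev_cons, ev_cons, ev_cons, hl]
    by_cases hw' : w = []
    · rw [hw', ev_nil, ev_nil, ev_nil, mul_one, mul_one, mul_one]
    · rw [ih hw', add_mul, mul_add, mul_add]
      have h3 : lt x l * ev y w = 0 := by
        rw [← cv_lt_right hp hx l, ← cv_ev hp' hy hw', mul_assoc, ← mul_assoc p, h1, zero_mul, mul_zero]
      have h4 : lt y l * ev x w = 0 := by
        rw [← cv_lt_right hp' hy l, ← cv_ev hp hx hw', mul_assoc, ← mul_assoc (1 - p), h2, zero_mul, mul_zero]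
      rw [h3, h4, add_zero, zero_add]

private theorem cv_inner {p : H →L[ℂ] H} (hp : IsStarProjection p) (u v : H) :
    inner ℂ (p u) ((1 - p) v) = 0 := by
  have h1 : p * (1 - p) = 0 := by rw [mul_sub, mul_one, hp.isIdempotentElem.eq, sub_self]
  have h2 : inner ℂ (p u) ((1 - p) v) = inner ℂ u (ContinuousLinearMap.adjoint p ((1 - p) v)) :=
    (ContinuousLinearMap.adjoint_inner_right p u ((1 - p) v)).symm
  have h3 : ContinuousLinearMap.adjoint p = p := hp.isSelfAdjoint.star_eq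
  rw [h2, h3, ← ContinuousLinearMap.mul_apply, h1, ContinuousLinearMap.zero_apply, inner_zero_right]

private theorem cv_pyth {p : H →L[ℂ] H} (hp : IsStarProjection p) (u v : H) :
    ‖p u + (1 - p) v‖ ^ 2 = ‖p u‖ ^ 2 + ‖(1 - p) v‖ ^ 2 := by
  have := norm_add_sq_eq_norm_sq_add_norm_sq_of_inner_eq_zero (𝕜 := ℂ) (p u) ((1 - p) v) (cv_inner hp u v)
  rw [pow_two, pow_two, pow_two, this]

private theorem cv_norm {p a b : H →L[ℂ] H} (hp : IsStarProjection p) (ha : p * a * p = a)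
    (hb : (1 - p) * b * (1 - p) = b) (ha1 : ‖a‖ ≤ 1) (hb1 : ‖b‖ ≤ 1) : ‖a + b‖ ≤ 1 := by
  have hp' : IsStarProjection (1 - p) := hp.one_sub
  refine ContinuousLinearMap.opNorm_le_bound _ zero_le_one fun ζ => ?_
  rw [one_mul]
  have e1 : a ζ = p (a (p ζ)) := by
    conv_lhs => rw [← ha]
    rfl
  have e2 : b ζ = (1 - p) (b ((1 - p) ζ)) := by
    conv_lhs => rw [← hb]
    rfl
  have e3 : a ζ = a (p ζ) := by
    have : a * p = a := by rw [← ha, mul_assoc, hp.isIdempotentElem.eq]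
    conv_lhs => rw [← this]
    rfl
  have e4 : b ζ = b ((1 - p) ζ) := by
    have : b * (1 - p) = b := by rw [← hb, mul_assoc, hp'.isIdempotentElem.eq]
    conv_lhs => rw [← this]
    rfl
  have e5 : ‖a ζ + b ζ‖ ^ 2 = ‖a ζ‖ ^ 2 + ‖b ζ‖ ^ 2 := by
    rw [e1, e2]
    exact cv_pyth hp _ _
  have e6 : ‖a ζ‖ ≤ ‖p ζ‖ := by
    rw [e3]
    calc ‖a (p ζ)‖ ≤ ‖a‖ * ‖p ζ‖ := a.le_opNorm _
      _ ≤ 1 * ‖p ζ‖ := mul_le_mul_of_nonneg_right ha1 (norm_nonneg _)
      _ = ‖p ζ‖ := one_mul _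
  have e7 : ‖b ζ‖ ≤ ‖(1 - p) ζ‖ := by
    rw [e4]
    calc ‖b ((1 - p) ζ)‖ ≤ ‖b‖ * ‖(1 - p) ζ‖ := b.le_opNorm _
      _ ≤ 1 * ‖(1 - p) ζ‖ := mul_le_mul_of_nonneg_right hb1 (norm_nonneg _)
      _ = ‖(1 - p) ζ‖ := one_mul _
  have e8 : ‖ζ‖ ^ 2 = ‖p ζ‖ ^ 2 + ‖(1 - p) ζ‖ ^ 2 := by
    rw [← cv_pyth hp ζ ζ]
    congr 2
    show ζ = p ζ + (ζ - p ζ)
    abel
  have e9 : ‖(a + b) ζ‖ ^ 2 ≤ ‖ζ‖ ^ 2 := by
    show ‖a ζ + b ζ‖ ^ 2 ≤ ‖ζ‖ ^ 2
    rw [e5, e8]
    exact add_le_add (pow_le_pow_left₀ (norm_nonneg _) e6 2) (pow_le_pow_left₀ (norm_nonneg _) e7 2)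
  exact (pow_le_pow_iff_left₀ (norm_nonneg _) (norm_nonneg _) two_ne_zero).1 e9

theorem convex_ap (h : IsTrace M ξ) (hc : ∀ k, Convex ℝ (closure (laws M ξ k))) : Ap M ξ (1 / 2) := by
  intro k m x hxM hx ε hε
  have hx' : (fun w => tr ξ (ev x w)) ∈ closure (laws M ξ k) := subset_closure ⟨x, hxM, hx, rfl⟩
  have h0' : (fun w => tr ξ (ev (0 : Fin k → (H →L[ℂ] H)) w)) ∈ closure (laws M ξ k) :=
    subset_closure ⟨0, fun _ => zero_mem M, fun i => by simp, rfl⟩
  have hf := hc k hx' h0' (by norm_num : (0 : ℝ) ≤ 1 / 2) (by norm_num : (0 : ℝ) ≤ 1 / 2) (by norm_num)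
  obtain ⟨y, hyM, hy, hyw⟩ := cv_nhds.1 hf m ε hε
  refine ⟨y, hyM, hy, fun w hw hwm => ?_⟩
  have h1 := hyw w hwm
  have h2 : tr ξ (ev (0 : Fin k → (H →L[ℂ] H)) w) = 0 := by
    cases w with
    | nil => exact absurd rfl hw
    | cons l w =>
      have : lt (0 : Fin k → (H →L[ℂ] H)) l = 0 := by
        unfold lt
        split
        · rfl
        · exact star_zero _
      rw [ev_cons, this, zero_mul, tr_zero]
  have h3 : ((1 / 2 : ℝ) • (fun w => tr ξ (ev x w)) + (1 / 2 : ℝ) • fun w => tr ξ (ev (0 : Fin k → (H →L[ℂ] H)) w)) w =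
      ((1 / 2 : ℝ) : ℂ) * tr ξ (ev x w) := by
    show (1 / 2 : ℝ) • tr ξ (ev x w) + (1 / 2 : ℝ) • tr ξ (ev (0 : Fin k → (H →L[ℂ] H)) w) = _
    rw [h2, smul_zero, add_zero, Complex.real_smul]
  rw [h3] at h1
  exact h1

theorem ap_convex (h : IsIIOne M ξ) (hall : ∀ t : ℝ, 0 ≤ t → t ≤ 1 → Ap M ξ t) (k : ℕ) :
    Convex ℝ (closure (laws M ξ k)) := by
  intro f hf g hg a b ha hb hab
  rw [cv_nhds]
  intro m ε hε
  have hT : IsTrace M ξ := h.toIsTrace
  obtain ⟨x, hxM, hx, hxw⟩ := cv_nhds.1 hf m (ε / 3) (by positivity)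
  obtain ⟨y, hyM, hy, hyw⟩ := cv_nhds.1 hg m (ε / 3) (by positivity)
  have ha1 : a ≤ 1 := by linarith
  have hb1 : b ≤ 1 := by linarith
  obtain ⟨p, hpM, hp, -, hpt⟩ := exists_trace h (IsStarProjection.one (R := H →L[ℂ] H)) (one_mem M) ha
    (by rw [tr_one hT]; simpa using ha1)
  have hp' : IsStarProjection (1 - p) := hp.one_sub
  have hpM' : 1 - p ∈ M := sub_mem (one_mem M) hpM
  have hpt' : tr ξ (1 - p) = (b : ℂ) := by
    rw [tr_sub hT, tr_one hT, hpt]
    have : b = 1 - a := by linarith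
    rw [this]
    push_cast
    ring
  obtain ⟨x', hxM', hx1', hxp', hxw'⟩ := ap_corner h (hall a ha ha1) hp hpM hpt k m x hxM hx (ε / 3) (by positivity)
  obtain ⟨y', hyM', hy1', hyp', hyw'⟩ := ap_corner h (hall b hb hb1) hp' hpM' hpt' k m y hyM hy (ε / 3) (by positivity)
  refine ⟨fun i => x' i + y' i, fun i => add_mem (hxM' i) (hyM' i),
    fun i => cv_norm hp (hxp' i) (hyp' i) (hx1' i) (hy1' i), fun w hw => ?_⟩
  have e0 : (a • f + b • g) w = (a : ℂ) * f w + (b : ℂ) * g w := by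
    show a • f w + b • g w = _
    rw [Complex.real_smul, Complex.real_smul]
  rw [e0]
  have e1 : ‖(a : ℂ) * tr ξ (ev x w) + (b : ℂ) * tr ξ (ev y w) - ((a : ℂ) * f w + (b : ℂ) * g w)‖ ≤ ε / 3 := by
    have e2 : (a : ℂ) * tr ξ (ev x w) + (b : ℂ) * tr ξ (ev y w) - ((a : ℂ) * f w + (b : ℂ) * g w) =
        (a : ℂ) * (tr ξ (ev x w) - f w) + (b : ℂ) * (tr ξ (ev y w) - g w) := by ring
    rw [e2]
    refine (norm_add_le _ _).trans ?_
    rw [norm_mul, norm_mul, Complex.norm_real, Complex.norm_real, Real.norm_of_nonneg ha, Real.norm_of_nonneg hb]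
    calc a * ‖tr ξ (ev x w) - f w‖ + b * ‖tr ξ (ev y w) - g w‖
        ≤ a * (ε / 3) + b * (ε / 3) := add_le_add (mul_le_mul_of_nonneg_left (hxw w hw).le ha)
          (mul_le_mul_of_nonneg_left (hyw w hw).le hb)
      _ = ε / 3 := by rw [← add_mul, hab, one_mul]
  have e3 : ‖tr ξ (ev (fun i => x' i + y' i) w) - ((a : ℂ) * tr ξ (ev x w) + (b : ℂ) * tr ξ (ev y w))‖ < 2 * (ε / 3) := by
    by_cases hw' : w = []
    · rw [hw', ev_nil, ev_nil, ev_nil, tr_one hT, mul_one, mul_one, ← Complex.ofReal_add, hab, Complex.ofReal_one,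
        sub_self, norm_zero]
      positivity
    · rw [cv_add hp hxp' hyp' w hw', tr_add hT]
      have e4 : tr ξ (ev x' w) + tr ξ (ev y' w) - ((a : ℂ) * tr ξ (ev x w) + (b : ℂ) * tr ξ (ev y w)) =
          (tr ξ (ev x' w) - tr ξ p * tr ξ (ev x w)) + (tr ξ (ev y' w) - tr ξ (1 - p) * tr ξ (ev y w)) := by
        rw [hpt, hpt']
        ring
      rw [e4]
      refine (norm_add_le _ _).trans_lt ?_
      have := hxw' w hw' hw
      have := hyw' w hw' hw
      linarith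
  calc ‖tr ξ (ev (fun i => x' i + y' i) w) - ((a : ℂ) * f w + (b : ℂ) * g w)‖
      = ‖(tr ξ (ev (fun i => x' i + y' i) w) - ((a : ℂ) * tr ξ (ev x w) + (b : ℂ) * tr ξ (ev y w))) +
        ((a : ℂ) * tr ξ (ev x w) + (b : ℂ) * tr ξ (ev y w) - ((a : ℂ) * f w + (b : ℂ) * g w))‖ := by
        congr 1
        ring
    _ ≤ _ := norm_add_le _ _
    _ < ε := by linarith

end Pool.Agent.Lib.UPE
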