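import Pool.Agent.Lib.UPE.Bas

/-!
# UPE / DC (150 lines): density in the norm `n2` from a commutation hypothesis (double commutant)

PROOF.  `E = lp (fun _ : ℕ => H) 2`.  For `a : H →L[ℂ] H` let `D a : E →L[ℂ] E`, `(D a f) i = a (f i)` (a *-homomorphism, bounded by `‖a‖`);
`Ξ = (ξ i)_i ∈ E` (`hξ`), and `‖D a Ξ‖ = n2 ξ a`.  `K0 = {D s Ξ : s ∈ S}` (a submodule), `K` its closure, `P = K.starProjection`.  `K` is invariant under
`D s` and `D (star s) = star (D s)`, `s ∈ S`, so `P` commutes with `D s` (as in `RP`: `P D s P = D s P`, and the same for `star s`, take adjoints).  Put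
`P i j = π i ∘ P ∘ ι j : H →L[ℂ] H` (`ι j = lp.single`, `π i` = evaluation at `i`).  `s * P i j = π i D s P ι j = π i P D s ι j = P i j * s`, so by `hx`
`x * P i j = P i j * x`.  So `D x P (ι j v)` and `P D x (ι j v)` have the same coordinates for all `j`, `v`, so `D x P = P D x` (the span of the `ι j v` is
dense in `E`: `lp.hasSum_single`).  `Ξ = D 1 Ξ ∈ K0`, so `D x Ξ = D x P Ξ = P D x Ξ ∈ K`: there is `s ∈ S` with `‖D x Ξ - D s Ξ‖ < ε`, and that is
`n2 ξ (x - s)`.
-/

set_option autoImplicit false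

open Filter Topology

namespace Pool.Agent.Lib.UPE

variable {H : Type*} [NormedAddCommGroup H] [InnerProductSpace ℂ H] [CompleteSpace H]
variable {M : VonNeumannAlgebra H} {ξ : ℕ → H}

/-- the diagonal operator of `a` on the sum of countably many copies of `H` -/
private noncomputable def DC_D (a : H →L[ℂ] H) : lp (fun _ : ℕ => H) 2 →L[ℂ] lp (fun _ : ℕ => H) 2 :=
  lp.mapCLM 2 (fun _ => a) (norm_nonneg a) (fun _ => le_rfl)

private theorem DC_apply (a : H →L[ℂ] H) (f : lp (fun _ : ℕ => H) 2) (i : ℕ) : (DC_D a f) i = a (f i) := rfl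

private theorem DC_mul (a b : H →L[ℂ] H) (f : lp (fun _ : ℕ => H) 2) : DC_D (a * b) f = DC_D a (DC_D b f) := by
  ext i
  rw [DC_apply, DC_apply, DC_apply]
  rfl

private theorem DC_star (a : H →L[ℂ] H) : star (DC_D a) = DC_D (star a) := by
  rw [ContinuousLinearMap.star_eq_adjoint]
  refine (ContinuousLinearMap.eq_adjoint_iff _ _).2 (fun f g => ?_) |>.symm
  rw [lp.inner_eq_tsum, lp.inner_eq_tsum]
  refine tsum_congr fun i => ?_
  rw [DC_apply, DC_apply, ContinuousLinearMap.star_eq_adjoint, ContinuousLinearMap.adjoint_inner_left]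

private theorem DC_single (a : H →L[ℂ] H) (j : ℕ) (v : H) :
    DC_D a (lp.single 2 j v) = lp.single 2 j (a v) := by
  ext i
  rw [DC_apply]
  by_cases h : i = j
  · subst h
    rw [lp.single_apply_self, lp.single_apply_self]
  · rw [lp.single_apply_ne _ _ _ h, lp.single_apply_ne _ _ _ h, map_zero]

private theorem DC_norm (f : lp (fun _ : ℕ => H) 2) : ‖f‖ = Real.sqrt (∑' i, ‖f i‖ ^ 2) := by
  have h := lp.norm_rpow_eq_tsum (p := 2) (by norm_num) f
  have h2 : ‖f‖ ^ 2 = ∑' i, ‖f i‖ ^ 2 := by
    have e : (2 : ENNReal).toReal = ((2 : ℕ) : ℝ) := by norm_num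
    rw [e] at h
    simp only [Real.rpow_natCast] at h
    exact h
  rw [← h2, Real.sqrt_sq (norm_nonneg _)]

/-- a projection onto a subspace invariant under `b` and `star b` commutes with `b` -/
private theorem DC_comm {E : Type*} [NormedAddCommGroup E] [InnerProductSpace ℂ E] [CompleteSpace E] (K : Submodule ℂ E)
    [K.HasOrthogonalProjection] (b : E →L[ℂ] E) (h1 : ∀ v ∈ K, b v ∈ K) (h2 : ∀ v ∈ K, (star b) v ∈ K) :
    b * K.starProjection = K.starProjection * b := by
  have half : ∀ c : E →L[ℂ] E, (∀ v ∈ K, c v ∈ K) → K.starProjection * (c * K.starProjection) = c * K.starProjection := by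
    intro c hc
    ext v
    exact Submodule.starProjection_eq_self_iff.2 (hc _ (Submodule.starProjection_apply_mem _ v))
  have e1 := half b h1
  have e2 := congrArg star (half (star b) h2)
  have hs : star (K.starProjection) = K.starProjection := (isStarProjection_starProjection (U := K)).isSelfAdjoint.star_eq
  rw [star_mul, star_mul, star_star, hs] at e2
  rw [← e1, ← e2, mul_assoc]

theorem dense_of_comm (hξ : Summable fun i => ‖ξ i‖ ^ 2) (S : StarSubalgebra ℂ (H →L[ℂ] H)) {x : H →L[ℂ] H}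
    (hx : ∀ y : H →L[ℂ] H, (∀ s ∈ S, s * y = y * s) → x * y = y * x) {ε : ℝ} (hε : 0 < ε) :
    ∃ s ∈ S, n2 ξ (x - s) < ε := by
  have hmem : Memℓp (fun i => ξ i) 2 := by
    refine memℓp_gen ?_
    have e : (2 : ENNReal).toReal = ((2 : ℕ) : ℝ) := by norm_num
    rw [e]
    simpa only [Real.rpow_natCast] using hξ
  set Ξ : lp (fun _ : ℕ => H) 2 := ⟨fun i => ξ i, hmem⟩ with hΞ
  let T : (H →L[ℂ] H) →ₗ[ℂ] lp (fun _ : ℕ => H) 2 :=
    { toFun := fun a => DC_D a Ξ
      map_add' := by
        intro a b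
        ext i
        rfl
      map_smul' := by
        intro c a
        ext i
        rfl }
  have hTn : ∀ a, ‖T a‖ = n2 ξ a := by
    intro a
    rw [DC_norm]
    rfl
  set K0 : Submodule ℂ (lp (fun _ : ℕ => H) 2) := (Subalgebra.toSubmodule S.toSubalgebra).map T with hK0
  set K := K0.topologicalClosure with hK
  have hmem0 : ∀ s ∈ S, T s ∈ K0 := fun s hs => ⟨s, hs, rfl⟩
  have hinv : ∀ s ∈ S, ∀ f ∈ K, DC_D s f ∈ K := by
    intro s hs f hf
    have hsub : K ≤ K.comap (DC_D s : lp (fun _ : ℕ => H) 2 →ₗ[ℂ] lp (fun _ : ℕ => H) 2) := by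
      refine Submodule.topologicalClosure_minimal _ ?_ ?_
      · rintro _ ⟨t, ht, rfl⟩
        rw [Submodule.mem_comap]
        have ht' : t ∈ S := ht
        refine Submodule.le_topologicalClosure _ ⟨s * t, S.mul_mem hs ht', ?_⟩
        exact DC_mul s t Ξ
      · exact (Submodule.isClosed_topologicalClosure _).preimage (DC_D s).continuous
    exact hsub hf
  have hcomm : ∀ s ∈ S, DC_D s * K.starProjection = K.starProjection * DC_D s := by
    intro s hs
    refine DC_comm K (DC_D s) (hinv s hs) ?_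
    rw [DC_star]
    exact hinv _ (star_mem hs)
  have hpt : ∀ s ∈ S, ∀ f, DC_D s (K.starProjection f) = K.starProjection (DC_D s f) := fun s hs f =>
    congrArg (fun g : lp (fun _ : ℕ => H) 2 →L[ℂ] lp (fun _ : ℕ => H) 2 => g f) (hcomm s hs)
  have hx1 : ∀ (j : ℕ) (v : H), DC_D x (K.starProjection (lp.single 2 j v)) = K.starProjection (DC_D x (lp.single 2 j v)) := by
    intro j v
    ext i
    let y : H →L[ℂ] H := (lp.evalCLM ℂ (fun _ : ℕ => H) 2 i) ∘L (K.starProjection ∘L (lp.singleContinuousLinearMap ℂ (fun _ : ℕ => H) 2 j))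
    have hy : ∀ w, y w = (K.starProjection (lp.single 2 j w)) i := fun w => rfl
    have h1 := hx y (fun s hs => by
      ext w
      change s (y w) = y (s w)
      rw [hy, hy, ← DC_single, ← hpt s hs, DC_apply])
    rw [DC_apply, DC_single, ← hy, ← hy]
    exact congrArg (fun g : H →L[ℂ] H => g v) h1
  have hx2 : ∀ f, DC_D x (K.starProjection f) = K.starProjection (DC_D x f) := by
    intro f
    have h1 := lp.hasSum_single (p := 2) (by norm_num) f
    have h2 := h1.mapL (DC_D x ∘L K.starProjection)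
    have h3 := h1.mapL (K.starProjection ∘L DC_D x)
    refine h2.unique ?_
    have e : (fun b => (DC_D x ∘L K.starProjection) (lp.single 2 b (f b))) =
        fun b => (K.starProjection ∘L DC_D x) (lp.single 2 b (f b)) := by
      funext j
      exact hx1 j (f j)
    rw [e]
    exact h3
  have hΞK : Ξ ∈ K := by
    refine Submodule.le_topologicalClosure _ ⟨1, S.one_mem, ?_⟩
    ext i
    rfl
  have hfix : K.starProjection Ξ = Ξ := Submodule.starProjection_eq_self_iff.2 hΞK
  have hin : T x ∈ K := by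
    have h1 : T x = K.starProjection (T x) := by
      change DC_D x Ξ = K.starProjection (DC_D x Ξ)
      rw [← hx2, hfix]
    rw [h1]
    exact Submodule.starProjection_apply_mem _ _
  have hcl : T x ∈ closure (K0 : Set (lp (fun _ : ℕ => H) 2)) := by
    rw [← Submodule.topologicalClosure_coe]
    exact hin
  obtain ⟨_, ⟨s, hs, rfl⟩, hd⟩ := Metric.mem_closure_iff.1 hcl ε hε
  refine ⟨s, hs, ?_⟩
  rw [← hTn, map_sub, ← dist_eq_norm]
  exact hd

end Pool.Agent.Lib.UPE
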