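import Pool.Agent.Lib.UPE.SP

/-!
# UPE / DY (100 lines): dyadic sums of projections

PROOF.  If `0 ≤ b ≤ 1`, `b ∈ M`, `p = spr b (1/2)`, then `0 ≤ 2 • (b - (1/2) • p) ≤ 1`: `b` commutes with `p`; `b * p ≥ (1/2) p` (`le_mul_spr`),
`b * p ≤ p`, `0 ≤ b * (1-p) ≤ (1/2) (1-p)` (`mul_one_sub_spr_le`), so `b - (1/2) p = (b - 1/2) p + b (1 - p)` is between 0 and `1/2`
(products of commuting positive operators are positive: `Commute.mul_nonneg` or conjugate by the projection: `p * b * p`,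
`star_left_conjugate_nonneg`).  Iterate: `b 0 = a`, `b (k+1) = 2 • (b k - (1/2) • p k)`, `p k = spr (b k) (1/2)`; then
`a - ∑_(k<n) (1/2)^(k+1) p k = (1/2)^n b n`, and `‖b n‖ ≤ 1`.
-/

set_option autoImplicit false

open Filter Topology

namespace Pool.Agent.Lib.UPE

variable {H : Type*} [NormedAddCommGroup H] [InnerProductSpace ℂ H] [CompleteSpace H]
variable {M : VonNeumannAlgebra H} {ξ : ℕ → H}

/-- one step of the dyadic expansion -/
private theorem dyadic_step {b : H →L[ℂ] H} (h0 : 0 ≤ b) (h1 : b ≤ 1) :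
    0 ≤ (2 : ℂ) • b - spr b (1 / 2) ∧ (2 : ℂ) • b - spr b (1 / 2) ≤ 1 := by
  have hsa : IsSelfAdjoint b := IsSelfAdjoint.of_nonneg h0
  have hpp : IsStarProjection (spr b (1 / 2)) := spr_proj b (1 / 2)
  have hcomm : b * spr b (1 / 2) = spr b (1 / 2) * b := spr_comm (a := b) (b := b) rfl (1 / 2)
  have hlo := le_mul_spr hsa (1 / 2)
  have hhi := mul_one_sub_spr_le hsa (1 / 2)
  generalize hp : spr b (1 / 2) = p at *
  have hpi : p * p = p := hpp.isIdempotentElem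
  have hps : star p = p := hpp.isSelfAdjoint
  have hqs : star (1 - p) = 1 - p := by rw [star_sub, star_one, hps]
  have e1 : p * b * p = b * p := by
    rw [← hcomm, mul_assoc, hpi]
  have e2 : (1 - p) * b * (1 - p) = b * (1 - p) := by
    have : (1 - p) * b = b * (1 - p) := by
      rw [sub_mul, mul_sub, one_mul, mul_one, hcomm]
    rw [this, mul_assoc]
    congr 1
    rw [sub_mul, mul_sub, mul_sub, one_mul, mul_one, one_mul, hpi]
    simp
  have hup : b * p ≤ p := by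
    have h := star_left_conjugate_le_conjugate h1 p
    rw [hps, e1, mul_one, hpi] at h
    exact h
  have hq0 : 0 ≤ b * (1 - p) := by
    have h := star_left_conjugate_nonneg h0 (1 - p)
    rw [hqs, e2] at h
    exact h
  have hc : (((1 / 2 : ℝ) : ℂ)) = (1 / 2 : ℂ) := by norm_num
  rw [hc] at hlo hhi
  constructor
  · have h2 : (0 : H →L[ℂ] H) ≤ b * p - (1 / 2 : ℂ) • p := sub_nonneg.mpr hlo
    have h3 := add_nonneg h2 hq0
    have h4 := add_nonneg h3 h3
    have h5 : (b * p - (1 / 2 : ℂ) • p + b * (1 - p)) + (b * p - (1 / 2 : ℂ) • p + b * (1 - p)) =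
        (2 : ℂ) • b - p := by
      rw [mul_sub, mul_one]
      module
    rw [← h5]
    exact h4
  · have h3 := add_le_add hup hhi
    have h4 := add_le_add (add_le_add hup hhi) (add_le_add hup hhi)
    have h5 := sub_le_sub_right h4 p
    have e5 : b * p + b * (1 - p) + (b * p + b * (1 - p)) - p = (2 : ℂ) • b - p := by
      rw [mul_sub, mul_one]
      module
    have e6 : p + (1 / 2 : ℂ) • (1 - p) + (p + (1 / 2 : ℂ) • (1 - p)) - p = 1 := by
      module
    rw [e5, e6] at h5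
    exact h5

/-- the remainders of the dyadic expansion -/
private noncomputable def rem (a : H →L[ℂ] H) : ℕ → (H →L[ℂ] H)
  | 0 => a
  | k + 1 => (2 : ℂ) • rem a k - spr (rem a k) (1 / 2)

private theorem rem_bounds {a : H →L[ℂ] H} (h0 : 0 ≤ a) (h1 : a ≤ 1) (k : ℕ) :
    0 ≤ rem a k ∧ rem a k ≤ 1 := by
  induction k with
  | zero => exact ⟨h0, h1⟩
  | succ k ih => exact dyadic_step ih.1 ih.2

private theorem rem_mem {a : H →L[ℂ] H} (ha : a ∈ M) (k : ℕ) : rem a k ∈ M := by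
  induction k with
  | zero => exact ha
  | succ k ih => exact sub_mem (smul_mem' 2 ih) (spr_mem ih (1 / 2))

private theorem sub_sum_eq (a : H →L[ℂ] H) (n : ℕ) :
    a - ∑ k ∈ Finset.range n, (((1 / 2 : ℝ) ^ (k + 1) : ℝ) : ℂ) • spr (rem a k) (1 / 2) =
      (((1 / 2 : ℝ) ^ n : ℝ) : ℂ) • rem a n := by
  induction n with
  | zero => simp [rem]
  | succ n ih =>
    rw [Finset.sum_range_succ, ← sub_sub, ih]
    have : rem a (n + 1) = (2 : ℂ) • rem a n - spr (rem a n) (1 / 2) := rfl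
    rw [this]
    push_cast
    rw [smul_sub, smul_smul]
    congr 2
    rw [pow_succ]
    ring

theorem dyadic {a : H →L[ℂ] H} (ha : a ∈ M) (h0 : 0 ≤ a) (h1 : a ≤ 1) :
    ∃ p : ℕ → (H →L[ℂ] H), (∀ k, p k ∈ M ∧ IsStarProjection (p k)) ∧
      ∀ n : ℕ, ‖a - ∑ k ∈ Finset.range n, (((1 / 2 : ℝ) ^ (k + 1) : ℝ) : ℂ) • p k‖ ≤ (1 / 2 : ℝ) ^ n := by
  refine ⟨fun k => spr (rem a k) (1 / 2),
    fun k => ⟨spr_mem (rem_mem ha k) (1 / 2), spr_proj (rem a k) (1 / 2)⟩, fun n => ?_⟩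
  rw [sub_sum_eq a n, norm_smul]
  have hn : ‖rem a n‖ ≤ 1 :=
    (CStarAlgebra.norm_le_one_iff_of_nonneg (rem a n) (rem_bounds h0 h1 n).1).mpr
      (rem_bounds h0 h1 n).2
  have hs : ‖(((1 / 2 : ℝ) ^ n : ℝ) : ℂ)‖ = (1 / 2 : ℝ) ^ n := by
    rw [Complex.norm_real, Real.norm_of_nonneg (by positivity)]
  rw [hs]
  calc (1 / 2 : ℝ) ^ n * ‖rem a n‖ ≤ (1 / 2 : ℝ) ^ n * 1 :=
        mul_le_mul_of_nonneg_left hn (by positivity)
    _ = (1 / 2 : ℝ) ^ n := mul_one _

end Pool.Agent.Lib.UPE
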