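import Mathlib

/-!
# Ultrapower embeddings of II_1 factors: definitions

`M` is a von Neumann algebra on a Hilbert space `H` (Mathlib's `VonNeumannAlgebra H`).  A normal state is
given by vectors `ξ i` with `∑ ‖ξ i‖ ^ 2 = 1`: `tr ξ a = ∑ ⟪ξ i, a (ξ i)⟫`, and
`n2 ξ a = (∑ ‖a (ξ i)‖ ^ 2) ^ (1/2)`.
-/

set_option autoImplicit false

open Filter Topology

namespace Pool.Agent.Lib.UPE

variable {H : Type*} [NormedAddCommGroup H] [InnerProductSpace ℂ H] [CompleteSpace H]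

/-- the functional `a ↦ ∑ ⟪ξ i, a (ξ i)⟫` -/
noncomputable def tr (ξ : ℕ → H) (a : H →L[ℂ] H) : ℂ := ∑' i, inner ℂ (ξ i) (a (ξ i))

/-- the norm `(∑ ‖a (ξ i)‖ ^ 2) ^ (1/2)` -/
noncomputable def n2 (ξ : ℕ → H) (a : H →L[ℂ] H) : ℝ := Real.sqrt (∑' i, ‖a (ξ i)‖ ^ 2)

/-- `tr ξ` is a faithful normal tracial state on `M` -/
structure IsTrace (M : VonNeumannAlgebra H) (ξ : ℕ → H) : Prop where
  unit : HasSum (fun i => ‖ξ i‖ ^ 2) 1
  tracial : ∀ a ∈ M, ∀ b ∈ M, tr ξ (a * b) = tr ξ (b * a)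
  faithful : ∀ a ∈ M, tr ξ (star a * a) = 0 → a = 0

/-- `M` is a II_1 factor with trace `tr ξ`: the centre is trivial and `M` is infinite-dimensional -/
structure IsIIOne (M : VonNeumannAlgebra H) (ξ : ℕ → H) : Prop extends IsTrace M ξ where
  factor : ∀ a ∈ M, (∀ b ∈ M, a * b = b * a) → ∃ c : ℂ, a = c • (1 : H →L[ℂ] H)
  infinite : ∀ n : ℕ, ∃ v : Fin n → (H →L[ℂ] H), (∀ i, v i ∈ M) ∧ LinearIndependent ℂ v

/-- `M` is separable in the norm `n2 ξ` -/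
def Sep (M : VonNeumannAlgebra H) (ξ : ℕ → H) : Prop :=
  ∃ d : ℕ → (H →L[ℂ] H), (∀ n, d n ∈ M) ∧ ∀ a ∈ M, ∀ ε : ℝ, 0 < ε → ∃ n, n2 ξ (a - d n) < ε

/-- the value of a letter: `(i, true)` is `x i`, `(i, false)` is its adjoint -/
def lt {A : Type*} [Star A] {k : ℕ} (x : Fin k → A) (l : Fin k × Bool) : A :=
  if l.2 then x l.1 else star (x l.1)

/-- the value of a word -/
def ev {A : Type*} [Monoid A] [Star A] {k : ℕ} (x : Fin k → A) (w : List (Fin k × Bool)) : A :=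
  (w.map (lt x)).prod

/-- null sequences: `n2 ξ (x n) → 0` along `U` -/
def Null (ξ : ℕ → H) (U : Ultrafilter ℕ) (x : ℕ → (H →L[ℂ] H)) : Prop :=
  Tendsto (fun n => n2 ξ (x n)) U (𝓝 0)

/-- `Θ` induces a *-homomorphism from `A` to the ultrapower of `M` along `U` whose composition with the
trace of the ultrapower is `t`: `Θ a` is a bounded sequence in `M`, and `Θ` is additive, homogeneous,
multiplicative and compatible with the adjoint up to null sequences. -/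
structure IsEmb (M : VonNeumannAlgebra H) (ξ : ℕ → H) (U : Ultrafilter ℕ) {A : Type*} [Ring A] [StarRing A]
    [Module ℂ A] (t : A → ℂ) (Θ : A → ℕ → (H →L[ℂ] H)) : Prop where
  mem : ∀ a n, Θ a n ∈ M
  bdd : ∀ a, ∃ C : ℝ, ∀ n, ‖Θ a n‖ ≤ C
  add : ∀ a b, Null ξ U fun n => Θ (a + b) n - (Θ a n + Θ b n)
  smul : ∀ (c : ℂ) a, Null ξ U fun n => Θ (c • a) n - c • Θ a n
  mul : ∀ a b, Null ξ U fun n => Θ (a * b) n - Θ a n * Θ b n
  star_ : ∀ a, Null ξ U fun n => Θ (star a) n - star (Θ a n)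
  trace : ∀ a, Tendsto (fun n => tr ξ (Θ a n)) U (𝓝 (t a))

/-- the algebra of `n` by `n` matrices over `M` embeds in the ultrapower of `M` (unital, trace preserving) -/
def MatEmb (M : VonNeumannAlgebra H) (ξ : ℕ → H) (U : Ultrafilter ℕ) (n : ℕ) : Prop :=
  ∃ Θ : Matrix (Fin n) (Fin n) M.toStarSubalgebra → ℕ → (H →L[ℂ] H),
    IsEmb M ξ U (fun a => (1 / (n : ℂ)) * ∑ i, tr ξ (a i i : H →L[ℂ] H)) Θ ∧
      Null ξ U fun j => Θ 1 j - 1

/-- `M` embeds in the ultrapower of the corner `p M p` (unital, trace preserving; the trace of the corner is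
`tr ξ` divided by `tr ξ p`) -/
def CornerEmb (M : VonNeumannAlgebra H) (ξ : ℕ → H) (U : Ultrafilter ℕ) (p : H →L[ℂ] H) : Prop :=
  ∃ Θ : M.toStarSubalgebra → ℕ → (H →L[ℂ] H),
    IsEmb M ξ U (fun a : M.toStarSubalgebra => tr ξ p * tr ξ (a : H →L[ℂ] H)) Θ ∧ (∀ a n, p * Θ a n * p = Θ a n) ∧
      Null ξ U fun n => Θ 1 n - p

/-- some embedding of `M` in its ultrapower has a non-scalar element in its relative commutant -/
def CommEmb (M : VonNeumannAlgebra H) (ξ : ℕ → H) (U : Ultrafilter ℕ) : Prop :=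
  ∃ Θ : M.toStarSubalgebra → ℕ → (H →L[ℂ] H),
    IsEmb M ξ U (fun a : M.toStarSubalgebra => tr ξ (a : H →L[ℂ] H)) Θ ∧ (Null ξ U fun n => Θ 1 n - 1) ∧
      ∃ x : ℕ → (H →L[ℂ] H), (∀ n, x n ∈ M) ∧ (∃ C : ℝ, ∀ n, ‖x n‖ ≤ C) ∧
        (∀ a, Null ξ U fun n => x n * Θ a n - Θ a n * x n) ∧
        ∀ c : ℂ, ¬ Null ξ U fun n => x n - c • (1 : H →L[ℂ] H)

/-- there is a (not necessarily unital) *-homomorphism from `M` to its ultrapower which scales the trace by `s` -/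
def ScEmb (M : VonNeumannAlgebra H) (ξ : ℕ → H) (U : Ultrafilter ℕ) (s : ℝ) : Prop :=
  ∃ Θ : M.toStarSubalgebra → ℕ → (H →L[ℂ] H),
    IsEmb M ξ U (fun a : M.toStarSubalgebra => (s : ℂ) * tr ξ (a : H →L[ℂ] H)) Θ

/-- the laws of `k`-tuples of contractions of `M` -/
def laws (M : VonNeumannAlgebra H) (ξ : ℕ → H) (k : ℕ) : Set (List (Fin k × Bool) → ℂ) :=
  {f | ∃ x : Fin k → (H →L[ℂ] H), (∀ i, x i ∈ M) ∧ (∀ i, ‖x i‖ ≤ 1) ∧ f = fun w => tr ξ (ev x w)}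

/-- the laws of `M`, scaled by `s`, can be approximated in `M` (on non-empty words) -/
def Ap (M : VonNeumannAlgebra H) (ξ : ℕ → H) (s : ℝ) : Prop :=
  ∀ (k m : ℕ) (x : Fin k → (H →L[ℂ] H)), (∀ i, x i ∈ M) → (∀ i, ‖x i‖ ≤ 1) → ∀ ε : ℝ, 0 < ε →
    ∃ y : Fin k → (H →L[ℂ] H), (∀ i, y i ∈ M) ∧ (∀ i, ‖y i‖ ≤ 1) ∧
      ∀ w : List (Fin k × Bool), w ≠ [] → w.length ≤ m →
        ‖tr ξ (ev y w) - (s : ℂ) * tr ξ (ev x w)‖ < ε

/-- the same, with approximation inside the corner `p M p` and `s = tr ξ p` -/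
def ApC (M : VonNeumannAlgebra H) (ξ : ℕ → H) (p : H →L[ℂ] H) : Prop :=
  ∀ (k m : ℕ) (x : Fin k → (H →L[ℂ] H)), (∀ i, x i ∈ M) → (∀ i, ‖x i‖ ≤ 1) → ∀ ε : ℝ, 0 < ε →
    ∃ y : Fin k → (H →L[ℂ] H), (∀ i, y i ∈ M) ∧ (∀ i, ‖y i‖ ≤ 1) ∧ (∀ i, p * y i * p = y i) ∧
      ∀ w : List (Fin k × Bool), w ≠ [] → w.length ≤ m →
        ‖tr ξ (ev y w) - tr ξ p * tr ξ (ev x w)‖ < ε

/-- the projection onto the closure of the range -/
noncomputable def rp (x : H →L[ℂ] H) : H →L[ℂ] H := (x.range.topologicalClosure).starProjection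

/-- the spectral projection of the self-adjoint operator `a` for `(c, ∞)` -/
noncomputable def spr (a : H →L[ℂ] H) (c : ℝ) : H →L[ℂ] H := rp (cfc (fun t : ℝ => max (t - c) 0) a)

end Pool.Agent.Lib.UPE
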