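import Pool.Agent.Lib.UPE.TC
import Pool.Agent.Lib.UPE.WD

/-!
# UPE / EA (180 lines): an embedding gives approximations

PROOF.  `Θ` as in `ScEmb`.  Given contractions `x i ∈ M`, `m`, `ε`; `X i : M.toStarSubalgebra` the same elements, `R ≥ 1` a bound for all
`‖Θ (X i) n‖`.
(1) For every word `w ≠ []`: `Null (fun n => Θ (ev X w) n - ev (fun i => Θ (X i) n) w)`: induction on `w` with
`mul`, `star_` (`Θ (star (X i)) n - star (Θ (X i) n)` null) and `n2_mul_le`, `n2_mul_le'`, the bounds.  So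
`tr (ev (fun i => Θ (X i) n) w) → s * tr (ev x w)` along `U` (`trace`, `norm_tr_le`), for every `w ≠ []`.
(2) `trunc` for `R` and a small `ε'` gives `m', δ`.  The elements `(star (Θ (X i) n) * Θ (X i) n) ^ j`, `1 ≤ j ≤ m'`, are values of
words, so by (1) for `U`-many `n` the hypothesis of `trunc` holds for `x = x i`, `y = Θ (X i) n`, all `i`, and also
`‖tr (ev (Θ (X ·) n) w) - s * tr (ev x w)‖ < ε/2` for the finitely many words `w ≠ []` of length `≤ m` (`Filter.eventually_all`; the set of words of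
length `≤ m` over a finite alphabet is finite: `List.finite_length_le`).  Fix such an `n` (`U` is `NeBot`); `trunc` gives
contractions `z i ∈ M` with `n2 (z i - Θ (X i) n) ≤ ε'`, and `tr_ev_sub_le` with `ε'` so small that `m * R^m * ε' < ε/2`.
-/

set_option autoImplicit false

open Filter Topology

namespace Pool.Agent.Lib.UPE

variable {H : Type*} [NormedAddCommGroup H] [InnerProductSpace ℂ H] [CompleteSpace H]
variable {M : VonNeumannAlgebra H} {ξ : ℕ → H}

/-- the word of `(star x * x) ^ j` -/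
private def eaw {k : ℕ} (i : Fin k) : ℕ → List (Fin k × Bool)
  | 0 => []
  | j + 1 => (i, false) :: (i, true) :: eaw i j

private theorem eaw_len {k : ℕ} (i : Fin k) (j : ℕ) : (eaw i j).length = 2 * j := by
  induction j with
  | zero => rfl
  | succ j ih => simp only [eaw, List.length_cons, ih]; ring

private theorem eaw_ne {k : ℕ} (i : Fin k) {j : ℕ} (hj : 1 ≤ j) : eaw i j ≠ [] := by
  intro h
  have := eaw_len i j
  rw [h, List.length_nil] at this
  omega

private theorem ev_eaw {A : Type*} [Monoid A] [Star A] {k : ℕ} (x : Fin k → A) (i : Fin k) (j : ℕ) :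
    ev x (eaw i j) = (star (x i) * x i) ^ j := by
  induction j with
  | zero => rw [pow_zero]; exact ev_nil x
  | succ j ih =>
    show ev x ((i, false) :: (i, true) :: eaw i j) = _
    rw [ev_cons, ev_cons, ih, pow_succ']
    simp [lt, mul_assoc]

private theorem lt_mem {k : ℕ} {y : Fin k → (H →L[ℂ] H)} (hy : ∀ i, y i ∈ M) (l : Fin k × Bool) : lt y l ∈ M := by
  unfold lt
  split_ifs
  · exact hy _
  · exact star_mem (hy _)

private theorem lt_norm {k : ℕ} {y : Fin k → (H →L[ℂ] H)} {R : ℝ} (hy : ∀ i, ‖y i‖ ≤ R) (l : Fin k × Bool) : ‖lt y l‖ ≤ R := by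
  unfold lt
  split_ifs
  · exact hy _
  · rw [norm_star]
    exact hy _

private theorem coe_lt {k : ℕ} (X : Fin k → M.toStarSubalgebra) (l : Fin k × Bool) :
    ((lt X l : M.toStarSubalgebra) : H →L[ℂ] H) = lt (fun i => (X i : H →L[ℂ] H)) l := by
  unfold lt
  split_ifs <;> rfl

private theorem coe_ev {k : ℕ} (X : Fin k → M.toStarSubalgebra) (w : List (Fin k × Bool)) :
    ((ev X w : M.toStarSubalgebra) : H →L[ℂ] H) = ev (fun i => (X i : H →L[ℂ] H)) w := by
  induction w with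
  | nil => rw [ev_nil, ev_nil]; rfl
  | cons l w ih =>
    rw [ev_cons, ev_cons, ← ih, ← coe_lt]
    rfl

private theorem null_of {U : Ultrafilter ℕ} {z a b c : ℕ → (H →L[ℂ] H)} {A B : ℝ} (ha : Null ξ U a) (hb : Null ξ U b)
    (hc : Null ξ U c) (h : ∀ n, n2 ξ (z n) ≤ n2 ξ (a n) + A * n2 ξ (b n) + B * n2 ξ (c n)) : Null ξ U z := by
  unfold Null at *
  have h1 : Tendsto (fun n => n2 ξ (a n) + A * n2 ξ (b n) + B * n2 ξ (c n)) U (𝓝 0) := by
    have := (ha.add (hb.const_mul A)).add (hc.const_mul B)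
    simpa using this
  exact squeeze_zero (fun n => n2_nonneg _) h h1

private theorem letter_null {U : Ultrafilter ℕ} {t : M.toStarSubalgebra → ℂ} {Θ : M.toStarSubalgebra → ℕ → (H →L[ℂ] H)}
    (hΘ : IsEmb M ξ U t Θ) {k : ℕ} (X : Fin k → M.toStarSubalgebra) (l : Fin k × Bool) :
    Null ξ U fun n => Θ (lt X l) n - lt (fun i => Θ (X i) n) l := by
  by_cases hl : l.2
  · have : (fun n => Θ (lt X l) n - lt (fun i => Θ (X i) n) l) = fun _ => (0 : H →L[ℂ] H) := by
      funext n
      simp [lt, hl]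
    rw [this]
    unfold Null
    simp only [n2_zero]
    exact tendsto_const_nhds
  · have : (fun n => Θ (lt X l) n - lt (fun i => Θ (X i) n) l) = fun n => Θ (star (X l.1)) n - star (Θ (X l.1) n) := by
      funext n
      simp [lt, hl]
    rw [this]
    exact hΘ.star_ _

private theorem word_null (h : IsTrace M ξ) {U : Ultrafilter ℕ} {t : M.toStarSubalgebra → ℂ}
    {Θ : M.toStarSubalgebra → ℕ → (H →L[ℂ] H)} (hΘ : IsEmb M ξ U t Θ) {k : ℕ} (X : Fin k → M.toStarSubalgebra) {R : ℝ}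
    (hR : ∀ i n, ‖Θ (X i) n‖ ≤ R) (w : List (Fin k × Bool)) (hw : w ≠ []) :
    Null ξ U fun n => Θ (ev X w) n - ev (fun i => Θ (X i) n) w := by
  induction w with
  | nil => exact absurd rfl hw
  | cons l w ih =>
    by_cases hw' : w = []
    · subst hw'
      have : (fun n => Θ (ev X [l]) n - ev (fun i => Θ (X i) n) [l]) = fun n => Θ (lt X l) n - lt (fun i => Θ (X i) n) l := by
        funext n
        rw [ev_cons, ev_nil, mul_one, ev_cons, ev_nil, mul_one]
      rw [this]
      exact letter_null hΘ X l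
    · obtain ⟨C, hC⟩ := hΘ.bdd (ev X w)
      refine null_of (A := C) (B := R) (hΘ.mul (lt X l) (ev X w)) (letter_null hΘ X l) (ih hw') fun n => ?_
      rw [ev_cons, ev_cons]
      have hmem : Θ (lt X l) n - lt (fun i => Θ (X i) n) l ∈ M := sub_mem (hΘ.mem _ _) (lt_mem (fun i => hΘ.mem _ _) l)
      have e : Θ (lt X l * ev X w) n - lt (fun i => Θ (X i) n) l * ev (fun i => Θ (X i) n) w =
          (Θ (lt X l * ev X w) n - Θ (lt X l) n * Θ (ev X w) n) +
            (Θ (lt X l) n - lt (fun i => Θ (X i) n) l) * Θ (ev X w) n +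
              lt (fun i => Θ (X i) n) l * (Θ (ev X w) n - ev (fun i => Θ (X i) n) w) := by
        rw [sub_mul, mul_sub]
        abel
      rw [e]
      refine (n2_add_le h _ _).trans (add_le_add ((n2_add_le h _ _).trans (add_le_add le_rfl ?_)) ?_)
      · refine (n2_mul_le' h hmem (hΘ.mem _ _)).trans ?_
        rw [mul_comm]
        exact mul_le_mul_of_nonneg_right (hC n) (n2_nonneg _)
      · exact (n2_mul_le h _ _).trans (mul_le_mul_of_nonneg_right (lt_norm (fun i => hR i n) l) (n2_nonneg _))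

private theorem word_trace (h : IsTrace M ξ) {U : Ultrafilter ℕ} {s : ℝ}
    {Θ : M.toStarSubalgebra → ℕ → (H →L[ℂ] H)}
    (hΘ : IsEmb M ξ U (fun a : M.toStarSubalgebra => (s : ℂ) * tr ξ (a : H →L[ℂ] H)) Θ) {k : ℕ}
    (X : Fin k → M.toStarSubalgebra) {R : ℝ}
    (hR : ∀ i n, ‖Θ (X i) n‖ ≤ R) (w : List (Fin k × Bool)) (hw : w ≠ []) :
    Tendsto (fun n => tr ξ (ev (fun i => Θ (X i) n) w)) U (𝓝 ((s : ℂ) * tr ξ (ev (fun i => (X i : H →L[ℂ] H)) w))) := by
  have h1 := hΘ.trace (ev X w)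
  simp only [coe_ev] at h1
  have h2 := word_null h hΘ X hR w hw
  have h3 : Tendsto (fun n => tr ξ (Θ (ev X w) n - ev (fun i => Θ (X i) n) w)) U (𝓝 0) :=
    squeeze_zero_norm (fun n => norm_tr_le h _) h2
  have h4 := h1.sub h3
  rw [sub_zero] at h4
  refine h4.congr fun n => ?_
  rw [tr_sub h]
  ring

theorem emb_ap (h : IsTrace M ξ) (U : Ultrafilter ℕ) {s : ℝ} (hs0 : 0 ≤ s) (hs1 : s ≤ 1)
    (hs : ScEmb M ξ U s) : Ap M ξ s := by
  obtain ⟨Θ, hΘ⟩ := hs
  intro k m x hxM hx1 ε hε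
  let X : Fin k → M.toStarSubalgebra := fun i => ⟨x i, hxM i⟩
  have hXx : (fun i => (X i : H →L[ℂ] H)) = x := rfl
  choose C hC using fun i => hΘ.bdd (X i)
  set R : ℝ := 1 + ∑ i, |C i| with hRdef
  have hR1 : 1 ≤ R := by
    have : 0 ≤ ∑ i, |C i| := Finset.sum_nonneg fun i _ => abs_nonneg _
    linarith
  have hR : ∀ i n, ‖Θ (X i) n‖ ≤ R := fun i n => by
    have h1 : |C i| ≤ ∑ i, |C i| := Finset.single_le_sum (f := fun i => |C i|) (fun i _ => abs_nonneg _) (Finset.mem_univ i)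
    have h2 := hC i n
    have h3 := le_abs_self (C i)
    linarith
  have hRm : 0 < R ^ m := by positivity
  set ε' : ℝ := ε / (4 * (m + 1) * R ^ m) with hε'
  have hε'0 : 0 < ε' := by positivity
  obtain ⟨m', δ, hδ, htr⟩ := trunc h hR1 hε'0
  have hfin : {w : List (Fin k × Bool) | w.length ≤ max m (2 * m')}.Finite := List.finite_length_le _ _
  have hmin : 0 < min δ (ε / 2) := lt_min hδ (by positivity)
  have hev : ∀ᶠ n in (U : Filter ℕ), ∀ w ∈ {w : List (Fin k × Bool) | w.length ≤ max m (2 * m')}, w ≠ [] →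
      ‖tr ξ (ev (fun i => Θ (X i) n) w) - (s : ℂ) * tr ξ (ev x w)‖ < min δ (ε / 2) := by
    rw [Filter.eventually_all_finite hfin]
    intro w _
    by_cases hw : w = []
    · exact Filter.Eventually.of_forall fun n hn => absurd hw hn
    · have h1 := word_trace h hΘ X hR w hw
      rw [hXx] at h1
      have h2 := (Metric.tendsto_nhds.1 h1) _ hmin
      filter_upwards [h2] with n hn _
      rwa [dist_eq_norm] at hn
  obtain ⟨n, hn⟩ := hev.exists
  have hz : ∀ i, ∃ z ∈ M, ‖z‖ ≤ 1 ∧ n2 ξ (z - Θ (X i) n) ≤ ε' := fun i => by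
    refine htr s hs0 hs1 (x i) (hxM i) (hx1 i) (Θ (X i) n) (hΘ.mem _ _) (hR i n) fun j hj1 hj2 => ?_
    have h1 := hn (eaw i j) (by
      show (eaw i j).length ≤ _
      rw [eaw_len]
      exact (Nat.mul_le_mul_left 2 hj2).trans (le_max_right _ _)) (eaw_ne i hj1)
    rw [ev_eaw, ev_eaw] at h1
    exact h1.le.trans (min_le_left _ _)
  choose z hzM hz1 hz2 using hz
  refine ⟨z, hzM, hz1, fun w hw hwm => ?_⟩
  have h1 := hn w (hwm.trans (le_max_left _ _)) hw
  have h2 := tr_ev_sub_le h hR1 hzM (fun i => hΘ.mem (X i) n) (fun i => (hz1 i).trans hR1) (fun i => hR i n) hz2 hε'0.le w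
  have h3 : (w.length : ℝ) * R ^ w.length * ε' ≤ m * R ^ m * ε' := by
    have h4 : (w.length : ℝ) ≤ m := by exact_mod_cast hwm
    have h5 : R ^ w.length ≤ R ^ m := pow_le_pow_right₀ hR1 hwm
    exact mul_le_mul_of_nonneg_right (mul_le_mul h4 h5 (by positivity) (by positivity)) hε'0.le
  have h6 : (m : ℝ) * R ^ m * ε' < ε / 2 := by
    have h7 : (m : ℝ) * R ^ m * ε' = ε * (m / (4 * (m + 1))) := by
      rw [hε']
      field_simp
    rw [h7]
    have h8 : (m : ℝ) / (4 * (m + 1)) < 1 / 2 := by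
      rw [div_lt_div_iff₀ (by positivity) (by norm_num)]
      have : (0 : ℝ) ≤ m := Nat.cast_nonneg m
      linarith
    calc ε * (m / (4 * (m + 1))) < ε * (1 / 2) := mul_lt_mul_of_pos_left h8 hε
      _ = ε / 2 := by ring
  calc ‖tr ξ (ev z w) - (s : ℂ) * tr ξ (ev x w)‖
      ≤ ‖tr ξ (ev z w) - tr ξ (ev (fun i => Θ (X i) n) w)‖ +
        ‖tr ξ (ev (fun i => Θ (X i) n) w) - (s : ℂ) * tr ξ (ev x w)‖ := by
        refine le_trans (le_of_eq ?_) (norm_add_le _ _)
        congr 1
        ring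
    _ < ε := by
        have := min_le_right δ (ε / 2)
        linarith

end Pool.Agent.Lib.UPE
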