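import Pool.Agent.Lib.UPE.TC2
import Pool.Agent.Lib.UPE.WD
import Pool.Agent.Lib.UPE.IDefs

/-!
# UPE / EA2: a *-homomorphism on a corner gives approximations

The values of `Θ` on the letters satisfy, up to null sequences, the same relations as the letters, so the traces of
words converge; the values are then replaced by contractions (`trunc2`), which changes the traces of the words of
bounded length by little (`tr_ev_sub_le`).
-/

set_option autoImplicit false

open Filter Topology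

namespace Pool.Agent.Lib.UPE

variable {H : Type*} [NormedAddCommGroup H] [InnerProductSpace ℂ H] [CompleteSpace H]
variable {K : Type*} [NormedAddCommGroup K] [InnerProductSpace ℂ K] [CompleteSpace K]
variable {M : VonNeumannAlgebra H} {ξ : ℕ → H} {N : VonNeumannAlgebra K} {η : ℕ → K}

/-- the word of `(star x * x) ^ j` -/
private def cew {k : ℕ} (i : Fin k) : ℕ → List (Fin k × Bool)
  | 0 => []
  | j + 1 => (i, false) :: (i, true) :: cew i j

private theorem cew_len {k : ℕ} (i : Fin k) (j : ℕ) : (cew i j).length = 2 * j := by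
  induction j with
  | zero => rfl
  | succ j ih => simp only [cew, List.length_cons, ih]; ring

private theorem cew_ne {k : ℕ} (i : Fin k) {j : ℕ} (hj : 1 ≤ j) : cew i j ≠ [] := by
  intro h
  have := cew_len i j
  rw [h, List.length_nil] at this
  omega

private theorem ev_cew {A : Type*} [Monoid A] [Star A] {k : ℕ} (x : Fin k → A) (i : Fin k) (j : ℕ) :
    ev x (cew i j) = (star (x i) * x i) ^ j := by
  induction j with
  | zero => rw [pow_zero]; exact ev_nil x
  | succ j ih =>
    show ev x ((i, false) :: (i, true) :: cew i j) = _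
    rw [ev_cons, ev_cons, ih, pow_succ']
    simp [lt, mul_assoc]

private theorem ce_lt_mem {k : ℕ} {y : Fin k → (K →L[ℂ] K)} (hy : ∀ i, y i ∈ N) (l : Fin k × Bool) : lt y l ∈ N := by
  unfold lt
  split_ifs
  · exact hy _
  · exact star_mem (hy _)

private theorem ce_lt_norm {k : ℕ} {y : Fin k → (K →L[ℂ] K)} {R : ℝ} (hy : ∀ i, ‖y i‖ ≤ R) (l : Fin k × Bool) :
    ‖lt y l‖ ≤ R := by
  unfold lt
  split_ifs
  · exact hy _
  · rw [norm_star]
    exact hy _

private theorem ce_left {p a : H →L[ℂ] H} (hp : IsStarProjection p) (ha : p * a * p = a) : p * a = a := by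
  have h1 : p * p = p := hp.isIdempotentElem
  calc p * a = p * (p * a * p) := by rw [ha]
    _ = p * p * a * p := by simp only [mul_assoc]
    _ = a := by rw [h1, ha]

private theorem ce_right {p a : H →L[ℂ] H} (hp : IsStarProjection p) (ha : p * a * p = a) : a * p = a := by
  have h1 : p * p = p := hp.isIdempotentElem
  calc a * p = (p * a * p) * p := by rw [ha]
    _ = p * a * (p * p) := by simp only [mul_assoc]
    _ = a := by rw [h1, ha]

private theorem ce_mul {p a b : H →L[ℂ] H} (hp : IsStarProjection p) (ha : a ∈ corner M p) (hb : b ∈ corner M p) :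
    a * b ∈ corner M p := by
  refine ⟨mul_mem ha.1 hb.1, ?_⟩
  rw [← mul_assoc, ce_left hp ha.2, mul_assoc, ce_right hp hb.2]

private theorem ce_star {p a : H →L[ℂ] H} (hp : IsStarProjection p) (ha : a ∈ corner M p) : star a ∈ corner M p := by
  refine ⟨star_mem ha.1, ?_⟩
  have h1 := congrArg star ha.2
  rwa [star_mul, star_mul, hp.isSelfAdjoint.star_eq, ← mul_assoc] at h1

private theorem ce_lt {p : H →L[ℂ] H} (hp : IsStarProjection p) {k : ℕ} {x : Fin k → (H →L[ℂ] H)}
    (hx : ∀ i, x i ∈ corner M p) (l : Fin k × Bool) : lt x l ∈ corner M p := by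
  unfold lt
  split_ifs
  · exact hx _
  · exact ce_star hp (hx _)

private theorem ce_ev {p : H →L[ℂ] H} (hp : IsStarProjection p) {k : ℕ} {x : Fin k → (H →L[ℂ] H)}
    (hx : ∀ i, x i ∈ corner M p) (w : List (Fin k × Bool)) (hw : w ≠ []) : ev x w ∈ corner M p := by
  induction w with
  | nil => exact absurd rfl hw
  | cons l w ih =>
    rw [ev_cons]
    by_cases hw' : w = []
    · subst hw'
      rw [ev_nil, mul_one]
      exact ce_lt hp hx l
    · exact ce_mul hp (ce_lt hp hx l) (ih hw')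

private theorem ce_null_of {U : Ultrafilter ℕ} {z a b c : ℕ → (K →L[ℂ] K)} {A B : ℝ} (ha : Null η U a)
    (hb : Null η U b) (hc : Null η U c) (h : ∀ n, n2 η (z n) ≤ n2 η (a n) + A * n2 η (b n) + B * n2 η (c n)) :
    Null η U z := by
  unfold Null at *
  have h1 : Tendsto (fun n => n2 η (a n) + A * n2 η (b n) + B * n2 η (c n)) U (𝓝 0) := by
    have := (ha.add (hb.const_mul A)).add (hc.const_mul B)
    simpa using this
  exact squeeze_zero (fun n => n2_nonneg _) h h1

private theorem ce_letter {U : Ultrafilter ℕ} {t : (H →L[ℂ] H) → ℂ} {p : H →L[ℂ] H}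
    {Θ : (H →L[ℂ] H) → ℕ → (K →L[ℂ] K)} (hΘ : IsCS M p N η U t Θ) {k : ℕ} {x : Fin k → (H →L[ℂ] H)}
    (hx : ∀ i, x i ∈ corner M p) (l : Fin k × Bool) :
    Null η U fun n => Θ (lt x l) n - lt (fun i => Θ (x i) n) l := by
  by_cases hl : l.2
  · have : (fun n => Θ (lt x l) n - lt (fun i => Θ (x i) n) l) = fun _ => (0 : K →L[ℂ] K) := by
      funext n
      simp [lt, hl]
    rw [this]
    unfold Null
    simp only [n2_zero]
    exact tendsto_const_nhds
  · have : (fun n => Θ (lt x l) n - lt (fun i => Θ (x i) n) l) = fun n => Θ (star (x l.1)) n - star (Θ (x l.1) n) := by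
      funext n
      simp [lt, hl]
    rw [this]
    exact hΘ.star_ _ (hx _)

private theorem ce_word (hN : IsTrace N η) {U : Ultrafilter ℕ} {t : (H →L[ℂ] H) → ℂ} {p : H →L[ℂ] H}
    (hp : IsStarProjection p) {Θ : (H →L[ℂ] H) → ℕ → (K →L[ℂ] K)} (hΘ : IsCS M p N η U t Θ) {k : ℕ}
    {x : Fin k → (H →L[ℂ] H)} (hx : ∀ i, x i ∈ corner M p) {R : ℝ}
    (hR : ∀ i n, ‖Θ (x i) n‖ ≤ R) (w : List (Fin k × Bool)) (hw : w ≠ []) :
    Null η U fun n => Θ (ev x w) n - ev (fun i => Θ (x i) n) w := by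
  induction w with
  | nil => exact absurd rfl hw
  | cons l w ih =>
    by_cases hw' : w = []
    · subst hw'
      have : (fun n => Θ (ev x [l]) n - ev (fun i => Θ (x i) n) [l]) = fun n => Θ (lt x l) n - lt (fun i => Θ (x i) n) l := by
        funext n
        rw [ev_cons, ev_nil, mul_one, ev_cons, ev_nil, mul_one]
      rw [this]
      exact ce_letter hΘ hx l
    · have hlc := ce_lt hp hx l
      have hwc := ce_ev hp hx w hw'
      obtain ⟨C, hC⟩ := hΘ.bdd (ev x w) hwc
      refine ce_null_of (A := C) (B := R) (hΘ.mul (lt x l) hlc (ev x w) hwc) (ce_letter hΘ hx l) (ih hw') fun n => ?_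
      rw [ev_cons, ev_cons]
      have hmem : Θ (lt x l) n - lt (fun i => Θ (x i) n) l ∈ N :=
        sub_mem (hΘ.mem _ hlc _) (ce_lt_mem (fun i => hΘ.mem _ (hx i) _) l)
      have e : Θ (lt x l * ev x w) n - lt (fun i => Θ (x i) n) l * ev (fun i => Θ (x i) n) w =
          (Θ (lt x l * ev x w) n - Θ (lt x l) n * Θ (ev x w) n) +
            (Θ (lt x l) n - lt (fun i => Θ (x i) n) l) * Θ (ev x w) n +
              lt (fun i => Θ (x i) n) l * (Θ (ev x w) n - ev (fun i => Θ (x i) n) w) := by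
        rw [sub_mul, mul_sub]
        abel
      rw [e]
      refine (n2_add_le hN _ _).trans (add_le_add ((n2_add_le hN _ _).trans (add_le_add le_rfl ?_)) ?_)
      · refine (n2_mul_le' hN hmem (hΘ.mem _ hwc _)).trans ?_
        rw [mul_comm]
        exact mul_le_mul_of_nonneg_right (hC n) (n2_nonneg _)
      · exact (n2_mul_le hN _ _).trans (mul_le_mul_of_nonneg_right (ce_lt_norm (fun i => hR i n) l) (n2_nonneg _))

private theorem ce_trace (hN : IsTrace N η) {U : Ultrafilter ℕ} {t : (H →L[ℂ] H) → ℂ} {p : H →L[ℂ] H}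
    (hp : IsStarProjection p) {Θ : (H →L[ℂ] H) → ℕ → (K →L[ℂ] K)} (hΘ : IsCS M p N η U t Θ) {k : ℕ}
    {x : Fin k → (H →L[ℂ] H)} (hx : ∀ i, x i ∈ corner M p) {R : ℝ}
    (hR : ∀ i n, ‖Θ (x i) n‖ ≤ R) (w : List (Fin k × Bool)) (hw : w ≠ []) :
    Tendsto (fun n => tr η (ev (fun i => Θ (x i) n) w)) U (𝓝 (t (ev x w))) := by
  have h1 := hΘ.trace (ev x w) (ce_ev hp hx w hw)
  have h2 := ce_word hN hp hΘ hx hR w hw
  have h3 : Tendsto (fun n => tr η (Θ (ev x w) n - ev (fun i => Θ (x i) n) w)) U (𝓝 0) :=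
    squeeze_zero_norm (fun n => norm_tr_le hN _) h2
  have h4 := h1.sub h3
  rw [sub_zero] at h4
  refine h4.congr fun n => ?_
  rw [tr_sub hN]
  ring

theorem cs_ap (h : IsTrace M ξ) (hN : IsTrace N η) {U : Ultrafilter ℕ} {p : H →L[ℂ] H} (hp : IsStarProjection p)
    (hpM : p ∈ M) {c : ℝ} (hc : 0 ≤ c) {Θ : (H →L[ℂ] H) → ℕ → (K →L[ℂ] K)}
    (hΘ : IsCS M p N η U (fun a => (c : ℂ) * tr ξ a) Θ) : ApS M ξ p N η c := by
  intro k m x hxM hx1 ε hε
  choose C hC using fun i => hΘ.bdd (x i) (hxM i)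
  set R : ℝ := 1 + ∑ i, |C i| with hRdef
  have hR1 : 1 ≤ R := by
    have : 0 ≤ ∑ i, |C i| := Finset.sum_nonneg fun i _ => abs_nonneg _
    linarith
  have hR : ∀ i n, ‖Θ (x i) n‖ ≤ R := fun i n => by
    have h1 : |C i| ≤ ∑ i, |C i| := Finset.single_le_sum (f := fun i => |C i|) (fun i _ => abs_nonneg _) (Finset.mem_univ i)
    have h2 := hC i n
    have h3 := le_abs_self (C i)
    linarith
  have hRm : 0 < R ^ m := by positivity
  set ε' : ℝ := ε / (4 * (m + 1) * R ^ m) with hε'
  have hε'0 : 0 < ε' := by positivity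
  obtain ⟨m', δ, hδ, htr⟩ := trunc2 h hN hR1 hε'0 hc
  have hfin : {w : List (Fin k × Bool) | w.length ≤ max m (2 * m')}.Finite := List.finite_length_le _ _
  have hmin : 0 < min δ (ε / 2) := lt_min hδ (by positivity)
  have hev : ∀ᶠ n in (U : Filter ℕ), ∀ w ∈ {w : List (Fin k × Bool) | w.length ≤ max m (2 * m')}, w ≠ [] →
      ‖tr η (ev (fun i => Θ (x i) n) w) - (c : ℂ) * tr ξ (ev x w)‖ < min δ (ε / 2) := by
    rw [Filter.eventually_all_finite hfin]
    intro w _
    by_cases hw : w = []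
    · exact Filter.Eventually.of_forall fun n hn => absurd hw hn
    · have h1 := ce_trace hN hp hΘ hxM hR w hw
      have h2 := (Metric.tendsto_nhds.1 h1) _ hmin
      filter_upwards [h2] with n hn _
      rwa [dist_eq_norm] at hn
  obtain ⟨n, hn⟩ := hev.exists
  have hz : ∀ i, ∃ z ∈ N, ‖z‖ ≤ 1 ∧ n2 η (z - Θ (x i) n) ≤ ε' := fun i => by
    refine htr c hc le_rfl (x i) (hxM i).1 (hx1 i) (Θ (x i) n) (hΘ.mem _ (hxM i) _) (hR i n) fun j hj1 hj2 => ?_
    have h1 := hn (cew i j) (by
      show (cew i j).length ≤ _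
      rw [cew_len]
      exact (Nat.mul_le_mul_left 2 hj2).trans (le_max_right _ _)) (cew_ne i hj1)
    rw [ev_cew, ev_cew] at h1
    exact h1.le.trans (min_le_left _ _)
  choose z hzM hz1 hz2 using hz
  refine ⟨z, hzM, hz1, fun w hw hwm => ?_⟩
  have h1 := hn w (hwm.trans (le_max_left _ _)) hw
  have h2 := tr_ev_sub_le hN hR1 hzM (fun i => hΘ.mem (x i) (hxM i) n) (fun i => (hz1 i).trans hR1)
    (fun i => hR i n) hz2 hε'0.le w
  have h3 : (w.length : ℝ) * R ^ w.length * ε' ≤ m * R ^ m * ε' := by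
    have h4 : (w.length : ℝ) ≤ m := by exact_mod_cast hwm
    have h5 : R ^ w.length ≤ R ^ m := pow_le_pow_right₀ hR1 hwm
    exact mul_le_mul_of_nonneg_right (mul_le_mul h4 h5 (by positivity) (by positivity)) hε'0.le
  have h6 : (m : ℝ) * R ^ m * ε' < ε / 2 := by
    have h7 : (m : ℝ) * R ^ m * ε' = ε * (m / (4 * (m + 1))) := by
      rw [hε']
      field_simp
    rw [h7]
    have h8 : (m : ℝ) / (4 * (m + 1)) < 1 / 2 := by
      rw [div_lt_div_iff₀ (by positivity) (by norm_num)]
      have : (0 : ℝ) ≤ m := Nat.cast_nonneg m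
      linarith
    calc ε * (m / (4 * (m + 1))) < ε * (1 / 2) := mul_lt_mul_of_pos_left h8 hε
      _ = ε / 2 := by ring
  calc ‖tr η (ev z w) - (c : ℂ) * tr ξ (ev x w)‖
      ≤ ‖tr η (ev z w) - tr η (ev (fun i => Θ (x i) n) w)‖ +
        ‖tr η (ev (fun i => Θ (x i) n) w) - (c : ℂ) * tr ξ (ev x w)‖ := by
        refine le_trans (le_of_eq ?_) (norm_add_le _ _)
        congr 1
        ring
    _ < ε := by
        have := min_le_right δ (ε / 2)
        linarith

end Pool.Agent.Lib.UPE
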