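import Pool.Agent.Lib.UPE.Defs

/-!
# Ultrapower embeddings of II_1 factors: *-homomorphisms which are not unital
-/

set_option autoImplicit false

open Filter Topology

namespace Pool.Agent.Lib.UPE

variable {H : Type*} [NormedAddCommGroup H] [InnerProductSpace ℂ H] [CompleteSpace H]

/-- there is a *-homomorphism `Θ` from `M` to its ultrapower along `U` (not necessarily unital, no condition on the
traces: `t` is arbitrary) with `Θ 1 ≠ 0` and `Θ 1 ≠ 1` -/
def HomEmb (M : VonNeumannAlgebra H) (ξ : ℕ → H) (U : Ultrafilter ℕ) : Prop :=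
  ∃ (t : M.toStarSubalgebra → ℂ) (Θ : M.toStarSubalgebra → ℕ → (H →L[ℂ] H)),
    IsEmb M ξ U t Θ ∧ (¬ Null ξ U fun n => Θ 1 n) ∧ ¬ Null ξ U fun n => Θ 1 n - 1

end Pool.Agent.Lib.UPE
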