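import Pool.Agent.Lib.UPE.TU
import Pool.Agent.Lib.UPE.HDefs

/-!
# UPE / EU: *-homomorphisms into the ultrapower that are not unital

No condition on the traces is imposed: `t` is arbitrary (the limits along an ultrafilter always exist).
PROOF.  `φ a = t a` is linear, tracial and positive, so `trace_unique` gives `t a = t 1 * tr a`; `t 1` is the
limit of `n2 (Θ 1) ^ 2` and `1 - t 1` the limit of `n2 (Θ 1 - 1) ^ 2`.
-/

set_option autoImplicit false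

open Filter Topology

namespace Pool.Agent.Lib.UPE

variable {H : Type*} [NormedAddCommGroup H] [InnerProductSpace ℂ H] [CompleteSpace H]
variable {M : VonNeumannAlgebra H} {ξ : ℕ → H}

private theorem eu_tr0 (h : IsTrace M ξ) {U : Ultrafilter ℕ} {x : ℕ → (H →L[ℂ] H)} (hx : Null ξ U x) :
    Tendsto (fun n => tr ξ (x n)) U (𝓝 0) :=
  squeeze_zero_norm (fun n => norm_tr_le h (x n)) hx

private theorem eu_eq (h : IsTrace M ξ) {U : Ultrafilter ℕ} {x y : ℕ → (H →L[ℂ] H)} {a b : ℂ}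
    (hxy : Null ξ U fun n => x n - y n) (hx : Tendsto (fun n => tr ξ (x n)) U (𝓝 a))
    (hy : Tendsto (fun n => tr ξ (y n)) U (𝓝 b)) : a = b := by
  have h1 : Tendsto (fun n => tr ξ (x n) - tr ξ (y n)) U (𝓝 0) := by
    simpa only [tr_sub h] using eu_tr0 h hxy
  exact sub_eq_zero.1 (tendsto_nhds_unique (hx.sub hy) h1)

private theorem eu_null_add (h : IsTrace M ξ) {U : Ultrafilter ℕ} {x y : ℕ → (H →L[ℂ] H)}
    (hx : Null ξ U x) (hy : Null ξ U y) : Null ξ U fun n => x n + y n := by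
  refine squeeze_zero (fun n => n2_nonneg _) (fun n => n2_add_le h (x n) (y n)) ?_
  simpa using Tendsto.add hx hy

private theorem eu_null_mul (h : IsTrace M ξ) {U : Ultrafilter ℕ} {x y : ℕ → (H →L[ℂ] H)} {C : ℝ}
    (hx : Null ξ U x) (hxM : ∀ n, x n ∈ M) (hyM : ∀ n, y n ∈ M) (hC : ∀ n, ‖y n‖ ≤ C) :
    Null ξ U fun n => x n * y n := by
  refine squeeze_zero (fun n => n2_nonneg _) (fun n => (n2_mul_le' h (hxM n) (hyM n)).trans
    (mul_le_mul_of_nonneg_left (hC n) (n2_nonneg _))) ?_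
  simpa using Tendsto.mul_const C hx

private theorem eu_star_mul (h : IsTrace M ξ) {U : Ultrafilter ℕ} {t : M.toStarSubalgebra → ℂ}
    {Θ : M.toStarSubalgebra → ℕ → (H →L[ℂ] H)} (hΘ : IsEmb M ξ U t Θ) (a : M.toStarSubalgebra) :
    Null ξ U fun n => Θ (star a * a) n - star (Θ a n) * Θ a n := by
  obtain ⟨C, hC⟩ := hΘ.bdd a
  have h1 := eu_null_add h (hΘ.mul (star a) a) (eu_null_mul h (hΘ.star_ a)
    (fun n => sub_mem (hΘ.mem _ n) (star_mem (hΘ.mem _ n))) (hΘ.mem a) hC)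
  refine h1.congr fun n => ?_
  congr 1
  beta_reduce
  rw [sub_mul]
  abel

private theorem eu_sq (h : IsTrace M ξ) {U : Ultrafilter ℕ} {t : M.toStarSubalgebra → ℂ}
    {Θ : M.toStarSubalgebra → ℕ → (H →L[ℂ] H)} (hΘ : IsEmb M ξ U t Θ) (a : M.toStarSubalgebra) :
    Tendsto (fun n => (((n2 ξ (Θ a n)) ^ 2 : ℝ) : ℂ)) U (𝓝 (t (star a * a))) := by
  have h1 := (hΘ.trace (star a * a)).sub (eu_tr0 h (eu_star_mul h hΘ a))
  rw [sub_zero] at h1
  refine h1.congr fun n => ?_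
  rw [tr_sub h, tr_star_mul_self]
  ring

private theorem eu_re (h : IsTrace M ξ) {U : Ultrafilter ℕ} {t : M.toStarSubalgebra → ℂ}
    {Θ : M.toStarSubalgebra → ℕ → (H →L[ℂ] H)} (hΘ : IsEmb M ξ U t Θ) (a : M.toStarSubalgebra) :
    Tendsto (fun n => (n2 ξ (Θ a n)) ^ 2) U (𝓝 (t (star a * a)).re) ∧ 0 ≤ (t (star a * a)).re ∧
      (t (star a * a)).im = 0 := by
  have h1 := eu_sq h hΘ a
  have h2 : Tendsto (fun n => (n2 ξ (Θ a n)) ^ 2) U (𝓝 (t (star a * a)).re) :=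
    ((Complex.continuous_re.tendsto _).comp h1).congr fun n => Complex.ofReal_re _
  have h3 : Tendsto (fun _ : ℕ => (0 : ℝ)) U (𝓝 (t (star a * a)).im) :=
    ((Complex.continuous_im.tendsto _).comp h1).congr fun n => Complex.ofReal_im _
  exact ⟨h2, ge_of_tendsto' h2 fun n => sq_nonneg _, tendsto_nhds_unique h3 tendsto_const_nhds⟩

private theorem eu_null_of_sq {U : Ultrafilter ℕ} {x : ℕ → (H →L[ℂ] H)}
    (hx : Tendsto (fun n => (n2 ξ (x n)) ^ 2) U (𝓝 0)) : Null ξ U x := by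
  have h1 := (Real.continuous_sqrt.tendsto _).comp hx
  rw [Real.sqrt_zero] at h1
  exact h1.congr fun n => Real.sqrt_sq (n2_nonneg _)

theorem hom_sc (h : IsIIOne M ξ) {U : Ultrafilter ℕ} (hm : HomEmb M ξ U) :
    ∃ s : ℝ, 0 < s ∧ s < 1 ∧ ScEmb M ξ U s := by
  classical
  obtain ⟨t, Θ, hΘ, h0, h1⟩ := hm
  have hT := h.toIsTrace
  obtain ⟨φ, hφ⟩ : ∃ φ : (H →L[ℂ] H) → ℂ, ∀ a (ha : a ∈ M), φ a = t ⟨a, ha⟩ :=
    ⟨fun a => if ha : a ∈ M then t ⟨a, ha⟩ else 0, fun a ha => dif_pos ha⟩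
  have hadd : ∀ a ∈ M, ∀ b ∈ M, φ (a + b) = φ a + φ b := by
    intro a ha b hb
    rw [hφ a ha, hφ b hb, hφ (a + b) (add_mem ha hb)]
    refine eu_eq hT (hΘ.add ⟨a, ha⟩ ⟨b, hb⟩) (hΘ.trace _) ?_
    simpa only [tr_add hT] using (hΘ.trace ⟨a, ha⟩).add (hΘ.trace ⟨b, hb⟩)
  have hsmul : ∀ (c : ℂ), ∀ a ∈ M, φ (c • a) = c * φ a := by
    intro c a ha
    rw [hφ a ha, hφ (c • a) (smul_mem' c ha)]
    refine eu_eq hT (hΘ.smul c ⟨a, ha⟩) (hΘ.trace _) ?_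
    simpa only [tr_smul] using (hΘ.trace ⟨a, ha⟩).const_mul c
  have htr : ∀ a ∈ M, ∀ b ∈ M, φ (a * b) = φ (b * a) := by
    intro a ha b hb
    rw [hφ (a * b) (mul_mem ha hb), hφ (b * a) (mul_mem hb ha)]
    have h2 : Tendsto (fun n => tr ξ (Θ ⟨a, ha⟩ n * Θ ⟨b, hb⟩ n)) U (𝓝 (t (⟨a, ha⟩ * ⟨b, hb⟩))) := by
      have h3 := (hΘ.trace (⟨a, ha⟩ * ⟨b, hb⟩)).sub (eu_tr0 hT (hΘ.mul ⟨a, ha⟩ ⟨b, hb⟩))
      rw [sub_zero] at h3
      refine h3.congr fun n => ?_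
      rw [tr_sub hT]
      ring
    have h4 : Tendsto (fun n => tr ξ (Θ ⟨b, hb⟩ n * Θ ⟨a, ha⟩ n)) U (𝓝 (t (⟨b, hb⟩ * ⟨a, ha⟩))) := by
      have h3 := (hΘ.trace (⟨b, hb⟩ * ⟨a, ha⟩)).sub (eu_tr0 hT (hΘ.mul ⟨b, hb⟩ ⟨a, ha⟩))
      rw [sub_zero] at h3
      refine h3.congr fun n => ?_
      rw [tr_sub hT]
      ring
    exact tendsto_nhds_unique h2 (h4.congr fun n => hT.tracial _ (hΘ.mem _ n) _ (hΘ.mem _ n))
  have hpos : ∀ a ∈ M, 0 ≤ (φ (star a * a)).re ∧ (φ (star a * a)).im = 0 := by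
    intro a ha
    rw [hφ (star a * a) (mul_mem (star_mem ha) ha)]
    exact (eu_re hT hΘ ⟨a, ha⟩).2
  have hu := fun (a : H →L[ℂ] H) (ha : a ∈ M) => trace_unique h φ hadd hsmul htr hpos ha
  have hone : φ 1 = t 1 := hφ 1 (one_mem M)
  have h11 : star (1 : M.toStarSubalgebra) * 1 = 1 := by rw [star_one, one_mul]
  obtain ⟨h2, h3, h4⟩ := eu_re hT hΘ 1
  rw [h11] at h2 h3 h4
  have hreal : t 1 = (((t 1).re : ℝ) : ℂ) := Complex.ext (by simp) (by simp [h4])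
  have hpos1 : 0 < (t 1).re := by
    refine lt_of_le_of_ne h3 fun h5 => h0 (eu_null_of_sq ?_)
    rwa [← h5] at h2
  have h5 : Tendsto (fun n => (n2 ξ (Θ 1 n - 1)) ^ 2) U (𝓝 (1 - (t 1).re)) := by
    have h6 : ∀ n, (n2 ξ (Θ 1 n - 1)) ^ 2 = (n2 ξ (Θ 1 n)) ^ 2 - 2 * (tr ξ (Θ 1 n)).re + 1 := by
      intro n
      have h7 := tr_star_mul_self (ξ := ξ) (Θ 1 n - 1)
      have h8 : star (Θ 1 n - 1) * (Θ 1 n - 1) = star (Θ 1 n) * Θ 1 n - star (Θ 1 n) - Θ 1 n + 1 := by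
        rw [star_sub, star_one]
        noncomm_ring
      rw [h8, tr_add hT, tr_sub hT, tr_sub hT, tr_star_mul_self, tr_star, tr_one hT] at h7
      have h9 := congrArg Complex.re h7
      simp only [Complex.add_re, Complex.sub_re, Complex.ofReal_re, Complex.one_re, Complex.star_def,
        Complex.conj_re] at h9
      linarith
    have h10 := ((h2.sub (((Complex.continuous_re.tendsto _).comp (hΘ.trace 1)).const_mul 2)).add_const 1)
    refine (h10.congr fun n => (h6 n).symm).trans ?_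
    rw [show (t 1).re - 2 * (t 1).re + 1 = 1 - (t 1).re by ring]
  have hlt : (t 1).re < 1 := by
    have h6 : 0 ≤ 1 - (t 1).re := ge_of_tendsto' h5 fun n => sq_nonneg _
    refine lt_of_le_of_ne (by linarith) fun h7 => h1 (eu_null_of_sq ?_)
    rwa [h7, sub_self] at h5
  refine ⟨(t 1).re, hpos1, hlt, Θ, ?_⟩
  have ht : t = fun a : M.toStarSubalgebra => (((t 1).re : ℝ) : ℂ) * tr ξ (a : H →L[ℂ] H) := by
    funext a
    rw [← hreal, ← hone]
    exact (hφ a a.2).symm.trans (hu a a.2)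
  rw [← ht]
  exact hΘ

end Pool.Agent.Lib.UPE
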