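import Pool.Agent.Lib.UPE.WD

/-!
# UPE / EVT (90 lines): words in sums of commuting products

PROOF.  Induction on `w`.  `w = []`: `L = [[]]` (`ev _ [] = 1`).  `w = (i, e) :: w'` with `L'` for `w'`: `L` = all words `(finProdFinEquiv (i, j), e) :: v`, `j : Fin n`,
`v ∈ L'` (`(List.finRange n).flatMap fun j => L'.map ...`).  `lt x (i, e) = ∑ j, lt a (ij, e) * lt b (ij, e)` (`star (a * b) = star b * star a = star a * star b`, as `a * b = b * a`),
and `ev a v` commutes with `lt b l` for all words `v` and letters `l` (induction; all of `a, star a` commute with all of `b, star b`: take adjoints in the two hypotheses), so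
`lt a l * lt b l * (ev a v * ev b v) = (lt a l * ev a v) * (lt b l * ev b v)`.
-/

set_option autoImplicit false

open Filter Topology

namespace Pool.Agent.Lib.UPE

private theorem lt_comm {A : Type*} [Ring A] [StarRing A] {m : ℕ} {a b : Fin m → A}
    (h1 : ∀ i j, a i * b j = b j * a i) (h2 : ∀ i j, a i * star (b j) = star (b j) * a i)
    (l l' : Fin m × Bool) : lt a l * lt b l' = lt b l' * lt a l := by
  have h3 : ∀ i j, star (a i) * b j = b j * star (a i) := by
    intro i j
    have h := congrArg star (h2 i j)
    rw [star_mul, star_mul, star_star] at h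
    exact h.symm
  have h4 : ∀ i j, star (a i) * star (b j) = star (b j) * star (a i) := by
    intro i j
    have h := congrArg star (h1 i j)
    rw [star_mul, star_mul] at h
    exact h.symm
  unfold lt
  split_ifs
  · exact h1 _ _
  · exact h2 _ _
  · exact h3 _ _
  · exact h4 _ _

private theorem ev_comm {A : Type*} [Ring A] [StarRing A] {m : ℕ} {a b : Fin m → A}
    (h1 : ∀ i j, a i * b j = b j * a i) (h2 : ∀ i j, a i * star (b j) = star (b j) * a i)
    (v : List (Fin m × Bool)) (l' : Fin m × Bool) : ev a v * lt b l' = lt b l' * ev a v := by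
  induction v with
  | nil => rw [ev_nil, one_mul, mul_one]
  | cons l v ih => rw [ev_cons, mul_assoc, ih, ← mul_assoc, lt_comm h1 h2, mul_assoc]

private theorem sum_flat {A : Type*} [Ring A] {ι κ : Type*} (l : List ι) (f : ι → List κ) (g : κ → A) :
    ((l.flatMap f).map g).sum = (l.map fun i => ((f i).map g).sum).sum := by
  induction l with
  | nil => simp
  | cons i l ih =>
    rw [List.flatMap_cons, List.map_append, List.sum_append, ih, List.map_cons, List.sum_cons]

private theorem lt_sum {A : Type*} [Ring A] [StarRing A] {k n : ℕ} {a b : Fin (k * n) → A}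
    (h1 : ∀ i j, a i * b j = b j * a i) (l : Fin k × Bool) :
    lt (fun i => ∑ j : Fin n, a (finProdFinEquiv (i, j)) * b (finProdFinEquiv (i, j))) l =
      ∑ j : Fin n, lt a (finProdFinEquiv (l.1, j), l.2) * lt b (finProdFinEquiv (l.1, j), l.2) := by
  unfold lt
  split_ifs with h
  · exact Finset.sum_congr rfl fun j _ => rfl
  · rw [star_sum]
    refine Finset.sum_congr rfl fun j _ => ?_
    rw [h1, star_mul]

theorem ev_tensor {A : Type*} [Ring A] [StarRing A] (k n : ℕ) (w : List (Fin k × Bool)) :
    ∃ L : List (List (Fin (k * n) × Bool)), (∀ v ∈ L, v.length = w.length) ∧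
      ∀ a b : Fin (k * n) → A, (∀ i j, a i * b j = b j * a i) → (∀ i j, a i * star (b j) = star (b j) * a i) →
        ev (fun i => ∑ j : Fin n, a (finProdFinEquiv (i, j)) * b (finProdFinEquiv (i, j))) w =
          (L.map fun v => ev a v * ev b v).sum := by
  induction w with
  | nil =>
    refine ⟨[[]], by simp, fun a b _ _ => ?_⟩
    simp [ev_nil]
  | cons l w ih =>
    obtain ⟨L, hL1, hL2⟩ := ih
    refine ⟨(List.finRange n).flatMap fun j => L.map fun v => (finProdFinEquiv (l.1, j), l.2) :: v,
      ?_, fun a b h1 h2 => ?_⟩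
    · intro v hv
      rw [List.mem_flatMap] at hv
      obtain ⟨j, -, hv⟩ := hv
      rw [List.mem_map] at hv
      obtain ⟨u, hu, rfl⟩ := hv
      rw [List.length_cons, List.length_cons, hL1 u hu]
    · rw [ev_cons, hL2 a b h1 h2, lt_sum h1, sum_flat, Fin.sum_univ_def, ← List.sum_map_mul_right]
      congr 1
      refine List.map_congr_left fun j _ => ?_
      rw [← List.sum_map_mul_left, List.map_map]
      congr 1
      refine List.map_congr_left fun v _ => ?_
      show _ = ev a (_ :: v) * ev b (_ :: v)
      rw [ev_cons, ev_cons, mul_assoc, ← mul_assoc (lt b _), ← ev_comm h1 h2, mul_assoc, mul_assoc]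

end Pool.Agent.Lib.UPE
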