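import Pool.Agent.Lib.UPE.TU

/-!
# UPE / FUN (80 lines): endomorphisms that are not unital

PROOF.  `p = σ 1` is a projection in `M` (`σ 1 * σ 1 = σ 1`, `star (σ 1) = σ 1`), `s = (tr p).re`, `0 < s < 1` since `p ≠ 0, 1` (`proj_eq_zero` for
`p` and `1 - p`).  `φ a = tr (σ a)` for `a ∈ M` (extend by 0 or use `dite`) is linear, tracial (`σ (ab) = σ a σ b`), positive
(`tr_star_mul_self`).  `trace_unique`: `tr (σ a) = tr p * tr a`.  `Θ a n = σ a` for all `n`; the sequences in `IsEmb` are 0 (`n2_zero`).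
-/

set_option autoImplicit false

open Filter Topology

namespace Pool.Agent.Lib.UPE

variable {H : Type*} [NormedAddCommGroup H] [InnerProductSpace ℂ H] [CompleteSpace H]
variable {M : VonNeumannAlgebra H} {ξ : ℕ → H}

private theorem null_of_eq (U : Ultrafilter ℕ) (x : ℕ → (H →L[ℂ] H)) (hx : ∀ n, x n = 0) : Null ξ U x := by
  have e : (fun n => n2 ξ (x n)) = fun _ => 0 := by
    funext n
    rw [hx n, n2_zero]
  unfold Null
  rw [e]
  exact tendsto_const_nhds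

theorem endo_sc (h : IsIIOne M ξ) (U : Ultrafilter ℕ) (σ : M.toStarSubalgebra →⋆ₙₐ[ℂ] M.toStarSubalgebra)
    (h0 : σ 1 ≠ 0) (h1 : σ 1 ≠ 1) : ∃ s : ℝ, 0 < s ∧ s < 1 ∧ ScEmb M ξ U s := by
  classical
  have hT : IsTrace M ξ := h.toIsTrace
  have hM : ∀ x : M.toStarSubalgebra, (x : H →L[ℂ] H) ∈ M := fun x => x.2
  obtain ⟨p, hp⟩ : ∃ p, p = σ 1 := ⟨_, rfl⟩
  rw [← hp] at h0 h1
  have hpp : p * p = p := by rw [hp, ← map_mul, one_mul]
  have hps : star p = p := by rw [hp, ← map_star, star_one]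
  have hP : IsStarProjection (p : H →L[ℂ] H) :=
    ⟨congrArg Subtype.val hpp, congrArg Subtype.val hps⟩
  obtain ⟨hs0, hs1, hsp⟩ := re_tr_proj_mem hT hP
  have hQ : IsStarProjection (1 - (p : H →L[ℂ] H)) := hP.one_sub
  have hQM : 1 - (p : H →L[ℂ] H) ∈ M := hM (1 - p)
  have hpos : 0 < (tr ξ (p : H →L[ℂ] H)).re := by
    refine lt_of_le_of_ne hs0 fun e => h0 ?_
    exact Subtype.ext (proj_eq_zero hT hP (hM p) e.symm)
  have hlt : (tr ξ (p : H →L[ℂ] H)).re < 1 := by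
    refine lt_of_le_of_ne hs1 fun e => h1 ?_
    have hz : (tr ξ (1 - (p : H →L[ℂ] H))).re = 0 := by
      rw [tr_sub hT, tr_one hT, Complex.sub_re, e, Complex.one_re, sub_self]
    have := proj_eq_zero hT hQ hQM hz
    exact Subtype.ext (sub_eq_zero.1 this).symm
  obtain ⟨φ, hφ⟩ : ∃ φ : (H →L[ℂ] H) → ℂ, ∀ a : M.toStarSubalgebra,
      φ (a : H →L[ℂ] H) = tr ξ (σ a : H →L[ℂ] H) := by
    refine ⟨fun a => if ha : a ∈ M then tr ξ (σ ⟨a, ha⟩ : H →L[ℂ] H) else 0, fun a => ?_⟩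
    exact dif_pos (hM a)
  have key : ∀ a : M.toStarSubalgebra,
      tr ξ (σ a : H →L[ℂ] H) = (((tr ξ (p : H →L[ℂ] H)).re : ℝ) : ℂ) * tr ξ (a : H →L[ℂ] H) := by
    intro a
    have hu := trace_unique h φ (a := (a : H →L[ℂ] H)) ?_ ?_ ?_ ?_ (hM a)
    · rw [hφ a] at hu
      have h1' : φ 1 = tr ξ (p : H →L[ℂ] H) := by
        have := hφ 1
        rw [← hp] at this
        exact this
      rw [hu, h1', ← hsp]
    · intro x hx y hy
      have e := hφ ((⟨x, hx⟩ : M.toStarSubalgebra) + ⟨y, hy⟩)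
      have e1 := hφ ⟨x, hx⟩
      have e2 := hφ ⟨y, hy⟩
      rw [map_add] at e
      refine e.trans ?_
      rw [e1, e2, ← tr_add hT]
      rfl
    · intro c x hx
      have e := hφ (c • (⟨x, hx⟩ : M.toStarSubalgebra))
      have e1 := hφ ⟨x, hx⟩
      rw [map_smul] at e
      refine e.trans ?_
      rw [e1, ← tr_smul]
      rfl
    · intro x hx y hy
      have e := hφ ((⟨x, hx⟩ : M.toStarSubalgebra) * ⟨y, hy⟩)
      have e' := hφ ((⟨y, hy⟩ : M.toStarSubalgebra) * ⟨x, hx⟩)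
      rw [map_mul] at e e'
      refine e.trans (Eq.trans ?_ e'.symm)
      exact hT.tracial _ (hM _) _ (hM _)
    · intro x hx
      have e := hφ (star (⟨x, hx⟩ : M.toStarSubalgebra) * ⟨x, hx⟩)
      rw [map_mul, map_star] at e
      have e2 : φ (star x * x) = ((n2 ξ (σ ⟨x, hx⟩ : H →L[ℂ] H) ^ 2 : ℝ) : ℂ) :=
        e.trans (tr_star_mul_self _)
      rw [e2]
      exact ⟨by rw [Complex.ofReal_re]; positivity, Complex.ofReal_im _⟩
  refine ⟨(tr ξ (p : H →L[ℂ] H)).re, hpos, hlt, fun a _ => (σ a : H →L[ℂ] H), ?_⟩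
  refine ⟨fun a n => hM _, fun a => ⟨‖(σ a : H →L[ℂ] H)‖, fun n => le_rfl⟩, ?_, ?_, ?_, ?_, ?_⟩
  · intro a b
    refine null_of_eq U _ fun n => ?_
    rw [map_add]
    exact sub_self _
  · intro c a
    refine null_of_eq U _ fun n => ?_
    rw [map_smul]
    exact sub_self _
  · intro a b
    refine null_of_eq U _ fun n => ?_
    rw [map_mul]
    exact sub_self _
  · intro a
    refine null_of_eq U _ fun n => ?_
    rw [map_star]
    exact sub_self _
  · intro a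
    rw [key a]
    exact tendsto_const_nhds

end Pool.Agent.Lib.UPE
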