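import Pool.Agent.Lib.UPE.Bas

/-!
# UPE / MAT (150 lines): from the corner to matrices and back

PROOF.  `corner_mat`: `Θ` from `CornerEmb` (values in `p M p`), `Ψ A k = ∑ i j, v i * Θ (A i j) k * star (v j)`.  `mem`, `bdd` clear.  Additivity,
homogeneity, adjoint: entry by entry (`n2 (v i * a * star (v j)) ≤ ‖v i‖ * n2 a * ‖star (v j)‖`, sums of null sequences are null).
Product: `v i * Θ(A i j) * star (v j) * v l * Θ(B l r) * star (v r) = 0` for `j ≠ l` and
`= v i * Θ(A i j) * p * Θ(B j r) * star (v r) = v i * Θ(A i j) Θ(B j r) star (v r)` for `j = l`; and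
`Θ (∑ j, A i j * B j r)` is `∑ j, Θ(A i j) Θ(B j r)` up to null sequences (`Finset` induction with `add`; `Θ 0` is null by `smul 0`).
Trace: `tr (v i * Θ(a) * star (v j)) = tr (star (v j) * v i * Θ(a))` is `tr (p * Θ(a)) = tr (Θ a)` for `i = j`, else 0; so
`tr (Ψ A k) = ∑ i, tr (Θ (A i i) k) → ∑ i, tr p * tr (A i i) = (1/n) ∑ i, tr (A i i)`.
`Ψ 1 k - 1`: off-diagonal `Θ 0` null, diagonal `Θ 1 - p` null and `∑ v i * p * star (v i) = ∑ v i * star (v i) = 1` (`v i * p = v i`, since
`(v i - v i * p)` has `star (v i - v i p) * (v i - v i p) = p - p - p + p = 0`).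
`mat_sc`: `Θ` from `MatEmb`; `Θ' a k = Θ (Matrix.single 0 0 a) k` (the matrix with the entry `a` at `(0,0)`, `n ≥ 1`), a *-homomorphism;
`trace`: `(1/n) ∑ i, tr ((single 0 0 a) i i) = (1/n) tr a`.
`corner_sc`: forget the corner.
-/

set_option autoImplicit false

open Filter Topology

namespace Pool.Agent.Lib.UPE

variable {H : Type*} [NormedAddCommGroup H] [InnerProductSpace ℂ H] [CompleteSpace H]
variable {M : VonNeumannAlgebra H} {ξ : ℕ → H}

private theorem null_of_eq {U : Ultrafilter ℕ} {x y : ℕ → (H →L[ℂ] H)} (hx : Null ξ U x)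
    (hxy : ∀ n, y n = x n) : Null ξ U y := by
  have : y = x := funext hxy
  rw [this]
  exact hx

private theorem null_add (h : IsTrace M ξ) {U : Ultrafilter ℕ} {x y : ℕ → (H →L[ℂ] H)}
    (hx : Null ξ U x) (hy : Null ξ U y) : Null ξ U fun n => x n + y n := by
  have h1 : Tendsto (fun n => n2 ξ (x n) + n2 ξ (y n)) U (𝓝 0) := by
    simpa using Filter.Tendsto.add hx hy
  exact squeeze_zero (fun n => n2_nonneg _) (fun n => n2_add_le h _ _) h1

private theorem null_zero {U : Ultrafilter ℕ} : Null ξ U fun _ => (0 : H →L[ℂ] H) := by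
  unfold Null
  simp only [n2_zero]
  exact tendsto_const_nhds

private theorem null_sum (h : IsTrace M ξ) {U : Ultrafilter ℕ} {ι : Type*} (s : Finset ι)
    {x : ι → ℕ → (H →L[ℂ] H)} (hx : ∀ i ∈ s, Null ξ U (x i)) :
    Null ξ U fun n => ∑ i ∈ s, x i n := by
  classical
  induction s using Finset.induction_on with
  | empty => simpa using null_zero
  | insert j s hj ih =>
    have h1 := null_add h (hx j (Finset.mem_insert_self j s))
      (ih fun i hi => hx i (Finset.mem_insert_of_mem hi))
    exact null_of_eq h1 fun n => Finset.sum_insert hj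

private theorem null_conj (h : IsTrace M ξ) {U : Ultrafilter ℕ} {x : ℕ → (H →L[ℂ] H)}
    (hx : Null ξ U x) (hxM : ∀ n, x n ∈ M) {a b : H →L[ℂ] H} (ha : a ∈ M) (hb : b ∈ M) :
    Null ξ U fun n => a * x n * b := by
  have h1 : Tendsto (fun n => ‖a‖ * n2 ξ (x n) * ‖b‖) U (𝓝 0) := by
    have h2 := (Filter.Tendsto.const_mul ‖a‖ hx).mul_const ‖b‖
    simpa using h2
  refine squeeze_zero (fun n => n2_nonneg _) (fun n => ?_) h1
  calc n2 ξ (a * x n * b) ≤ n2 ξ (a * x n) * ‖b‖ := n2_mul_le' h (mul_mem ha (hxM n)) hb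
    _ ≤ ‖a‖ * n2 ξ (x n) * ‖b‖ :=
      mul_le_mul_of_nonneg_right (n2_mul_le h _ _) (norm_nonneg _)

private theorem null_sum2 (h : IsTrace M ξ) {U : Ultrafilter ℕ} {n : ℕ} {v : Fin n → (H →L[ℂ] H)}
    (hv : ∀ i, v i ∈ M) {x : Fin n → Fin n → ℕ → (H →L[ℂ] H)} (hxM : ∀ i j k, x i j k ∈ M)
    (hx : ∀ i j, Null ξ U (x i j)) :
    Null ξ U fun k => ∑ i, ∑ j, v i * x i j k * star (v j) :=
  null_sum h _ fun i _ => null_sum h _ fun j _ =>
    null_conj h (hx i j) (hxM i j) (hv i) (star_mem (hv j))

private theorem theta_zero {U : Ultrafilter ℕ} {A : Type*} [Ring A] [StarRing A] [Module ℂ A]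
    {t : A → ℂ} {Θ : A → ℕ → (H →L[ℂ] H)} (e : IsEmb M ξ U t Θ) : Null ξ U (Θ 0) := by
  have h1 := e.smul 0 0
  refine null_of_eq h1 fun n => ?_
  simp

private theorem theta_sum (h : IsTrace M ξ) {U : Ultrafilter ℕ} {A : Type*} [Ring A] [StarRing A]
    [Module ℂ A] {t : A → ℂ} {Θ : A → ℕ → (H →L[ℂ] H)} (e : IsEmb M ξ U t Θ) {ι : Type*}
    (s : Finset ι) (f : ι → A) : Null ξ U fun n => Θ (∑ i ∈ s, f i) n - ∑ i ∈ s, Θ (f i) n := by
  classical
  induction s using Finset.induction_on with
  | empty =>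
    refine null_of_eq (theta_zero e) fun n => ?_
    simp
  | insert j s hj ih =>
    refine null_of_eq (null_add h (e.add (f j) (∑ i ∈ s, f i)) ih) fun n => ?_
    rw [Finset.sum_insert hj, Finset.sum_insert hj]
    abel

theorem corner_mat (h : IsTrace M ξ) {U : Ultrafilter ℕ} {n : ℕ} (hn : 1 ≤ n) {p : H →L[ℂ] H}
    (hp : IsStarProjection p) (hpM : p ∈ M) (ht : tr ξ p = 1 / (n : ℂ)) {v : Fin n → (H →L[ℂ] H)}
    (hv : ∀ i, v i ∈ M) (hvv : ∀ i j, star (v i) * v j = if i = j then p else 0)
    (hs : ∑ i, v i * star (v i) = 1) (hc : CornerEmb M ξ U p) : MatEmb M ξ U n := by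
  obtain ⟨Θ, e, hcor, hone⟩ := hc
  have hpp : p * p = p := hp.isIdempotentElem
  have hps : star p = p := hp.isSelfAdjoint
  have hpl : ∀ a k, p * Θ a k = Θ a k := by
    intro a k
    rw [← hcor a k, ← mul_assoc, ← mul_assoc, hpp]
  have hvp : ∀ i, v i * p = v i := by
    intro i
    have h0 : star (v i) * v i = p := by rw [hvv]; simp
    have h1 : star (v i - v i * p) * (v i - v i * p) = 0 := by
      rw [star_sub, star_mul, hps]
      have h2 : (star (v i) - p * star (v i)) * (v i - v i * p)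
          = star (v i) * v i - star (v i) * v i * p - p * (star (v i) * v i)
            + p * (star (v i) * v i) * p := by noncomm_ring
      rw [h2, h0, hpp, hpp]
      abel
    have h3 := CStarRing.star_mul_self_eq_zero_iff _ |>.1 h1
    exact (sub_eq_zero.1 h3).symm
  have hprod : ∀ (a b : Fin n → Fin n → (H →L[ℂ] H)), (∀ i j, p * b i j = b i j) →
      (∑ i, ∑ j, v i * a i j * star (v j)) * (∑ l, ∑ r, v l * b l r * star (v r))
        = ∑ i, ∑ r, v i * (∑ j, a i j * b j r) * star (v r) := by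
    intro a b hb
    have h1 : ∀ i j l r, v i * a i j * star (v j) * (v l * b l r * star (v r))
        = if j = l then v i * (a i j * b l r) * star (v r) else 0 := by
      intro i j l r
      have h2 : v i * a i j * star (v j) * (v l * b l r * star (v r))
          = v i * a i j * ((star (v j) * v l) * b l r) * star (v r) := by noncomm_ring
      rw [h2, hvv]
      split_ifs with hjl
      · rw [hb]
        noncomm_ring
      · simp
    rw [Finset.sum_mul]
    refine Finset.sum_congr rfl fun i _ => ?_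
    rw [Finset.sum_mul]
    have h3 : ∀ j, v i * a i j * star (v j) * (∑ l, ∑ r, v l * b l r * star (v r))
        = ∑ r, v i * (a i j * b j r) * star (v r) := by
      intro j
      rw [Finset.mul_sum]
      have h4 : ∀ l, v i * a i j * star (v j) * (∑ r, v l * b l r * star (v r))
          = if j = l then ∑ r, v i * (a i j * b l r) * star (v r) else 0 := by
        intro l
        rw [Finset.mul_sum, Finset.sum_congr rfl fun r _ => h1 i j l r]
        split_ifs with hjl
        · rfl
        · simp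
      rw [Finset.sum_congr rfl fun l _ => h4 l, Finset.sum_ite_eq]
      simp
    rw [Finset.sum_congr rfl fun j _ => h3 j, Finset.sum_comm]
    refine Finset.sum_congr rfl fun r _ => ?_
    rw [Finset.mul_sum, Finset.sum_mul]
  refine ⟨fun A k => ∑ i, ∑ j, v i * Θ (A i j) k * star (v j), ⟨?_, ?_, ?_, ?_, ?_, ?_, ?_⟩, ?_⟩
  · intro A k
    exact sum_mem fun i _ => sum_mem fun j _ =>
      mul_mem (mul_mem (hv i) (e.mem _ _)) (star_mem (hv j))
  · intro A
    choose C hC using e.bdd
    refine ⟨∑ i, ∑ j, ‖v i‖ * C (A i j) * ‖star (v j)‖, fun k => ?_⟩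
    refine (norm_sum_le _ _).trans (Finset.sum_le_sum fun i _ => ?_)
    refine (norm_sum_le _ _).trans (Finset.sum_le_sum fun j _ => ?_)
    refine (norm_mul_le _ _).trans (mul_le_mul_of_nonneg_right ?_ (norm_nonneg _))
    exact (norm_mul_le _ _).trans (mul_le_mul_of_nonneg_left (hC _ _) (norm_nonneg _))
  · intro A B
    refine null_of_eq (null_sum2 h hv
      (x := fun i j k => Θ (A i j + B i j) k - (Θ (A i j) k + Θ (B i j) k))
      (fun i j k => sub_mem (e.mem _ _) (add_mem (e.mem _ _) (e.mem _ _)))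
      (fun i j => e.add _ _)) fun k => ?_
    rw [← Finset.sum_add_distrib, ← Finset.sum_sub_distrib]
    refine Finset.sum_congr rfl fun i _ => ?_
    rw [← Finset.sum_add_distrib, ← Finset.sum_sub_distrib]
    refine Finset.sum_congr rfl fun j _ => ?_
    rw [Matrix.add_apply]
    noncomm_ring
  · intro c A
    refine null_of_eq (null_sum2 h hv
      (x := fun i j k => Θ (c • A i j) k - c • Θ (A i j) k)
      (fun i j k => sub_mem (e.mem _ _) (smul_mem' c (e.mem _ _)))
      (fun i j => e.smul _ _)) fun k => ?_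
    rw [Finset.smul_sum, ← Finset.sum_sub_distrib]
    refine Finset.sum_congr rfl fun i _ => ?_
    rw [Finset.smul_sum, ← Finset.sum_sub_distrib]
    refine Finset.sum_congr rfl fun j _ => ?_
    rw [Matrix.smul_apply, mul_sub, sub_mul, mul_smul_comm, smul_mul_assoc]
  · intro A B
    have hx : ∀ i r, Null ξ U fun k =>
        Θ (∑ j, A i j * B j r) k - ∑ j, Θ (A i j) k * Θ (B j r) k := by
      intro i r
      have h2 : Null ξ U fun k => ∑ j, (Θ (A i j * B j r) k - Θ (A i j) k * Θ (B j r) k) :=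
        null_sum h _ fun j _ => e.mul _ _
      refine null_of_eq (null_add h (theta_sum h e Finset.univ fun j => A i j * B j r) h2)
        fun k => ?_
      rw [Finset.sum_sub_distrib]
      abel
    refine null_of_eq (null_sum2 h hv
      (x := fun i r k => Θ (∑ j, A i j * B j r) k - ∑ j, Θ (A i j) k * Θ (B j r) k)
      (fun i r k => sub_mem (e.mem _ _) (sum_mem fun j _ => mul_mem (e.mem _ _) (e.mem _ _)))
      hx) fun k => ?_
    have h1 : (∑ i, ∑ j, v i * Θ (A i j) k * star (v j)) *
        (∑ i, ∑ j, v i * Θ (B i j) k * star (v j))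
        = ∑ i, ∑ r, v i * (∑ j, Θ (A i j) k * Θ (B j r) k) * star (v r) :=
      hprod (fun i j => Θ (A i j) k) (fun i j => Θ (B i j) k) fun i j => hpl _ _
    rw [h1, ← Finset.sum_sub_distrib]
    refine Finset.sum_congr rfl fun i _ => ?_
    rw [← Finset.sum_sub_distrib]
    refine Finset.sum_congr rfl fun r _ => ?_
    rw [Matrix.mul_apply, mul_sub, sub_mul]
  · intro A
    refine null_of_eq (null_sum2 h hv
      (x := fun i j k => Θ (star (A j i)) k - star (Θ (A j i) k))
      (fun i j k => sub_mem (e.mem _ _) (star_mem (e.mem _ _)))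
      (fun i j => e.star_ _)) fun k => ?_
    rw [star_sum, Finset.sum_congr rfl fun i _ => star_sum _ _, Finset.sum_comm (γ := Fin n)
      (f := fun i j => star (v i * Θ (A i j) k * star (v j))), ← Finset.sum_sub_distrib]
    refine Finset.sum_congr rfl fun i _ => ?_
    rw [← Finset.sum_sub_distrib]
    refine Finset.sum_congr rfl fun j _ => ?_
    rw [Matrix.star_apply, star_mul, star_mul, star_star, mul_sub, sub_mul, mul_assoc (v i) (star _)]
  · intro A
    have h1 : ∀ k, tr ξ (∑ i, ∑ j, v i * Θ (A i j) k * star (v j)) = ∑ i, tr ξ (Θ (A i i) k) := by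
      intro k
      rw [tr_sum h]
      refine Finset.sum_congr rfl fun i _ => ?_
      rw [tr_sum h]
      have h2 : ∀ j, tr ξ (v i * Θ (A i j) k * star (v j))
          = if j = i then tr ξ (Θ (A i j) k) else 0 := by
        intro j
        rw [h.tracial _ (mul_mem (hv i) (e.mem _ _)) _ (star_mem (hv j)), ← mul_assoc, hvv]
        split_ifs with hji
        · rw [hpl]
        · rw [zero_mul, tr_zero]
      rw [Finset.sum_congr rfl fun j _ => h2 j, Finset.sum_ite_eq']
      simp
    have h3 : Tendsto (fun k => ∑ i, tr ξ (Θ (A i i) k)) U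
        (𝓝 (∑ i, tr ξ p * tr ξ (A i i : H →L[ℂ] H))) :=
      tendsto_finsetSum _ fun i _ => e.trace (A i i)
    have h4 : (1 / (n : ℂ)) * ∑ i, tr ξ (A i i : H →L[ℂ] H)
        = ∑ i, tr ξ p * tr ξ (A i i : H →L[ℂ] H) := by
      rw [Finset.mul_sum, ht]
    simp only [h1]
    rw [h4]
    exact h3
  · have hx : ∀ i j : Fin n, Null ξ U fun k =>
        Θ ((1 : Matrix (Fin n) (Fin n) M.toStarSubalgebra) i j) k - (if i = j then p else 0) := by
      intro i j
      by_cases hij : i = j
      · subst hij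
        refine null_of_eq hone fun k => ?_
        rw [Matrix.one_apply_eq, if_pos rfl]
      · refine null_of_eq (theta_zero e) fun k => ?_
        rw [Matrix.one_apply_ne hij, if_neg hij, sub_zero]
    refine null_of_eq (null_sum2 h hv
      (x := fun i j k => Θ ((1 : Matrix (Fin n) (Fin n) M.toStarSubalgebra) i j) k
        - (if i = j then p else 0))
      (fun i j k => sub_mem (e.mem _ _) (by split_ifs; exacts [hpM, zero_mem M])) hx) fun k => ?_
    have h5 : ∑ i, ∑ j, v i * (if i = j then p else 0) * star (v j) = 1 := by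
      rw [← hs]
      refine Finset.sum_congr rfl fun i _ => ?_
      have h6 : ∀ j, v i * (if i = j then p else 0) * star (v j)
          = if i = j then v i * star (v j) else 0 := by
        intro j
        split_ifs
        · rw [hvp]
        · simp
      rw [Finset.sum_congr rfl fun j _ => h6 j, Finset.sum_ite_eq]
      simp
    simp only
    rw [← h5, ← Finset.sum_sub_distrib]
    refine Finset.sum_congr rfl fun i _ => ?_
    rw [← Finset.sum_sub_distrib]
    refine Finset.sum_congr rfl fun j _ => ?_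
    rw [mul_sub, sub_mul]

theorem mat_sc {U : Ultrafilter ℕ} {n : ℕ} (hn : 1 ≤ n) (hm : MatEmb M ξ U n) :
    ScEmb M ξ U (1 / (n : ℝ)) := by
  obtain ⟨Θ, e, -⟩ := hm
  set i0 : Fin n := ⟨0, hn⟩ with hi0
  refine ⟨fun a => Θ (Matrix.single i0 i0 a), ⟨?_, ?_, ?_, ?_, ?_, ?_, ?_⟩⟩
  · intro a k
    exact e.mem _ _
  · intro a
    exact e.bdd _
  · intro a b
    refine null_of_eq (e.add (Matrix.single i0 i0 a) (Matrix.single i0 i0 b)) fun k => ?_
    rw [Matrix.single_add]
  · intro c a
    refine null_of_eq (e.smul c (Matrix.single i0 i0 a)) fun k => ?_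
    rw [Matrix.smul_single]
  · intro a b
    refine null_of_eq (e.mul (Matrix.single i0 i0 a) (Matrix.single i0 i0 b)) fun k => ?_
    rw [Matrix.single_mul_single_same]
  · intro a
    refine null_of_eq (e.star_ (Matrix.single i0 i0 a)) fun k => ?_
    rw [Matrix.star_eq_conjTranspose, Matrix.conjTranspose_single]
  · intro a
    have h1 := e.trace (Matrix.single i0 i0 a)
    have h2 : (1 / (n : ℂ)) * ∑ i, tr ξ ((Matrix.single i0 i0 a : Matrix (Fin n) (Fin n)
        M.toStarSubalgebra) i i : H →L[ℂ] H) = ((1 / (n : ℝ) : ℝ) : ℂ) * tr ξ (a : H →L[ℂ] H) := by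
      rw [Finset.sum_eq_single i0]
      · rw [Matrix.single_apply_same]
        push_cast
        rfl
      · intro b _ hb
        rw [Matrix.single_apply_of_ne _ _ _ _ _ (by simp [hb.symm])]
        simp [tr]
      · intro hh
        exact absurd (Finset.mem_univ _) hh
    rw [← h2]
    exact h1

theorem corner_sc (h : IsTrace M ξ) {U : Ultrafilter ℕ} {p : H →L[ℂ] H} (hp : IsStarProjection p)
    (hc : CornerEmb M ξ U p) : ScEmb M ξ U (tr ξ p).re := by
  obtain ⟨Θ, e, -, -⟩ := hc
  refine ⟨Θ, ?_⟩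
  have h1 : (((tr ξ p).re : ℝ) : ℂ) = tr ξ p := by
    rw [tr_proj hp, Complex.ofReal_re]
  rw [h1]
  exact e

end Pool.Agent.Lib.UPE
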