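import Pool.Agent.Lib.UPE.DF

/-!
# UPE / MU (100 lines): matrix units

PROOF.  Build `v 0, v 1, ...` one after the other (induction on `j ≤ n`): given `v i ∈ M`, `i < j`, with `star (v i) * v i = p` and
`star (v i) * v i' = 0` for `i ≠ i'`, the projection `r = 1 - ∑_(i<j) v i * star (v i)` has trace `1 - j/n ≥ 1/n`, so `compare` for `p, r`
gives `v j` with `star (v j) * v j = p`, `r * v j = v j`, and `star (v i) * v j = star (v i) * r * v j = 0`.  For `j = n` the projection
`r` has trace 0, so `r = 0` (`proj_eq_zero`).  (`tr (v i * star (v i)) = tr (star (v i) * v i) = 1/n`.)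
-/

set_option autoImplicit false

open Filter Topology

namespace Pool.Agent.Lib.UPE

variable {H : Type*} [NormedAddCommGroup H] [InnerProductSpace ℂ H] [CompleteSpace H]
variable {M : VonNeumannAlgebra H} {ξ : ℕ → H}

private theorem mu_mul_p {p v : H →L[ℂ] H} (hp : IsStarProjection p) (hv : star v * v = p) : v * p = v := by
  have hpp : p * p = p := hp.isIdempotentElem
  have hps : star p = p := hp.isSelfAdjoint
  have h0 : star (v - v * p) * (v - v * p) = 0 := by
    rw [star_sub, star_mul, hps, sub_mul, mul_sub, mul_sub, hv, ← mul_assoc, hv, mul_assoc p (star v) v, hv,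
      mul_assoc p (star v) (v * p), ← mul_assoc (star v) v p, hv, hpp, hpp]
    simp
  have h1 := (CStarRing.star_mul_self_eq_zero_iff (v - v * p)).1 h0
  exact (sub_eq_zero.1 h1).symm

private theorem mu_sum (h : IsIIOne M ξ) {p : H →L[ℂ] H} (hp : IsStarProjection p) {j : ℕ} {v : ℕ → (H →L[ℂ] H)}
    (hvM : ∀ i, v i ∈ M) (hv : ∀ i < j, ∀ k < j, star (v i) * v k = if i = k then p else 0) :
    IsStarProjection (1 - ∑ i ∈ Finset.range j, v i * star (v i)) ∧
      (1 - ∑ i ∈ Finset.range j, v i * star (v i)) ∈ M ∧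
      (∀ i < j, star (v i) * (1 - ∑ i ∈ Finset.range j, v i * star (v i)) = 0) ∧
      tr ξ (1 - ∑ i ∈ Finset.range j, v i * star (v i)) = 1 - j * tr ξ p := by
  obtain ⟨s, hs⟩ : ∃ s, s = ∑ i ∈ Finset.range j, v i * star (v i) := ⟨_, rfl⟩
  rw [← hs]
  have hvp : ∀ i < j, v i * p = v i := fun i hi => mu_mul_p hp (by simpa using hv i hi i hi)
  have hpv : ∀ i < j, p * star (v i) = star (v i) := fun i hi => by
    have := congrArg star (hvp i hi)
    rwa [star_mul, hp.isSelfAdjoint.star_eq] at this
  have hvs : ∀ i < j, star (v i) * s = star (v i) := by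
    intro i hi
    rw [hs, Finset.mul_sum, Finset.sum_eq_single_of_mem i (Finset.mem_range.2 hi)]
    · rw [← mul_assoc, hv i hi i hi, if_pos rfl, hpv i hi]
    · intro k hk hki
      rw [← mul_assoc, hv i hi k (Finset.mem_range.1 hk), if_neg (Ne.symm hki), zero_mul]
  have hss : s * s = s := by
    nth_rewrite 1 [hs]
    rw [Finset.sum_mul]
    nth_rewrite 2 [hs]
    refine Finset.sum_congr rfl fun i hi => ?_
    rw [mul_assoc, hvs i (Finset.mem_range.1 hi)]
  have hsa : star s = s := by
    rw [hs, star_sum]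
    refine Finset.sum_congr rfl fun i _ => ?_
    rw [star_mul, star_star]
  have hsM : s ∈ M := by
    rw [hs]
    exact sum_mem fun i _ => mul_mem (hvM i) (star_mem (hvM i))
  refine ⟨⟨?_, ?_⟩, sub_mem (one_mem _) hsM, ?_, ?_⟩
  · show (1 - s) * (1 - s) = 1 - s
    rw [sub_mul, mul_sub, mul_sub, hss]
    simp
  · show star (1 - s) = 1 - s
    rw [star_sub, star_one, hsa]
  · intro i hi
    rw [mul_sub, mul_one, hvs i hi, sub_self]
  · rw [tr_sub h.toIsTrace, tr_one h.toIsTrace, hs, tr_sum h.toIsTrace]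
    congr 1
    rw [Finset.sum_congr rfl (g := fun _ => tr ξ p), Finset.sum_const, Finset.card_range, nsmul_eq_mul]
    intro i hi
    have hi' := Finset.mem_range.1 hi
    rw [h.tracial _ (hvM i) _ (star_mem (hvM i)), hv i hi' i hi', if_pos rfl]

theorem exists_units (h : IsIIOne M ξ) {n : ℕ} (hn : 1 ≤ n) {p : H →L[ℂ] H} (hp : IsStarProjection p)
    (hpM : p ∈ M) (ht : tr ξ p = 1 / (n : ℂ)) :
    ∃ v : Fin n → (H →L[ℂ] H), (∀ i, v i ∈ M) ∧ (∀ i j, star (v i) * v j = if i = j then p else 0) ∧
      ∑ i, v i * star (v i) = 1 := by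
  have hn0 : (n : ℝ) ≠ 0 := by positivity
  have hn0' : (n : ℂ) ≠ 0 := by exact_mod_cast hn0
  have hre : (tr ξ p).re = 1 / (n : ℝ) := by
    rw [ht, show (1 / (n : ℂ)) = ((1 / (n : ℝ) : ℝ) : ℂ) by push_cast; rfl, Complex.ofReal_re]
  have key : ∀ j ≤ n, ∃ v : ℕ → (H →L[ℂ] H), (∀ i, v i ∈ M) ∧
      ∀ i < j, ∀ k < j, star (v i) * v k = if i = k then p else 0 := by
    intro j
    induction j with
    | zero => exact fun _ => ⟨fun _ => 0, fun _ => zero_mem _, fun i hi => absurd hi (Nat.not_lt_zero _)⟩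
    | succ j ih =>
      intro hj
      obtain ⟨v, hvM, hv⟩ := ih (by omega)
      obtain ⟨hr, hrM, hvr, htr⟩ := mu_sum h hp hvM hv
      obtain ⟨r, hrd⟩ : ∃ r, r = 1 - ∑ i ∈ Finset.range j, v i * star (v i) := ⟨_, rfl⟩
      rw [← hrd] at hr hrM htr
      have hvr' : ∀ i < j, star (v i) * r = 0 := fun i hi => by rw [hrd]; exact hvr i hi
      have hjn : (j : ℝ) + 1 ≤ n := by exact_mod_cast hj
      have hle : (tr ξ p).re ≤ (tr ξ r).re := by
        have e : (1 : ℂ) - j * (1 / (n : ℂ)) = (((1 : ℝ) - j * (1 / (n : ℝ)) : ℝ) : ℂ) := by push_cast; rfl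
        rw [htr, hre, ht, e, Complex.ofReal_re]
        rw [div_le_iff₀ (by positivity)]
        field_simp
        linarith
      obtain ⟨w, hwM, hww, hrw⟩ := compare h hp hr hpM hrM hle
      have hvw : ∀ i < j, star (v i) * w = 0 := fun i hi => by
        rw [← hrw, ← mul_assoc, hvr' i hi, zero_mul]
      have hwv : ∀ i < j, star w * v i = 0 := fun i hi => by
        have := congrArg star (hvw i hi)
        rwa [star_mul, star_star, star_zero] at this
      refine ⟨fun i => if i = j then w else v i, fun i => ?_, fun i hi k hk => ?_⟩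
      · by_cases hij : i = j
        · simpa [hij] using hwM
        · simpa [hij] using hvM i
      · by_cases hij : i = j
        · by_cases hkj : k = j
          · simp [hij, hkj, hww]
          · have hk' : k < j := by omega
            have hjk : j ≠ k := fun e => hkj e.symm
            simp [hij, hkj, hjk, hwv k hk']
        · have hi' : i < j := by omega
          by_cases hkj : k = j
          · simp [hij, hkj, hvw i hi']
          · simp only [hij, hkj, if_false]
            exact hv i hi' k (by omega)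
  obtain ⟨v, hvM, hv⟩ := key n le_rfl
  obtain ⟨hr, hrM, -, htr⟩ := mu_sum h hp hvM hv
  have h0 : 1 - ∑ i ∈ Finset.range n, v i * star (v i) = 0 := by
    refine proj_eq_zero h.toIsTrace hr hrM ?_
    rw [htr, ht, mul_one_div_cancel hn0', sub_self, Complex.zero_re]
  refine ⟨fun i => v i, fun i => hvM i, fun i j => ?_, ?_⟩
  · rw [hv i i.2 j j.2]
    simp only [Fin.ext_iff]
  · rw [Fin.sum_univ_eq_sum_range (fun i => v i * star (v i)) n]
    exact (sub_eq_zero.1 h0).symm

end Pool.Agent.Lib.UPE
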