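import Pool.Agent.Lib.UPE.CO2
import Pool.Agent.Lib.UPE.CO1
import Pool.Agent.Lib.UPE.FUN
import Pool.Agent.Lib.UPE.MAT
import Pool.Agent.Lib.UPE.MU
import Pool.Agent.Lib.UPE.CV
import Pool.Agent.Lib.UPE.EA
import Pool.Agent.Lib.UPE.AE

/-!
# UPE / FIN: the theorem
-/

set_option autoImplicit false

open Filter Topology

namespace Pool.Agent.Lib.UPE

variable {H : Type*} [NormedAddCommGroup H] [InnerProductSpace ℂ H] [CompleteSpace H]
variable {M : VonNeumannAlgebra H} {ξ : ℕ → H}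

private theorem fin_corner (h : IsIIOne M ξ) (hsep : Sep M ξ) {U : Ultrafilter ℕ}
    (hU : (U : Filter ℕ) ≤ atTop) {s : ℝ} (hs0 : 0 < s) (hs1 : s < 1) (hs : ScEmb M ξ U s)
    {p : H →L[ℂ] H} (hp : IsStarProjection p) (hpM : p ∈ M) : CornerEmb M ξ U p := by
  have h1 := emb_ap h.toIsTrace U hs0.le hs1.le hs
  obtain ⟨h2, h3, h4⟩ := re_tr_proj_mem h.toIsTrace hp
  exact apc_emb h.toIsTrace hsep U hU hp hpM (ap_corner h (ap_all h hs0 hs1 h1 h2 h3) hp hpM h4)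

private theorem fin_one (h : IsIIOne M ξ) : ∃ p ∈ M, IsStarProjection p ∧ tr ξ p = ((1 / 2 : ℝ) : ℂ) ∧
    p ≠ 0 ∧ p ≠ 1 := by
  obtain ⟨p, hpM, hp, -, ht⟩ := exists_trace h (q := 1) (IsStarProjection.one _) (one_mem M) (s := 1 / 2)
    (by norm_num) (by rw [tr_one h.toIsTrace]; norm_num)
  refine ⟨p, hpM, hp, ht, ?_, ?_⟩
  · rintro rfl
    rw [tr_zero] at ht
    norm_num at ht
  · rintro rfl
    rw [tr_one h.toIsTrace] at ht
    norm_num at ht

theorem main (h : IsIIOne M ξ) (hsep : Sep M ξ) {U : Ultrafilter ℕ} (hU : (U : Filter ℕ) ≤ cofinite) :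
    List.TFAE [MatEmb M ξ U 2,
      ∀ n : ℕ, 1 ≤ n → MatEmb M ξ U n,
      ∃ p ∈ M, IsStarProjection p ∧ p ≠ 0 ∧ p ≠ 1 ∧ CornerEmb M ξ U p,
      ∀ p ∈ M, IsStarProjection p → p ≠ 0 → CornerEmb M ξ U p,
      CommEmb M ξ U,
      ∀ k, Convex ℝ (closure (laws M ξ k))] := by
  have hT := h.toIsTrace
  have hU' : (U : Filter ℕ) ≤ atTop := by rwa [Nat.cofinite_eq_atTop] at hU
  have key : ∀ {s : ℝ}, 0 < s → s < 1 → ScEmb M ξ U s →
      ∀ p ∈ M, IsStarProjection p → CornerEmb M ξ U p :=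
    fun hs0 hs1 hs p hpM hp => fin_corner h hsep hU' hs0 hs1 hs hp hpM
  tfae_have 1 → 4 := by
    intro h1 p hpM hp _
    have h2 := mat_sc (n := 2) (by norm_num) h1
    exact key (by norm_num) (by norm_num) h2 p hpM hp
  tfae_have 4 → 2 := by
    intro h4 n hn
    obtain ⟨p, hpM, hp, -, ht⟩ := exists_trace h (q := 1) (IsStarProjection.one _) (one_mem M)
      (s := 1 / (n : ℝ)) (by positivity) (by
        rw [tr_one hT, Complex.one_re, div_le_one (by positivity)]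
        exact_mod_cast hn)
    have ht' : tr ξ p = 1 / (n : ℂ) := by rw [ht]; push_cast; rfl
    have hp0 : p ≠ 0 := by
      rintro rfl
      rw [tr_zero] at ht'
      have : (n : ℂ) ≠ 0 := by exact_mod_cast (by omega : n ≠ 0)
      exact (one_div_ne_zero this) ht'.symm
    obtain ⟨v, hv, hvv, hvs⟩ := exists_units h hn hp hpM ht'
    exact corner_mat hT hn hp hpM ht' hv hvv hvs (h4 p hpM hp hp0)
  tfae_have 2 → 1 := fun h2 => h2 2 (by norm_num)
  tfae_have 4 → 3 := by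
    intro h4
    obtain ⟨p, hpM, hp, -, hp0, hp1⟩ := fin_one h
    exact ⟨p, hpM, hp, hp0, hp1, h4 p hpM hp hp0⟩
  tfae_have 3 → 4 := by
    rintro ⟨p, hpM, hp, hp0, hp1, hc⟩ q hqM hq _
    obtain ⟨h2, h3, h4⟩ := re_tr_proj_mem hT hp
    have h5 : 0 < (tr ξ p).re := lt_of_le_of_ne h2 fun h6 => hp0 (proj_eq_zero hT hp hpM h6.symm)
    have h6 : (tr ξ p).re < 1 := by
      refine lt_of_le_of_ne h3 fun h7 => hp1 ?_
      have h8 := proj_eq_zero hT hp.one_sub (sub_mem (one_mem M) hpM) (by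
        rw [tr_sub hT, tr_one hT, Complex.sub_re, h7, Complex.one_re, sub_self])
      exact (sub_eq_zero.1 h8).symm
    exact key h5 h6 (corner_sc hT hp hc) q hqM hq
  tfae_have 4 → 5 := by
    intro h4
    obtain ⟨p, hpM, hp, -, hp0, hp1⟩ := fin_one h
    exact corner_comm hT hp hpM hp0 hp1 (h4 p hpM hp hp0)
      (h4 (1 - p) (sub_mem (one_mem M) hpM) hp.one_sub fun h0 => hp1 (sub_eq_zero.1 h0).symm)
  tfae_have 5 → 4 := by
    intro h5 p hpM hp _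
    obtain ⟨s, hs0, hs1, hs⟩ := comm_sc h h5
    exact key hs0 hs1 hs p hpM hp
  tfae_have 4 → 6 := by
    intro h4 k
    refine ap_convex h (fun t ht0 ht1 => ?_) k
    obtain ⟨p, hpM, hp, ht, hp0, hp1⟩ := fin_one h
    have h5 := corner_sc hT hp (h4 p hpM hp hp0)
    rw [ht, Complex.ofReal_re] at h5
    exact ap_all h (by norm_num) (by norm_num) (emb_ap hT U (by norm_num) (by norm_num) h5) ht0 ht1
  tfae_have 6 → 4 := by
    intro h6 p hpM hp _
    obtain ⟨h2, h3, h4⟩ := re_tr_proj_mem hT hp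
    exact apc_emb hT hsep U hU' hp hpM
      (ap_corner h (ap_all h (by norm_num) (by norm_num) (convex_ap hT h6) h2 h3) hp hpM h4)
  tfae_finish

theorem main_endo (h : IsIIOne M ξ) (hsep : Sep M ξ) {U : Ultrafilter ℕ} (hU : (U : Filter ℕ) ≤ cofinite)
    (σ : M.toStarSubalgebra →⋆ₙₐ[ℂ] M.toStarSubalgebra) (h0 : σ 1 ≠ 0) (h1 : σ 1 ≠ 1) :
    MatEmb M ξ U 2 := by
  have hU' : (U : Filter ℕ) ≤ atTop := by rwa [Nat.cofinite_eq_atTop] at hU
  obtain ⟨s, hs0, hs1, hs⟩ := endo_sc h U σ h0 h1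
  exact ((main h hsep hU).out 0 3).2 fun p hpM hp _ => fin_corner h hsep hU' hs0 hs1 hs hp hpM

theorem main_gamma (h : IsIIOne M ξ) (hsep : Sep M ξ) {U : Ultrafilter ℕ} (hU : (U : Filter ℕ) ≤ cofinite)
    (x : ℕ → (H →L[ℂ] H)) (hx : ∀ n, x n ∈ M) (hb : ∃ C : ℝ, ∀ n, ‖x n‖ ≤ C)
    (hc : ∀ a ∈ M, Null ξ U fun n => x n * a - a * x n)
    (hn : ∀ c : ℂ, ¬ Null ξ U fun n => x n - c • (1 : H →L[ℂ] H)) : MatEmb M ξ U 2 :=
  ((main h hsep hU).out 0 4).2 (gamma_comm h.toIsTrace x hx hb hc hn)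

end Pool.Agent.Lib.UPE
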