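import Pool.Agent.Lib.UPE.FIN
import Pool.Agent.Lib.UPE.CCB
import Pool.Agent.Lib.UPE.CCC
import Pool.Agent.Lib.UPE.EU

/-!
# UPE / FIN2: the theorem with all pairs of corners
-/

set_option autoImplicit false

open Filter Topology

namespace Pool.Agent.Lib.UPE

variable {H : Type*} [NormedAddCommGroup H] [InnerProductSpace ℂ H] [CompleteSpace H]
variable {M : VonNeumannAlgebra H} {ξ : ℕ → H}

theorem main2 (h : IsIIOne M ξ) (hsep : Sep M ξ) :
    List.TFAE [∃ U : Ultrafilter ℕ, (U : Filter ℕ) ≤ cofinite ∧ MatEmb M ξ U 2,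
      ∀ U : Ultrafilter ℕ, (U : Filter ℕ) ≤ cofinite → ∀ n : ℕ, 1 ≤ n → MatEmb M ξ U n,
      ∃ U : Ultrafilter ℕ, (U : Filter ℕ) ≤ cofinite ∧ ∃ p ∈ M, ∃ q ∈ M, IsStarProjection p ∧
        IsStarProjection q ∧ q ≠ 0 ∧ (tr ξ q).re < (tr ξ p).re ∧ CCEmb M ξ U p q,
      ∀ U : Ultrafilter ℕ, (U : Filter ℕ) ≤ cofinite → ∀ p ∈ M, ∀ q ∈ M, IsStarProjection p →
        IsStarProjection q → p ≠ 0 → q ≠ 0 → CCEmb M ξ U p q,
      ∃ U : Ultrafilter ℕ, (U : Filter ℕ) ≤ cofinite ∧ CommEmb M ξ U,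
      ∀ k, Convex ℝ (closure (laws M ξ k)),
      ∃ U : Ultrafilter ℕ, HomEmb M ξ U] := by
  have hT := h.toIsTrace
  -- a non-principal ultrafilter
  have hH : ((hyperfilter ℕ : Ultrafilter ℕ) : Filter ℕ) ≤ cofinite := hyperfilter_le_cofinite
  have hpos : ∀ p ∈ M, IsStarProjection p → p ≠ 0 → 0 < (tr ξ p).re := by
    intro p hpM hp hp0
    exact lt_of_le_of_ne (re_tr_proj_mem hT hp).1 fun h6 => hp0 (proj_eq_zero hT hp hpM h6.symm)
  obtain ⟨p0, hp0M, hp0, ht0⟩ : ∃ p ∈ M, IsStarProjection p ∧ tr ξ p = ((1 / 2 : ℝ) : ℂ) := by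
    obtain ⟨p, hpM, hp, -, ht⟩ := exists_trace h (q := 1) (IsStarProjection.one _) (one_mem M) (s := 1 / 2)
      (by norm_num) (by rw [tr_one hT]; norm_num)
    exact ⟨p, hpM, hp, ht⟩
  have hp0' : p0 ≠ 0 := by
    rintro rfl
    rw [tr_zero] at ht0
    norm_num at ht0
  have h10 : (1 : H →L[ℂ] H) ≠ 0 := by
    intro h1
    have := tr_one hT
    rw [h1, tr_zero] at this
    norm_num at this
  tfae_have 1 → 6 := by
    rintro ⟨U, hU, h1⟩
    exact ((main h hsep hU).out 0 5).1 h1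
  tfae_have 6 → 2 := by
    intro h6 U hU
    exact ((main h hsep hU).out 5 1).1 h6
  tfae_have 2 → 1 := fun h2 => ⟨_, hH, h2 _ hH 2 (by norm_num)⟩
  tfae_have 6 → 4 := by
    intro h6 U hU p hpM q hqM hp hq hp0 hq0
    exact cc_all h (((main h hsep hU).out 5 3).1 h6) hp hq hpM hqM hp0 hq0
  tfae_have 4 → 3 := by
    intro h4
    refine ⟨_, hH, 1, one_mem M, p0, hp0M, IsStarProjection.one _, hp0, hp0', ?_, ?_⟩
    · rw [tr_one hT, ht0]; norm_num
    · exact h4 _ hH 1 (one_mem M) p0 hp0M (IsStarProjection.one _) hp0 h10 hp0'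
  tfae_have 3 → 6 := by
    rintro ⟨U, hU, p, hpM, q, hqM, hp, hq, hq0, hlt, hc⟩
    have h1 := cc_big h hp hq hpM hqM hq0 hlt hc
    have h2 := hpos q hqM hq hq0
    have h3 : 0 < (tr ξ q).re / (tr ξ p).re := div_pos h2 (h2.trans hlt)
    have h4 : (tr ξ q).re / (tr ξ p).re < 1 := (div_lt_one (h2.trans hlt)).2 hlt
    exact fun k => ap_convex h (fun t ht0 ht1 => ap_all h h3 h4 (emb_ap hT U h3.le h4.le h1) ht0 ht1) k
  tfae_have 5 → 6 := by
    rintro ⟨U, hU, h5⟩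
    exact ((main h hsep hU).out 4 5).1 h5
  tfae_have 6 → 5 := by
    intro h6
    exact ⟨_, hH, ((main h hsep hH).out 5 4).1 h6⟩
  tfae_have 7 → 6 := by
    rintro ⟨U, h7⟩
    obtain ⟨s, hs0, hs1, hs⟩ := hom_sc h h7
    exact fun k => ap_convex h (fun t ht0 ht1 => ap_all h hs0 hs1 (emb_ap hT U hs0.le hs1.le hs) ht0 ht1) k
  tfae_have 6 → 7 := by
    intro h6
    have h4 := ((main h hsep hH).out 5 3).1 h6
    obtain ⟨Θ, hΘ, -, hΘ1⟩ := h4 p0 hp0M hp0 hp0'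
    have hp1' : p0 ≠ 1 := by
      rintro rfl
      rw [tr_one hT] at ht0
      norm_num at ht0
    refine ⟨_, _, Θ, hΘ, fun h2 => hp0' ?_, fun h2 => hp1' ?_⟩
    · have h3 : Tendsto (fun _ : ℕ => n2 ξ p0) (hyperfilter ℕ : Filter ℕ) (𝓝 0) := by
        refine squeeze_zero (fun _ => n2_nonneg _) (fun n => ?_) (by simpa using Tendsto.add h2 hΘ1)
        have h5 := n2_sub_le hT (Θ 1 n) (Θ 1 n - p0)
        rwa [sub_sub_cancel] at h5
      exact eq_zero_of_n2 hT hp0M (tendsto_nhds_unique tendsto_const_nhds h3)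
    · have h3 : Tendsto (fun _ : ℕ => n2 ξ (p0 - 1)) (hyperfilter ℕ : Filter ℕ) (𝓝 0) := by
        refine squeeze_zero (fun _ => n2_nonneg _) (fun n => ?_) (by simpa using Tendsto.add h2 hΘ1)
        have h5 := n2_sub_le hT (Θ 1 n - 1) (Θ 1 n - p0)
        rwa [sub_sub_sub_cancel_left] at h5
      exact sub_eq_zero.1 (eq_zero_of_n2 hT (sub_mem hp0M (one_mem M)) (tendsto_nhds_unique tendsto_const_nhds h3))
  tfae_finish

end Pool.Agent.Lib.UPE
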