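import Pool.Agent.Lib.UPE.SP

/-!
# UPE / KP (190 lines): the Kaplansky theorem in the norm `n2`

PROOF.  Take `y ∈ S` with `n2 (x - y) < ε / 2`, `a = star y * y ≥ 0`, `R = max 1 ‖y‖`, `g t = 1 / sqrt (max t 1)`, `z = y * cfc g a`,
`B = cfc (fun t => sqrt (max t 1) - 1) a`, `C = cfc (fun t => sqrt (sqrt (max t 1) - 1)) a`; all in `M` (`cfc_mem`), `C` self-adjoint, `C * C = B`.
On the spectrum of `a` (`t ≥ 0`): `t * g^2 ≤ 1`, so `star z * z ≤ 1`, `‖z‖ ≤ 1`;  `t * g * (1 - g) = sqrt (max t 1) - 1` (both are 0 for `t ≤ 1`), so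
`star z * (y - z) = B`;  `g * (sqrt (max t 1) - 1) = 1 - g`, so `z * B = y - z`.
CLAIM `n2 (x - z) ≤ n2 (x - y)`.  `n2 (x - y)^2 = n2 (x - z)^2 + n2 (y - z)^2 - 2 re (tr (star (x - z) * (y - z)))` and
`re (tr (star x * (y - z))) = re (tr (star x * z * C * C)) = re (tr (C * (star x * z) * C))` (`h.tracial`) `≤ n2 C ^ 2 = (tr B).re` since
`‖star x * z‖ ≤ 1` (`tr (C * c * C) = tr (star C * (c * C))`, `norm_tr_star_mul_le`, `n2_mul_le`), so `re (tr (star (x - z) * (y - z))) ≤ 0`.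
Polynomials: `exists_polynomial_near_of_continuousOn` on `Set.Icc 0 (R^2)`: a real polynomial `Q` with `|Q - g| ≤ η`; `s0 = y * Q(a) ∈ S` (`Polynomial.aeval`,
`cfc` of a polynomial; `S` is a *-algebra, real coefficients act as complex ones), `‖s0 - z‖ ≤ R * η`.  `s = (1 + R * η)⁻¹ • s0`: `‖s‖ ≤ 1`,
`‖s - z‖ ≤ ‖s - s0‖ + R * η ≤ 2 * R * η < ε / 2` for `η` small.  `n2 (x - s) ≤ n2 (x - z) + ‖z - s‖ < ε`.
-/

set_option autoImplicit false

open Filter Topology

namespace Pool.Agent.Lib.UPE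

variable {H : Type*} [NormedAddCommGroup H] [InnerProductSpace ℂ H] [CompleteSpace H]
variable {M : VonNeumannAlgebra H} {ξ : ℕ → H}

/-- the cut-off function -/
private noncomputable def kpG (t : ℝ) : ℝ := 1 / Real.sqrt (max t 1)

/-- the excess -/
private noncomputable def kpB (t : ℝ) : ℝ := Real.sqrt (max t 1) - 1

/-- the square root of the excess -/
private noncomputable def kpC (t : ℝ) : ℝ := Real.sqrt (kpB t)

private theorem kp_one_le (t : ℝ) : 1 ≤ Real.sqrt (max t 1) := by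
  rw [Real.one_le_sqrt]
  exact le_max_right _ _

private theorem kpG_cont : Continuous kpG := by
  unfold kpG
  refine Continuous.div continuous_const (by fun_prop) ?_
  intro t
  have h1 := kp_one_le t
  linarith

private theorem kpB_cont : Continuous kpB := by
  unfold kpB
  fun_prop

private theorem kpC_cont : Continuous kpC := by
  unfold kpC
  exact kpB_cont.sqrt

private theorem kpC_sq (t : ℝ) : kpC t * kpC t = kpB t := by
  unfold kpC
  refine Real.mul_self_sqrt ?_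
  unfold kpB
  linarith [kp_one_le t]

private theorem kp_GB (t : ℝ) : kpG t * kpB t = 1 - kpG t := by
  unfold kpG kpB
  have h1 := kp_one_le t
  have h2 : Real.sqrt (max t 1) ≠ 0 := by linarith
  field_simp

private theorem kp_GG {t : ℝ} : kpG t * t * (1 - kpG t) = kpB t := by
  unfold kpG kpB
  rcases le_total t 1 with h | h
  · rw [max_eq_right h]
    simp
  · rw [max_eq_left h]
    have h1 : Real.sqrt t * Real.sqrt t = t := Real.mul_self_sqrt (by linarith)
    have h2 : Real.sqrt t ≠ 0 := by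
      have := Real.one_le_sqrt.2 h
      linarith
    field_simp
    rw [pow_two, h1]

private theorem kpG_sq {t : ℝ} (h0 : 0 ≤ t) : |kpG t * t * kpG t| ≤ 1 := by
  unfold kpG
  have h1 : (1 : ℝ) ≤ max t 1 := le_max_right _ _
  have h2 : t ≤ max t 1 := le_max_left _ _
  have h3 : 1 / Real.sqrt (max t 1) * t * (1 / Real.sqrt (max t 1)) = t / max t 1 := by
    have h4 : Real.sqrt (max t 1) * Real.sqrt (max t 1) = max t 1 :=
      Real.mul_self_sqrt (by linarith)
    rw [div_mul_eq_mul_div, one_mul, div_mul_div_comm, mul_one, h4]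
  rw [h3, abs_of_nonneg (div_nonneg h0 (by linarith)), div_le_one (by linarith)]
  exact h2

private theorem kp_spec {y : H →L[ℂ] H} {K : ℝ} (hy : ‖y‖ ≤ K) {t : ℝ}
    (ht : t ∈ spectrum ℝ (star y * y)) : 0 ≤ t ∧ t ≤ K ^ 2 := by
  have h0 : (0 : H →L[ℂ] H) ≤ star y * y := star_mul_self_nonneg y
  refine ⟨spectrum_nonneg_of_nonneg h0 ht, ?_⟩
  have h1 : ‖t‖ ≤ ‖star y * y‖ * ‖(1 : H →L[ℂ] H)‖ := spectrum.norm_le_norm_mul_of_mem ht
  have h2 : ‖(1 : H →L[ℂ] H)‖ ≤ 1 := ContinuousLinearMap.norm_id_le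
  have h3 : ‖star y * y‖ = ‖y‖ * ‖y‖ := CStarRing.norm_star_mul_self
  have h4 : t ≤ ‖t‖ := le_abs_self t
  have h5 : ‖y‖ * ‖y‖ ≤ K * K := mul_self_le_mul_self (norm_nonneg _) hy
  have h6 : ‖star y * y‖ * ‖(1 : H →L[ℂ] H)‖ ≤ ‖star y * y‖ * 1 :=
    mul_le_mul_of_nonneg_left h2 (norm_nonneg _)
  nlinarith

private theorem kp_conj (y : H →L[ℂ] H) {k l : ℝ → ℝ} (hk : Continuous k) (hl : Continuous l) :
    star (y * cfc k (star y * y)) * (y * cfc l (star y * y)) =
      cfc (fun t : ℝ => k t * t * l t) (star y * y) := by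
  have hsa : IsSelfAdjoint (star y * y) := IsSelfAdjoint.star_mul_self y
  have h1 : star (cfc k (star y * y)) = cfc k (star y * y) := (cfc_predicate k (star y * y) : IsSelfAdjoint _)
  rw [cfc_mul (fun t : ℝ => k t * t) l (star y * y) (by fun_prop) (by fun_prop),
    cfc_mul k (fun t : ℝ => t) (star y * y) (by fun_prop) (by fun_prop), cfc_id' ℝ (star y * y),
    star_mul, h1]
  simp only [mul_assoc]

private theorem kp_norm {a : H →L[ℂ] H} {f : ℝ → ℝ} {c : ℝ} (hc : 0 ≤ c)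
    (h : ∀ t ∈ spectrum ℝ a, |f t| ≤ c) : ‖cfc f a‖ ≤ c :=
  norm_cfc_le hc (fun t ht => h t ht)

/-- the contraction `z` -/
private theorem kp_z_norm (y : H →L[ℂ] H) : ‖y * cfc kpG (star y * y)‖ ≤ 1 := by
  have h1 : ‖star (y * cfc kpG (star y * y)) * (y * cfc kpG (star y * y))‖ ≤ 1 := by
    rw [kp_conj y kpG_cont kpG_cont]
    exact kp_norm zero_le_one fun t ht => kpG_sq (kp_spec le_rfl ht).1
  have h2 : ‖star (y * cfc kpG (star y * y)) * (y * cfc kpG (star y * y))‖ =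
      ‖y * cfc kpG (star y * y)‖ * ‖y * cfc kpG (star y * y)‖ := CStarRing.norm_star_mul_self
  have h3 := norm_nonneg (y * cfc kpG (star y * y))
  nlinarith

private theorem kp_diff (y : H →L[ℂ] H) :
    y - y * cfc kpG (star y * y) = y * cfc (fun t : ℝ => 1 - kpG t) (star y * y) := by
  have hsa : IsSelfAdjoint (star y * y) := IsSelfAdjoint.star_mul_self y
  rw [cfc_sub (fun _ : ℝ => (1 : ℝ)) kpG (star y * y) (by fun_prop) kpG_cont.continuousOn,
    cfc_const_one ℝ (star y * y), mul_sub, mul_one]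

private theorem kp_zB (y : H →L[ℂ] H) :
    y - y * cfc kpG (star y * y) = y * cfc kpG (star y * y) * cfc kpB (star y * y) := by
  rw [kp_diff, mul_assoc, ← cfc_mul kpG kpB (star y * y) kpG_cont.continuousOn kpB_cont.continuousOn]
  congr 2
  funext t
  exact (kp_GB t).symm

private theorem kp_B (y : H →L[ℂ] H) :
    star (y * cfc kpG (star y * y)) * (y - y * cfc kpG (star y * y)) = cfc kpB (star y * y) := by
  rw [kp_diff, kp_conj y kpG_cont (l := fun t : ℝ => 1 - kpG t) (continuous_const.sub kpG_cont)]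
  congr 1
  funext t
  exact kp_GG

private theorem kp_CC (y : H →L[ℂ] H) :
    cfc kpC (star y * y) * cfc kpC (star y * y) = cfc kpB (star y * y) := by
  rw [← cfc_mul kpC kpC (star y * y) kpC_cont.continuousOn kpC_cont.continuousOn]
  congr 1
  funext t
  exact kpC_sq t

/-- the truncation does not increase the distance -/
private theorem kp_claim (h : IsTrace M ξ) {x y : H →L[ℂ] H} (hxM : x ∈ M) (hx : ‖x‖ ≤ 1) (hy : y ∈ M) :
    n2 ξ (x - y * cfc kpG (star y * y)) ≤ n2 ξ (x - y) := by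
  have haM : star y * y ∈ M := mul_mem (star_mem hy) hy
  obtain ⟨z, hz⟩ : ∃ z, z = y * cfc kpG (star y * y) := ⟨_, rfl⟩
  obtain ⟨B, hB⟩ : ∃ B, B = cfc kpB (star y * y) := ⟨_, rfl⟩
  obtain ⟨C, hC⟩ : ∃ C, C = cfc kpC (star y * y) := ⟨_, rfl⟩
  have hzM : z ∈ M := by rw [hz]; exact mul_mem hy (cfc_mem haM _)
  have hCM : C ∈ M := by rw [hC]; exact cfc_mem haM _
  have hCs : star C = C := by rw [hC]; exact (cfc_predicate kpC (star y * y) : IsSelfAdjoint _)
  have hz1 : ‖z‖ ≤ 1 := by rw [hz]; exact kp_z_norm y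
  have e1 : y - z = z * B := by rw [hz, hB]; exact kp_zB y
  have e2 : star z * (y - z) = B := by rw [hz, hB]; exact kp_B y
  have e3 : C * C = B := by rw [hC, hB]; exact kp_CC y
  rw [← hz]
  have hcn : ‖star x * z‖ ≤ 1 := by
    refine (norm_mul_le _ _).trans ?_
    rw [norm_star]
    nlinarith [norm_nonneg x, norm_nonneg z]
  have t1 : tr ξ (star x * (y - z)) = tr ξ (star C * (star x * z * C)) := by
    rw [hCs, e1, ← e3, ← h.tracial (star x * z * C) (mul_mem (mul_mem (star_mem hxM) hzM) hCM) C hCM]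
    simp only [mul_assoc]
  have t2 : tr ξ B = ((n2 ξ C ^ 2 : ℝ) : ℂ) := by
    rw [← tr_star_mul_self, hCs, e3]
  have t3 : (tr ξ (star x * (y - z))).re ≤ n2 ξ C ^ 2 := by
    rw [t1]
    refine (Complex.re_le_norm _).trans ((norm_tr_star_mul_le h C (star x * z * C)).trans ?_)
    have k1 := n2_mul_le h (star x * z) C
    have k2 := n2_nonneg (ξ := ξ) C
    nlinarith
  have t4 : (tr ξ (star (x - z) * (y - z))).re ≤ 0 := by
    rw [star_sub, sub_mul, e2, tr_sub h, t2, Complex.sub_re, Complex.ofReal_re]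
    linarith
  have t5 : n2 ξ (x - y) ^ 2 = n2 ξ (x - z) ^ 2 + n2 ξ (y - z) ^ 2 - 2 * (tr ξ (star (x - z) * (y - z))).re := by
    have k0 : star (x - y) * (x - y) =
        star (x - z) * (x - z) + star (y - z) * (y - z) - (star (x - z) * (y - z) + star (star (x - z) * (y - z))) := by
      simp only [star_mul, star_sub, star_star]
      noncomm_ring
    have k1 := tr_star_mul_self (ξ := ξ) (x - y)
    have k2 := tr_star_mul_self (ξ := ξ) (x - z)
    have k3 := tr_star_mul_self (ξ := ξ) (y - z)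
    rw [k0, tr_sub h, tr_add h, tr_add h, tr_star, k2, k3] at k1
    have k4 := congrArg Complex.re k1
    simp only [Complex.sub_re, Complex.add_re, Complex.ofReal_re, Complex.star_def, Complex.conj_re] at k4
    linarith
  have t6 : n2 ξ (x - z) ^ 2 ≤ n2 ξ (x - y) ^ 2 := by
    rw [t5]
    nlinarith [sq_nonneg (n2 ξ (y - z))]
  exact (pow_le_pow_iff_left₀ (n2_nonneg _) (n2_nonneg _) two_ne_zero).1 t6

theorem kap (h : IsTrace M ξ) (S : StarSubalgebra ℂ (H →L[ℂ] H)) (hS : ∀ s ∈ S, s ∈ M) {x : H →L[ℂ] H}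
    (hxM : x ∈ M) (hx : ‖x‖ ≤ 1) (hd : ∀ ε : ℝ, 0 < ε → ∃ s ∈ S, n2 ξ (x - s) < ε) {ε : ℝ} (hε : 0 < ε) :
    ∃ s ∈ S, ‖s‖ ≤ 1 ∧ n2 ξ (x - s) < ε := by
  obtain ⟨y, hyS, hy⟩ := hd (ε / 2) (by linarith)
  have hyM := hS y hyS
  obtain ⟨R, hR⟩ : ∃ R : ℝ, R = max 1 ‖y‖ := ⟨_, rfl⟩
  have hR1 : 1 ≤ R := by rw [hR]; exact le_max_left _ _
  have hyR : ‖y‖ ≤ R := by rw [hR]; exact le_max_right _ _
  obtain ⟨η, hη⟩ : ∃ η : ℝ, η = ε / (8 * R) := ⟨_, rfl⟩
  have hη0 : 0 < η := by rw [hη]; positivity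
  have hRη : R * η = ε / 8 := by
    rw [hη]
    field_simp
  obtain ⟨P, hP⟩ := exists_polynomial_near_of_continuousOn 0 (R ^ 2) kpG kpG_cont.continuousOn η hη0
  have hasa : IsSelfAdjoint (star y * y) := IsSelfAdjoint.star_mul_self y
  obtain ⟨z, hz⟩ : ∃ z, z = y * cfc kpG (star y * y) := ⟨_, rfl⟩
  obtain ⟨s0, hs0⟩ : ∃ s0, s0 = y * Polynomial.aeval (star y * y) P := ⟨_, rfl⟩
  have hz1 : ‖z‖ ≤ 1 := by rw [hz]; exact kp_z_norm y
  have hxz : n2 ξ (x - z) ≤ n2 ξ (x - y) := by rw [hz]; exact kp_claim h hxM hx hyM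
  have hs0S : s0 ∈ S := by
    rw [hs0]
    refine mul_mem hyS ?_
    rw [Polynomial.aeval_eq_sum_range]
    refine sum_mem fun j _ => ?_
    rw [← Complex.coe_smul]
    exact S.smul_mem (pow_mem (mul_mem (star_mem hyS) hyS) j) _
  have hs0z : ‖s0 - z‖ ≤ R * η := by
    rw [hs0, hz, ← mul_sub, ← cfc_polynomial P (star y * y) hasa,
      ← cfc_sub (fun t => P.eval t) kpG (star y * y) (by fun_prop) kpG_cont.continuousOn]
    refine (norm_mul_le _ _).trans ?_
    refine mul_le_mul hyR (kp_norm hη0.le fun t ht => ?_) (norm_nonneg _) (by linarith)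
    have h1 := kp_spec hyR ht
    exact (hP t ⟨h1.1, h1.2⟩).le
  have hs0n : ‖s0‖ ≤ 1 + R * η := by
    have h1 : s0 = z + (s0 - z) := by abel
    rw [h1]
    exact (norm_add_le _ _).trans (add_le_add hz1 hs0z)
  obtain ⟨c, hc⟩ : ∃ c : ℝ, c = (1 + R * η)⁻¹ := ⟨_, rfl⟩
  have hRη0 : 0 < R * η := by rw [hRη]; linarith
  have hc0 : 0 < c := by rw [hc]; positivity
  have hcm : c * (1 + R * η) = 1 := by
    rw [hc]
    exact inv_mul_cancel₀ (by linarith)
  have hc1 : c ≤ 1 := by nlinarith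
  refine ⟨(c : ℂ) • s0, S.smul_mem hs0S _, ?_, ?_⟩
  · rw [norm_smul, Complex.norm_real, Real.norm_eq_abs, abs_of_pos hc0]
    have := mul_le_mul_of_nonneg_left hs0n hc0.le
    linarith
  · have h1 : ‖(c : ℂ) • s0 - s0‖ ≤ R * η := by
      have h2 : (c : ℂ) • s0 - s0 = ((c - 1 : ℝ) : ℂ) • s0 := by
        push_cast
        rw [sub_smul, one_smul]
      rw [h2, norm_smul, Complex.norm_real, Real.norm_eq_abs, abs_of_nonpos (by linarith)]
      have h3 := mul_le_mul_of_nonneg_left hs0n (show 0 ≤ -(c - 1) by linarith)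
      nlinarith
    have h2 : ‖z - (c : ℂ) • s0‖ ≤ 2 * (R * η) := by
      have h3 : z - (c : ℂ) • s0 = -((c : ℂ) • s0 - s0) - (s0 - z) := by abel
      rw [h3]
      refine (norm_sub_le _ _).trans ?_
      rw [norm_neg]
      linarith
    have h3 := n2_sub_le_sub h x z ((c : ℂ) • s0)
    have h4 := (n2_le_norm h (z - (c : ℂ) • s0)).trans h2
    linarith

end Pool.Agent.Lib.UPE
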