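import Pool.Agent.Lib.UPE.TDefs
import Pool.Agent.Lib.UPE.Bas

/-!
# UPE / SMS (110 lines): the *-algebra generated by `P` and its relative commutant

`rc M P` is the relative commutant of `P` in `M`, `alg M P` the *-algebra generated by `P` and `rc M P`.
PROOF.  `alg_le`: `StarAlgebra.adjoin_le` for `M.toStarSubalgebra`.  `alg_sum`: `StarAlgebra.adjoin_induction` for the set of the sums `∑ j : Fin n, a j * b j`
(`a j ∈ rc M P`, `b j ∈ P`): `P` (`a = 1`), `rc M P` (`b = 1`), scalars, sums (`Fin.append`), products (`(a b)(a' b') = (a a') (b b')`, index set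
`Fin n × Fin n' ≃ Fin (n * n')`), adjoints (`star (a b) = star b * star a = star a * star b`).  Scaling: replace `b j` by `(max 1 ‖b j‖)⁻¹ • b j` and `a j` by
`max 1 ‖b j‖ • a j`.  Common `n` for all `i : Fin k`: take `n = ∑ i, n i` and fill up with zeros.
-/

set_option autoImplicit false

open Filter Topology

namespace Pool.Agent.Lib.UPE

variable {H : Type*} [NormedAddCommGroup H] [InnerProductSpace ℂ H] [CompleteSpace H]

theorem alg_le {M P : VonNeumannAlgebra H} (hPM : ∀ b ∈ P, b ∈ M) {x : H →L[ℂ] H} (hx : x ∈ alg M P) :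
    x ∈ M := by
  have h1 : alg M P ≤ M.toStarSubalgebra := by
    refine StarAlgebra.adjoin_le ?_
    rintro y (hy | hy)
    · exact hPM y hy
    · exact hy.1
  exact h1 hx

private theorem rc_one {M P : VonNeumannAlgebra H} : (1 : H →L[ℂ] H) ∈ rc M P :=
  ⟨one_mem M, fun b _ => by rw [one_mul, mul_one]⟩

private theorem rc_zero {M P : VonNeumannAlgebra H} : (0 : H →L[ℂ] H) ∈ rc M P :=
  ⟨zero_mem M, fun b _ => by rw [zero_mul, mul_zero]⟩

private theorem rc_smul {M P : VonNeumannAlgebra H} (c : ℂ) {a : H →L[ℂ] H} (ha : a ∈ rc M P) : c • a ∈ rc M P :=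
  ⟨smul_mem' c ha.1, fun b hb => by rw [smul_mul_assoc, ha.2 b hb, mul_smul_comm]⟩

private theorem rc_mul {M P : VonNeumannAlgebra H} {a a' : H →L[ℂ] H} (ha : a ∈ rc M P) (ha' : a' ∈ rc M P) :
    a * a' ∈ rc M P :=
  ⟨mul_mem ha.1 ha'.1, fun b hb => by rw [mul_assoc, ha'.2 b hb, ← mul_assoc, ha.2 b hb, mul_assoc]⟩

private theorem rc_star {M P : VonNeumannAlgebra H} {a : H →L[ℂ] H} (ha : a ∈ rc M P) : star a ∈ rc M P :=
  ⟨star_mem ha.1, fun b hb => by
    have h1 := congrArg star (ha.2 (star b) (star_mem hb))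
    rw [star_mul, star_mul, star_star] at h1
    exact h1.symm⟩

private theorem alg_span {M P : VonNeumannAlgebra H} {x : H →L[ℂ] H} (hx : x ∈ alg M P) :
    x ∈ Submodule.span ℂ {y : H →L[ℂ] H | ∃ a ∈ rc M P, ∃ b ∈ P, y = a * b} := by
  unfold alg at hx
  induction hx using StarAlgebra.adjoin_induction with
  | mem y hy =>
    rcases hy with hy | hy
    · exact Submodule.subset_span ⟨1, rc_one, y, hy, (one_mul y).symm⟩
    · exact Submodule.subset_span ⟨y, hy, 1, one_mem P, (mul_one y).symm⟩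
  | algebraMap r =>
    exact Submodule.subset_span ⟨_, rc_smul r rc_one, 1, one_mem P, by
      rw [mul_one, Algebra.algebraMap_eq_smul_one]⟩
  | add y z _ _ hy hz => exact add_mem hy hz
  | mul y z _ _ hy hz =>
    have h1 := Submodule.mul_mem_mul hy hz
    rw [Submodule.span_mul_span] at h1
    refine Submodule.span_mono ?_ h1
    rintro w ⟨u, ⟨a, ha, b, hb, rfl⟩, v, ⟨a', ha', b', hb', rfl⟩, rfl⟩
    refine ⟨a * a', rc_mul ha ha', b * b', mul_mem hb hb', ?_⟩
    show a * b * (a' * b') = a * a' * (b * b')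
    have h2 := ha'.2 b hb
    rw [mul_assoc a b, ← mul_assoc b a', ← h2]
    simp only [mul_assoc]
  | star y hy0 hy =>
    clear hy0
    induction hy using Submodule.span_induction with
    | mem z hz =>
      obtain ⟨a, ha, b, hb, rfl⟩ := hz
      refine Submodule.subset_span ⟨star a, rc_star ha, star b, star_mem hb, ?_⟩
      rw [star_mul, (rc_star ha).2 (star b) (star_mem hb)]
    | zero => rw [star_zero]; exact zero_mem _
    | add u v _ _ hu hv => rw [star_add]; exact add_mem hu hv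
    | smul c u _ hu => rw [star_smul]; exact Submodule.smul_mem _ _ hu

private theorem span_sum {M P : VonNeumannAlgebra H} {x : H →L[ℂ] H}
    (hx : x ∈ Submodule.span ℂ {y : H →L[ℂ] H | ∃ a ∈ rc M P, ∃ b ∈ P, y = a * b}) :
    ∃ N : ℕ, ∀ n : ℕ, N ≤ n → ∃ a b : Fin n → (H →L[ℂ] H), (∀ j, a j ∈ rc M P) ∧
      (∀ j, b j ∈ P ∧ ‖b j‖ ≤ 1) ∧ x = ∑ j, a j * b j := by
  induction hx using Submodule.span_induction with
  | mem y hy =>
    obtain ⟨a, ha, b, hb, rfl⟩ := hy
    refine ⟨1, fun n hn => ?_⟩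
    have hm : 0 < max 1 ‖b‖ := lt_of_lt_of_le one_pos (le_max_left _ _)
    have hm0 : ((max 1 ‖b‖ : ℝ) : ℂ) ≠ 0 := by exact_mod_cast hm.ne'
    refine ⟨fun j => if j.val = 0 then ((max 1 ‖b‖ : ℝ) : ℂ) • a else 0,
      fun j => if j.val = 0 then (((max 1 ‖b‖ : ℝ) : ℂ)⁻¹) • b else 0, fun j => ?_, fun j => ?_, ?_⟩
    · show (if j.val = 0 then ((max 1 ‖b‖ : ℝ) : ℂ) • a else 0) ∈ rc M P
      split_ifs
      · exact rc_smul _ ha
      · exact rc_zero
    · show (if j.val = 0 then (((max 1 ‖b‖ : ℝ) : ℂ)⁻¹) • b else 0) ∈ P ∧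
        ‖(if j.val = 0 then (((max 1 ‖b‖ : ℝ) : ℂ)⁻¹) • b else 0)‖ ≤ 1
      split_ifs
      · refine ⟨smul_mem' _ hb, ?_⟩
        rw [norm_smul, norm_inv, Complex.norm_real, Real.norm_of_nonneg hm.le, inv_mul_le_iff₀ hm, mul_one]
        exact le_max_right _ _
      · exact ⟨zero_mem P, by simp⟩
    · rw [Finset.sum_eq_single (⟨0, hn⟩ : Fin n)]
      · simp only [if_true]
        rw [smul_mul_smul_comm, mul_inv_cancel₀ hm0, one_smul]
      · intro j _ hj
        have hj0 : ¬ j.val = 0 := fun h0 => hj (Fin.ext h0)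
        simp only [hj0, if_false, zero_mul]
      · intro h
        exact absurd (Finset.mem_univ _) h
  | zero =>
    exact ⟨0, fun n _ => ⟨fun _ => 0, fun _ => 0, fun _ => rc_zero, fun _ => ⟨zero_mem P, by simp⟩, by simp⟩⟩
  | add y z _ _ hy hz =>
    obtain ⟨N1, h1⟩ := hy
    obtain ⟨N2, h2⟩ := hz
    refine ⟨N1 + N2, fun n hn => ?_⟩
    obtain ⟨m, rfl⟩ : ∃ m, n = N1 + m := ⟨n - N1, by omega⟩
    obtain ⟨a, b, ha, hb, hab⟩ := h1 N1 le_rfl
    obtain ⟨a', b', ha', hb', hab'⟩ := h2 m (by omega)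
    refine ⟨Fin.append a a', Fin.append b b', fun j => ?_, fun j => ?_, ?_⟩
    · refine Fin.addCases (fun i => ?_) (fun i => ?_) j
      · rw [Fin.append_left]; exact ha i
      · rw [Fin.append_right]; exact ha' i
    · refine Fin.addCases (fun i => ?_) (fun i => ?_) j
      · rw [Fin.append_left]; exact hb i
      · rw [Fin.append_right]; exact hb' i
    · rw [Fin.sum_univ_add, hab, hab']
      simp only [Fin.append_left, Fin.append_right]
  | smul c y _ hy =>
    obtain ⟨N, h⟩ := hy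
    refine ⟨N, fun n hn => ?_⟩
    obtain ⟨a, b, ha, hb, hab⟩ := h n hn
    refine ⟨fun j => c • a j, b, fun j => rc_smul c (ha j), hb, ?_⟩
    rw [hab, Finset.smul_sum]
    exact Finset.sum_congr rfl fun j _ => (smul_mul_assoc _ _ _).symm

theorem alg_sum {M P : VonNeumannAlgebra H} {k : ℕ} {x : Fin k → (H →L[ℂ] H)} (hx : ∀ i, x i ∈ alg M P) :
    ∃ (n : ℕ) (a b : Fin k → Fin n → (H →L[ℂ] H)), (∀ i j, a i j ∈ rc M P) ∧
      (∀ i j, b i j ∈ P ∧ ‖b i j‖ ≤ 1) ∧ ∀ i, x i = ∑ j, a i j * b i j := by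
  choose N hN using fun i => span_sum (alg_span (hx i))
  choose a b ha hb hab using fun i => hN i (∑ l, N l) (Finset.single_le_sum (fun l _ => Nat.zero_le (N l)) (Finset.mem_univ i))
  exact ⟨∑ l, N l, a, b, ha, hb, hab⟩

end Pool.Agent.Lib.UPE
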