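import Pool.Agent.Lib.UPE.SP

/-!
# UPE / TC (150 lines): truncation

PROOF.  `g(t) = 1 / sqrt (max t 1)`, `f(t) = t * (1 - g t)^2`, continuous, `f = 0` on `[0, 1]`.  `z = y * cfc g a` with `a = star y * y ≥ 0`,
`‖a‖ ≤ R^2`.  `star z * z = cfc (t * g(t)^2) a`, `0 ≤ t * g(t)^2 ≤ 1` for `t ≥ 0`, so `‖z‖ ≤ 1`.
`star (y - z) * (y - z) = cfc f a`, so `n2 (y - z)^2 = (tr (cfc f a)).re`.  Let `η = ε^2 / 4`.  Weierstrass
(`exists_polynomial_near_of_continuousOn` on `Set.Icc 0 (R^2)`): a real polynomial with `|P - f| ≤ η/2` on `[0, R^2]`; replace `P` by `P - P(0)`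
(`f 0 = 0`): `|P - f| ≤ η` there and `P(0) = 0`.  So `P = ∑_{1 ≤ j ≤ m} c_j t^j`.  `(tr (cfc f a)).re ≤ (tr (P(a))).re + η`
(`cfc P a - cfc f a ≥ - η`, or `norm_tr_le`, `‖cfc P a - cfc f a‖ ≤ η`) and `tr (P(a)) = ∑ c_j tr (a^j)`,
which differs from `s * ∑ c_j tr (b^j) = s * tr (P(b))`, `b = star x * x`, by at most `δ ∑ |c_j|`; `‖b‖ ≤ 1`, so `‖cfc P b‖ = ‖cfc (P - f) b‖ ≤ η`.
Altogether `n2 (y - z)^2 ≤ 2 η + δ ∑ |c_j| ≤ 3 η < ε^2` with `δ = η / (1 + ∑ |c_j|)`.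
-/

set_option autoImplicit false

open Filter Topology

namespace Pool.Agent.Lib.UPE

variable {H : Type*} [NormedAddCommGroup H] [InnerProductSpace ℂ H] [CompleteSpace H]
variable {M : VonNeumannAlgebra H} {ξ : ℕ → H}

/-- the cut-off function -/
private noncomputable def tcG (t : ℝ) : ℝ := 1 / Real.sqrt (max t 1)

private theorem tcG_cont : Continuous tcG := by
  unfold tcG
  refine Continuous.div continuous_const (by fun_prop) ?_
  intro t
  have h1 : (1 : ℝ) ≤ max t 1 := le_max_right _ _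
  exact (Real.sqrt_pos.2 (by linarith)).ne'

/-- the error function -/
private noncomputable def tcF (t : ℝ) : ℝ := (tcG t - 1) * t * (tcG t - 1)

private theorem tcF_cont : Continuous tcF := by
  unfold tcF
  exact ((tcG_cont.sub continuous_const).mul continuous_id).mul (tcG_cont.sub continuous_const)

private theorem tcF_zero {t : ℝ} (h1 : t ≤ 1) : tcF t = 0 := by
  unfold tcF tcG
  rw [max_eq_right h1]
  simp

private theorem tcG_sq {t : ℝ} (h0 : 0 ≤ t) : |tcG t * t * tcG t| ≤ 1 := by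
  unfold tcG
  have h1 : (1 : ℝ) ≤ max t 1 := le_max_right _ _
  have h2 : t ≤ max t 1 := le_max_left _ _
  have h3 : 1 / Real.sqrt (max t 1) * t * (1 / Real.sqrt (max t 1)) = t / max t 1 := by
    have h4 : Real.sqrt (max t 1) * Real.sqrt (max t 1) = max t 1 :=
      Real.mul_self_sqrt (by linarith)
    rw [div_mul_eq_mul_div, one_mul, div_mul_div_comm, mul_one, h4]
  rw [h3, abs_of_nonneg (div_nonneg h0 (by linarith)), div_le_one (by linarith)]
  exact h2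

private theorem tc_spec {y : H →L[ℂ] H} {K : ℝ} (hy : ‖y‖ ≤ K) {t : ℝ}
    (ht : t ∈ spectrum ℝ (star y * y)) : 0 ≤ t ∧ t ≤ K ^ 2 := by
  have h0 : (0 : H →L[ℂ] H) ≤ star y * y := star_mul_self_nonneg y
  refine ⟨spectrum_nonneg_of_nonneg h0 ht, ?_⟩
  have h1 : ‖t‖ ≤ ‖star y * y‖ * ‖(1 : H →L[ℂ] H)‖ := spectrum.norm_le_norm_mul_of_mem ht
  have h2 : ‖(1 : H →L[ℂ] H)‖ ≤ 1 := ContinuousLinearMap.norm_id_le
  have h3 : ‖star y * y‖ = ‖y‖ * ‖y‖ := CStarRing.norm_star_mul_self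
  have h4 : t ≤ ‖t‖ := le_abs_self t
  have h5 : ‖y‖ * ‖y‖ ≤ K * K := mul_self_le_mul_self (norm_nonneg _) hy
  have h6 : ‖star y * y‖ * ‖(1 : H →L[ℂ] H)‖ ≤ ‖star y * y‖ * 1 :=
    mul_le_mul_of_nonneg_left h2 (norm_nonneg _)
  nlinarith

private theorem tc_conj (y : H →L[ℂ] H) {k : ℝ → ℝ} (hk : Continuous k) :
    star (y * cfc k (star y * y)) * (y * cfc k (star y * y)) =
      cfc (fun t : ℝ => k t * t * k t) (star y * y) := by
  have hsa : IsSelfAdjoint (star y * y) := IsSelfAdjoint.star_mul_self y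
  have h1 : star (cfc k (star y * y)) = cfc k (star y * y) := (cfc_predicate k (star y * y) : IsSelfAdjoint _)
  rw [cfc_mul (fun t : ℝ => k t * t) k (star y * y) (by fun_prop) (by fun_prop),
    cfc_mul k (fun t : ℝ => t) (star y * y) (by fun_prop) (by fun_prop), cfc_id' ℝ (star y * y),
    star_mul, h1]
  simp only [mul_assoc]

private theorem tc_norm {a : H →L[ℂ] H} {f : ℝ → ℝ} {c : ℝ} (hc : 0 ≤ c)
    (h : ∀ t ∈ spectrum ℝ a, |f t| ≤ c) : ‖cfc f a‖ ≤ c :=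
  norm_cfc_le hc (fun t ht => h t ht)

private theorem tc_poly (h : IsTrace M ξ) (Q : Polynomial ℝ) (a : H →L[ℂ] H) :
    tr ξ (Polynomial.aeval a Q) =
      ∑ j ∈ Finset.range (Q.natDegree + 1), ((Q.coeff j : ℝ) : ℂ) * tr ξ (a ^ j) := by
  rw [Polynomial.aeval_eq_sum_range, tr_sum h]
  refine Finset.sum_congr rfl fun j _ => ?_
  rw [← tr_smul, Complex.coe_smul]

theorem trunc (h : IsTrace M ξ) {R ε : ℝ} (hR : 1 ≤ R) (hε : 0 < ε) :
    ∃ (m : ℕ) (δ : ℝ), 0 < δ ∧ ∀ s : ℝ, 0 ≤ s → s ≤ 1 → ∀ x ∈ M, ‖x‖ ≤ 1 → ∀ y ∈ M, ‖y‖ ≤ R →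
      (∀ j : ℕ, 1 ≤ j → j ≤ m →
        ‖tr ξ ((star y * y) ^ j) - (s : ℂ) * tr ξ ((star x * x) ^ j)‖ ≤ δ) →
      ∃ z ∈ M, ‖z‖ ≤ 1 ∧ n2 ξ (z - y) ≤ ε := by
  set η : ℝ := ε ^ 2 / 4 with hη
  have hη0 : 0 < η := by positivity
  obtain ⟨P, hP⟩ := exists_polynomial_near_of_continuousOn 0 (R ^ 2) tcF tcF_cont.continuousOn (η / 2) (by positivity)
  have hR2 : 1 ≤ R ^ 2 := by nlinarith
  set Q : Polynomial ℝ := P - Polynomial.C (P.eval 0) with hQ
  have hP0 : |P.eval 0| < η / 2 := by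
    have := hP 0 ⟨le_rfl, by positivity⟩
    rwa [tcF_zero zero_le_one, sub_zero] at this
  have hQe : ∀ t ∈ Set.Icc (0 : ℝ) (R ^ 2), |tcF t - Q.eval t| ≤ η := by
    intro t ht
    have h1 := hP t ht
    have h2 : tcF t - Q.eval t = P.eval 0 - (P.eval t - tcF t) := by
      rw [hQ, Polynomial.eval_sub, Polynomial.eval_C]
      ring
    rw [h2]
    have h3 := abs_sub (P.eval 0) (P.eval t - tcF t)
    linarith
  have hQ0 : Q.coeff 0 = 0 := by
    rw [Polynomial.coeff_zero_eq_eval_zero, hQ, Polynomial.eval_sub, Polynomial.eval_C, sub_self]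
  set S : ℝ := ∑ j ∈ Finset.range (Q.natDegree + 1), |Q.coeff j| with hS
  have hS0 : 0 ≤ S := Finset.sum_nonneg fun j _ => abs_nonneg _
  refine ⟨Q.natDegree, η / (1 + S), by positivity, ?_⟩
  intro s hs0 hs1 x hx hx1 y hy hyR hj
  have hbM : star x * x ∈ M := mul_mem (star_mem hx) hx
  have haM : star y * y ∈ M := mul_mem (star_mem hy) hy
  have hasa : IsSelfAdjoint (star y * y) := IsSelfAdjoint.star_mul_self y
  have hbsa : IsSelfAdjoint (star x * x) := IsSelfAdjoint.star_mul_self x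
  have hd : y * cfc tcG (star y * y) - y = y * cfc (fun t : ℝ => tcG t - 1) (star y * y) := by
    rw [cfc_sub tcG (fun _ : ℝ => (1 : ℝ)) (star y * y) tcG_cont.continuousOn (by fun_prop),
      cfc_const_one ℝ (star y * y), mul_sub, mul_one]
  have hconj := tc_conj y (k := fun t : ℝ => tcG t - 1) (tcG_cont.sub continuous_const)
  have hn2 : ((n2 ξ (y * cfc tcG (star y * y) - y) ^ 2 : ℝ) : ℂ) = tr ξ (cfc tcF (star y * y)) := by
    rw [← tr_star_mul_self, hd, hconj]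
    rfl
  have hA : ‖tr ξ (cfc tcF (star y * y)) - tr ξ (Polynomial.aeval (star y * y) Q)‖ ≤ η := by
    rw [← tr_sub h, ← cfc_polynomial Q (star y * y) hasa,
      ← cfc_sub tcF (fun t => Q.eval t) (star y * y) tcF_cont.continuousOn (by fun_prop)]
    refine (norm_tr_le h _).trans ((n2_le_norm h _).trans (tc_norm hη0.le fun t ht => ?_))
    have h1 := tc_spec hyR ht
    exact hQe t ⟨h1.1, h1.2⟩
  have hB : ‖tr ξ (Polynomial.aeval (star x * x) Q)‖ ≤ η := by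
    rw [← cfc_polynomial Q (star x * x) hbsa]
    refine (norm_tr_le h _).trans ((n2_le_norm h _).trans (tc_norm hη0.le fun t ht => ?_))
    have h1 := tc_spec hx1 ht
    have h2 := hQe t ⟨h1.1, by nlinarith [h1.2]⟩
    rw [tcF_zero (by nlinarith [h1.2]), zero_sub, abs_neg] at h2
    exact h2
  have hC : ‖tr ξ (Polynomial.aeval (star y * y) Q) - (s : ℂ) * tr ξ (Polynomial.aeval (star x * x) Q)‖ ≤ η := by
    rw [tc_poly h, tc_poly h, Finset.mul_sum, ← Finset.sum_sub_distrib]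
    have h1 : ∀ j ∈ Finset.range (Q.natDegree + 1),
        ‖((Q.coeff j : ℝ) : ℂ) * tr ξ ((star y * y) ^ j) - (s : ℂ) * (((Q.coeff j : ℝ) : ℂ) * tr ξ ((star x * x) ^ j))‖ ≤
          |Q.coeff j| * (η / (1 + S)) := by
      intro j hjm
      have h2 : ((Q.coeff j : ℝ) : ℂ) * tr ξ ((star y * y) ^ j) - (s : ℂ) * (((Q.coeff j : ℝ) : ℂ) * tr ξ ((star x * x) ^ j)) =
          ((Q.coeff j : ℝ) : ℂ) * (tr ξ ((star y * y) ^ j) - (s : ℂ) * tr ξ ((star x * x) ^ j)) := by ring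
      rw [h2, norm_mul, Complex.norm_real, Real.norm_eq_abs]
      rcases Nat.eq_zero_or_pos j with h0 | h0
      · subst h0
        rw [hQ0]
        simp
      · exact mul_le_mul_of_nonneg_left (hj j h0 (by
          have := Finset.mem_range.1 hjm
          omega)) (abs_nonneg _)
    refine (norm_sum_le _ _).trans ((Finset.sum_le_sum h1).trans ?_)
    rw [← Finset.sum_mul, ← hS, mul_div_assoc', div_le_iff₀ (by positivity)]
    nlinarith
  have hfin : n2 ξ (y * cfc tcG (star y * y) - y) ^ 2 ≤ 3 * η := by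
    have h1 : ‖((n2 ξ (y * cfc tcG (star y * y) - y) ^ 2 : ℝ) : ℂ)‖ = n2 ξ (y * cfc tcG (star y * y) - y) ^ 2 := by
      rw [Complex.norm_real, Real.norm_eq_abs, abs_of_nonneg (by positivity)]
    rw [← h1, hn2]
    have h2 : tr ξ (cfc tcF (star y * y)) =
        (tr ξ (cfc tcF (star y * y)) - tr ξ (Polynomial.aeval (star y * y) Q)) +
          (tr ξ (Polynomial.aeval (star y * y) Q) - (s : ℂ) * tr ξ (Polynomial.aeval (star x * x) Q)) +
          (s : ℂ) * tr ξ (Polynomial.aeval (star x * x) Q) := by ring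
    have h3 : ‖(s : ℂ) * tr ξ (Polynomial.aeval (star x * x) Q)‖ ≤ η := by
      rw [norm_mul, Complex.norm_real, Real.norm_eq_abs, abs_of_nonneg hs0]
      have := norm_nonneg (tr ξ (Polynomial.aeval (star x * x) Q))
      nlinarith
    rw [h2]
    refine (norm_add₃_le).trans ?_
    linarith
  refine ⟨y * cfc tcG (star y * y), mul_mem hy (cfc_mem haM tcG), ?_, ?_⟩
  · have h1 : ‖star (y * cfc tcG (star y * y)) * (y * cfc tcG (star y * y))‖ ≤ 1 := by
      rw [tc_conj y tcG_cont]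
      exact tc_norm zero_le_one fun t ht => tcG_sq (tc_spec hyR ht).1
    have h2 : ‖star (y * cfc tcG (star y * y)) * (y * cfc tcG (star y * y))‖ =
        ‖y * cfc tcG (star y * y)‖ * ‖y * cfc tcG (star y * y)‖ := CStarRing.norm_star_mul_self
    have h3 := norm_nonneg (y * cfc tcG (star y * y))
    nlinarith
  · refine abs_le_of_sq_le_sq' (?_ : n2 ξ (y * cfc tcG (star y * y) - y) ^ 2 ≤ ε ^ 2) hε.le |>.2
    rw [hη] at hfin
    nlinarith

end Pool.Agent.Lib.UPE
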