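import Pool.Agent.Lib.UPE.TU

/-!
# UPE / TF (90 lines): the trace of a product of commuting elements

PROOF.  First `a = star c * c` with `c ∈ M` commuting with `P` (then `star c` does too: take adjoints, `P` is closed under `star`).  `φ b = tr (a * b)` for
`b ∈ P` (`φ b = tr ξ (a * b)` for all `b`): additive, homogeneous; tracial on `P`: `tr (a * (b * b')) = tr (a * b * b') = tr (b' * (a * b)) = tr (a * (b' * b))`
(`h.tracial`, `b' * a = a * b'`); positive: `a * (star b * b) = star (c * b) * (c * b)` (`tr_star_mul_self`).  `trace_unique hP`: `φ b = φ 1 * tr b = tr a * tr b`.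
General `a`: with `i` the imaginary unit, `4 * a = ∑_(k<4) i^k * star (a_k) * a_k`, `a_k = a + i^k • 1`, up to the sign convention for `i^k` (polarisation; check: expand); all `a_k`
commute with `P`.
-/

set_option autoImplicit false

open Filter Topology

namespace Pool.Agent.Lib.UPE

variable {H : Type*} [NormedAddCommGroup H] [InnerProductSpace ℂ H] [CompleteSpace H]
variable {M : VonNeumannAlgebra H} {ξ : ℕ → H}

/-- the case of a positive element -/
private theorem tf_pos (h : IsTrace M ξ) {P : VonNeumannAlgebra H} (hP : IsIIOne P ξ) (hPM : ∀ b ∈ P, b ∈ M)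
    {x b : H →L[ℂ] H} (hx : x ∈ M) (hxP : ∀ c ∈ P, x * c = c * x) (hb : b ∈ P) :
    tr ξ (star x * x * b) = tr ξ (star x * x) * tr ξ b := by
  have hsx : ∀ c ∈ P, star x * c = c * star x := by
    intro c hc
    have h1 := congrArg star (hxP (star c) (star_mem hc))
    rw [star_mul, star_mul, star_star] at h1
    exact h1.symm
  have haP : ∀ c ∈ P, star x * x * c = c * (star x * x) := by
    intro c hc
    rw [mul_assoc, hxP c hc, ← mul_assoc, hsx c hc, mul_assoc]
  have haM : star x * x ∈ M := mul_mem (star_mem hx) hx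
  have hφ := trace_unique hP (φ := fun b => tr ξ (star x * x * b))
    (fun b _ b' _ => by simp only [mul_add, tr_add h])
    (fun c b _ => by simp only [mul_smul_comm, tr_smul])
    (fun b hb b' hb' => by
      show tr ξ (star x * x * (b * b')) = tr ξ (star x * x * (b' * b))
      rw [← mul_assoc, h.tracial _ (mul_mem haM (hPM b hb)) b' (hPM b' hb'), ← mul_assoc, ← haP b' hb', mul_assoc])
    (fun b hb => by
      have e : star x * x * (star b * b) = star (x * b) * (x * b) := by
        rw [star_mul, mul_assoc, ← mul_assoc x, hxP (star b) (star_mem hb), mul_assoc (star b), ← mul_assoc (star x),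
          hsx (star b) (star_mem hb), mul_assoc]
      show 0 ≤ (tr ξ (star x * x * (star b * b))).re ∧ (tr ξ (star x * x * (star b * b))).im = 0
      rw [e, tr_star_mul_self]
      exact ⟨by rw [Complex.ofReal_re]; positivity, Complex.ofReal_im _⟩) hb
  simpa using hφ

theorem tr_split (h : IsTrace M ξ) {P : VonNeumannAlgebra H} (hP : IsIIOne P ξ) (hPM : ∀ b ∈ P, b ∈ M)
    {a b : H →L[ℂ] H} (ha : a ∈ M) (hab : ∀ c ∈ P, a * c = c * a) (hb : b ∈ P) :
    tr ξ (a * b) = tr ξ a * tr ξ b := by
  have key : ∀ z : ℂ, tr ξ (star (a + z • 1) * (a + z • 1) * b) = tr ξ (star (a + z • 1) * (a + z • 1)) * tr ξ b := by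
    intro z
    refine tf_pos h hP hPM (add_mem ha (smul_mem' z (one_mem M))) (fun c hc => ?_) hb
    rw [add_mul, mul_add, hab c hc, smul_mul_assoc, mul_smul_comm, one_mul, mul_one]
  have e1 : ∀ z : ℂ, star (a + z • (1 : H →L[ℂ] H)) * (a + z • 1) =
      star a * a + z • star a + (starRingEnd ℂ z) • a + (starRingEnd ℂ z * z) • (1 : H →L[ℂ] H) := by
    intro z
    rw [star_add, star_smul, star_one, add_mul, mul_add, mul_add, mul_smul_comm, mul_one, smul_mul_assoc, one_mul,
      smul_mul_assoc, one_mul, smul_smul, ← add_assoc]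
    rfl
  have e2 : ∀ z : ℂ, tr ξ (star a * a * b) + z * tr ξ (star a * b) + starRingEnd ℂ z * tr ξ (a * b) + starRingEnd ℂ z * z * tr ξ b =
      (tr ξ (star a * a) + z * tr ξ (star a) + starRingEnd ℂ z * tr ξ a + starRingEnd ℂ z * z) * tr ξ b := by
    intro z
    have h1 := key z
    rw [e1 z, add_mul, add_mul, add_mul, smul_mul_assoc, smul_mul_assoc, smul_mul_assoc, one_mul, tr_add h, tr_add h, tr_add h,
      tr_smul, tr_smul, tr_smul, tr_add h, tr_add h, tr_add h, tr_smul, tr_smul, tr_smul, tr_one h, mul_one] at h1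
    exact h1
  have f1 := e2 1
  have f2 := e2 (-1)
  have f3 := e2 Complex.I
  have f4 := e2 (-Complex.I)
  simp only [map_one, map_neg, Complex.conj_I] at f1 f2 f3 f4
  have hI : Complex.I * Complex.I = -1 := Complex.I_mul_I
  have e4 : (4 : ℂ) * tr ξ (a * b) = 4 * (tr ξ a * tr ξ b) := by
    linear_combination f1 - f2 + Complex.I * f3 - Complex.I * f4 +
      (2 * tr ξ (a * b) - 2 * tr ξ (star a * b) + 2 * tr ξ (star a) * tr ξ b - 2 * tr ξ a * tr ξ b) * hI
  exact mul_left_cancel₀ (by norm_num) e4

end Pool.Agent.Lib.UPE
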