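import Pool.Agent.Lib.UPE.DC
import Pool.Agent.Lib.UPE.KP
import Pool.Agent.Lib.UPE.TF
import Pool.Agent.Lib.UPE.EVT
import Pool.Agent.Lib.UPE.SMS
import Pool.Agent.Lib.UPE.TC

/-!
# UPE / TP (240 lines): the scales of a tensor factor are scales of the algebra

PROOF.  `x : Fin k → M` contractions, `m`, `ε`.  (1) `dense_of_comm` (with `h.unit.summable`) and `kap` for `S = alg M P` (`hgen` gives its hypothesis: an operator
that commutes with `alg M P` commutes with `P` and `rc M P`; `alg_le`): contractions `x' i ∈ alg M P` with `n2 (x i - x' i) ≤ ε1`; by `tr_ev_sub_le` (`R = 1`)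
`‖tr (ev x w) - tr (ev x' w)‖ ≤ m * ε1 < ε/4` for the words of length `≤ m`.
(2) `alg_sum`: `x' i = ∑ j : Fin n, a i j * b i j`.  Write `α (finProdFinEquiv (i, j)) = a i j`, `β` similarly for `b`.  `R = max 1 (∑ i j, ‖a i j‖)`.  `trunc` for `R` and
`ε2` (with `m * R ^ m * ε2 < ε/4`) gives `m'`, `δ`.  `Ap P s` for `β : Fin (k * n) → P`, length `N = max m (2 * m')`, tolerance `η`: `γ : Fin (k * n) → P` contractions with
`‖tr (ev γ v) - s * tr (ev β v)‖ < η` for `v ≠ []` of length `≤ N`.  `y' i = ∑ j, a i j * γ (ij)`, `‖y' i‖ ≤ R`, `y' i ∈ M`.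
(3) `ev_tensor` for a word `w ≠ []`: `tr (ev x' w) = ∑ v ∈ L, tr (ev α v * ev β v) = ∑ v ∈ L, tr (ev α v) * tr (ev β v)` (`tr_split`: `ev α v ∈ M` commutes with `P`, `ev β v ∈ P`), the
same for `y'` with `γ`.  So `‖tr (ev y' w) - s * tr (ev x' w)‖ ≤ η * ∑ v ∈ L, ‖tr (ev α v)‖`; for the finitely many words `w ≠ []` of length `≤ N`
(`List.finite_length_le`) this is `≤ min δ (ε/4)` if `η` is small (choose `η` after the lists `L`, which depend only on `k, n, w`; but `N` does not depend on `η`).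
(4) `(star (x' i) * x' i) ^ j` is the value of the word `((i, false), (i, true))` repeated `j` times (length `2 j ≤ 2 m'`), so `trunc` (for `x' i`, `y' i`) gives contractions
`z i ∈ M` with `n2 (z i - y' i) ≤ ε2`; `tr_ev_sub_le`: `‖tr (ev z w) - tr (ev y' w)‖ ≤ m * R ^ m * ε2 < ε/4`.  Altogether `‖tr (ev z w) - s * tr (ev x w)‖ < ε`.
-/

set_option autoImplicit false

open Filter Topology

namespace Pool.Agent.Lib.UPE

variable {H : Type*} [NormedAddCommGroup H] [InnerProductSpace ℂ H] [CompleteSpace H]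
variable {M : VonNeumannAlgebra H} {ξ : ℕ → H}

private theorem tp_lsum (h : IsTrace M ξ) {ι : Type*} (L : List ι) (f : ι → (H →L[ℂ] H)) :
    tr ξ ((L.map f).sum) = (L.map fun v => tr ξ (f v)).sum := by
  induction L with
  | nil => simp [tr_zero]
  | cons a L ih =>
    rw [List.map_cons, List.map_cons, List.sum_cons, List.sum_cons, tr_add h, ih]

private theorem tp_diff {ι : Type*} (L : List ι) (f g g' : ι → ℂ) (s : ℂ) {η : ℝ}
    (hd : ∀ v ∈ L, ‖g' v - s * g v‖ ≤ η) :
    ‖(L.map fun v => f v * g' v).sum - s * (L.map fun v => f v * g v).sum‖ ≤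
      (L.map fun v => ‖f v‖).sum * η := by
  induction L with
  | nil => simp
  | cons a L ih =>
    have h1 := ih (fun v hv => hd v (List.mem_cons_of_mem _ hv))
    have h2 := hd a List.mem_cons_self
    have h3 : f a * g' a + (L.map fun v => f v * g' v).sum - s * (f a * g a + (L.map fun v => f v * g v).sum) =
        f a * (g' a - s * g a) + ((L.map fun v => f v * g' v).sum - s * (L.map fun v => f v * g v).sum) := by ring
    rw [List.map_cons, List.map_cons, List.map_cons, List.sum_cons, List.sum_cons, List.sum_cons, h3, add_mul]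
    refine (norm_add_le _ _).trans (add_le_add ?_ h1)
    rw [norm_mul]
    exact mul_le_mul_of_nonneg_left h2 (norm_nonneg _)

private theorem tp_pow {A : Type*} [Monoid A] [Star A] {k : ℕ} (i : Fin k) (j : ℕ) :
    ∃ w : List (Fin k × Bool), w.length = 2 * j ∧ ∀ y : Fin k → A, ev y w = (star (y i) * y i) ^ j := by
  induction j with
  | zero => exact ⟨[], rfl, fun y => by rw [ev_nil, pow_zero]⟩
  | succ j ih =>
    obtain ⟨w, hw, he⟩ := ih
    refine ⟨(i, false) :: (i, true) :: w, ?_, fun y => ?_⟩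
    · rw [List.length_cons, List.length_cons, hw]
      ring
    · rw [ev_cons, ev_cons, he y, pow_succ', ← mul_assoc]
      rfl

private theorem tp_comm {P : VonNeumannAlgebra H} {k : ℕ} {α : Fin k → (H →L[ℂ] H)}
    (hα : ∀ i, α i ∈ rc M P) (v : List (Fin k × Bool)) : ∀ c ∈ P, ev α v * c = c * ev α v := by
  induction v with
  | nil =>
    intro c _
    rw [ev_nil, one_mul, mul_one]
  | cons l v ih =>
    intro c hc
    have h1 : lt α l * c = c * lt α l := by
      unfold lt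
      split_ifs
      · exact (hα l.1).2 c hc
      · have h2 := (hα l.1).2 (star c) (star_mem hc)
        have h3 := congrArg star h2
        rw [star_mul, star_mul, star_star] at h3
        exact h3.symm
    rw [ev_cons, mul_assoc, ih c hc, ← mul_assoc, h1, mul_assoc]

theorem ap_tensor (h : IsTrace M ξ) {P : VonNeumannAlgebra H} (hP : IsIIOne P ξ) (hPM : ∀ b ∈ P, b ∈ M)
    (hgen : ∀ x ∈ M, ∀ y : H →L[ℂ] H, (∀ b ∈ P, b * y = y * b) → (∀ a ∈ rc M P, a * y = y * a) →
      x * y = y * x) {s : ℝ} (hs0 : 0 ≤ s) (hs1 : s ≤ 1) (hs : Ap P ξ s) : Ap M ξ s := by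
  intro k m x hxM hx ε hε
  have hm1 : (0 : ℝ) < m + 1 := by positivity
  set ε1 : ℝ := ε / (4 * (m + 1)) with hε1
  have hε1p : 0 < ε1 := by positivity
  have hd : ∀ i, ∃ s ∈ alg M P, ‖s‖ ≤ 1 ∧ n2 ξ (x i - s) < ε1 := by
    intro i
    refine kap h (alg M P) (fun s hs => alg_le hPM hs) (hxM i) (hx i) (fun e he => ?_) hε1p
    refine dense_of_comm h.unit.summable (alg M P) (fun y hy => ?_) he
    exact hgen (x i) (hxM i) y (fun b hb => hy b (StarAlgebra.subset_adjoin ℂ _ (Or.inl hb)))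
      (fun a ha => hy a (StarAlgebra.subset_adjoin ℂ _ (Or.inr ha)))
  choose x' hx'S hx'1 hx'd using hd
  have hx'M : ∀ i, x' i ∈ M := fun i => alg_le hPM (hx'S i)
  obtain ⟨n, a, b, ha, hb, hxs⟩ := alg_sum hx'S
  set α : Fin (k * n) → (H →L[ℂ] H) := fun p => a (finProdFinEquiv.symm p).1 (finProdFinEquiv.symm p).2 with hα
  set β : Fin (k * n) → (H →L[ℂ] H) := fun p => b (finProdFinEquiv.symm p).1 (finProdFinEquiv.symm p).2 with hβ
  have hαa : ∀ i j, α (finProdFinEquiv (i, j)) = a i j := fun i j => by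
    rw [hα]
    simp only [Equiv.symm_apply_apply]
  have hβb : ∀ i j, β (finProdFinEquiv (i, j)) = b i j := fun i j => by
    rw [hβ]
    simp only [Equiv.symm_apply_apply]
  have hαr : ∀ p, α p ∈ rc M P := fun p => ha _ _
  have hβP : ∀ p, β p ∈ P := fun p => (hb _ _).1
  have hβ1 : ∀ p, ‖β p‖ ≤ 1 := fun p => (hb _ _).2
  set R : ℝ := max 1 (∑ i, ∑ j, ‖a i j‖) with hR
  have hR1 : 1 ≤ R := le_max_left _ _
  have hR0 : 0 < R := by linarith
  have hRi : ∀ i, ∑ j, ‖a i j‖ ≤ R := fun i =>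
    le_trans (Finset.single_le_sum (f := fun i => ∑ j, ‖a i j‖)
      (fun i _ => Finset.sum_nonneg fun j _ => norm_nonneg _) (Finset.mem_univ i)) (le_max_right _ _)
  set ε2 : ℝ := ε / (4 * (m + 1) * R ^ m) with hε2
  have hε2p : 0 < ε2 := by positivity
  obtain ⟨m', δ, hδ, htr⟩ := trunc h hR1 hε2p
  choose L hL1 hL2 using ev_tensor (A := H →L[ℂ] H) k n
  set N : ℕ := max m (2 * m') with hN
  have hfin := List.finite_length_le (Fin k × Bool) N
  set C : ℝ := ∑ w ∈ hfin.toFinset, ((L w).map fun v => ‖tr ξ (ev α v)‖).sum with hC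
  have hnn : ∀ w, 0 ≤ ((L w).map fun v => ‖tr ξ (ev α v)‖).sum := by
    intro w
    refine List.sum_nonneg fun r hr => ?_
    obtain ⟨v, _, rfl⟩ := List.mem_map.mp hr
    exact norm_nonneg _
  have hC0 : 0 ≤ C := Finset.sum_nonneg fun w _ => hnn w
  have hCw : ∀ w : List (Fin k × Bool), w.length ≤ N → ((L w).map fun v => ‖tr ξ (ev α v)‖).sum ≤ C := by
    intro w hw
    refine Finset.single_le_sum (f := fun w => ((L w).map fun v => ‖tr ξ (ev α v)‖).sum) (fun w _ => hnn w) ?_
    rw [Set.Finite.mem_toFinset]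
    exact hw
  set θ : ℝ := min δ (ε / 4) with hθ
  have hθp : 0 < θ := lt_min hδ (by linarith)
  set η : ℝ := θ / (C + 1) with hη
  have hηp : 0 < η := by positivity
  have hCη : C * η ≤ θ := by
    have h1 : (C + 1) * η = θ := by
      rw [hη]
      field_simp
    nlinarith
  obtain ⟨γ, hγP, hγ1, hγ⟩ := hs (k * n) N β hβP hβ1 η hηp
  set y' : Fin k → (H →L[ℂ] H) := fun i => ∑ j, a i j * γ (finProdFinEquiv (i, j)) with hy'
  have hy'M : ∀ i, y' i ∈ M := fun i => sum_mem fun j _ => mul_mem (ha i j).1 (hPM _ (hγP _))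
  have hy'R : ∀ i, ‖y' i‖ ≤ R := by
    intro i
    refine le_trans (norm_sum_le _ _) (le_trans (Finset.sum_le_sum fun j _ => ?_) (hRi i))
    refine (norm_mul_le _ _).trans ?_
    exact mul_le_of_le_one_right (norm_nonneg _) (hγ1 _)
  have key : ∀ w : List (Fin k × Bool), w ≠ [] → w.length ≤ N →
      ‖tr ξ (ev y' w) - (s : ℂ) * tr ξ (ev x' w)‖ ≤ θ := by
    intro w hw hwN
    have e1 : ev x' w = ((L w).map fun v => ev α v * ev β v).sum := by
      have h1 := hL2 w α β (fun i j => (hαr i).2 _ (hβP j)) (fun i j => (hαr i).2 _ (star_mem (hβP j)))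
      rw [← h1]
      congr 1
      funext i
      rw [hxs i]
      refine Finset.sum_congr rfl fun j _ => ?_
      rw [hαa, hβb]
    have e2 : ev y' w = ((L w).map fun v => ev α v * ev γ v).sum := by
      have h1 := hL2 w α γ (fun i j => (hαr i).2 _ (hγP j)) (fun i j => (hαr i).2 _ (star_mem (hγP j)))
      rw [← h1]
      congr 1
      funext i
      rw [hy']
      refine Finset.sum_congr rfl fun j _ => ?_
      rw [hαa]
    have e3 : ∀ v, tr ξ (ev α v * ev β v) = tr ξ (ev α v) * tr ξ (ev β v) := fun v =>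
      tr_split h hP hPM (ev_mem (fun p => (hαr p).1) v) (tp_comm hαr v) (ev_mem (M := P) hβP v)
    have e4 : ∀ v, tr ξ (ev α v * ev γ v) = tr ξ (ev α v) * tr ξ (ev γ v) := fun v =>
      tr_split h hP hPM (ev_mem (fun p => (hαr p).1) v) (tp_comm hαr v) (ev_mem (M := P) hγP v)
    rw [e1, e2, tp_lsum h, tp_lsum h]
    simp only [e3, e4]
    refine (tp_diff (L w) (fun v => tr ξ (ev α v)) (fun v => tr ξ (ev β v)) (fun v => tr ξ (ev γ v)) (s : ℂ)
      (η := η) fun v hv => ?_).trans ?_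
    · have hlen := hL1 w v hv
      have hvne : v ≠ [] := by
        rintro rfl
        exact hw (List.length_eq_zero_iff.mp hlen.symm)
      exact (hγ v hvne (by rw [hlen]; exact hwN)).le
    · exact (mul_le_mul_of_nonneg_right (hCw w hwN) hηp.le).trans hCη
  have hz : ∀ i, ∃ z ∈ M, ‖z‖ ≤ 1 ∧ n2 ξ (z - y' i) ≤ ε2 := by
    intro i
    refine htr s hs0 hs1 (x' i) (hx'M i) (hx'1 i) (y' i) (hy'M i) (hy'R i) fun j hj1 hj2 => ?_
    obtain ⟨w, hwl, hwe⟩ := tp_pow (A := H →L[ℂ] H) i j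
    rw [← hwe y', ← hwe x']
    refine (key w ?_ ?_).trans (min_le_left _ _)
    · rintro rfl
      rw [List.length_nil] at hwl
      omega
    · rw [hwl, hN]
      exact le_trans (by omega) (le_max_right _ _)
  choose z hzM hz1 hzd using hz
  refine ⟨z, hzM, hz1, fun w hw hwm => ?_⟩
  have c1 := tr_ev_sub_le h hR1 hzM hy'M (fun i => (hz1 i).trans hR1) hy'R hzd hε2p.le w
  have c2 := (key w hw (hwm.trans (le_max_left _ _))).trans (min_le_right _ _)
  have c3 := tr_ev_sub_le h le_rfl hxM hx'M hx hx'1 (fun i => (hx'd i).le) hε1p.le w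
  rw [one_pow, mul_one] at c3
  have hwm' : (w.length : ℝ) ≤ m + 1 := by
    have : (w.length : ℝ) ≤ m := by exact_mod_cast hwm
    linarith
  have b1 : (w.length : ℝ) * R ^ w.length * ε2 ≤ ε / 4 := by
    have h1 : (w.length : ℝ) * R ^ w.length ≤ (m + 1) * R ^ m :=
      mul_le_mul hwm' (pow_le_pow_right₀ hR1 hwm) (by positivity) hm1.le
    have h2 : (m + 1) * R ^ m * ε2 = ε / 4 := by
      rw [hε2]
      field_simp
    rw [← h2]
    exact mul_le_mul_of_nonneg_right h1 hε2p.le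
  have b3 : (w.length : ℝ) * ε1 ≤ ε / 4 := by
    have h2 : (m + 1) * ε1 = ε / 4 := by
      rw [hε1]
      field_simp
    rw [← h2]
    exact mul_le_mul_of_nonneg_right hwm' hε1p.le
  have d1 : tr ξ (ev z w) - (s : ℂ) * tr ξ (ev x w) = (tr ξ (ev z w) - tr ξ (ev y' w)) +
      (tr ξ (ev y' w) - (s : ℂ) * tr ξ (ev x' w)) + (-(s : ℂ)) * (tr ξ (ev x w) - tr ξ (ev x' w)) := by ring
  have d2 : ‖(-(s : ℂ)) * (tr ξ (ev x w) - tr ξ (ev x' w))‖ ≤ ε / 4 := by
    rw [norm_mul, norm_neg, Complex.norm_real, Real.norm_of_nonneg hs0]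
    exact (mul_le_of_le_one_left (norm_nonneg _) hs1).trans (c3.trans b3)
  rw [d1]
  have d3 := norm_add₃_le (a := tr ξ (ev z w) - tr ξ (ev y' w)) (b := tr ξ (ev y' w) - (s : ℂ) * tr ξ (ev x' w))
    (c := (-(s : ℂ)) * (tr ξ (ev x w) - tr ξ (ev x' w)))
  have d4 := c1.trans b1
  linarith

end Pool.Agent.Lib.UPE
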