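import Pool.Agent.Lib.UPE.FIN2
import Pool.Agent.Lib.UPE.TP

/-!
# UPE / FIN3: tensor factors
-/

set_option autoImplicit false

open Filter Topology

namespace Pool.Agent.Lib.UPE

variable {H : Type*} [NormedAddCommGroup H] [InnerProductSpace ℂ H] [CompleteSpace H]
variable {M : VonNeumannAlgebra H} {ξ : ℕ → H}

theorem main3 (h : IsIIOne M ξ) (hsep : Sep M ξ) {P : VonNeumannAlgebra H} (hP : IsIIOne P ξ)
    (hPM : ∀ b ∈ P, b ∈ M)
    (hgen : ∀ x ∈ M, ∀ y : H →L[ℂ] H, (∀ b ∈ P, b * y = y * b) → (∀ a ∈ rc M P, a * y = y * a) →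
      x * y = y * x) {V : Ultrafilter ℕ} (hV : MatEmb P ξ V 2) {U : Ultrafilter ℕ}
    (hU : (U : Filter ℕ) ≤ cofinite) {n : ℕ} (hn : 1 ≤ n) : MatEmb M ξ U n := by
  have hT := h.toIsTrace
  have h0 := emb_ap hP.toIsTrace V (by norm_num) (by norm_num) (mat_sc (n := 2) (by norm_num) hV)
  have h1 := ap_tensor hT hP hPM hgen (by norm_num) (by norm_num) h0
  have h2 : ∀ t : ℝ, 0 ≤ t → t ≤ 1 → Ap M ξ t := fun t ht0 ht1 =>
    ap_all h (by norm_num) (by norm_num) h1 ht0 ht1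
  have h3 := ((main2 h hsep).out 5 1).1 (fun k => ap_convex h h2 k)
  exact h3 U hU n hn

end Pool.Agent.Lib.UPE
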