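import Pool.Agent.Lib.UPE.CL

/-!
# UPE / SG (200 lines): the set of scales

PROOF.  `ap_mul`: given `x` contractions, take `y` from `Ap s` (tolerance `ε/2`) and `z` from `Ap t` for `y` (tolerance `ε/2`):
`‖tr (ev z w) - t * tr (ev y w)‖ < ε/2`, `‖t * tr (ev y w) - t * s * tr (ev x w)‖ < ε/2` as `|t| ≤ 1`.
`ap_add`: `exists_trace` for `q = 1` (`IsStarProjection.one`, `tr_one`): `p` with `tr p = s`; for `q = 1 - p`: `p'` with `tr p' = t`, `p' * (1 - p) = p'`, so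
`p * p' = 0 = p' * p`.  `ap_corner`: `y i ∈ p M p`, `z i ∈ p' M p'` for `x` and `ε/2`.  `y i + z i`: products `y · z` vanish, so for `w ≠ []`
`ev (y + z) w = ev y w + ev z w` (induction), `‖y i + z i‖ ≤ 1` (`‖(y i + z i) ζ‖^2 = ‖y i p ζ‖^2 + ‖z i p' ζ‖^2 ≤ ‖p ζ‖^2 + ‖p' ζ‖^2 ≤ ‖ζ‖^2`).
`ap_closed`: choose `s'` with `|s' - t| < ε/2`, `‖tr (ev x w)‖ ≤ 1` (`norm_tr_le`, `n2_le_norm`, `norm_ev_le` with `R = 1`).
`ap_zero`: `y = 0`.  `ap_all`: `t = 0`: `ap_zero`.  `0 < t ≤ 1`: given `η > 0`, `s ^ k < η` for some `k ≥ 1`; `Ap (s ^ k)` by `ap_mul`;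
with `j = ⌊t / s^k⌋`, `j * s^k ≤ t ≤ 1`, `Ap (j * s^k)` by `ap_add` (induction on `j`, `j ≥ 1` if `η ≤ t`; `j = 0` is `ap_zero`),
`t - j * s^k < s^k < η`; `ap_closed`.
-/

set_option autoImplicit false

open Filter Topology

namespace Pool.Agent.Lib.UPE

variable {H : Type*} [NormedAddCommGroup H] [InnerProductSpace ℂ H] [CompleteSpace H]
variable {M : VonNeumannAlgebra H} {ξ : ℕ → H}

private theorem lt_add' {k : ℕ} (y z : Fin k → (H →L[ℂ] H)) (l : Fin k × Bool) :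
    lt (fun i => y i + z i) l = lt y l + lt z l := by
  unfold lt
  split_ifs
  · rfl
  · exact star_add _ _

private theorem lt_corner {k : ℕ} {y : Fin k → (H →L[ℂ] H)} {p : H →L[ℂ] H} (hp : star p = p)
    (h : ∀ i, p * y i * p = y i) (l : Fin k × Bool) : p * lt y l * p = lt y l := by
  unfold lt
  split_ifs
  · exact h _
  · have h1 := congrArg star (h l.1)
    rw [star_mul, star_mul, hp, ← mul_assoc] at h1
    exact h1

private theorem ev_add' {k : ℕ} {y z : Fin k → (H →L[ℂ] H)} (h1 : ∀ l l', lt y l * lt z l' = 0)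
    (h2 : ∀ l l', lt z l * lt y l' = 0) :
    ∀ w : List (Fin k × Bool), w ≠ [] → ev (fun i => y i + z i) w = ev y w + ev z w
  | [], h => absurd rfl h
  | [l], _ => by
    rw [ev_cons, ev_cons, ev_cons, ev_nil, ev_nil, ev_nil, mul_one, mul_one, mul_one, lt_add']
  | l :: l' :: w, _ => by
    rw [ev_cons (fun i => y i + z i) l, ev_add' h1 h2 (l' :: w) (by simp), ev_cons y l, ev_cons z l, lt_add']
    have h3 : lt y l * ev z (l' :: w) = 0 := by rw [ev_cons, ← mul_assoc, h1, zero_mul]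
    have h4 : lt z l * ev y (l' :: w) = 0 := by rw [ev_cons, ← mul_assoc, h2, zero_mul]
    rw [add_mul, mul_add, mul_add, h3, h4, add_zero, zero_add]

omit [CompleteSpace H] in
private theorem mul_zero_of_corner {p q a b : H →L[ℂ] H} (hpq : p * q = 0) (ha : p * a * p = a)
    (hb : q * b * q = b) : a * b = 0 := by
  rw [← ha, ← hb]
  calc p * a * p * (q * b * q) = p * a * (p * q) * b * q := by simp only [mul_assoc]
    _ = 0 := by rw [hpq]; simp

private theorem norm_add_le_one {p q a b : H →L[ℂ] H} (hp : IsStarProjection p) (hq : IsStarProjection q)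
    (hpq : p * q = 0) (hqp : q * p = 0) (ha : p * a * p = a) (hb : q * b * q = b) (ha1 : ‖a‖ ≤ 1)
    (hb1 : ‖b‖ ≤ 1) : ‖a + b‖ ≤ 1 := by
  have hps : star p = p := hp.isSelfAdjoint.star_eq
  have hqs : star q = q := hq.isSelfAdjoint.star_eq
  have hadd : IsStarProjection (p + q) := by
    refine ⟨?_, ?_⟩
    · change (p + q) * (p + q) = p + q
      rw [add_mul, mul_add, mul_add, hpq, hqp, add_zero, zero_add]
      rw [show p * p = p from hp.isIdempotentElem, show q * q = q from hq.isIdempotentElem]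
    · change star (p + q) = p + q
      rw [star_add, hps, hqs]
  have hpadj : ContinuousLinearMap.adjoint p = p := hps
  refine ContinuousLinearMap.opNorm_le_bound _ zero_le_one fun ζ => ?_
  rw [one_mul]
  have ea : a ζ = p (a ζ) := by
    have h1 : p * a = a := by
      rw [← ha]
      calc p * (p * a * p) = (p * p) * a * p := by simp only [mul_assoc]
        _ = p * a * p := by rw [show p * p = p from hp.isIdempotentElem]
    exact (congrArg (fun T : H →L[ℂ] H => T ζ) h1).symm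
  have eb0 : p (b ζ) = 0 := by
    have h1 : p * b = 0 := by
      rw [← hb]
      calc p * (q * b * q) = (p * q) * b * q := by simp only [mul_assoc]
        _ = 0 := by rw [hpq]; simp
    exact congrArg (fun T : H →L[ℂ] H => T ζ) h1
  have ea2 : a ζ = a (p ζ) := by
    have h1 : a * p = a := by
      rw [← ha]
      calc p * a * p * p = p * a * (p * p) := by simp only [mul_assoc]
        _ = p * a * p := by rw [show p * p = p from hp.isIdempotentElem]
    exact (congrArg (fun T : H →L[ℂ] H => T ζ) h1).symm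
  have eb2 : b ζ = b (q ζ) := by
    have h1 : b * q = b := by
      rw [← hb]
      calc q * b * q * q = q * b * (q * q) := by simp only [mul_assoc]
        _ = q * b * q := by rw [show q * q = q from hq.isIdempotentElem]
    exact (congrArg (fun T : H →L[ℂ] H => T ζ) h1).symm
  have hort1 : inner ℂ (a ζ) (b ζ) = 0 := by
    rw [ea]
    have h1 := ContinuousLinearMap.adjoint_inner_left p (b ζ) (a ζ)
    rw [hpadj, eb0, inner_zero_right] at h1
    exact h1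
  have hort2 : inner ℂ (p ζ) (q ζ) = 0 := by
    have h1 := ContinuousLinearMap.adjoint_inner_left p (q ζ) ζ
    have h2 : p (q ζ) = 0 := congrArg (fun T : H →L[ℂ] H => T ζ) hpq
    rw [hpadj, h2, inner_zero_right] at h1
    exact h1
  have hn1 : ‖(a + b) ζ‖ * ‖(a + b) ζ‖ = ‖a ζ‖ * ‖a ζ‖ + ‖b ζ‖ * ‖b ζ‖ :=
    norm_add_sq_eq_norm_sq_add_norm_sq_of_inner_eq_zero (𝕜 := ℂ) (a ζ) (b ζ) hort1
  have hn2 : ‖(p + q) ζ‖ * ‖(p + q) ζ‖ = ‖p ζ‖ * ‖p ζ‖ + ‖q ζ‖ * ‖q ζ‖ :=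
    norm_add_sq_eq_norm_sq_add_norm_sq_of_inner_eq_zero (𝕜 := ℂ) (p ζ) (q ζ) hort2
  have hn3 : ‖(p + q) ζ‖ ≤ ‖ζ‖ :=
    ((p + q).le_of_opNorm_le (norm_proj_le hadd) ζ).trans (by rw [one_mul])
  have hn4 : ‖a ζ‖ ≤ ‖p ζ‖ := by
    rw [ea2]; exact (a.le_of_opNorm_le ha1 _).trans (by rw [one_mul])
  have hn5 : ‖b ζ‖ ≤ ‖q ζ‖ := by
    rw [eb2]; exact (b.le_of_opNorm_le hb1 _).trans (by rw [one_mul])
  refine abs_le_of_sq_le_sq' ?_ (norm_nonneg ζ) |>.2
  nlinarith [norm_nonneg (a ζ), norm_nonneg (b ζ), norm_nonneg ((p + q) ζ), norm_nonneg ζ, norm_nonneg (p ζ),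
    norm_nonneg (q ζ), mul_self_le_mul_self (norm_nonneg (a ζ)) hn4, mul_self_le_mul_self (norm_nonneg (b ζ)) hn5,
    mul_self_le_mul_self (norm_nonneg ((p + q) ζ)) hn3]

theorem ap_zero : Ap M ξ 0 := by
  intro k m x hxM hx ε hε
  refine ⟨fun _ => 0, fun _ => zero_mem _, fun _ => by simp, ?_⟩
  intro w hw _
  have h0 : ev (fun _ : Fin k => (0 : H →L[ℂ] H)) w = 0 := by
    cases w with
    | nil => exact absurd rfl hw
    | cons l w => rw [ev_cons]; simp [lt]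
  rw [h0, tr_zero]
  simpa using hε

theorem ap_mul {s t : ℝ} (ht0 : 0 ≤ t) (ht1 : t ≤ 1) (hs : Ap M ξ s) (ht : Ap M ξ t) : Ap M ξ (s * t) := by
  intro k m x hxM hx ε hε
  obtain ⟨y, hyM, hy, hy2⟩ := hs k m x hxM hx (ε / 2) (half_pos hε)
  obtain ⟨z, hzM, hz, hz2⟩ := ht k m y hyM hy (ε / 2) (half_pos hε)
  refine ⟨z, hzM, hz, fun w hw hm => ?_⟩
  have h1 := hz2 w hw hm
  have h2 := hy2 w hw hm
  have h3 : ‖(t : ℂ) * (tr ξ (ev y w) - (s : ℂ) * tr ξ (ev x w))‖ ≤ ε / 2 := by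
    rw [norm_mul, Complex.norm_real, Real.norm_eq_abs, abs_of_nonneg ht0]
    nlinarith [norm_nonneg (tr ξ (ev y w) - (s : ℂ) * tr ξ (ev x w))]
  calc ‖tr ξ (ev z w) - ((s * t : ℝ) : ℂ) * tr ξ (ev x w)‖
      = ‖(tr ξ (ev z w) - (t : ℂ) * tr ξ (ev y w)) + (t : ℂ) * (tr ξ (ev y w) - (s : ℂ) * tr ξ (ev x w))‖ := by
        congr 1; push_cast; ring
    _ ≤ ‖tr ξ (ev z w) - (t : ℂ) * tr ξ (ev y w)‖ + ‖(t : ℂ) * (tr ξ (ev y w) - (s : ℂ) * tr ξ (ev x w))‖ :=
        norm_add_le _ _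
    _ < ε := by linarith

theorem ap_add (h : IsIIOne M ξ) {s t : ℝ} (hs0 : 0 ≤ s) (ht0 : 0 ≤ t) (hst : s + t ≤ 1)
    (hs : Ap M ξ s) (ht : Ap M ξ t) : Ap M ξ (s + t) := by
  have hT : IsTrace M ξ := h.toIsTrace
  obtain ⟨p, hpM, hp, -, hpt⟩ := exists_trace h (q := 1) (IsStarProjection.one _) (one_mem _) (s := s) hs0
    (by rw [tr_one hT, Complex.one_re]; linarith)
  have hq : IsStarProjection (1 - p) := hp.one_sub
  have hqM : (1 - p) ∈ M := sub_mem (one_mem _) hpM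
  have hqt : (tr ξ (1 - p)).re = 1 - s := by
    rw [tr_sub hT, tr_one hT, hpt, Complex.sub_re, Complex.one_re, Complex.ofReal_re]
  obtain ⟨p', hp'M, hp', hp'q, hp't⟩ := exists_trace h hq hqM (s := t) ht0 (by rw [hqt]; linarith)
  have h1 : p' * p = 0 := by
    rw [mul_sub, mul_one] at hp'q
    have h3 : p' * p = p' - (p' - p' * p) := by abel
    rw [h3, hp'q, sub_self]
  have h2 : p * p' = 0 := by
    have h3 := congrArg star h1
    rw [star_mul, hp.isSelfAdjoint.star_eq, hp'.isSelfAdjoint.star_eq, star_zero] at h3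
    exact h3
  intro k m x hxM hx ε hε
  obtain ⟨y, hyM, hy, hyp, hy2⟩ := ap_corner h hs hp hpM hpt k m x hxM hx (ε / 2) (half_pos hε)
  obtain ⟨z, hzM, hz, hzp, hz2⟩ := ap_corner h ht hp' hp'M hp't k m x hxM hx (ε / 2) (half_pos hε)
  refine ⟨fun i => y i + z i, fun i => add_mem (hyM i) (hzM i),
    fun i => norm_add_le_one hp hp' h2 h1 (hyp i) (hzp i) (hy i) (hz i), fun w hw hm => ?_⟩
  have h5 : ev (fun i => y i + z i) w = ev y w + ev z w :=
    ev_add' (fun l l' => mul_zero_of_corner h2 (lt_corner hp.isSelfAdjoint.star_eq hyp l)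
      (lt_corner hp'.isSelfAdjoint.star_eq hzp l'))
      (fun l l' => mul_zero_of_corner h1 (lt_corner hp'.isSelfAdjoint.star_eq hzp l)
      (lt_corner hp.isSelfAdjoint.star_eq hyp l')) w hw
  have h6 := hy2 w hw hm
  have h7 := hz2 w hw hm
  rw [hpt] at h6
  rw [hp't] at h7
  rw [h5, tr_add hT]
  calc ‖tr ξ (ev y w) + tr ξ (ev z w) - ((s + t : ℝ) : ℂ) * tr ξ (ev x w)‖
      = ‖(tr ξ (ev y w) - (s : ℂ) * tr ξ (ev x w)) + (tr ξ (ev z w) - (t : ℂ) * tr ξ (ev x w))‖ := by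
        congr 1; push_cast; ring
    _ ≤ ‖tr ξ (ev y w) - (s : ℂ) * tr ξ (ev x w)‖ + ‖tr ξ (ev z w) - (t : ℂ) * tr ξ (ev x w)‖ :=
        norm_add_le _ _
    _ < ε := by linarith

theorem ap_closed (h : IsTrace M ξ) {t : ℝ} (ht : ∀ η : ℝ, 0 < η → ∃ s : ℝ, |s - t| < η ∧ Ap M ξ s) :
    Ap M ξ t := by
  intro k m x hxM hx ε hε
  obtain ⟨s, hst, hs⟩ := ht (ε / 2) (half_pos hε)
  obtain ⟨y, hyM, hy, hy2⟩ := hs k m x hxM hx (ε / 2) (half_pos hε)
  refine ⟨y, hyM, hy, fun w hw hm => ?_⟩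
  have h1 := hy2 w hw hm
  have h2 : ‖tr ξ (ev x w)‖ ≤ 1 := by
    refine (norm_tr_le h _).trans ((n2_le_norm h _).trans ?_)
    simpa using norm_ev_le (le_refl (1 : ℝ)) hx w
  have h3 : ‖((s - t : ℝ) : ℂ) * tr ξ (ev x w)‖ ≤ |s - t| := by
    rw [norm_mul, Complex.norm_real, Real.norm_eq_abs]
    exact mul_le_of_le_one_right (abs_nonneg _) h2
  calc ‖tr ξ (ev y w) - (t : ℂ) * tr ξ (ev x w)‖
      = ‖(tr ξ (ev y w) - (s : ℂ) * tr ξ (ev x w)) + ((s - t : ℝ) : ℂ) * tr ξ (ev x w)‖ := by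
        congr 1; push_cast; ring
    _ ≤ ‖tr ξ (ev y w) - (s : ℂ) * tr ξ (ev x w)‖ + ‖((s - t : ℝ) : ℂ) * tr ξ (ev x w)‖ := norm_add_le _ _
    _ < ε := by linarith

theorem ap_all (h : IsIIOne M ξ) {s : ℝ} (hs0 : 0 < s) (hs1 : s < 1) (hs : Ap M ξ s) {t : ℝ}
    (ht0 : 0 ≤ t) (ht1 : t ≤ 1) : Ap M ξ t := by
  have hpow : ∀ k : ℕ, Ap M ξ (s ^ (k + 1)) := by
    intro k
    induction k with
    | zero => simpa using hs
    | succ k ih => rw [pow_succ]; exact ap_mul hs0.le hs1.le ih hs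
  refine ap_closed h.toIsTrace fun η hη => ?_
  obtain ⟨n, hn⟩ := exists_pow_lt_of_lt_one hη hs1
  have hu0 : 0 < s ^ (n + 1) := by positivity
  have huη : s ^ (n + 1) < η := by
    rw [pow_succ]
    nlinarith [pow_pos hs0 n]
  have hun := hpow n
  generalize s ^ (n + 1) = u at hu0 huη hun
  have hmul : ∀ j : ℕ, (j : ℝ) * u ≤ 1 → Ap M ξ (j * u) := by
    intro j
    induction j with
    | zero => intro _; simpa using ap_zero
    | succ j ih =>
      intro hj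
      have hj' : (j : ℝ) * u + u ≤ 1 := by push_cast at hj; linarith
      have h3 := ap_add h (by positivity) hu0.le hj' (ih (by linarith)) hun
      have h4 : ((j + 1 : ℕ) : ℝ) * u = (j : ℝ) * u + u := by push_cast; ring
      rw [h4]; exact h3
  have hfl := Nat.floor_le (show 0 ≤ t / u by positivity)
  have hfl2 := Nat.lt_floor_add_one (t / u)
  have h5 : (⌊t / u⌋₊ : ℝ) * u ≤ t := by rwa [le_div_iff₀ hu0] at hfl
  have h6 : t < ((⌊t / u⌋₊ : ℝ) + 1) * u := by rwa [div_lt_iff₀ hu0] at hfl2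
  refine ⟨⌊t / u⌋₊ * u, ?_, hmul _ (h5.trans ht1)⟩
  rw [abs_lt]
  constructor <;> nlinarith

end Pool.Agent.Lib.UPE
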