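import Pool.Agent.Lib.UPE.CT
import Pool.Agent.Lib.UPE.EA2
import Pool.Agent.Lib.UPE.CUP
import Pool.Agent.Lib.UPE.SG

/-!
# UPE / INV: stable invariance
-/

set_option autoImplicit false

open Filter Topology

namespace Pool.Agent.Lib.UPE

variable {H : Type*} [NormedAddCommGroup H] [InnerProductSpace ℂ H] [CompleteSpace H]
variable {K : Type*} [NormedAddCommGroup K] [InnerProductSpace ℂ K] [CompleteSpace K]
variable {M : VonNeumannAlgebra H} {ξ : ℕ → H} {N : VonNeumannAlgebra K} {η : ℕ → K}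

theorem below_ap (h : IsIIOne M ξ) (hN : IsTrace N η) (h1 : Below M N η) :
    ∃ (p : H →L[ℂ] H) (c : ℝ), p ∈ M ∧ IsStarProjection p ∧ p ≠ 0 ∧ 0 < c ∧ ApS M ξ p N η c := by
  obtain ⟨U, p, t, Θ, hpM, hp, hΘ, h0⟩ := h1
  obtain ⟨c, hc, hΘc⟩ := cs_trace h hN hp hpM hΘ h0
  refine ⟨p, c, hpM, hp, ?_, hc, cs_ap h.toIsTrace hN hp hpM hc.le hΘc⟩
  rintro rfl
  refine h0 ?_
  have h2 := hΘ.smul 0 0 ⟨zero_mem M, by simp⟩
  simpa using h2

theorem inv_ap (h : IsIIOne M ξ) (hN : IsIIOne N η) (h1 : Below M N η) (h2 : Below N M ξ) {r0 : ℝ}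
    (hr0 : 0 < r0) (hr1 : r0 < 1) (hr : Ap N η r0) : ∃ s : ℝ, 0 < s ∧ s < 1 ∧ Ap M ξ s := by
  obtain ⟨p, c, hpM, hp, hp0, hc, a1⟩ := below_ap h hN.toIsTrace h1
  obtain ⟨q, d, hqN, hq, hq0, hd, a2⟩ := below_ap hN h.toIsTrace h2
  obtain ⟨hq1, hq2, -⟩ := re_tr_proj_mem hN.toIsTrace hq
  have hq3 : 0 < (tr η q).re := lt_of_le_of_ne hq1 fun h3 => hq0 (proj_eq_zero hN.toIsTrace hq hqN h3.symm)
  obtain ⟨r, hrp, hrq, hr2, hrcd⟩ : ∃ r : ℝ, 0 < r ∧ r ≤ (tr η q).re ∧ r ≤ 1 ∧ c * r * d < 1 := by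
    have h3 : 0 < 1 / (2 * (c * d)) := by positivity
    refine ⟨min (tr η q).re (1 / (2 * (c * d))), lt_min hq3 h3, min_le_left _ _,
      (min_le_left _ _).trans hq2, ?_⟩
    calc c * min (tr η q).re (1 / (2 * (c * d))) * d ≤ c * (1 / (2 * (c * d))) * d := by
          gcongr
          exact min_le_right _ _
      _ = 1 / 2 := by field_simp
      _ < 1 := by norm_num
  obtain ⟨e, heN, he, heq, hte⟩ := exists_trace hN hq hqN hrp.le hrq
  have a3 : ApC N η e := ap_corner hN (ap_all hN hr0 hr1 hr hrp.le hr2) he heN hte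
  have hqe : q * e = e := by
    have h3 := congrArg star heq
    rwa [star_mul, he.isSelfAdjoint.star_eq, hq.isSelfAdjoint.star_eq] at h3
  have a4 : ApS M ξ p M ξ (c * r * d) := by
    intro k m x hx hx1 ε hε
    set ε1 : ℝ := ε / (1 + 2 * d) with hε1
    have hε1' : 0 < ε1 := by positivity
    obtain ⟨y, hyN, hy1, hy⟩ := a1 k m x hx hx1 ε1 hε1'
    obtain ⟨y', hyN', hy1', hye, hy'⟩ := a3 k m y hyN hy1 ε1 hε1'
    obtain ⟨z, hzM, hz1, hz⟩ := a2 k m y' (fun i => ⟨hyN' i, by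
      rw [← hye i]
      calc q * (e * y' i * e) * q = (q * e) * y' i * (e * q) := by noncomm_ring
        _ = e * y' i * e := by rw [hqe, heq]⟩) hy1' ε1 hε1'
    refine ⟨z, hzM, hz1, fun w hw hwm => ?_⟩
    have b1 := hy w hw hwm
    have b2 := hy' w hw hwm
    have b3 := hz w hw hwm
    rw [hte] at b2
    have h4 : tr ξ (ev z w) - ((c * r * d : ℝ) : ℂ) * tr ξ (ev x w) =
        (tr ξ (ev z w) - (d : ℂ) * tr η (ev y' w)) + (d : ℂ) * (tr η (ev y' w) - (r : ℂ) * tr η (ev y w)) +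
          (d : ℂ) * ((r : ℂ) * (tr η (ev y w) - (c : ℂ) * tr ξ (ev x w))) := by
      push_cast
      ring
    have hdn : ‖(d : ℂ)‖ = d := by rw [Complex.norm_real, Real.norm_of_nonneg hd.le]
    have hrn : ‖(r : ℂ)‖ = r := by rw [Complex.norm_real, Real.norm_of_nonneg hrp.le]
    rw [h4]
    calc ‖(tr ξ (ev z w) - (d : ℂ) * tr η (ev y' w)) + (d : ℂ) * (tr η (ev y' w) - (r : ℂ) * tr η (ev y w)) +
          (d : ℂ) * ((r : ℂ) * (tr η (ev y w) - (c : ℂ) * tr ξ (ev x w)))‖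
        ≤ ‖tr ξ (ev z w) - (d : ℂ) * tr η (ev y' w)‖ + d * ‖tr η (ev y' w) - (r : ℂ) * tr η (ev y w)‖ +
          d * (r * ‖tr η (ev y w) - (c : ℂ) * tr ξ (ev x w)‖) := by
          refine (norm_add₃_le).trans (le_of_eq ?_)
          rw [norm_mul, norm_mul, norm_mul, hdn, hrn]
      _ < ε1 + d * ε1 + d * (1 * ε1) := by
          have h5 : d * ‖tr η (ev y' w) - (r : ℂ) * tr η (ev y w)‖ ≤ d * ε1 :=
            mul_le_mul_of_nonneg_left b2.le hd.le
          have h6 : d * (r * ‖tr η (ev y w) - (c : ℂ) * tr ξ (ev x w)‖) ≤ d * (1 * ε1) :=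
            mul_le_mul_of_nonneg_left (mul_le_mul hr2 b1.le (norm_nonneg _) zero_le_one) hd.le
          linarith
      _ = ε := by
          rw [hε1]
          field_simp
          ring
  exact ⟨c * r * d, by positivity, hrcd, cup h hp hpM hp0 (by positivity) hrcd.le a4⟩

end Pool.Agent.Lib.UPE
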