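import Pool.Agent.Lib.UPE.FIN2
import Pool.Agent.Lib.UPE.INV

/-!
# UPE / FIN4: stable invariance, amplifications
-/

set_option autoImplicit false

open Filter Topology

namespace Pool.Agent.Lib.UPE

variable {H : Type*} [NormedAddCommGroup H] [InnerProductSpace ℂ H] [CompleteSpace H]
variable {K : Type*} [NormedAddCommGroup K] [InnerProductSpace ℂ K] [CompleteSpace K]
variable {M : VonNeumannAlgebra H} {ξ : ℕ → H} {N : VonNeumannAlgebra K} {η : ℕ → K}

/-- one scale in `(0, 1)` gives all matrix embeddings -/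
theorem mat_of_ap (h : IsIIOne M ξ) (hsep : Sep M ξ) {s : ℝ} (hs0 : 0 < s) (hs1 : s < 1) (hs : Ap M ξ s)
    {U : Ultrafilter ℕ} (hU : (U : Filter ℕ) ≤ cofinite) {n : ℕ} (hn : 1 ≤ n) : MatEmb M ξ U n := by
  have h1 := ((main2 h hsep).out 5 1).1 (fun k => ap_convex h (fun t ht0 ht1 => ap_all h hs0 hs1 hs ht0 ht1) k)
  exact h1 U hU n hn

theorem ap_of_mat (h : IsTrace M ξ) {U : Ultrafilter ℕ} (hm : MatEmb M ξ U 2) : Ap M ξ (1 / 2) := by
  simpa using emb_ap h U (s := 1 / ((2 : ℕ) : ℝ)) (by norm_num) (by norm_num) (mat_sc (by norm_num) hm)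

/-- stable invariance -/
theorem main_inv (h : IsIIOne M ξ) (hsep : Sep M ξ) (hN : IsIIOne N η) (h1 : Below M N η) (h2 : Below N M ξ)
    {V : Ultrafilter ℕ} (hV : MatEmb N η V 2) {U : Ultrafilter ℕ} (hU : (U : Filter ℕ) ≤ cofinite) {n : ℕ}
    (hn : 1 ≤ n) : MatEmb M ξ U n := by
  obtain ⟨s, hs0, hs1, hs⟩ := inv_ap h hN h1 h2 (by norm_num) (by norm_num) (ap_of_mat hN.toIsTrace hV)
  exact mat_of_ap h hsep hs0 hs1 hs hU hn

private theorem fin4_null0 {U : Ultrafilter ℕ} {x : ℕ → (H →L[ℂ] H)} (hx : ∀ n, x n = 0) : Null ξ U x := by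
  have : x = fun _ => 0 := funext hx
  rw [this]
  simp only [Null, n2_zero]
  exact tendsto_const_nhds

private theorem fin4_const (h : IsTrace M ξ) (W : Ultrafilter ℕ) {a : H →L[ℂ] H} (ha : a ∈ M) (ha0 : a ≠ 0) :
    ¬ Null ξ W fun _ => a := fun h1 =>
  ha0 (eq_zero_of_n2 h ha (tendsto_nhds_unique tendsto_const_nhds h1))

/-- if `N` is isomorphic to a corner of `M` then both are `Below` each other -/
theorem below_corner (h : IsIIOne M ξ) (hN : IsIIOne N η)
    (σ : N.toStarSubalgebra →⋆ₙₐ[ℂ] M.toStarSubalgebra) (hinj : Function.Injective σ)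
    (hr : ∀ a : M.toStarSubalgebra, σ 1 * a * σ 1 = a → ∃ b, σ b = a) :
    Below M N η ∧ Below N M ξ := by
  classical
  have hT := h.toIsTrace
  have hTN := hN.toIsTrace
  have h1N : (1 : N.toStarSubalgebra) ≠ 0 := by
    intro h1
    have h2 := tr_one hTN
    have h3 : (1 : K →L[ℂ] K) = 0 := congrArg Subtype.val h1
    rw [h3, tr_zero] at h2
    norm_num at h2
  have hσ1 : σ 1 ≠ 0 := fun h1 => h1N (hinj (h1.trans (map_zero σ).symm))
  have hp : IsStarProjection ((σ 1 : M.toStarSubalgebra) : H →L[ℂ] H) := by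
    constructor
    · have h1 : σ 1 * σ 1 = σ 1 := by rw [← map_mul, one_mul]
      exact congrArg Subtype.val h1
    · have h1 : star (σ 1) = σ 1 := by rw [← map_star, star_one]
      exact congrArg Subtype.val h1
  constructor
  · -- the inverse of σ on the corner
    have hex : ∀ a : H →L[ℂ] H, a ∈ corner M (σ 1 : M.toStarSubalgebra) →
        ∃ b : N.toStarSubalgebra, ((σ b : M.toStarSubalgebra) : H →L[ℂ] H) = a := by
      rintro a ⟨haM, ha⟩
      obtain ⟨b, hb⟩ := hr ⟨a, haM⟩ (Subtype.ext ha)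
      exact ⟨b, congrArg Subtype.val hb⟩
    obtain ⟨ρ, hρ⟩ : ∃ ρ : (H →L[ℂ] H) → N.toStarSubalgebra, ∀ a ∈ corner M (σ 1 : M.toStarSubalgebra),
        ((σ (ρ a) : M.toStarSubalgebra) : H →L[ℂ] H) = a :=
      ⟨fun a => if ha : a ∈ corner M (σ 1 : M.toStarSubalgebra) then (hex a ha).choose else 0, fun a ha => by
        simp only [dif_pos ha]
        exact (hex a ha).choose_spec⟩
    have hu : ∀ {a b : N.toStarSubalgebra}, ((σ a : M.toStarSubalgebra) : H →L[ℂ] H) =
        ((σ b : M.toStarSubalgebra) : H →L[ℂ] H) → a = b := fun h1 => hinj (Subtype.ext h1)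
    have hpm : ((σ 1 : M.toStarSubalgebra) : H →L[ℂ] H) * ((σ 1 : M.toStarSubalgebra) : H →L[ℂ] H) =
        ((σ 1 : M.toStarSubalgebra) : H →L[ℂ] H) := hp.isIdempotentElem
    have hcl : ∀ a ∈ corner M (σ 1 : M.toStarSubalgebra),
        ((σ 1 : M.toStarSubalgebra) : H →L[ℂ] H) * a = a ∧ a * ((σ 1 : M.toStarSubalgebra) : H →L[ℂ] H) = a := by
      rintro a ⟨-, ha⟩
      constructor
      · rw [← ha, ← mul_assoc, ← mul_assoc, hpm]
      · rw [← ha, mul_assoc, hpm]
    have hadd : ∀ a ∈ corner M (σ 1 : M.toStarSubalgebra), ∀ b ∈ corner M (σ 1 : M.toStarSubalgebra),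
        a + b ∈ corner M (σ 1 : M.toStarSubalgebra) := fun a ha b hb =>
      ⟨add_mem ha.1 hb.1, by rw [mul_add, add_mul, ha.2, hb.2]⟩
    have hmul : ∀ a ∈ corner M (σ 1 : M.toStarSubalgebra), ∀ b ∈ corner M (σ 1 : M.toStarSubalgebra),
        a * b ∈ corner M (σ 1 : M.toStarSubalgebra) := fun a ha b hb =>
      ⟨mul_mem ha.1 hb.1, by rw [← mul_assoc, (hcl a ha).1, mul_assoc, (hcl b hb).2]⟩
    have hsm : ∀ (z : ℂ), ∀ a ∈ corner M (σ 1 : M.toStarSubalgebra), z • a ∈ corner M (σ 1 : M.toStarSubalgebra) :=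
      fun z a ha => ⟨smul_mem' z ha.1, by rw [mul_smul_comm, smul_mul_assoc, ha.2]⟩
    have hst : ∀ a ∈ corner M (σ 1 : M.toStarSubalgebra), star a ∈ corner M (σ 1 : M.toStarSubalgebra) := by
      intro a ha
      refine ⟨star_mem ha.1, ?_⟩
      have h2 := congrArg star ha.2
      rwa [star_mul, star_mul, hp.isSelfAdjoint.star_eq, ← mul_assoc] at h2
    have h1c : ((σ 1 : M.toStarSubalgebra) : H →L[ℂ] H) ∈ corner M (σ 1 : M.toStarSubalgebra) :=
      ⟨(σ 1).2, by rw [hpm, hpm]⟩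
    refine ⟨pure 0, (σ 1 : M.toStarSubalgebra), fun a => tr η (ρ a : K →L[ℂ] K), fun a _ => (ρ a : K →L[ℂ] K),
      (σ 1).2, hp, ⟨fun a _ _ => (ρ a).2, fun a _ => ⟨_, fun _ => le_rfl⟩, ?_, ?_, ?_, ?_,
        fun a _ => tendsto_const_nhds⟩, ?_⟩
    · intro a ha b hb
      refine fin4_null0 fun _ => ?_
      have h2 : ρ (a + b) = ρ a + ρ b := hu (by
        rw [hρ _ (hadd a ha b hb), map_add]
        show a + b = _ + _
        rw [hρ a ha, hρ b hb])
      rw [h2]
      exact sub_self _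
    · intro z a ha
      refine fin4_null0 fun _ => ?_
      have h2 : ρ (z • a) = z • ρ a := hu (by
        rw [hρ _ (hsm z a ha), map_smul]
        show z • a = z • _
        rw [hρ a ha])
      rw [h2]
      exact sub_self _
    · intro a ha b hb
      refine fin4_null0 fun _ => ?_
      have h2 : ρ (a * b) = ρ a * ρ b := hu (by
        rw [hρ _ (hmul a ha b hb), map_mul]
        show a * b = _ * _
        rw [hρ a ha, hρ b hb])
      rw [h2]
      exact sub_self _
    · intro a ha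
      refine fin4_null0 fun _ => ?_
      have h2 : ρ (star a) = star (ρ a) := hu (by
        rw [hρ _ (hst a ha), map_star]
        show star a = star _
        rw [hρ a ha])
      rw [h2]
      exact sub_self _
    · have h2 : ρ ((σ 1 : M.toStarSubalgebra) : H →L[ℂ] H) = 1 := hu (hρ _ h1c)
      simp only [h2]
      exact fin4_const hTN _ (one_mem N) fun h3 => h1N (Subtype.ext h3)
  · -- σ itself
    refine ⟨pure 0, 1, fun a => if ha : a ∈ N then tr ξ (σ ⟨a, ha⟩ : M.toStarSubalgebra) else 0,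
      fun a _ => if ha : a ∈ N then ((σ ⟨a, ha⟩ : M.toStarSubalgebra) : H →L[ℂ] H) else 0, one_mem N,
      IsStarProjection.one _, ⟨?_, fun a _ => ⟨_, fun _ => le_rfl⟩, ?_, ?_, ?_, ?_, ?_⟩, ?_⟩
    · intro a ha _
      simp only [dif_pos ha.1]
      exact (σ _).2
    · intro a ha b hb
      refine fin4_null0 fun _ => ?_
      simp only [dif_pos ha.1, dif_pos hb.1, dif_pos (add_mem ha.1 hb.1)]
      have h2 : σ ⟨a + b, add_mem ha.1 hb.1⟩ = σ ⟨a, ha.1⟩ + σ ⟨b, hb.1⟩ := by rw [← map_add]; rfl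
      rw [h2]
      exact sub_self _
    · intro z a ha
      refine fin4_null0 fun _ => ?_
      simp only [dif_pos ha.1, dif_pos (smul_mem' z ha.1)]
      have h2 : σ ⟨z • a, smul_mem' z ha.1⟩ = z • σ ⟨a, ha.1⟩ := by rw [← map_smul]; rfl
      rw [h2]
      exact sub_self _
    · intro a ha b hb
      refine fin4_null0 fun _ => ?_
      simp only [dif_pos ha.1, dif_pos hb.1, dif_pos (mul_mem ha.1 hb.1)]
      have h2 : σ ⟨a * b, mul_mem ha.1 hb.1⟩ = σ ⟨a, ha.1⟩ * σ ⟨b, hb.1⟩ := by rw [← map_mul]; rfl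
      rw [h2]
      exact sub_self _
    · intro a ha
      refine fin4_null0 fun _ => ?_
      simp only [dif_pos ha.1, dif_pos (star_mem ha.1)]
      have h2 : σ ⟨star a, star_mem ha.1⟩ = star (σ ⟨a, ha.1⟩) := by rw [← map_star]; rfl
      rw [h2]
      exact sub_self _
    · intro a ha
      simp only [dif_pos ha.1]
      exact tendsto_const_nhds
    · simp only [dif_pos (one_mem N)]
      exact fin4_const hT _ (σ _).2 fun h3 => hσ1 (Subtype.ext h3)

/-- invariance under amplification -/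
theorem main_amp (h : IsIIOne M ξ) (hsep : Sep M ξ) (hN : IsIIOne N η) (hsepN : Sep N η)
    (σ : N.toStarSubalgebra →⋆ₙₐ[ℂ] M.toStarSubalgebra) (hinj : Function.Injective σ)
    (hr : ∀ a : M.toStarSubalgebra, σ 1 * a * σ 1 = a → ∃ b, σ b = a) {U V : Ultrafilter ℕ}
    (hU : (U : Filter ℕ) ≤ cofinite) (hV : (V : Filter ℕ) ≤ cofinite) : MatEmb M ξ U 2 ↔ MatEmb N η V 2 := by
  obtain ⟨h1, h2⟩ := below_corner h hN σ hinj hr
  exact ⟨fun h3 => main_inv hN hsepN h h2 h1 h3 hV (by norm_num),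
    fun h3 => main_inv h hsep hN h1 h2 h3 hU (by norm_num)⟩

end Pool.Agent.Lib.UPE
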