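import Pool.Agent.Lib.UPE.DC
import Pool.Agent.Lib.UPE.KP
import Pool.Agent.Lib.UPE.WD

/-!
# UPE / UN (90 lines): increasing unions

PROOF.  `S` = star subalgebra with carrier `{a | ∃ j, a ∈ N j}` (directed union: `hmono`, `j = max`).  `x : Fin k → M` contractions, `m`, `ε`.  `dense_of_comm` (`h.unit.summable`; `hgen`) and `kap` for
`S` give contractions `x' i ∈ S` with `n2 (x i - x' i) < κ`, where `m * κ < ε/2`; all `x' i` are in one `N j` (finitely many `i`, `hmono`: `j` = sup of the `j i`).  `hap j` for `x'`, length `m`,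
tolerance `ε/2` gives contractions `y i ∈ N j ⊆ M`; `‖tr (ev x w) - tr (ev x' w)‖ ≤ m * κ` (`tr_ev_sub_le`, `R = 1`) and `|s| ≤ 1`.
-/

set_option autoImplicit false

open Filter Topology

namespace Pool.Agent.Lib.UPE

variable {H : Type*} [NormedAddCommGroup H] [InnerProductSpace ℂ H] [CompleteSpace H]
variable {M : VonNeumannAlgebra H} {ξ : ℕ → H}

/-- the union of an increasing sequence -/
private noncomputable def unS (N : ℕ → VonNeumannAlgebra H) (hmono : ∀ i j, i ≤ j → ∀ a ∈ N i, a ∈ N j) :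
    StarSubalgebra ℂ (H →L[ℂ] H) where
  carrier := {a | ∃ j, a ∈ N j}
  mul_mem' := by
    rintro a b ⟨i, hi⟩ ⟨j, hj⟩
    exact ⟨max i j, mul_mem (hmono i _ (le_max_left _ _) a hi) (hmono j _ (le_max_right _ _) b hj)⟩
  add_mem' := by
    rintro a b ⟨i, hi⟩ ⟨j, hj⟩
    exact ⟨max i j, add_mem (hmono i _ (le_max_left _ _) a hi) (hmono j _ (le_max_right _ _) b hj)⟩
  algebraMap_mem' := fun r => ⟨0, (N 0).toStarSubalgebra.algebraMap_mem r⟩
  star_mem' := by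
    rintro a ⟨i, hi⟩
    exact ⟨i, star_mem hi⟩

private theorem un_mem {N : ℕ → VonNeumannAlgebra H} {hmono : ∀ i j, i ≤ j → ∀ a ∈ N i, a ∈ N j}
    {a : H →L[ℂ] H} : a ∈ unS N hmono ↔ ∃ j, a ∈ N j := Iff.rfl

theorem union_ap (h : IsTrace M ξ) (N : ℕ → VonNeumannAlgebra H) (hmono : ∀ i j, i ≤ j → ∀ a ∈ N i, a ∈ N j)
    (hNM : ∀ j, ∀ a ∈ N j, a ∈ M)
    (hgen : ∀ x ∈ M, ∀ y : H →L[ℂ] H, (∀ j, ∀ a ∈ N j, a * y = y * a) → x * y = y * x)
    {s : ℝ} (hs0 : 0 ≤ s) (hs1 : s ≤ 1) (hap : ∀ j, Ap (N j) ξ s) : Ap M ξ s := by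
  intro k m x hxM hx1 ε hε
  obtain ⟨κ, hκ⟩ : ∃ κ : ℝ, κ = ε / (2 * (m + 1)) := ⟨_, rfl⟩
  have hm0 : (0 : ℝ) ≤ m := Nat.cast_nonneg m
  have hκ0 : 0 < κ := by rw [hκ]; positivity
  have hmκ : (m : ℝ) * κ ≤ ε / 2 := by
    rw [hκ, mul_div_assoc', div_le_div_iff₀ (by positivity) (by norm_num)]
    nlinarith
  have hex : ∀ i, ∃ b ∈ unS N hmono, ‖b‖ ≤ 1 ∧ n2 ξ (x i - b) < κ := by
    intro i
    refine kap h (unS N hmono) ?_ (hxM i) (hx1 i) ?_ hκ0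
    · rintro b ⟨j, hj⟩
      exact hNM j b hj
    · intro δ hδ
      refine dense_of_comm h.unit.summable (unS N hmono) ?_ hδ
      intro y hy
      exact hgen (x i) (hxM i) y fun j a ha => hy a (un_mem.2 ⟨j, ha⟩)
  choose x' hx'S hx'1 hx'n using hex
  have hJ : ∀ i, ∃ j, x' i ∈ N j := fun i => un_mem.1 (hx'S i)
  choose J hJ using hJ
  obtain ⟨j0, hj0⟩ : ∃ j0, j0 = Finset.univ.sup J := ⟨_, rfl⟩
  have hx'N : ∀ i, x' i ∈ N j0 := fun i =>
    hmono (J i) j0 (by rw [hj0]; exact Finset.le_sup (Finset.mem_univ i)) _ (hJ i)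
  obtain ⟨y, hyN, hy1, hy⟩ := hap j0 k m x' hx'N hx'1 (ε / 2) (by linarith)
  refine ⟨y, fun i => hNM j0 _ (hyN i), hy1, fun w hw hwm => ?_⟩
  have h1 := hy w hw hwm
  have h2 := tr_ev_sub_le h (R := 1) (δ := κ) le_rfl (fun i => hNM j0 _ (hx'N i)) hxM hx'1 hx1
    (fun i => by rw [n2_sub_comm]; exact (hx'n i).le) hκ0.le w
  rw [one_pow, mul_one] at h2
  have h3 : (w.length : ℝ) * κ ≤ ε / 2 := by
    refine le_trans ?_ hmκ
    have : (w.length : ℝ) ≤ m := by exact_mod_cast hwm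
    nlinarith
  have h4 : tr ξ (ev y w) - (s : ℂ) * tr ξ (ev x w) =
      (tr ξ (ev y w) - (s : ℂ) * tr ξ (ev x' w)) + (s : ℂ) * (tr ξ (ev x' w) - tr ξ (ev x w)) := by ring
  rw [h4]
  refine (norm_add_le _ _).trans_lt ?_
  have h5 : ‖(s : ℂ) * (tr ξ (ev x' w) - tr ξ (ev x w))‖ ≤ ε / 2 := by
    rw [norm_mul, Complex.norm_real, Real.norm_eq_abs, abs_of_nonneg hs0]
    have := norm_nonneg (tr ξ (ev x' w) - tr ξ (ev x w))
    nlinarith
  linarith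

end Pool.Agent.Lib.UPE
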