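import Pool.Agent.Lib.UPE.FIN3
import Pool.Agent.Lib.UPE.FIN4
import Pool.Agent.Lib.UPE.CEN
import Pool.Agent.Lib.UPE.UN

/-!
# UPE / FIN5: tensor factors, increasing unions
-/

set_option autoImplicit false

open Filter Topology

namespace Pool.Agent.Lib.UPE

variable {H : Type*} [NormedAddCommGroup H] [InnerProductSpace ℂ H] [CompleteSpace H]
variable {M : VonNeumannAlgebra H} {ξ : ℕ → H}

/-- a tensor factor which has the property or is Connes embeddable -/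
theorem main_tensor (h : IsIIOne M ξ) (hsep : Sep M ξ) {P : VonNeumannAlgebra H} (hP : IsIIOne P ξ)
    (hPM : ∀ b ∈ P, b ∈ M)
    (hgen : ∀ x ∈ M, ∀ y : H →L[ℂ] H, (∀ b ∈ P, b * y = y * b) → (∀ a ∈ rc M P, a * y = y * a) →
      x * y = y * x) (hp : (∃ V : Ultrafilter ℕ, MatEmb P ξ V 2) ∨ CEmb P ξ) {U : Ultrafilter ℕ}
    (hU : (U : Filter ℕ) ≤ cofinite) {n : ℕ} (hn : 1 ≤ n) : MatEmb M ξ U n := by
  have h1 : Ap P ξ (1 / 2) := by
    rcases hp with ⟨V, hV⟩ | hce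
    · exact ap_of_mat hP.toIsTrace hV
    · exact ce_ap hP hce
  exact mat_of_ap h hsep (s := 1 / 2) (by norm_num) (by norm_num)
    (ap_tensor h.toIsTrace hP hPM hgen (by norm_num) (by norm_num) h1) hU hn

/-- increasing unions -/
theorem main_union (h : IsIIOne M ξ) (hsep : Sep M ξ) (P : ℕ → VonNeumannAlgebra H)
    (hmono : ∀ i j, i ≤ j → ∀ a ∈ P i, a ∈ P j) (hPM : ∀ j, ∀ a ∈ P j, a ∈ M)
    (hgen : ∀ x ∈ M, ∀ y : H →L[ℂ] H, (∀ j, ∀ a ∈ P j, a * y = y * a) → x * y = y * x)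
    (hP : ∀ j, IsIIOne (P j) ξ) (hm : ∀ j, ∃ V : Ultrafilter ℕ, MatEmb (P j) ξ V 2) {U : Ultrafilter ℕ}
    (hU : (U : Filter ℕ) ≤ cofinite) {n : ℕ} (hn : 1 ≤ n) : MatEmb M ξ U n :=
  mat_of_ap h hsep (s := 1 / 2) (by norm_num) (by norm_num)
    (union_ap h.toIsTrace P hmono hPM hgen (by norm_num) (by norm_num) fun j => by
      obtain ⟨V, hV⟩ := hm j
      exact ap_of_mat (hP j).toIsTrace hV) hU hn


end Pool.Agent.Lib.UPE
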