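import Pool.Agent.Lib.UPE.Bas

/-!
# UPE / IDX (100 lines): a dense sequence of contractions and index functions

PROOF.  Let `d'` be the sequence of `hsep`.  For `j, m : ℕ` choose a contraction `c j m ∈ M` with `n2 (c j m - d' j) < 1/(m+1)` if there
is one, else `c j m = 0`.  `d n = c (unpair n).1 (unpair n).2`.  Every contraction `a ∈ M` is a limit of values of `d`:
given `m` take `j` with `n2 (a - d' j) < 1/(m+1)` (`hsep`): the choice exists (`a` itself), so `n2 (a - c j m) < 2/(m+1)`.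
For a contraction `a` choose for every `K` an index `i K` with `n2 (a - d (i K)) < 1/(K+1)`, and put
`ι n = i K` with the largest `K ≤ n` such that `i K < n` (`0` if there is none; for `n ≥ 1`, `0 < n`).  Since `i K < n` and `K ≤ n` for all
large `n`, the largest `K` tends to infinity: `n2 (a - d (ι n)) → 0`.
-/

set_option autoImplicit false

open Filter Topology

namespace Pool.Agent.Lib.UPE

variable {H : Type*} [NormedAddCommGroup H] [InnerProductSpace ℂ H] [CompleteSpace H]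
variable {M : VonNeumannAlgebra H} {ξ : ℕ → H}

theorem exists_idx (h : IsTrace M ξ) (hsep : Sep M ξ) :
    ∃ d : ℕ → (H →L[ℂ] H), (∀ n, d n ∈ M ∧ ‖d n‖ ≤ 1) ∧ ∀ a ∈ M, ‖a‖ ≤ 1 →
      ∃ ι : ℕ → ℕ, (∀ n, 1 ≤ n → ι n < n) ∧ Tendsto (fun n => n2 ξ (a - d (ι n))) atTop (𝓝 0) := by
  classical
  obtain ⟨d', hd'M, hd'⟩ := hsep
  have hc : ∀ j m : ℕ, ∃ c : H →L[ℂ] H, c ∈ M ∧ ‖c‖ ≤ 1 ∧
      ((∃ b ∈ M, ‖b‖ ≤ 1 ∧ n2 ξ (b - d' j) < 1 / ((m : ℝ) + 1)) →
        n2 ξ (c - d' j) < 1 / ((m : ℝ) + 1)) := by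
    intro j m
    by_cases hb : ∃ b ∈ M, ‖b‖ ≤ 1 ∧ n2 ξ (b - d' j) < 1 / ((m : ℝ) + 1)
    · obtain ⟨b, hbM, hb1, hb2⟩ := hb
      exact ⟨b, hbM, hb1, fun _ => hb2⟩
    · exact ⟨0, zero_mem M, by simp, fun hb' => absurd hb' hb⟩
  choose c hcM hc1 hc2 using hc
  refine ⟨fun n => c n.unpair.1 n.unpair.2, fun n => ⟨hcM _ _, hc1 _ _⟩, ?_⟩
  intro a haM ha1
  have hi : ∀ K : ℕ, ∃ i : ℕ, n2 ξ (a - c i.unpair.1 i.unpair.2) < 1 / ((K : ℝ) + 1) := by
    intro K
    have hm : (0 : ℝ) < 1 / (((2 * K + 1 : ℕ) : ℝ) + 1) := by positivity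
    obtain ⟨j, hj⟩ := hd' a haM _ hm
    refine ⟨Nat.pair j (2 * K + 1), ?_⟩
    rw [Nat.unpair_pair]
    have h1 := hc2 j (2 * K + 1) ⟨a, haM, ha1, hj⟩
    have h2 := n2_sub_le_sub h a (d' j) (c j (2 * K + 1))
    rw [n2_sub_comm (d' j)] at h2
    have h3 : 1 / (((2 * K + 1 : ℕ) : ℝ) + 1) + 1 / (((2 * K + 1 : ℕ) : ℝ) + 1) =
        1 / ((K : ℝ) + 1) := by
      have hK : (K : ℝ) + 1 ≠ 0 := by positivity
      push_cast
      have h4 : (2 * (K : ℝ) + 1 + 1) = 2 * ((K : ℝ) + 1) := by ring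
      rw [h4]
      field_simp
      norm_num
    calc n2 ξ (a - c j (2 * K + 1)) ≤ _ := h2
      _ < _ := add_lt_add hj h1
      _ = _ := h3
  choose i hi using hi
  let g : ℕ → ℕ := fun n => Nat.findGreatest (fun K => i K < n) n
  refine ⟨fun n => if i (g n) < n then i (g n) else 0, ?_, ?_⟩
  · intro n hn
    show (if i (g n) < n then i (g n) else 0) < n
    split_ifs with hlt
    · exact hlt
    · exact hn
  · rw [Metric.tendsto_atTop]
    intro ε hε
    obtain ⟨K0, hK0⟩ := exists_nat_one_div_lt hε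
    refine ⟨max K0 (i K0) + 1, fun n hn => ?_⟩
    have hn1 : K0 ≤ n := by omega
    have hn2 : i K0 < n := by omega
    have hg1 : K0 ≤ g n := Nat.le_findGreatest hn1 hn2
    have hg2 : i (g n) < n := Nat.findGreatest_spec (P := fun K => i K < n) hn1 hn2
    rw [Real.dist_eq, sub_zero, abs_of_nonneg (n2_nonneg _)]
    simp only [if_pos hg2]
    refine (hi (g n)).trans (lt_of_le_of_lt ?_ hK0)
    have hcast : (K0 : ℝ) ≤ (g n : ℝ) := by exact_mod_cast hg1
    exact one_div_le_one_div_of_le (by positivity) (by linarith)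

end Pool.Agent.Lib.UPE
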