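import Pool.Agent.Lib.UPE.SL

/-!
# UPE / MX (120 lines): maximal elements

For partial isometries write `v ≤ v'` for `v' * (star v * v) = v`.  PROOF.  `T v = (tr (star v * v)).re`, in `[0, 1]`
(`star v * v` is a projection).  `v ≤ v'` gives `T v ≤ T v'`: `e = star v * v = e * e' * e` with `e' = star v' * v'`, so
`e' * e = e` (as in SL) and `e' - e` is a projection; `T v' - T v = (tr (e' - e)).re`.  `≤` is transitive (`v'' e' = v'`,
`v' e = v`: `v'' e = v'' e' e = v' e = v`).  Choose `v (n+1) ∈ S`, `v n ≤ v (n+1)`, with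
`T (v (n+1)) ≥ sup { T w : w ∈ S, v n ≤ w } - 1 / (n+1)`.  `exists_sup`: `u`; `hlim` gives `u ∈ S`, and `v n ≤ u` for all
`n` (`u * (star (v n) * v n) = v n`), also `v0 = v 0 ≤ u`.  If `w ∈ S`, `u ≤ w`, then `v n ≤ w` for all `n`, so
`T w ≤ T (v (n+1)) + 1/(n+1) → T u`, so `T w = T u`, so the projection `star w * w - star u * u` has trace 0, so it is
0 (`proj_eq_zero`); `w = w * (star w * w) = w * (star u * u) = u`.
-/

set_option autoImplicit false

open Filter Topology

namespace Pool.Agent.Lib.UPE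

variable {H : Type*} [NormedAddCommGroup H] [InnerProductSpace ℂ H] [CompleteSpace H]
variable {M : VonNeumannAlgebra H} {ξ : ℕ → H}

private theorem mxa_idem {A : Type*} [Ring A] [StarRing A] {v : A} (hv : v * star v * v = v) :
    star v * v * (star v * v) = star v * v := by
  rw [mul_assoc, ← mul_assoc v (star v) v, hv]

private theorem mxa_alg {A : Type*} [Ring A] {P R : A} (h1 : P * R * P = P) (e2 : P * P = P) (e3 : R * R = R) :
    (P - P * R) * (P - R * P) = 0 := by
  have e : (P - P * R) * (P - R * P) = P * P - P * R * P - P * R * P + P * (R * R) * P := by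
    rw [sub_mul, mul_sub, mul_sub]
    simp only [mul_assoc]
    abel
  rw [e, e2, e3, h1]
  abel

private theorem mxa_le {A : Type*} [Ring A] [StarRing A] (hz : ∀ x : A, star x * x = 0 → x = 0) {v w : A}
    (hv : v * star v * v = v) (hw : w * star w * w = w)
    (h : w * (star v * v) = v) : (star w * w) * (star v * v) = star v * v := by
  have e4 : star (star v * v) = star v * v := by rw [star_mul, star_star]
  have e5 : star (star w * w) = star w * w := by rw [star_mul, star_star]
  have e2 := mxa_idem hv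
  have e3 := mxa_idem hw
  have h1 : (star v * v) * (star w * w) * (star v * v) = star v * v := by
    have hP : star v * v = star (w * (star v * v)) * (w * (star v * v)) := by rw [h]
    rw [star_mul, e4] at hP
    calc (star v * v) * (star w * w) * (star v * v) = (star v * v) * star w * (w * (star v * v)) := by simp only [mul_assoc]
      _ = star v * v := hP.symm
  have h2 : star (star v * v - (star w * w) * (star v * v)) * (star v * v - (star w * w) * (star v * v)) = 0 := by
    rw [star_sub, star_mul (star w * w), e4, e5]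
    exact mxa_alg h1 e2 e3
  exact (sub_eq_zero.1 (hz _ h2)).symm

private theorem mxa_sub {A : Type*} [Ring A] [StarRing A] (hz : ∀ x : A, star x * x = 0 → x = 0) {v w : A}
    (hv : v * star v * v = v) (hw : w * star w * w = w)
    (h : w * (star v * v) = v) :
    (star w * w - star v * v) * (star w * w - star v * v) = star w * w - star v * v := by
  have e4 : star (star v * v) = star v * v := by rw [star_mul, star_star]
  have e5 : star (star w * w) = star w * w := by rw [star_mul, star_star]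
  have h1 := mxa_le hz hv hw h
  have h2 : (star v * v) * (star w * w) = star v * v := by
    have := congrArg star h1
    rw [star_mul, e4, e5] at this
    exact this
  rw [sub_mul, mul_sub, mul_sub, mxa_idem hv, mxa_idem hw, h1, h2]
  abel

private theorem mxa_trans {A : Type*} [Ring A] [StarRing A] {w u f : A} (h1 : (star u * u) * (star f * f) = star f * f)
    (h2 : w * (star u * u) = u) (h3 : u * (star f * f) = f) : w * (star f * f) = f := by
  rw [← h1, ← mul_assoc w, h2, h3]

private theorem mxa_fin {A : Type*} [Ring A] [StarRing A] {w u : A} (h0 : star w * w - star u * u = 0)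
    (h1 : w * star w * w = w) (h2 : w * (star u * u) = u) : w = u := by
  rw [mul_assoc, sub_eq_zero.1 h0, h2] at h1
  exact h1.symm

private theorem mx_z (x : H →L[ℂ] H) (hx : star x * x = 0) : x = 0 := CStarRing.star_mul_self_eq_zero_iff x |>.1 hx

private theorem mx_proj {v : H →L[ℂ] H} (hv : v * star v * v = v) : IsStarProjection (star v * v) :=
  ⟨mxa_idem hv, IsSelfAdjoint.star_mul_self v⟩

private theorem mx_le {v w : H →L[ℂ] H} (hv : v * star v * v = v) (hw : w * star w * w = w)
    (h : w * (star v * v) = v) : (star w * w) * (star v * v) = star v * v := mxa_le mx_z hv hw h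

private theorem mx_sub {v w : H →L[ℂ] H} (hv : v * star v * v = v) (hw : w * star w * w = w)
    (h : w * (star v * v) = v) : IsStarProjection (star w * w - star v * v) :=
  ⟨mxa_sub mx_z hv hw h, (IsSelfAdjoint.star_mul_self w).sub (IsSelfAdjoint.star_mul_self v)⟩

theorem exists_max (h : IsTrace M ξ) (S : Set (H →L[ℂ] H)) (hS : ∀ v ∈ S, v ∈ M ∧ v * star v * v = v)
    (hlim : ∀ (v : ℕ → (H →L[ℂ] H)) (u : H →L[ℂ] H), (∀ n, v n ∈ S) → u ∈ M → u * star u * u = u →
      (∀ n, u * (star (v n) * v n) = v n) →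
      (∀ a : H →L[ℂ] H, (∀ n, a * v n = v n) → a * u = u) →
      (∀ a : H →L[ℂ] H, (∀ n, v n * a = v n) → u * a = u) →
      (∀ ζ : H, Tendsto (fun n => v n ζ) atTop (𝓝 (u ζ))) →
      Tendsto (fun n => (tr ξ (star (v n) * v n)).re) atTop (𝓝 (tr ξ (star u * u)).re) → u ∈ S)
    {v0 : H →L[ℂ] H} (h0 : v0 ∈ S) :
    ∃ u ∈ S, u * (star v0 * v0) = v0 ∧ ∀ v ∈ S, v * (star u * u) = u → v = u := by
  have hstep : ∀ (v : S) (n : ℕ), ∃ w : S, (w : H →L[ℂ] H) * (star (v : H →L[ℂ] H) * v) = v ∧
      ∀ z ∈ S, z * (star (v : H →L[ℂ] H) * v) = v →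
        (tr ξ (star z * z)).re - 1 / ((n : ℝ) + 1) ≤ (tr ξ (star (w : H →L[ℂ] H) * w)).re := by
    intro v n
    have hne : ({t | ∃ z ∈ S, z * (star (v : H →L[ℂ] H) * v) = v ∧ t = (tr ξ (star z * z)).re} : Set ℝ).Nonempty :=
      ⟨_, v, v.2, (mul_assoc (v : H →L[ℂ] H) (star (v : H →L[ℂ] H)) v).symm.trans (hS v v.2).2, rfl⟩
    have hbd : BddAbove ({t | ∃ z ∈ S, z * (star (v : H →L[ℂ] H) * v) = v ∧ t = (tr ξ (star z * z)).re} : Set ℝ) := by
      refine ⟨1, ?_⟩
      rintro t ⟨z, hz, -, rfl⟩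
      exact (re_tr_proj_mem h (mx_proj (hS z hz).2)).2.1
    have hpos : (0 : ℝ) < 1 / ((n : ℝ) + 1) := by positivity
    obtain ⟨t, ⟨z, hz, hz1, rfl⟩, ht⟩ := exists_lt_of_lt_csSup hne (sub_lt_self _ hpos)
    refine ⟨⟨z, hz⟩, hz1, ?_⟩
    intro y hy hy1
    have h1 := le_csSup hbd ⟨y, hy, hy1, rfl⟩
    linarith
  choose F hF1 hF2 using hstep
  obtain ⟨f, hf0, hfs⟩ : ∃ f : ℕ → S, f 0 = ⟨v0, h0⟩ ∧ ∀ n, f (n + 1) = F (f n) n :=
    ⟨fun n => Nat.rec ⟨v0, h0⟩ (fun n v => F v n) n, rfl, fun _ => rfl⟩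
  have hf0' : (f 0 : H →L[ℂ] H) = v0 := congrArg Subtype.val hf0
  have hext : ∀ n, (f (n + 1) : H →L[ℂ] H) * (star (f n : H →L[ℂ] H) * f n) = f n := fun n => by
    rw [hfs]
    exact hF1 (f n) n
  obtain ⟨u, huM, hu1, hu2, hu3, hu4, hu5, hu6⟩ := exists_sup h (fun n => (f n : H →L[ℂ] H))
    (fun n => (hS _ (f n).2).1) (fun n => (hS _ (f n).2).2) hext
  have huS : u ∈ S := hlim (fun n => (f n : H →L[ℂ] H)) u (fun n => (f n).2) huM hu1 hu2 hu3 hu4 hu5 hu6
  have hu20 := hu2 0
  rw [hf0'] at hu20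
  refine ⟨u, huS, hu20, ?_⟩
  intro w hw hwu
  have hwn : ∀ n, w * (star (f n : H →L[ℂ] H) * f n) = f n := by
    intro n
    exact mxa_trans (mx_le (hS _ (f n).2).2 hu1 (hu2 n)) hwu (hu2 n)
  have hle : (tr ξ (star w * w)).re ≤ (tr ξ (star u * u)).re := by
    have h1 : ∀ n : ℕ, (tr ξ (star w * w)).re - 1 / ((n : ℝ) + 1) ≤
        (tr ξ (star (f (n + 1) : H →L[ℂ] H) * f (n + 1))).re := fun n => by
      rw [hfs]
      exact hF2 (f n) n w hw (hwn n)
    have h2 : Tendsto (fun n : ℕ => (tr ξ (star w * w)).re - 1 / ((n : ℝ) + 1)) atTop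
        (𝓝 ((tr ξ (star w * w)).re - 0)) := tendsto_const_nhds.sub tendsto_one_div_add_atTop_nhds_zero_nat
    have h3 : Tendsto (fun n : ℕ => (tr ξ (star (f (n + 1) : H →L[ℂ] H) * f (n + 1))).re) atTop
        (𝓝 (tr ξ (star u * u)).re) := (tendsto_add_atTop_iff_nat 1).2 hu6
    have h4 := le_of_tendsto_of_tendsto' h2 h3 h1
    rwa [sub_zero] at h4
  have hpr := mx_sub hu1 (hS w hw).2 hwu
  have hmem : star w * w - star u * u ∈ M :=
    sub_mem (mul_mem (star_mem (hS w hw).1) (hS w hw).1) (mul_mem (star_mem huM) huM)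
  have h5 : star w * w - star u * u = 0 := by
    refine proj_eq_zero h hpr hmem (le_antisymm ?_ (re_tr_proj_mem h hpr).1)
    rw [tr_sub h, Complex.sub_re]
    linarith
  exact mxa_fin h5 (hS w hw).2 hwu

end Pool.Agent.Lib.UPE
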