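import Pool.Agent.Lib.UPE.CMP

/-!
# UPE / NM (180 lines): no minimal projections

PROOF.  Suppose `q ≠ 0` is minimal: every projection `e ∈ M` with `e * q = e` is `0` or `q`.
(1) `q * a * q ∈ ℂ q` for `a ∈ M`.  Linear in `a`, so `a` self-adjoint; `b = q * a * q + ‖a‖ • q` (`≥ 0`, `q * b = b`).  Let
`c0 = ‖b‖`; if `c0 = 0` done.  For `0 < c < c0`: `spr b c ≠ 0` (`norm_le_of_spr`), `q * spr b c = spr b c` (`spr_le`), so
`spr b c = q`, and `c • q ≤ b * q = b` (`le_mul_spr`).  Let `c → c0`: `c0 • q ≤ b`.  And `b ≤ c0 • q` (`b ≤ ‖b‖ • 1`, multiply by `q` on both sides).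
So `b = c0 • q`.
(2) Let `t = (tr q).re > 0`.  Consider all `n` such that there are `v : Fin n → M` with `star (v i) * v i = q` and
`star (v i) * v j = 0` for `i ≠ j` (so the `v i * star (v i)` are orthogonal projections of trace `tr q`); `n * t ≤ 1`, so there is a
largest `n`.  `r = 1 - ∑ v i * star (v i)`, a projection.  If `tr q ≤ tr r`, `compare` gives `v` with `star v * v = q`, `r * v = v`,
which extends the family (`star (v i) * v = star (v i) * r * v = 0`): contradiction.  So `tr r < tr q`; `compare`: `w` with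
`star w * w = r`, `q * w = w`; `w * star w` is a projection below `q` with trace `tr r < tr q`, so it is `0`, so `w = 0`, `r = 0`.
(3) So `1 = ∑ v i * star (v i)` and `a = ∑ i j, v i * (star (v i) * a * v j) * star (v j)`; `star (v i) * a * v j = q * (..) * q ∈ ℂ q`
(`v i * q = v i`), so `a` is in the span of the `n ^ 2` elements `v i * star (v j)`.  This contradicts `h.infinite (n ^ 2 + 1)`
(a linearly independent family of `n ^ 2 + 1` vectors in a span of `n ^ 2` vectors; `LinearIndependent.fintype_card_le_finrank`,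
`finrank_span_le_card` or `exists_linearIndependent...`).
-/

set_option autoImplicit false

open Filter Topology

namespace Pool.Agent.Lib.UPE

variable {H : Type*} [NormedAddCommGroup H] [InnerProductSpace ℂ H] [CompleteSpace H]
variable {M : VonNeumannAlgebra H} {ξ : ℕ → H}

private theorem nm_pos (_h : IsIIOne M ξ) {q : H →L[ℂ] H} (hq : IsStarProjection q)
    (hcon : ∀ e ∈ M, IsStarProjection e → e * q = e → e ≠ 0 → e = q)
    {b : H →L[ℂ] H} (hbM : b ∈ M) (hb : 0 ≤ b) (hqb : q * b = b) (hbq : b * q = b) :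
    b = ((‖b‖ : ℝ) : ℂ) • q := by
  have hsa : IsSelfAdjoint b := IsSelfAdjoint.of_nonneg hb
  have hqs : star q = q := hq.isSelfAdjoint
  have hqq : q * q = q := hq.isIdempotentElem
  rcases eq_or_lt_of_le (norm_nonneg b) with h0 | hpos
  · have : b = 0 := norm_eq_zero.1 h0.symm
    simp [this]
  · -- lower bounds
    have hlow : ∀ c : ℝ, 0 < c → c < ‖b‖ → (c : ℂ) • q ≤ b := by
      intro c hc hcb
      have h1 : spr b c ≠ 0 := fun hz => absurd (norm_le_of_spr hb hc.le hz) (not_le.2 hcb)
      have h2 : q * spr b c = spr b c := spr_le hsa hqb hc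
      have h3 : spr b c * q = spr b c := by
        have := congrArg star h2
        rw [star_mul, hqs] at this
        have h4 : star (spr b c) = spr b c := (spr_proj b c).isSelfAdjoint
        rwa [h4] at this
      have h5 : spr b c = q := hcon _ (spr_mem hbM c) (spr_proj b c) h3 h1
      have h6 := le_mul_spr hsa c
      rw [h5, hbq] at h6
      exact h6
    have hlow' : ((‖b‖ : ℝ) : ℂ) • q ≤ b := by
      have ht : Tendsto (fun n : ℕ => (((‖b‖ - ‖b‖ / 2 * (1 / ((n : ℝ) + 1)) : ℝ)) : ℂ) • q) atTop
          (𝓝 (((‖b‖ - ‖b‖ / 2 * 0 : ℝ) : ℂ) • q)) := by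
        refine Tendsto.smul_const ?_ q
        refine (Complex.continuous_ofReal.tendsto _).comp ?_
        exact tendsto_const_nhds.sub (tendsto_const_nhds.mul tendsto_one_div_add_atTop_nhds_zero_nat)
      rw [mul_zero, sub_zero] at ht
      refine le_of_tendsto ht (Eventually.of_forall fun n => ?_)
      have hn : (0 : ℝ) < 1 / ((n : ℝ) + 1) := by positivity
      have hn1 : 1 / ((n : ℝ) + 1) ≤ 1 := by
        rw [div_le_one (by positivity)]; linarith [(Nat.cast_nonneg n : (0 : ℝ) ≤ n)]
      refine hlow _ ?_ ?_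
      · nlinarith
      · have : 0 < ‖b‖ / 2 * (1 / ((n : ℝ) + 1)) := by positivity
        linarith
    have hup : b ≤ ((‖b‖ : ℝ) : ℂ) • q := by
      have h1 : b ≤ algebraMap ℝ (H →L[ℂ] H) ‖b‖ := IsSelfAdjoint.le_algebraMap_norm_self hsa
      have h2 := star_left_conjugate_le_conjugate h1 q
      rw [hqs, mul_assoc, hbq, hqb] at h2
      have h3 : q * algebraMap ℝ (H →L[ℂ] H) ‖b‖ * q = ((‖b‖ : ℝ) : ℂ) • q := by
        rw [Algebra.algebraMap_eq_smul_one, mul_smul_comm, mul_one, smul_mul_assoc, hqq]
        rfl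
      rwa [h3] at h2
    exact le_antisymm hup hlow'

private theorem nm_sa (h : IsIIOne M ξ) {q : H →L[ℂ] H} (hq : IsStarProjection q) (hqM : q ∈ M)
    (hcon : ∀ e ∈ M, IsStarProjection e → e * q = e → e ≠ 0 → e = q)
    {s : H →L[ℂ] H} (hs : s ∈ M) (hsa : IsSelfAdjoint s) : ∃ c : ℂ, q * s * q = c • q := by
  have hqs : star q = q := hq.isSelfAdjoint
  have hqq : q * q = q := hq.isIdempotentElem
  have h1 : 0 ≤ s + ((‖s‖ : ℝ) : ℂ) • (1 : H →L[ℂ] H) := by
    have := IsSelfAdjoint.neg_algebraMap_norm_le_self hsa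
    rw [Algebra.algebraMap_eq_smul_one] at this
    have h2 : (((‖s‖ : ℝ) : ℂ) • (1 : H →L[ℂ] H)) = ‖s‖ • (1 : H →L[ℂ] H) := rfl
    rw [h2]
    have h3 := add_le_add_right this (‖s‖ • (1 : H →L[ℂ] H))
    simpa [add_comm] using h3
  set x := s + ((‖s‖ : ℝ) : ℂ) • (1 : H →L[ℂ] H) with hx
  have hxM : x ∈ M := add_mem hs (smul_mem' _ (one_mem M))
  have h2 : 0 ≤ q * x * q := by
    have := star_left_conjugate_nonneg h1 q
    rwa [hqs] at this
  have h3 := nm_pos h hq hcon (mul_mem (mul_mem hqM hxM) hqM) h2
    (by rw [← mul_assoc, ← mul_assoc, hqq]) (by rw [mul_assoc, hqq])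
  refine ⟨((‖q * x * q‖ : ℝ) : ℂ) - ((‖s‖ : ℝ) : ℂ), ?_⟩
  have h4 : q * x * q = q * s * q + ((‖s‖ : ℝ) : ℂ) • q := by
    rw [hx, mul_add, add_mul, mul_smul_comm, mul_one, smul_mul_assoc, hqq]
  rw [sub_smul, ← h3, h4]
  abel

private theorem nm_all (h : IsIIOne M ξ) {q : H →L[ℂ] H} (hq : IsStarProjection q) (hqM : q ∈ M)
    (hcon : ∀ e ∈ M, IsStarProjection e → e * q = e → e ≠ 0 → e = q)
    {a : H →L[ℂ] H} (ha : a ∈ M) : ∃ c : ℂ, q * a * q = c • q := by
  obtain ⟨c1, h1⟩ := nm_sa h hq hqM hcon (s := a + star a) (add_mem ha (star_mem ha))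
    (by rw [IsSelfAdjoint, star_add, star_star, add_comm])
  obtain ⟨c2, h2⟩ := nm_sa h hq hqM hcon (s := Complex.I • (a - star a))
    (smul_mem' _ (sub_mem ha (star_mem ha)))
    (by
      rw [IsSelfAdjoint, star_smul, star_sub, star_star]
      simp only [Complex.star_def, Complex.conj_I, neg_smul, smul_sub]
      abel)
  refine ⟨(1 / 2 : ℂ) * c1 - (Complex.I / 2) * c2, ?_⟩
  have h3 : a = (1 / 2 : ℂ) • (a + star a) - (Complex.I / 2) • (Complex.I • (a - star a)) := by
    rw [smul_smul, show Complex.I / 2 * Complex.I = -(1 / 2 : ℂ) by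
      rw [div_mul_eq_mul_div, Complex.I_mul_I]; ring]
    rw [neg_smul, sub_neg_eq_add, ← smul_add]
    rw [show a + star a + (a - star a) = (2 : ℂ) • a by rw [two_smul]; abel, smul_smul]
    norm_num
  conv_lhs => rw [h3]
  rw [mul_sub, sub_mul, mul_smul_comm, smul_mul_assoc, h1, mul_smul_comm, smul_mul_assoc, h2,
    smul_smul, smul_smul, sub_smul]

private theorem nm_right {v q : H →L[ℂ] H} (hq : IsStarProjection q) (hv : star v * v = q) :
    v * q = v := by
  have hqs : star q = q := hq.isSelfAdjoint
  have hqq : q * q = q := hq.isIdempotentElem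
  have h1 : star (v * q - v) * (v * q - v) = 0 := by
    rw [star_sub, star_mul, hqs, sub_mul, mul_sub, mul_sub]
    rw [show q * star v * (v * q) = q * (star v * v) * q by simp only [mul_assoc], hv,
      show q * star v * v = q * (star v * v) by simp only [mul_assoc], hv,
      show star v * (v * q) = (star v * v) * q by simp only [mul_assoc], hv, hqq, hqq]
    abel
  have h2 := CStarRing.star_mul_self_eq_zero_iff (v * q - v) |>.1 h1
  exact sub_eq_zero.1 h2

/-- orthogonal families of copies of `q` -/
private def NmFam (M : VonNeumannAlgebra H) (q : H →L[ℂ] H) (n : ℕ) : Prop :=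
  ∃ v : Fin n → (H →L[ℂ] H), (∀ i, v i ∈ M) ∧ (∀ i, star (v i) * v i = q) ∧
    ∀ i j, i ≠ j → star (v i) * v j = 0

private theorem nm_left {q : H →L[ℂ] H} (hq : IsStarProjection q) {n : ℕ}
    {v : Fin n → (H →L[ℂ] H)} (h1 : ∀ i, star (v i) * v i = q)
    (h2 : ∀ i j, i ≠ j → star (v i) * v j = 0) (i : Fin n) :
    star (v i) * (1 - ∑ j, v j * star (v j)) = 0 := by
  have hqs : star q = q := hq.isSelfAdjoint
  rw [mul_sub, mul_one, Finset.mul_sum, Finset.sum_eq_single i]
  · rw [← mul_assoc, h1 i]
    have := congrArg star (nm_right hq (h1 i))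
    rw [star_mul, hqs] at this
    rw [this, sub_self]
  · intro j _ hj
    rw [← mul_assoc, h2 i j (Ne.symm hj), zero_mul]
  · intro hi; exact absurd (Finset.mem_univ i) hi

private theorem nm_proj {q : H →L[ℂ] H} (hq : IsStarProjection q) {n : ℕ}
    {v : Fin n → (H →L[ℂ] H)} (h1 : ∀ i, star (v i) * v i = q)
    (h2 : ∀ i j, i ≠ j → star (v i) * v j = 0) :
    IsStarProjection (1 - ∑ j, v j * star (v j)) := by
  refine ⟨?_, ?_⟩
  · show (1 - ∑ j, v j * star (v j)) * (1 - ∑ j, v j * star (v j)) = _
    have hz : (∑ j, v j * star (v j)) * (1 - ∑ j, v j * star (v j)) = 0 := by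
      rw [Finset.sum_mul]
      refine Finset.sum_eq_zero fun i _ => ?_
      rw [mul_assoc, nm_left hq h1 h2 i, mul_zero]
    rw [sub_mul, one_mul, hz, sub_zero]
  · show star _ = _
    rw [star_sub, star_one, star_sum]
    simp only [star_mul, star_star]

private theorem nm_tr (h : IsIIOne M ξ) {q : H →L[ℂ] H} {n : ℕ}
    {v : Fin n → (H →L[ℂ] H)} (hM : ∀ i, v i ∈ M) (h1 : ∀ i, star (v i) * v i = q) :
    tr ξ (1 - ∑ j, v j * star (v j)) = 1 - n * tr ξ q := by
  rw [tr_sub h.toIsTrace, tr_one h.toIsTrace, tr_sum h.toIsTrace]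
  congr 1
  rw [Finset.sum_congr rfl fun i _ => by
    rw [h.tracial (v i) (hM i) (star (v i)) (star_mem (hM i)), h1 i]]
  simp

theorem exists_sub (h : IsIIOne M ξ) {q : H →L[ℂ] H} (hq : IsStarProjection q) (hqM : q ∈ M) (hq0 : q ≠ 0) :
    ∃ e ∈ M, IsStarProjection e ∧ e * q = e ∧ e ≠ 0 ∧ e ≠ q := by
  by_contra hno
  have hcon : ∀ e ∈ M, IsStarProjection e → e * q = e → e ≠ 0 → e = q := by
    intro e he hep heq he0
    by_contra hne
    exact hno ⟨e, he, hep, heq, he0, hne⟩
  have hqs : star q = q := hq.isSelfAdjoint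
  have hqq : q * q = q := hq.isIdempotentElem
  set t : ℝ := (tr ξ q).re with ht
  have htr := re_tr_proj_mem h.toIsTrace hq
  have ht0 : 0 < t := lt_of_le_of_ne htr.1 fun h0 => hq0 (proj_eq_zero h.toIsTrace hq hqM h0.symm)
  have hbd : ∀ n, NmFam M q n → (n : ℝ) * t ≤ 1 := by
    rintro n ⟨v, hM, h1, h2⟩
    have h3 := (re_tr_proj_mem h.toIsTrace (nm_proj hq h1 h2)).1
    rw [nm_tr h hM h1, Complex.sub_re, Complex.one_re, Complex.mul_re, Complex.natCast_re,
      Complex.natCast_im, zero_mul, sub_zero] at h3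
    linarith
  have hmax : ∃ n, NmFam M q n ∧ ¬ NmFam M q (n + 1) := by
    by_contra hall
    push Not at hall
    have hP : ∀ n, NmFam M q n := by
      intro n
      induction n with
      | zero => exact ⟨fun i => i.elim0, fun i => i.elim0, fun i => i.elim0, fun i => i.elim0⟩
      | succ n ih => exact hall n ih
    obtain ⟨n, hn⟩ := exists_nat_gt (1 / t)
    have := hbd n (hP n)
    rw [div_lt_iff₀ ht0] at hn
    linarith
  obtain ⟨n, ⟨v, hM, h1, h2⟩, hmx⟩ := hmax
  set r := 1 - ∑ j, v j * star (v j) with hr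
  have hrp : IsStarProjection r := nm_proj hq h1 h2
  have hrM : r ∈ M := sub_mem (one_mem M) (sum_mem fun i _ => mul_mem (hM i) (star_mem (hM i)))
  have hvr : ∀ i, star (v i) * r = 0 := nm_left hq h1 h2
  have hr0 : r = 0 := by
    rcases le_or_gt t (tr ξ r).re with hle | hlt
    · exfalso
      obtain ⟨w, hwM, hw1, hw2⟩ := compare h hq hrp hqM hrM hle
      have hvw : ∀ i, star (v i) * w = 0 := by
        intro i
        rw [← hw2, ← mul_assoc, hvr i, zero_mul]
      have hwv : ∀ i, star w * v i = 0 := by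
        intro i
        have := congrArg star (hvw i)
        rwa [star_mul, star_star, star_zero] at this
      refine hmx ⟨Fin.cons w v, ?_, ?_, ?_⟩
      · intro i
        refine Fin.cases ?_ (fun j => ?_) i
        · simpa using hwM
        · simpa using hM j
      · intro i
        refine Fin.cases ?_ (fun j => ?_) i
        · simpa using hw1
        · simpa using h1 j
      · intro i j
        refine Fin.cases ?_ (fun i' => ?_) i <;> refine Fin.cases ?_ (fun j' => ?_) j
        · intro hne; exact absurd rfl hne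
        · intro _; simpa using hwv j'
        · intro _; simpa using hvw i'
        · intro hne
          simpa using h2 i' j' (fun hh => hne (by rw [hh]))
    · obtain ⟨w, hwM, hw1, hw2⟩ := compare h hrp hq hrM hqM hlt.le
      have hwr : w * r = w := nm_right hrp hw1
      have he1 : IsStarProjection (w * star w) := by
        refine ⟨?_, ?_⟩
        · show w * star w * (w * star w) = w * star w
          rw [show w * star w * (w * star w) = w * (star w * w) * star w by simp only [mul_assoc],
            hw1, hwr]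
        · show star _ = _
          rw [star_mul, star_star]
      have he2 : w * star w * q = w * star w := by
        have := congrArg star hw2
        rw [star_mul, hqs] at this
        rw [mul_assoc, this]
      have he3 : tr ξ (w * star w) = tr ξ r := by
        rw [h.tracial w hwM (star w) (star_mem hwM), hw1]
      have he4 : w * star w = 0 := by
        by_contra hne
        have := hcon _ (mul_mem hwM (star_mem hwM)) he1 he2 hne
        rw [this] at he3
        rw [ht, he3] at hlt
        exact lt_irrefl _ hlt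
      have he5 : w = 0 := (CStarRing.mul_star_self_eq_zero_iff w).1 he4
      rw [← hw1, he5, mul_zero]
  -- everything is in the span of `n ^ 2` elements
  have hone : (1 : H →L[ℂ] H) = ∑ j, v j * star (v j) := by
    have := hr0
    rw [hr] at this
    exact sub_eq_zero.1 this
  have hspan : ∀ a ∈ M, a ∈ Submodule.span ℂ
      (Set.range fun ij : Fin n × Fin n => v ij.1 * star (v ij.2)) := by
    intro a ha
    have h3 : a = ∑ i, ∑ j, v i * (star (v i) * a * v j) * star (v j) := by
      calc a = (∑ i, v i * star (v i)) * a * (∑ j, v j * star (v j)) := by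
            rw [← hone, one_mul, mul_one]
        _ = _ := by
            rw [Finset.sum_mul, Finset.sum_mul]
            refine Finset.sum_congr rfl fun i _ => ?_
            rw [Finset.mul_sum]
            refine Finset.sum_congr rfl fun j _ => ?_
            simp only [mul_assoc]
    rw [h3]
    refine Submodule.sum_mem _ fun i _ => Submodule.sum_mem _ fun j _ => ?_
    obtain ⟨c, hc⟩ := nm_all h hq hqM hcon
      (mul_mem (mul_mem (star_mem (hM i)) ha) (hM j))
    have h4 : q * (star (v i) * a * v j) * q = star (v i) * a * v j := by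
      have h5 := congrArg star (nm_right hq (h1 i))
      rw [star_mul, hqs] at h5
      rw [show q * (star (v i) * a * v j) * q = (q * star (v i)) * a * (v j * q) by
        simp only [mul_assoc], h5, nm_right hq (h1 j)]
    rw [← h4, hc, mul_smul_comm, smul_mul_assoc, nm_right hq (h1 i)]
    exact Submodule.smul_mem _ _ (Submodule.subset_span ⟨(i, j), rfl⟩)
  obtain ⟨u, huM, hu⟩ := h.infinite (n * n + 1)
  classical
  let _ : Fintype (Set.range fun ij : Fin n × Fin n => v ij.1 * star (v ij.2)) :=
    Fintype.ofFinite _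
  have hle := linearIndependent_le_span' u hu
    (Set.range fun ij : Fin n × Fin n => v ij.1 * star (v ij.2))
    (by rintro _ ⟨i, rfl⟩; exact hspan _ (huM i))
  have hcard : Fintype.card (Set.range fun ij : Fin n × Fin n => v ij.1 * star (v ij.2)) ≤ n * n := by
    have := Fintype.card_le_of_surjective
      (Set.rangeFactorization fun ij : Fin n × Fin n => v ij.1 * star (v ij.2))
      Set.rangeFactorization_surjective
    simpa using this
  rw [Cardinal.mk_fin] at hle
  have : n * n + 1 ≤ Fintype.card (Set.range fun ij : Fin n × Fin n => v ij.1 * star (v ij.2)) := by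
    exact_mod_cast hle
  omega

end Pool.Agent.Lib.UPE
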