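import Pool.Agent.Lib.UPE.Bas

/-!
# UPE / RP (100 lines): range projections

PROOF.  `rp x` is the orthogonal projection onto `K = closure (range x)`
(`isStarProjection_starProjection`).  `rp_mul_self`: `x v ∈ K`.  `mul_rp_eq_zero`: `y` vanishes on the range of
`x`, so on `K` by continuity, and `rp x v ∈ K`.  `rp_comm`: `b x = x b` gives `b (range x) ⊆ range x`, so
`b K ⊆ K`, that is `rp x * b * rp x = b * rp x`; taking adjoints of `b x = x b` (`x` self-adjoint) the same
holds for `star b`: `rp x * star b * rp x = star b * rp x`, take adjoints: `rp x * b * rp x = rp x * b`.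
`rp_mem`: `IsStarProjection.mem_iff` (Mathlib, `VonNeumannAlgebra`): `K` is invariant under every `y` in the
commutant, since `y x = x y` (`VonNeumannAlgebra.mem_commutant_iff`).
-/

set_option autoImplicit false

open Filter Topology

namespace Pool.Agent.Lib.UPE

variable {H : Type*} [NormedAddCommGroup H] [InnerProductSpace ℂ H] [CompleteSpace H]
variable {M : VonNeumannAlgebra H} {ξ : ℕ → H}

private theorem rp_closure_mem (x : H →L[ℂ] H) (v : H) : x v ∈ x.range.topologicalClosure :=
  Submodule.le_topologicalClosure _ ⟨v, rfl⟩

private theorem rp_apply_mem (x : H →L[ℂ] H) (v : H) : rp x v ∈ x.range.topologicalClosure :=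
  Submodule.starProjection_apply_mem _ v

private theorem rp_fix (x : H →L[ℂ] H) {v : H} (hv : v ∈ x.range.topologicalClosure) : rp x v = v :=
  Submodule.starProjection_eq_self_iff.2 hv

/-- a continuous operator which maps the range of `x` to itself maps its closure to itself -/
private theorem rp_inv {x b : H →L[ℂ] H} (hb : b * x = x * b) {v : H} (hv : v ∈ x.range.topologicalClosure) :
    b v ∈ x.range.topologicalClosure := by
  have hsub : x.range.topologicalClosure ≤ (x.range.topologicalClosure).comap (b : H →ₗ[ℂ] H) := by
    refine Submodule.topologicalClosure_minimal _ ?_ ?_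
    · rintro _ ⟨w, rfl⟩
      rw [Submodule.mem_comap]
      have h1 : b (x w) = x (b w) := by
        have := congrArg (fun f : H →L[ℂ] H => f w) hb
        simpa using this
      have h2 : (b : H →ₗ[ℂ] H) (x w) = x (b w) := h1
      exact h2 ▸ rp_closure_mem x (b w)
    · exact (Submodule.isClosed_topologicalClosure _).preimage b.continuous
  exact hsub hv

theorem rp_proj (x : H →L[ℂ] H) : IsStarProjection (rp x) := by
  unfold rp
  exact isStarProjection_starProjection

theorem rp_mul_self (x : H →L[ℂ] H) : rp x * x = x := by
  ext v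
  exact rp_fix x (rp_closure_mem x v)

theorem mul_rp_eq_zero {x y : H →L[ℂ] H} (hy : y * x = 0) : y * rp x = 0 := by
  have hsub : x.range.topologicalClosure ≤ LinearMap.ker (y : H →ₗ[ℂ] H) := by
    refine Submodule.topologicalClosure_minimal _ ?_ ?_
    · rintro _ ⟨w, rfl⟩
      rw [LinearMap.mem_ker]
      have := congrArg (fun f : H →L[ℂ] H => f w) hy
      simpa using this
    · exact y.isClosed_ker
  ext v
  exact hsub (rp_apply_mem x v)

private theorem rp_half {x b : H →L[ℂ] H} (hb : b * x = x * b) : rp x * (b * rp x) = b * rp x := by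
  ext v
  exact rp_fix x (rp_inv hb (rp_apply_mem x v))

private theorem rp_comm_aux {x b : H →L[ℂ] H} (hb : b * x = x * b) (hb' : star b * x = x * star b) :
    b * rp x = rp x * b := by
  have h1 := rp_half hb
  have h2 := congrArg star (rp_half hb')
  have hs : star (rp x) = rp x := (rp_proj x).isSelfAdjoint.star_eq
  rw [star_mul, star_mul, star_star, hs] at h2
  rw [← h1, ← h2, mul_assoc]

theorem rp_comm {x b : H →L[ℂ] H} (hx : IsSelfAdjoint x) (hb : b * x = x * b) :
    b * rp x = rp x * b := by
  refine rp_comm_aux hb ?_
  have := congrArg star hb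
  rw [star_mul, star_mul, hx.star_eq] at this
  exact this.symm

theorem rp_mem {x : H →L[ℂ] H} (hx : x ∈ M) : rp x ∈ M := by
  rw [← VonNeumannAlgebra.commutant_commutant M, VonNeumannAlgebra.mem_commutant_iff]
  intro g hg
  have hg' : star g ∈ M.commutant := star_mem hg
  rw [VonNeumannAlgebra.mem_commutant_iff] at hg hg'
  exact rp_comm_aux (hg x hx).symm (hg' x hx).symm

end Pool.Agent.Lib.UPE
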