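import Pool.Agent.Lib.UPE.IDefs

/-!
# Ultrapower embeddings of II_1 factors: the seven conditions

`corner M 1` is `M`; `IsCS M 1 M ξ U t Θ` says that `Θ` induces a *-homomorphism from `M` to the ultrapower of `M`
whose composition with the trace of the ultrapower is `t`.
-/

set_option autoImplicit false

open Filter Topology

namespace Pool.Agent.Lib.UPE

variable {H : Type*} [NormedAddCommGroup H] [InnerProductSpace ℂ H] [CompleteSpace H]

/-- the `n` by `n` matrices over `M` -/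
def mats (M : VonNeumannAlgebra H) (n : ℕ) : Set (Matrix (Fin n) (Fin n) (H →L[ℂ] H)) :=
  {a | ∀ i j, a i j ∈ M}

/-- `Θ` induces a unital *-homomorphism from the algebra of `n` by `n` matrices over `M` to the ultrapower of `M` along
`U` which preserves the normalised traces -/
structure IsMat (M : VonNeumannAlgebra H) (ξ : ℕ → H) (U : Ultrafilter ℕ) (n : ℕ)
    (Θ : Matrix (Fin n) (Fin n) (H →L[ℂ] H) → ℕ → (H →L[ℂ] H)) : Prop where
  mem : ∀ a ∈ mats M n, ∀ k, Θ a k ∈ M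
  bdd : ∀ a ∈ mats M n, ∃ C : ℝ, ∀ k, ‖Θ a k‖ ≤ C
  add : ∀ a ∈ mats M n, ∀ b ∈ mats M n, Null ξ U fun k => Θ (a + b) k - (Θ a k + Θ b k)
  smul : ∀ c : ℂ, ∀ a ∈ mats M n, Null ξ U fun k => Θ (c • a) k - c • Θ a k
  mul : ∀ a ∈ mats M n, ∀ b ∈ mats M n, Null ξ U fun k => Θ (a * b) k - Θ a k * Θ b k
  star_ : ∀ a ∈ mats M n, Null ξ U fun k => Θ (star a) k - star (Θ a k)
  unit : Null ξ U fun k => Θ 1 k - 1
  trace : ∀ a ∈ mats M n, Tendsto (fun k => tr ξ (Θ a k)) U (𝓝 ((1 / (n : ℂ)) * ∑ i, tr ξ (a i i)))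

/-- the algebra of `n` by `n` matrices over `M` embeds in the ultrapower of `M` along `U` -/
def MatE (M : VonNeumannAlgebra H) (ξ : ℕ → H) (U : Ultrafilter ℕ) (n : ℕ) : Prop :=
  ∃ Θ : Matrix (Fin n) (Fin n) (H →L[ℂ] H) → ℕ → (H →L[ℂ] H), IsMat M ξ U n Θ

/-- `M_2(M)` embeds in the ultrapower of `M` along some non-principal ultrafilter -/
def SomeMat (M : VonNeumannAlgebra H) (ξ : ℕ → H) : Prop :=
  ∃ U : Ultrafilter ℕ, (U : Filter ℕ) ≤ cofinite ∧ MatE M ξ U 2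

/-- all `M_n(M)` embed in the ultrapower of `M` along every non-principal ultrafilter -/
def AllMat (M : VonNeumannAlgebra H) (ξ : ℕ → H) : Prop :=
  ∀ U : Ultrafilter ℕ, (U : Filter ℕ) ≤ cofinite → ∀ n : ℕ, 1 ≤ n → MatE M ξ U n

/-- some corner `p M p` embeds in the ultrapower of a smaller non-zero corner `q M q` -/
def SomeCC (M : VonNeumannAlgebra H) (ξ : ℕ → H) : Prop :=
  ∃ U : Ultrafilter ℕ, (U : Filter ℕ) ≤ cofinite ∧ ∃ p ∈ M, ∃ q ∈ M, IsStarProjection p ∧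
    IsStarProjection q ∧ q ≠ 0 ∧ (tr ξ q).re < (tr ξ p).re ∧ CCEmb M ξ U p q

/-- every non-zero corner embeds in the ultrapower of every other one -/
def AllCC (M : VonNeumannAlgebra H) (ξ : ℕ → H) : Prop :=
  ∀ U : Ultrafilter ℕ, (U : Filter ℕ) ≤ cofinite → ∀ p ∈ M, ∀ q ∈ M, IsStarProjection p →
    IsStarProjection q → p ≠ 0 → q ≠ 0 → CCEmb M ξ U p q

/-- some unital trace preserving *-homomorphism `Θ` from `M` to its ultrapower along a non-principal ultrafilter has a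
non-scalar element `x` in the relative commutant of its image -/
def SomeComm (M : VonNeumannAlgebra H) (ξ : ℕ → H) : Prop :=
  ∃ U : Ultrafilter ℕ, (U : Filter ℕ) ≤ cofinite ∧ ∃ Θ : (H →L[ℂ] H) → ℕ → (H →L[ℂ] H),
    IsCS M 1 M ξ U (tr ξ) Θ ∧ (Null ξ U fun n => Θ 1 n - 1) ∧
      ∃ x : ℕ → (H →L[ℂ] H), (∀ n, x n ∈ M) ∧ (∃ C : ℝ, ∀ n, ‖x n‖ ≤ C) ∧
        (∀ a ∈ M, Null ξ U fun n => x n * Θ a n - Θ a n * x n) ∧
        ∀ c : ℂ, ¬ Null ξ U fun n => x n - c • (1 : H →L[ℂ] H)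

/-- the closures (pointwise convergence on words) of the sets of laws are convex -/
def ConvLaws (M : VonNeumannAlgebra H) (ξ : ℕ → H) : Prop := ∀ k, Convex ℝ (closure (laws M ξ k))

/-- some *-homomorphism `Θ` from `M` to an ultrapower of `M` (not necessarily unital, no condition on the traces: `t` is
arbitrary) maps 1 neither to 0 nor to 1 -/
def SomeHom (M : VonNeumannAlgebra H) (ξ : ℕ → H) : Prop :=
  ∃ (U : Ultrafilter ℕ) (t : (H →L[ℂ] H) → ℂ) (Θ : (H →L[ℂ] H) → ℕ → (H →L[ℂ] H)),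
    IsCS M 1 M ξ U t Θ ∧ (¬ Null ξ U fun n => Θ 1 n) ∧ ¬ Null ξ U fun n => Θ 1 n - 1

end Pool.Agent.Lib.UPE
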