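import Pool.Agent.Lib.UPE.SDefs
import Pool.Agent.Lib.UPE.HDefs
import Pool.Agent.Lib.UPE.Bas

/-!
# UPE / SEq: the two forms of the definitions of embeddings agree
-/

set_option autoImplicit false

open Filter Topology

namespace Pool.Agent.Lib.UPE

variable {H : Type*} [NormedAddCommGroup H] [InnerProductSpace ℂ H] [CompleteSpace H]
variable {M : VonNeumannAlgebra H} {ξ : ℕ → H}

theorem corner_one {a : H →L[ℂ] H} : a ∈ corner M 1 ↔ a ∈ M := by
  simp [corner]

theorem cs_of_emb {U : Ultrafilter ℕ} {t : M.toStarSubalgebra → ℂ} {Θ : M.toStarSubalgebra → ℕ → (H →L[ℂ] H)}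
    (hΘ : IsEmb M ξ U t Θ) : ∃ (t' : (H →L[ℂ] H) → ℂ) (Θ' : (H →L[ℂ] H) → ℕ → (H →L[ℂ] H)),
      (∀ a : M.toStarSubalgebra, t' a = t a) ∧ (∀ a : M.toStarSubalgebra, Θ' a = Θ a) ∧
        IsCS M 1 M ξ U t' Θ' := by
  classical
  refine ⟨fun a => if h : a ∈ M then t ⟨a, h⟩ else 0, fun a => if h : a ∈ M then Θ ⟨a, h⟩ else fun _ => 0,
    fun a => dif_pos a.2, fun a => dif_pos a.2, ⟨?_, ?_, ?_, ?_, ?_, ?_, ?_⟩⟩
  · intro a ha n
    have h := corner_one.1 ha
    simp only [dif_pos h]
    exact hΘ.mem _ n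
  · intro a ha
    have h := corner_one.1 ha
    simp only [dif_pos h]
    exact hΘ.bdd _
  · intro a ha b hb
    have h := corner_one.1 ha
    have h' := corner_one.1 hb
    simp only [dif_pos h, dif_pos h', dif_pos (add_mem h h')]
    exact hΘ.add ⟨a, h⟩ ⟨b, h'⟩
  · intro z a ha
    have h := corner_one.1 ha
    simp only [dif_pos h, dif_pos (smul_mem' z h)]
    exact hΘ.smul z ⟨a, h⟩
  · intro a ha b hb
    have h := corner_one.1 ha
    have h' := corner_one.1 hb
    simp only [dif_pos h, dif_pos h', dif_pos (mul_mem h h')]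
    exact hΘ.mul ⟨a, h⟩ ⟨b, h'⟩
  · intro a ha
    have h := corner_one.1 ha
    simp only [dif_pos h, dif_pos (star_mem h)]
    exact hΘ.star_ ⟨a, h⟩
  · intro a ha
    have h := corner_one.1 ha
    simp only [dif_pos h]
    exact hΘ.trace _

theorem emb_of_cs {U : Ultrafilter ℕ} {t : (H →L[ℂ] H) → ℂ} {Θ : (H →L[ℂ] H) → ℕ → (H →L[ℂ] H)}
    (hΘ : IsCS M 1 M ξ U t Θ) : IsEmb M ξ U (fun a : M.toStarSubalgebra => t a)
      fun a : M.toStarSubalgebra => Θ a :=
  ⟨fun a n => hΘ.mem _ (corner_one.2 a.2) n, fun a => hΘ.bdd _ (corner_one.2 a.2),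
    fun a b => hΘ.add _ (corner_one.2 a.2) _ (corner_one.2 b.2), fun c a => hΘ.smul c _ (corner_one.2 a.2),
    fun a b => hΘ.mul _ (corner_one.2 a.2) _ (corner_one.2 b.2), fun a => hΘ.star_ _ (corner_one.2 a.2),
    fun a => hΘ.trace _ (corner_one.2 a.2)⟩

theorem someHom_iff : SomeHom M ξ ↔ ∃ U : Ultrafilter ℕ, HomEmb M ξ U := by
  constructor
  · rintro ⟨U, t, Θ, hΘ, h0, h1⟩
    exact ⟨U, _, _, emb_of_cs hΘ, h0, h1⟩
  · rintro ⟨U, t, Θ, hΘ, h0, h1⟩
    obtain ⟨t', Θ', -, hΘ', hcs⟩ := cs_of_emb hΘ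
    refine ⟨U, t', Θ', hcs, ?_, ?_⟩
    · have := hΘ' 1
      rw [show ((1 : M.toStarSubalgebra) : H →L[ℂ] H) = 1 from rfl] at this
      rw [this]; exact h0
    · have := hΘ' 1
      rw [show ((1 : M.toStarSubalgebra) : H →L[ℂ] H) = 1 from rfl] at this
      rw [this]; exact h1

theorem someComm_iff : SomeComm M ξ ↔ ∃ U : Ultrafilter ℕ, (U : Filter ℕ) ≤ cofinite ∧ CommEmb M ξ U := by
  constructor
  · rintro ⟨U, hU, Θ, hΘ, h1, x, hx, hC, hc, hs⟩
    exact ⟨U, hU, _, emb_of_cs hΘ, h1, x, hx, hC, fun a => hc _ a.2, hs⟩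
  · rintro ⟨U, hU, Θ, hΘ, h1, x, hx, hC, hc, hs⟩
    obtain ⟨t', Θ', ht', hΘ', hcs⟩ := cs_of_emb hΘ
    have hcs' : IsCS M 1 M ξ U (tr ξ) Θ' := by
      refine ⟨hcs.mem, hcs.bdd, hcs.add, hcs.smul, hcs.mul, hcs.star_, fun a ha => ?_⟩
      have h2 := hcs.trace a ha
      have h3 := ht' ⟨a, corner_one.1 ha⟩
      simp only at h3
      rwa [h3] at h2
    refine ⟨U, hU, Θ', hcs', ?_, x, hx, hC, ?_, hs⟩
    · have := hΘ' 1
      rw [show ((1 : M.toStarSubalgebra) : H →L[ℂ] H) = 1 from rfl] at this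
      rw [this]; exact h1
    · intro a ha
      have := hΘ' ⟨a, ha⟩
      simp only at this
      rw [this]
      exact hc ⟨a, ha⟩

theorem matE_iff {U : Ultrafilter ℕ} {n : ℕ} : MatE M ξ U n ↔ MatEmb M ξ U n := by
  classical
  constructor
  · rintro ⟨Θ, hΘ⟩
    have hm : ∀ a : Matrix (Fin n) (Fin n) M.toStarSubalgebra,
        (a.map Subtype.val : Matrix (Fin n) (Fin n) (H →L[ℂ] H)) ∈ mats M n := fun a i j => (a i j).2
    refine ⟨fun a => Θ (a.map Subtype.val), ⟨fun a k => hΘ.mem _ (hm a) k, fun a => hΘ.bdd _ (hm a), ?_, ?_, ?_,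
      ?_, fun a => hΘ.trace _ (hm a)⟩, ?_⟩
    · intro a b
      have h2 := hΘ.add _ (hm a) _ (hm b)
      have h3 : ((a + b).map Subtype.val : Matrix (Fin n) (Fin n) (H →L[ℂ] H)) =
          a.map Subtype.val + b.map Subtype.val := by
        ext i j : 2
        rfl
      rw [h3]
      exact h2
    · intro c a
      have h2 := hΘ.smul c _ (hm a)
      have h3 : ((c • a).map Subtype.val : Matrix (Fin n) (Fin n) (H →L[ℂ] H)) = c • a.map Subtype.val := by
        ext i j : 2
        rfl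
      rw [h3]
      exact h2
    · intro a b
      have h2 := hΘ.mul _ (hm a) _ (hm b)
      have h3 : ((a * b).map Subtype.val : Matrix (Fin n) (Fin n) (H →L[ℂ] H)) =
          a.map Subtype.val * b.map Subtype.val := by
        refine Matrix.ext fun i j => ?_
        rw [Matrix.map_apply, Matrix.mul_apply, Matrix.mul_apply]
        exact map_sum (M.toStarSubalgebra.subtype) _ _
      rw [h3]
      exact h2
    · intro a
      have h2 := hΘ.star_ _ (hm a)
      have h3 : ((star a).map Subtype.val : Matrix (Fin n) (Fin n) (H →L[ℂ] H)) =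
          star (a.map Subtype.val : Matrix (Fin n) (Fin n) (H →L[ℂ] H)) := by
        ext i j : 2
        rfl
      rw [h3]
      exact h2
    · have h3 : ((1 : Matrix (Fin n) (Fin n) M.toStarSubalgebra).map Subtype.val :
          Matrix (Fin n) (Fin n) (H →L[ℂ] H)) = 1 := by
        ext i j : 2
        simp only [Matrix.map_apply, Matrix.one_apply]
        split_ifs <;> rfl
      show Null ξ U fun j => Θ ((1 : Matrix (Fin n) (Fin n) M.toStarSubalgebra).map Subtype.val) j - 1
      rw [h3]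
      exact hΘ.unit
  · rintro ⟨Θ, hΘ, h1⟩
    let L : (a : Matrix (Fin n) (Fin n) (H →L[ℂ] H)) → a ∈ mats M n → Matrix (Fin n) (Fin n) M.toStarSubalgebra :=
      fun a h => Matrix.of fun i j => ⟨a i j, h i j⟩
    have hadd : ∀ {a b : Matrix (Fin n) (Fin n) (H →L[ℂ] H)}, a ∈ mats M n → b ∈ mats M n → a + b ∈ mats M n :=
      fun ha hb i j => add_mem (ha i j) (hb i j)
    have hsm : ∀ (c : ℂ) {a : Matrix (Fin n) (Fin n) (H →L[ℂ] H)}, a ∈ mats M n → c • a ∈ mats M n :=
      fun c a ha i j => smul_mem' c (ha i j)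
    have hmu : ∀ {a b : Matrix (Fin n) (Fin n) (H →L[ℂ] H)}, a ∈ mats M n → b ∈ mats M n → a * b ∈ mats M n := by
      intro a b ha hb i j
      rw [Matrix.mul_apply]
      exact sum_mem fun r _ => mul_mem (ha i r) (hb r j)
    have hst : ∀ {a : Matrix (Fin n) (Fin n) (H →L[ℂ] H)}, a ∈ mats M n → star a ∈ mats M n :=
      fun ha i j => star_mem (ha j i)
    have hone : (1 : Matrix (Fin n) (Fin n) (H →L[ℂ] H)) ∈ mats M n := by
      intro i j
      rw [Matrix.one_apply]
      split_ifs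
      · exact one_mem M
      · exact zero_mem M
    refine ⟨fun a => if h : a ∈ mats M n then Θ (L a h) else fun _ => 0, ⟨?_, ?_, ?_, ?_, ?_, ?_, ?_, ?_⟩⟩
    · intro a ha k
      simp only [dif_pos ha]
      exact hΘ.mem _ k
    · intro a ha
      simp only [dif_pos ha]
      exact hΘ.bdd _
    · intro a ha b hb
      simp only [dif_pos ha, dif_pos hb, dif_pos (hadd ha hb)]
      have h3 : L (a + b) (hadd ha hb) = L a ha + L b hb := by
        ext i j : 2
        rfl
      rw [h3]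
      exact hΘ.add _ _
    · intro c a ha
      simp only [dif_pos ha, dif_pos (hsm c ha)]
      have h3 : L (c • a) (hsm c ha) = c • L a ha := by
        ext i j : 2
        rfl
      rw [h3]
      exact hΘ.smul _ _
    · intro a ha b hb
      simp only [dif_pos ha, dif_pos hb, dif_pos (hmu ha hb)]
      have h3 : L (a * b) (hmu ha hb) = L a ha * L b hb := by
        refine Matrix.ext fun i j => Subtype.ext ?_
        show (a * b) i j = ((L a ha * L b hb) i j : H →L[ℂ] H)
        rw [Matrix.mul_apply, Matrix.mul_apply]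
        exact (map_sum (M.toStarSubalgebra.subtype) (fun r => L a ha i r * L b hb r j) Finset.univ).symm
      rw [h3]
      exact hΘ.mul _ _
    · intro a ha
      simp only [dif_pos ha, dif_pos (hst ha)]
      have h3 : L (star a) (hst ha) = star (L a ha) := by
        ext i j : 2
        rfl
      rw [h3]
      exact hΘ.star_ _
    · simp only [dif_pos hone]
      have h3 : L 1 hone = 1 := by
        ext i j : 2
        show (1 : Matrix (Fin n) (Fin n) (H →L[ℂ] H)) i j =
          ((1 : Matrix (Fin n) (Fin n) M.toStarSubalgebra) i j : H →L[ℂ] H)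
        rw [Matrix.one_apply, Matrix.one_apply]
        split_ifs <;> rfl
      rw [h3]
      exact h1
    · intro a ha
      simp only [dif_pos ha]
      exact hΘ.trace _

end Pool.Agent.Lib.UPE
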