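import Pool.Agent.Lib.UPE.Bas

/-!
# UPE / SL (180 lines): strong limits of increasing partial isometries

PROOF.  `e n = star (v n) * v n` is a projection and `e n ≤ e (n+1)` in the sense `e (n+1) * e n = e n`: from `hext`
`v n = v (n+1) * e n`, so `e n = e n * e (n+1) * e n`, so `‖(1 - e (n+1)) (e n ζ)‖ ^ 2 = 0`.  By induction
`e m * e n = e n` and `v m * e n = v n` for `n ≤ m`.  For `ζ : H` the sequence `‖e n ζ‖` is increasing and bounded by `‖ζ‖`, and
`‖v m ζ - v n ζ‖ ^ 2 = ‖v m (e m - e n) ζ‖ ^ 2 ≤ ‖(e m - e n) ζ‖ ^ 2 = ‖e m ζ‖ ^ 2 - ‖e n ζ‖ ^ 2`, so `v n ζ` is Cauchy.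
`u ζ = lim v n ζ` is linear and bounded by `‖ζ‖` (`continuousLinearMapOfTendsto` or `LinearMap.mkContinuous`).  `u ∈ M`: it
commutes with the commutant (limits), `commutant_commutant`, `mem_commutant_iff`.  `u * e n = v n` (limit of
`v m * e n = v n`).  `a * u = u` if all `a * v n = v n`: limit.  `u * a = u` if all `v n * a = v n`: apply the limit at `a ζ`.
`star u * u` : `⟪u ζ, u η⟫ = lim ⟪v n ζ, v n η⟫ = lim ⟪ζ, e n η⟫`, so `star u * u` is the strong limit `e` of `e n`
(which exists by the same Cauchy argument, `‖(e m - e n) ζ‖^2 = ‖e m ζ‖^2 - ‖e n ζ‖^2`); `u * e = lim u * e n = lim v n = u` at every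
vector, so `u * star u * u = u`.  `tr (e n) → tr (star u * u)`: `tr (e n) = ∑ ‖v n (ξ i)‖ ^ 2`, each term
tends to `‖u (ξ i)‖ ^ 2` and is bounded by `‖ξ i‖ ^ 2` (`tendsto_tsum_of_dominated_convergence`), `tr_star_mul_self`.
-/

set_option autoImplicit false

open Filter Topology

namespace Pool.Agent.Lib.UPE

variable {H : Type*} [NormedAddCommGroup H] [InnerProductSpace ℂ H] [CompleteSpace H]
variable {M : VonNeumannAlgebra H} {ξ : ℕ → H}

/-- the domain projections increase -/
private theorem SL_mul (v : ℕ → (H →L[ℂ] H))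
    (hpi : ∀ n, v n * star (v n) * v n = v n)
    (hext : ∀ n, v (n + 1) * (star (v n) * v n) = v n) :
    ∀ n m, n ≤ m → (star (v m) * v m) * (star (v n) * v n) = star (v n) * v n ∧ v m * (star (v n) * v n) = v n := by
  have hstep : ∀ n, (star (v (n + 1)) * v (n + 1)) * (star (v n) * v n) = star (v n) * v n := by
    intro n
    set p := star (v (n + 1)) * v (n + 1) with hp
    set q := star (v n) * v n with hq
    have hps : star p = p := by rw [hp, star_mul, star_star]
    have hqs : star q = q := by rw [hq, star_mul, star_star]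
    have hqq : q * q = q := by
      rw [hq]
      calc star (v n) * v n * (star (v n) * v n) = star (v n) * (v n * star (v n) * v n) := by noncomm_ring
        _ = _ := by rw [hpi]
    have hpp : p * p = p := by
      rw [hp]
      calc star (v (n + 1)) * v (n + 1) * (star (v (n + 1)) * v (n + 1)) =
          star (v (n + 1)) * (v (n + 1) * star (v (n + 1)) * v (n + 1)) := by noncomm_ring
        _ = _ := by rw [hpi]
    have hqpq : q * p * q = q := by
      have h1 : star (v (n + 1) * q) * (v (n + 1) * q) = q := by rw [hext n]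
      rw [star_mul, hqs] at h1
      rw [hp]
      calc q * (star (v (n + 1)) * v (n + 1)) * q = q * star (v (n + 1)) * (v (n + 1) * q) := by noncomm_ring
        _ = q := h1
    have h0 : star (q - p * q) * (q - p * q) = 0 := by
      rw [star_sub, star_mul p q, hps, hqs]
      calc (q - q * p) * (q - p * q) = q * q - q * p * q - q * p * q + q * (p * p) * q := by noncomm_ring
        _ = 0 := by rw [hpp, hqpq, hqq]; simp
    have h1 := CStarRing.star_mul_self_eq_zero_iff (q - p * q) |>.1 h0
    exact (sub_eq_zero.1 h1).symm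
  intro n m hnm
  induction m, hnm using Nat.le_induction with
  | base =>
    refine ⟨?_, ?_⟩
    · calc star (v n) * v n * (star (v n) * v n) = star (v n) * (v n * star (v n) * v n) := by noncomm_ring
        _ = _ := by rw [hpi]
    · calc v n * (star (v n) * v n) = v n * star (v n) * v n := by noncomm_ring
        _ = _ := hpi n
  | succ m hm ih =>
    obtain ⟨h1, h2⟩ := ih
    refine ⟨?_, ?_⟩
    · calc star (v (m + 1)) * v (m + 1) * (star (v n) * v n)
          = star (v (m + 1)) * v (m + 1) * ((star (v m) * v m) * (star (v n) * v n)) := by rw [h1]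
        _ = (star (v (m + 1)) * v (m + 1) * (star (v m) * v m)) * (star (v n) * v n) := by noncomm_ring
        _ = _ := by rw [hstep m, h1]
    · calc v (m + 1) * (star (v n) * v n) = v (m + 1) * ((star (v m) * v m) * (star (v n) * v n)) := by rw [h1]
        _ = (v (m + 1) * (star (v m) * v m)) * (star (v n) * v n) := by noncomm_ring
        _ = _ := by rw [hext m, h2]

private theorem SL_inner (a b : H →L[ℂ] H) (ζ η : H) : inner ℂ (a ζ) (b η) = inner ℂ ζ ((star a * b) η) := by
  rw [ContinuousLinearMap.star_eq_adjoint]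
  change _ = inner ℂ ζ (ContinuousLinearMap.adjoint a (b η))
  rw [ContinuousLinearMap.adjoint_inner_right]

/-- a partial isometry is a contraction -/
private theorem SL_norm (v : H →L[ℂ] H) (hpi : v * star v * v = v) (ζ : H) : ‖v ζ‖ ≤ ‖ζ‖ := by
  have h1 : ‖v‖ ≤ 1 := by
    have h2 : ‖star v * v‖ = ‖v‖ * ‖v‖ := CStarRing.norm_star_mul_self
    have h3 : ‖v‖ ≤ ‖v‖ * (‖v‖ * ‖v‖) := by
      calc ‖v‖ = ‖v * (star v * v)‖ := by rw [← mul_assoc, hpi]
        _ ≤ ‖v‖ * ‖star v * v‖ := norm_mul_le _ _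
        _ = _ := by rw [h2]
    have h4 : ‖star v * v‖ ≤ ‖star v * v‖ * ‖star v * v‖ := by
      calc ‖star v * v‖ = ‖(star v * v) * (star v * v)‖ := by
            congr 1
            calc star v * v = star v * (v * star v * v) := by rw [hpi]
              _ = _ := by noncomm_ring
        _ ≤ _ := norm_mul_le _ _
    have h5 : ‖star v * v‖ * ‖star v * v‖ = ‖star v * v‖ := by
      have h6 : ‖star (star v * v) * (star v * v)‖ = ‖star v * v‖ * ‖star v * v‖ := CStarRing.norm_star_mul_self
      rw [← h6]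
      congr 1
      rw [star_mul, star_star]
      calc star v * v * (star v * v) = star v * (v * star v * v) := by noncomm_ring
        _ = _ := by rw [hpi]
    have h7 : ‖star v * v‖ ≤ 1 := by
      by_contra hc
      push Not at hc
      nlinarith [norm_nonneg (star v * v)]
    rw [h2] at h7
    nlinarith [norm_nonneg v]
  calc ‖v ζ‖ ≤ ‖v‖ * ‖ζ‖ := v.le_opNorm ζ
    _ ≤ 1 * ‖ζ‖ := mul_le_mul_of_nonneg_right h1 (norm_nonneg _)
    _ = ‖ζ‖ := one_mul _

/-- existence of the strong limit -/
private theorem SL_lim (v : ℕ → (H →L[ℂ] H))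
    (hpi : ∀ n, v n * star (v n) * v n = v n)
    (hext : ∀ n, v (n + 1) * (star (v n) * v n) = v n) :
    ∃ u : H →L[ℂ] H, ∀ ζ : H, Tendsto (fun n => v n ζ) atTop (𝓝 (u ζ)) := by
  have hmul := SL_mul v hpi hext
  have hdiff : ∀ ζ : H, ∀ n m, n ≤ m → ‖v m ζ - v n ζ‖ ^ 2 = ‖v m ζ‖ ^ 2 - ‖v n ζ‖ ^ 2 := by
    intro ζ n m hnm
    have h1 : inner ℂ (v m ζ) (v n ζ) = inner ℂ (v n ζ) (v n ζ) := by
      rw [SL_inner, SL_inner]
      congr 2
      have h2 := (hmul n m hnm).2
      calc star (v m) * v n = star (v m) * (v m * (star (v n) * v n)) := by rw [h2]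
        _ = star (v m) * v m * (star (v n) * v n) := by noncomm_ring
        _ = _ := (hmul n m hnm).1
    have h3 := norm_sub_sq (𝕜 := ℂ) (v m ζ) (v n ζ)
    rw [h1, inner_self_eq_norm_sq] at h3
    rw [h3]
    ring
  have hcau : ∀ ζ : H, CauchySeq fun n => v n ζ := by
    intro ζ
    have hmono : Monotone fun n => ‖v n ζ‖ ^ 2 := by
      intro n m hnm
      have := hdiff ζ n m hnm
      have h0 := sq_nonneg ‖v m ζ - v n ζ‖
      simp only
      linarith
    have hbdd : BddAbove (Set.range fun n => ‖v n ζ‖ ^ 2) := by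
      refine ⟨‖ζ‖ ^ 2, ?_⟩
      rintro _ ⟨n, rfl⟩
      exact pow_le_pow_left₀ (norm_nonneg _) (SL_norm _ (hpi n) ζ) 2
    have hc := (tendsto_atTop_ciSup hmono hbdd).cauchySeq
    rw [Metric.cauchySeq_iff'] at hc ⊢
    intro ε hε
    obtain ⟨N, hN⟩ := hc (ε ^ 2) (by positivity)
    refine ⟨N, fun n hn => ?_⟩
    have h1 := hN n hn
    rw [Real.dist_eq] at h1
    rw [dist_eq_norm]
    have h2 := hdiff ζ N n hn
    have h3 : ‖v n ζ - v N ζ‖ ^ 2 < ε ^ 2 := by
      rw [h2]
      exact lt_of_le_of_lt (le_abs_self _) h1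
    exact lt_of_pow_lt_pow_left₀ 2 hε.le h3
  choose f hf using fun ζ => cauchySeq_tendsto_of_complete (hcau ζ)
  exact ⟨continuousLinearMapOfTendsto v (f := f) (tendsto_pi_nhds.2 hf), fun ζ => hf ζ⟩

theorem exists_sup (h : IsTrace M ξ) (v : ℕ → (H →L[ℂ] H)) (hM : ∀ n, v n ∈ M)
    (hpi : ∀ n, v n * star (v n) * v n = v n)
    (hext : ∀ n, v (n + 1) * (star (v n) * v n) = v n) :
    ∃ u ∈ M, u * star u * u = u ∧ (∀ n, u * (star (v n) * v n) = v n) ∧
      (∀ a : H →L[ℂ] H, (∀ n, a * v n = v n) → a * u = u) ∧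
      (∀ a : H →L[ℂ] H, (∀ n, v n * a = v n) → u * a = u) ∧
      (∀ ζ : H, Tendsto (fun n => v n ζ) atTop (𝓝 (u ζ))) ∧
      Tendsto (fun n => (tr ξ (star (v n) * v n)).re) atTop (𝓝 (tr ξ (star u * u)).re) := by
  have hmul := SL_mul v hpi hext
  obtain ⟨u, hu⟩ := SL_lim v hpi hext
  have he2 : ∀ n, (star (v n) * v n) * star (star (v n) * v n) * (star (v n) * v n) = star (v n) * v n := by
    intro n
    rw [star_mul, star_star]
    calc star (v n) * v n * (star (v n) * v n) * (star (v n) * v n)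
        = star (v n) * (v n * star (v n) * v n) * (star (v n) * v n) := by noncomm_ring
      _ = star (v n) * v n * (star (v n) * v n) := by rw [hpi]
      _ = star (v n) * (v n * star (v n) * v n) := by noncomm_ring
      _ = _ := by rw [hpi]
  have he3 : ∀ n, star (star (v n) * v n) * (star (v n) * v n) = star (v n) * v n := by
    intro n
    rw [star_mul, star_star]
    calc star (v n) * v n * (star (v n) * v n) = star (v n) * (v n * star (v n) * v n) := by noncomm_ring
      _ = _ := by rw [hpi]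
  obtain ⟨e, he⟩ := SL_lim (fun n => star (v n) * v n) he2 (fun n => by
    rw [he3]
    exact (hmul n (n + 1) (Nat.le_succ n)).1)
  have hue : ∀ n, u * (star (v n) * v n) = v n := by
    intro n
    ext ζ
    have h1 : Tendsto (fun m => v m ((star (v n) * v n) ζ)) atTop (𝓝 (u ((star (v n) * v n) ζ))) := hu _
    have h2 : Tendsto (fun m => v m ((star (v n) * v n) ζ)) atTop (𝓝 (v n ζ)) := by
      refine tendsto_const_nhds.congr' ?_
      filter_upwards [eventually_ge_atTop n] with m hm
      have := (hmul n m hm).2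
      calc v n ζ = (v m * (star (v n) * v n)) ζ := by rw [this]
        _ = _ := rfl
    exact tendsto_nhds_unique h1 h2
  have hss : star u * u = e := by
    ext ζ
    refine ext_inner_left ℂ fun η => ?_
    rw [← SL_inner]
    have h1 : Tendsto (fun n => inner ℂ (v n η) (v n ζ)) atTop (𝓝 (inner ℂ (u η) (u ζ))) := (hu η).inner (hu ζ)
    have h2 : Tendsto (fun n => inner ℂ (v n η) (v n ζ)) atTop (𝓝 (inner ℂ η (e ζ))) := by
      have h3 : Tendsto (fun n => inner ℂ η ((star (v n) * v n) ζ)) atTop (𝓝 (inner ℂ η (e ζ))) :=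
        tendsto_const_nhds.inner (he ζ)
      refine h3.congr fun n => ?_
      rw [← SL_inner]
    exact tendsto_nhds_unique h1 h2
  refine ⟨u, ?_, ?_, hue, ?_, ?_, hu, ?_⟩
  · rw [← VonNeumannAlgebra.commutant_commutant M, VonNeumannAlgebra.mem_commutant_iff]
    intro g hg
    rw [VonNeumannAlgebra.mem_commutant_iff] at hg
    ext ζ
    have h1 : Tendsto (fun n => v n (g ζ)) atTop (𝓝 (u (g ζ))) := hu _
    have h2 : Tendsto (fun n => v n (g ζ)) atTop (𝓝 (g (u ζ))) := by
      refine ((g.continuous.tendsto _).comp (hu ζ)).congr fun n => ?_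
      have := hg (v n) (hM n)
      calc (g ∘ fun n => v n ζ) n = (g * v n) ζ := rfl
        _ = (v n * g) ζ := by rw [this]
        _ = _ := rfl
    exact tendsto_nhds_unique h2 h1
  · rw [mul_assoc, hss]
    ext ζ
    have h1 : Tendsto (fun n => u ((star (v n) * v n) ζ)) atTop (𝓝 (u (e ζ))) := (u.continuous.tendsto _).comp (he ζ)
    have h2 : Tendsto (fun n => u ((star (v n) * v n) ζ)) atTop (𝓝 (u ζ)) := by
      refine (hu ζ).congr fun n => ?_
      calc v n ζ = (u * (star (v n) * v n)) ζ := by rw [hue n]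
        _ = _ := rfl
    exact tendsto_nhds_unique h1 h2
  · intro a ha
    ext ζ
    have h1 : Tendsto (fun n => a (v n ζ)) atTop (𝓝 (a (u ζ))) := (a.continuous.tendsto _).comp (hu ζ)
    have h2 : Tendsto (fun n => a (v n ζ)) atTop (𝓝 (u ζ)) := by
      refine (hu ζ).congr fun n => ?_
      calc v n ζ = (a * v n) ζ := by rw [ha n]
        _ = _ := rfl
    exact tendsto_nhds_unique h1 h2
  · intro a ha
    ext ζ
    have h1 : Tendsto (fun n => v n (a ζ)) atTop (𝓝 (u (a ζ))) := hu _
    have h2 : Tendsto (fun n => v n (a ζ)) atTop (𝓝 (u ζ)) := by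
      refine (hu ζ).congr fun n => ?_
      calc v n ζ = (v n * a) ζ := by rw [ha n]
        _ = _ := rfl
    exact tendsto_nhds_unique h1 h2
  · refine (Complex.continuous_re.tendsto _).comp ?_
    have e1 : (fun n => tr ξ (star (v n) * v n)) = fun n => ∑' i, inner ℂ (v n (ξ i)) (v n (ξ i)) := by
      funext n
      exact tr_star_mul _ _
    rw [e1, tr_star_mul]
    refine tendsto_tsum_of_dominated_convergence h.unit.summable (fun i => (hu _).inner (hu _)) (Eventually.of_forall fun n i => ?_)
    refine (norm_inner_le_norm _ _).trans ?_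
    rw [← pow_two]
    exact pow_le_pow_left₀ (norm_nonneg _) (SL_norm _ (hpi n) _) 2

end Pool.Agent.Lib.UPE
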