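import Pool.Agent.Lib.UPE.RP

/-!
# UPE / SP (180 lines): functional calculus in `M` and spectral projections

PROOF.  `cfc_mem`: every `b` in the commutant commutes with `a`, hence with `cfc f a` (`Commute.cfc_real`), and
`M` is its double commutant (`VonNeumannAlgebra.commutant_commutant`, `mem_commutant_iff`).
`spr a c = rp P`, `P = cfc (fun t => max (t - c) 0) a`, self-adjoint.  `spr_comm`: `b` commutes with `P`
(`Commute.cfc_real`), `rp_comm`.  `cfc_mul_spr_pos`: `cfc (h * g) a = cfc h a * P` with `g t = max (t-c) 0`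
(`cfc_mul`), and `P * rp P = P` (adjoint of `rp_mul_self`).  `cfc_mul_spr_neg`: `cfc (h * g') a * P = cfc (h * g' * g) a = 0` since
`g' * g = 0`, then `mul_rp_eq_zero`.  `spr_anti`: `max (t - c') 0 = k(t) * max (t - c) 0` with a continuous `k`
if `c < c'` (`k(t) = max (t - c') 0 / max (t - c) (c' - c)`), so `cfc_mul_spr_pos`: `P' * spr a c = P'`, so `spr a c * P' = P'`
and `(1 - spr a c) * rp P' = 0`; `c = c'` trivial.  `spr_eq_zero`: `max (t - c) 0 = 0` on the spectrum when
`‖a‖ ≤ c`.  `spr_eq_one`: for `c < -‖a‖` the function `max (c - t) 0` vanishes on the spectrum and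
`1 = k(t) * max (t - c) 0` there with `k` continuous, so `1 * spr a c = 1`.
`le_mul_spr`: `(a - c) * spr a c = P` (since `t - c = max (t-c) 0 - max (c-t) 0`), which is `≥ 0`.
`mul_one_sub_spr_le`: `(c - a) * (1 - spr a c) = cfc (fun t => max (c-t) 0) a ≥ 0`.
`norm_le_of_spr`: if `0 ≤ a` and `spr a c = 0` then `P = 0` (`rp_mul_self`), so `a ≤ c`, so `‖a‖ ≤ c`
(`c ≥ 0`).  `spr_le`: if `q * a = a` (`q` a projection) and `0 < c` then `max (t - c) 0 = t * k(t)` with `k`
continuous, so `P = a * cfc k a`, `(1 - q) * P = 0` and `mul_rp_eq_zero`.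
-/

set_option autoImplicit false

open Filter Topology

namespace Pool.Agent.Lib.UPE

variable {H : Type*} [NormedAddCommGroup H] [InnerProductSpace ℂ H] [CompleteSpace H]
variable {M : VonNeumannAlgebra H} {ξ : ℕ → H}

private theorem sp_sa (a : H →L[ℂ] H) (f : ℝ → ℝ) : IsSelfAdjoint (cfc f a) := cfc_predicate f a

private theorem sp_mul_rp {x : H →L[ℂ] H} (hx : IsSelfAdjoint x) : x * rp x = x := by
  have h1 := congrArg star (rp_mul_self x)
  rw [star_mul, hx.star_eq, (rp_proj x).isSelfAdjoint.star_eq] at h1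
  exact h1

private theorem sp_rp_zero : rp (0 : H →L[ℂ] H) = 0 := by
  have h1 := mul_rp_eq_zero (x := (0 : H →L[ℂ] H)) (y := 1) (by simp)
  simpa using h1

private theorem sp_mem {a : H →L[ℂ] H} {t : ℝ} (ht : t ∈ spectrum ℝ a) : |t| ≤ ‖a‖ := by
  have h1 := spectrum.norm_le_norm_mul_of_mem ht
  have h2 : ‖(1 : H →L[ℂ] H)‖ ≤ 1 := by
    rcases subsingleton_or_nontrivial H with h | h
    · have : (1 : H →L[ℂ] H) = 0 := Subsingleton.elim _ _
      rw [this, norm_zero]
      norm_num
    · exact (norm_one).le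
  rw [Real.norm_eq_abs] at h1
  nlinarith [norm_nonneg a]

/-- `a - c = P - N` -/
private theorem sp_sub {a : H →L[ℂ] H} (hsa : IsSelfAdjoint a) (c : ℝ) :
    a - (c : ℂ) • (1 : H →L[ℂ] H) = cfc (fun t : ℝ => max (t - c) 0) a - cfc (fun t : ℝ => max (c - t) 0) a := by
  rw [← cfc_sub (fun t : ℝ => max (t - c) 0) (fun t : ℝ => max (c - t) 0) a]
  have h1 : (fun t : ℝ => max (t - c) 0 - max (c - t) 0) = fun t : ℝ => t - c := by
    funext t
    rcases le_total t c with h | h
    · rw [max_eq_right (by linarith), max_eq_left (by linarith)]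
      ring
    · rw [max_eq_left (by linarith), max_eq_right (by linarith)]
      ring
  rw [h1, cfc_sub (fun t : ℝ => t) (fun _ : ℝ => c) a, cfc_id' ℝ a, cfc_const c a]
  congr 1

theorem cfc_mem {a : H →L[ℂ] H} (ha : a ∈ M) (f : ℝ → ℝ) : cfc f a ∈ M := by
  rw [← VonNeumannAlgebra.commutant_commutant M, VonNeumannAlgebra.mem_commutant_iff]
  intro g hg
  rw [VonNeumannAlgebra.mem_commutant_iff] at hg
  have h1 : Commute a g := hg a ha
  exact (h1.cfc_real f).symm

theorem spr_proj (a : H →L[ℂ] H) (c : ℝ) : IsStarProjection (spr a c) := by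
  exact rp_proj _

theorem spr_mem {a : H →L[ℂ] H} (ha : a ∈ M) (c : ℝ) : spr a c ∈ M := by
  exact rp_mem (cfc_mem ha _)

theorem spr_comm {a b : H →L[ℂ] H} (hb : b * a = a * b) (c : ℝ) : b * spr a c = spr a c * b := by
  have h1 : Commute a b := hb.symm
  exact rp_comm (sp_sa a _) (h1.cfc_real _).symm

theorem cfc_mul_spr_pos {a : H →L[ℂ] H} (hsa : IsSelfAdjoint a) (c : ℝ) {g : ℝ → ℝ} (hg : Continuous g) :
    cfc (fun t : ℝ => g t * max (t - c) 0) a * spr a c = cfc (fun t : ℝ => g t * max (t - c) 0) a := by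
  rw [cfc_mul g (fun t : ℝ => max (t - c) 0) a hg.continuousOn (by fun_prop)]
  rw [spr, mul_assoc, sp_mul_rp (sp_sa a _)]

theorem cfc_mul_spr_neg {a : H →L[ℂ] H} (hsa : IsSelfAdjoint a) (c : ℝ) {g : ℝ → ℝ} (hg : Continuous g) :
    cfc (fun t : ℝ => g t * max (c - t) 0) a * spr a c = 0 := by
  apply mul_rp_eq_zero
  rw [← cfc_mul (fun t : ℝ => g t * max (c - t) 0) (fun t : ℝ => max (t - c) 0) a (by fun_prop) (by fun_prop)]
  have h1 : (fun t : ℝ => g t * max (c - t) 0 * max (t - c) 0) = fun _ : ℝ => (0 : ℝ) := by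
    funext t
    rcases le_total t c with h | h
    · rw [max_eq_right (show t - c ≤ 0 by linarith), mul_zero]
    · rw [max_eq_right (show c - t ≤ 0 by linarith), mul_zero, zero_mul]
  rw [h1, cfc_const 0 a, map_zero]

theorem spr_anti {a : H →L[ℂ] H} (hsa : IsSelfAdjoint a) {c c' : ℝ} (hc : c ≤ c') :
    spr a c * spr a c' = spr a c' := by
  rcases hc.eq_or_lt with h | h
  · rw [← h]
    exact (spr_proj a c).isIdempotentElem
  · have hk : Continuous fun t : ℝ => max (t - c') 0 / max (t - c) (c' - c) := by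
      apply Continuous.div (by fun_prop) (by fun_prop)
      intro t
      have : c' - c ≤ max (t - c) (c' - c) := le_max_right _ _
      have h2 : 0 < c' - c := by linarith
      exact (h2.trans_le this).ne'
    have h1 := cfc_mul_spr_pos hsa c hk
    have h2 : (fun t : ℝ => max (t - c') 0 / max (t - c) (c' - c) * max (t - c) 0) = fun t : ℝ => max (t - c') 0 := by
      funext t
      rcases le_total t c' with h3 | h3
      · rw [max_eq_right (show t - c' ≤ 0 by linarith), zero_div, zero_mul]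
      · rw [max_eq_left (show c' - c ≤ t - c by linarith), max_eq_left (show 0 ≤ t - c by linarith)]
        have h4 : t - c ≠ 0 := by
          have : 0 < t - c := by linarith
          exact this.ne'
        field_simp
    rw [h2] at h1
    have h3 : spr a c * cfc (fun t : ℝ => max (t - c') 0) a = cfc (fun t : ℝ => max (t - c') 0) a := by
      have h4 := congrArg star h1
      rw [star_mul, (sp_sa a _).star_eq, (spr_proj a c).isSelfAdjoint.star_eq] at h4
      exact h4
    have h5 : (1 - spr a c) * rp (cfc (fun t : ℝ => max (t - c') 0) a) = 0 := by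
      apply mul_rp_eq_zero
      rw [sub_mul, one_mul, h3, sub_self]
    rw [sub_mul, one_mul, sub_eq_zero] at h5
    exact h5.symm

theorem spr_eq_zero {a : H →L[ℂ] H} (hsa : IsSelfAdjoint a) {c : ℝ} (hc : ‖a‖ ≤ c) : spr a c = 0 := by
  have h1 : cfc (fun t : ℝ => max (t - c) 0) a = cfc (fun _ : ℝ => (0 : ℝ)) a := by
    apply cfc_congr
    intro t ht
    have h2 := sp_mem ht
    have h3 : t ≤ c := (le_abs_self t).trans (h2.trans hc)
    exact max_eq_right (by linarith)
  rw [spr, h1, cfc_const 0 a, map_zero, sp_rp_zero]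

theorem spr_eq_one {a : H →L[ℂ] H} (hsa : IsSelfAdjoint a) {c : ℝ} (hc : c < -‖a‖) : spr a c = 1 := by
  have hd : 0 < -‖a‖ - c := by linarith
  have hk : Continuous fun t : ℝ => 1 / max (t - c) (-‖a‖ - c) := by
    apply Continuous.div (by fun_prop) (by fun_prop)
    intro t
    exact (hd.trans_le (le_max_right _ _)).ne'
  have h1 := cfc_mul_spr_pos hsa c hk
  have h2 : cfc (fun t : ℝ => 1 / max (t - c) (-‖a‖ - c) * max (t - c) 0) a = cfc (fun _ : ℝ => (1 : ℝ)) a := by
    apply cfc_congr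
    intro t ht
    have h3 := sp_mem ht
    have h4 : -‖a‖ ≤ t := (neg_le_neg h3).trans (neg_abs_le t)
    have h5 : 0 < t - c := by linarith
    show 1 / max (t - c) (-‖a‖ - c) * max (t - c) 0 = 1
    rw [max_eq_left (show -‖a‖ - c ≤ t - c by linarith), max_eq_left h5.le]
    field_simp
  rw [h2, cfc_const 1 a, map_one, one_mul] at h1
  exact h1

theorem le_mul_spr {a : H →L[ℂ] H} (hsa : IsSelfAdjoint a) (c : ℝ) :
    (c : ℂ) • spr a c ≤ a * spr a c := by
  rw [← sub_nonneg]
  have h1 : a * spr a c - (c : ℂ) • spr a c = cfc (fun t : ℝ => max (t - c) 0) a := by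
    have h2 : a * spr a c - (c : ℂ) • spr a c = (a - (c : ℂ) • (1 : H →L[ℂ] H)) * spr a c := by
      rw [sub_mul, smul_mul_assoc, one_mul]
    rw [h2, sp_sub hsa c, sub_mul]
    have h3 := cfc_mul_spr_pos hsa c (g := fun _ => 1) continuous_const
    have h4 := cfc_mul_spr_neg hsa c (g := fun _ => 1) continuous_const
    simp only [one_mul] at h3 h4
    rw [h3, h4, sub_zero]
  rw [h1]
  exact cfc_nonneg fun t _ => le_max_right _ _

theorem mul_one_sub_spr_le {a : H →L[ℂ] H} (hsa : IsSelfAdjoint a) (c : ℝ) :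
    a * (1 - spr a c) ≤ (c : ℂ) • (1 - spr a c) := by
  rw [← sub_nonneg]
  have h1 : (c : ℂ) • (1 - spr a c) - a * (1 - spr a c) = cfc (fun t : ℝ => max (c - t) 0) a := by
    have h2 : (c : ℂ) • (1 - spr a c) - a * (1 - spr a c) = -((a - (c : ℂ) • (1 : H →L[ℂ] H)) * (1 - spr a c)) := by
      rw [sub_mul, smul_mul_assoc, one_mul]
      abel
    rw [h2, sp_sub hsa c]
    have h3 := cfc_mul_spr_pos hsa c (g := fun _ => 1) continuous_const
    have h4 := cfc_mul_spr_neg hsa c (g := fun _ => 1) continuous_const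
    simp only [one_mul] at h3 h4
    rw [mul_sub, mul_one, sub_mul, h3, h4]
    abel
  rw [h1]
  exact cfc_nonneg fun t _ => le_max_right _ _

theorem norm_le_of_spr {a : H →L[ℂ] H} (ha : 0 ≤ a) {c : ℝ} (hc : 0 ≤ c) (h0 : spr a c = 0) : ‖a‖ ≤ c := by
  have hsa : IsSelfAdjoint a := IsSelfAdjoint.of_nonneg ha
  have h1 : cfc (fun t : ℝ => max (t - c) 0) a = 0 := by
    have h2 := rp_mul_self (cfc (fun t : ℝ => max (t - c) 0) a)
    rw [spr] at h0
    rw [h0, zero_mul] at h2
    exact h2.symm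
  have h2 := sp_sub hsa c
  rw [h1, zero_sub] at h2
  have h3 : a ≤ algebraMap ℝ (H →L[ℂ] H) c := by
    have h4 : a - algebraMap ℝ (H →L[ℂ] H) c = -cfc (fun t : ℝ => max (c - t) 0) a := by
      rw [← h2]
      congr 1
    rw [← sub_nonpos, h4, neg_nonpos]
    exact cfc_nonneg fun t _ => le_max_right _ _
  exact (CStarAlgebra.norm_le_iff_le_algebraMap a hc ha).2 h3

theorem spr_le {a q : H →L[ℂ] H} (hsa : IsSelfAdjoint a) (hqa : q * a = a) {c : ℝ} (hc : 0 < c) :
    q * spr a c = spr a c := by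
  have hk : Continuous fun t : ℝ => max (t - c) 0 / max t c := by
    apply Continuous.div (by fun_prop) (by fun_prop)
    intro t
    exact (hc.trans_le (le_max_right _ _)).ne'
  have h2 : (fun t : ℝ => max (t - c) 0) = fun t : ℝ => t * (max (t - c) 0 / max t c) := by
    funext t
    rcases le_total t c with h3 | h3
    · rw [max_eq_right (show t - c ≤ 0 by linarith), zero_div, mul_zero]
    · rw [max_eq_left h3]
      have h4 : t ≠ 0 := by
        have : 0 < t := by linarith
        exact this.ne'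
      field_simp
  have h5 : cfc (fun t : ℝ => max (t - c) 0) a = a * cfc (fun t : ℝ => max (t - c) 0 / max t c) a := by
    rw [h2, cfc_mul (fun t : ℝ => t) (fun t : ℝ => max (t - c) 0 / max t c) a (by fun_prop) hk.continuousOn, cfc_id' ℝ a]
  have h6 : (1 - q) * rp (cfc (fun t : ℝ => max (t - c) 0) a) = 0 := by
    apply mul_rp_eq_zero
    rw [h5, ← mul_assoc, sub_mul, one_mul, hqa, sub_self, zero_mul]
  rw [sub_mul, one_mul, sub_eq_zero] at h6
  exact h6.symm

end Pool.Agent.Lib.UPE
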