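import Pool.Agent.Lib.UPE.SP

/-!
# UPE / SPF (150 lines): estimates for spectral projections

PROOF.  `spr_mono`: `spr a c * spr a c' = spr a c'` (`spr_anti`), so `spr a c - spr a c'` is a projection, trace `≥ 0`.
`spr_cfc`: `q = spr a c`, `q' = spr a (c + δ)`, `F = cfc f a`, `f(t) = min 1 (max (t - c) 0 / δ)`.  `f(t) = (1 / max δ (t - c)) * max (t - c) 0` gives
`F * q = F` (`cfc_mul_spr_pos`); `1 - f(t) = (1 / max δ (c + δ - t)) * max (c + δ - t) 0` gives `(1 - F) * q' = 0` (`cfc_mul_spr_neg`).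
With the projection `r = q - q'`: `(q - F) = (q - F) * r` since `(q - F) * q' = q' - q' = 0`, `(q - F) * (1 - q) = 0`.  `‖q - F‖ ≤ 1`
(`0 ≤ F`, `F = q F q ≤ q`).  So `n2 (q - F)^2 ≤ n2 r ^ 2 = tr r` (`n2_mul_le`, `tr_proj`).
`spr_scalar`: `e1 = spr a (c0 + δ)`, `e2 = 1 - spr a (c0 - δ)`, `r = spr a (c0 - δ) - spr a (c0 + δ)`, orthogonal projections with sum 1
commuting with `a`.  `n2 (a - c0)^2 = n2 ((a - c0) e1)^2 + n2 ((a - c0) e2)^2 + n2 ((a - c0) r)^2` (for each `ζ`: the three vectors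
`e1 (..)`, `e2 (..)`, `r (..)` are orthogonal).  The first two are `≤ (‖a‖ + |c0|)^2 * tr e1`, resp. `tr e2`.  For the third:
`t - c0 = κ(t) + max (t - c0 - δ) 0 - max (c0 - δ - t) 0`, `|κ| ≤ δ`; `cfc (max (t - c0 - δ) 0) a * (1 - e1) = 0` and `r = (1 - e1) * r`;
`cfc (max (c0 - δ - t) 0) a * spr a (c0 - δ) = 0` and `r = spr a (c0 - δ) * r`.  So `(a - c0) r = cfc κ a * r`, `n2 ≤ δ * n2 r ≤ δ`.
-/

set_option autoImplicit false

open Filter Topology

namespace Pool.Agent.Lib.UPE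

variable {H : Type*} [NormedAddCommGroup H] [InnerProductSpace ℂ H] [CompleteSpace H]
variable {M : VonNeumannAlgebra H} {ξ : ℕ → H}

private theorem sub_proj {p q : H →L[ℂ] H} (hp : IsStarProjection p) (hq : IsStarProjection q)
    (h : p * q = q) : IsStarProjection (p - q) := by
  have h2 : q * p = q := by
    have := congrArg star h
    rwa [star_mul, hp.isSelfAdjoint.star_eq, hq.isSelfAdjoint.star_eq] at this
  refine ⟨?_, hp.isSelfAdjoint.sub hq.isSelfAdjoint⟩
  show (p - q) * (p - q) = p - q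
  rw [sub_mul, mul_sub, mul_sub, h, h2, hp.isIdempotentElem.eq, hq.isIdempotentElem.eq]
  abel

theorem spr_mono (h : IsTrace M ξ) {a : H →L[ℂ] H} (hsa : IsSelfAdjoint a) {c c' : ℝ} (hc : c ≤ c') :
    (tr ξ (spr a c')).re ≤ (tr ξ (spr a c)).re := by
  have hr := sub_proj (spr_proj a c) (spr_proj a c') (spr_anti hsa hc)
  have h1 := (re_tr_proj_mem h hr).1
  rw [tr_sub h, Complex.sub_re] at h1
  linarith

private theorem n2_sq_le (h : IsTrace M ξ) {x p : H →L[ℂ] H} (hp : IsStarProjection p) {C : ℝ}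
    (hx : ‖x‖ ≤ C) : n2 ξ (x * p) ^ 2 ≤ C ^ 2 * (tr ξ p).re := by
  have h1 := n2_mul_le h x p
  have h2 : (tr ξ p).re = n2 ξ p ^ 2 := by rw [tr_proj hp, Complex.ofReal_re]
  have h3 := n2_nonneg (ξ := ξ) p
  have h4 := n2_nonneg (ξ := ξ) (x * p)
  rw [h2, ← mul_pow]
  refine pow_le_pow_left₀ h4 (h1.trans ?_) 2
  exact mul_le_mul_of_nonneg_right hx h3

theorem spr_cfc (h : IsTrace M ξ) {a : H →L[ℂ] H} (ha : a ∈ M) (hsa : IsSelfAdjoint a) (c : ℝ) {δ : ℝ}
    (hδ : 0 < δ) :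
    n2 ξ (spr a c - cfc (fun t : ℝ => min 1 (max (t - c) 0 / δ)) a) ^ 2 ≤
      (tr ξ (spr a c)).re - (tr ξ (spr a (c + δ))).re := by
  have _ := ha
  have hg1 : Continuous fun t : ℝ => (max δ (t - c))⁻¹ := by
    refine Continuous.inv₀ (by fun_prop) fun t => ?_
    exact (lt_of_lt_of_le hδ (le_max_left _ _)).ne'
  have hg2 : Continuous fun t : ℝ => (max δ (c + δ - t))⁻¹ := by
    refine Continuous.inv₀ (by fun_prop) fun t => ?_
    exact (lt_of_lt_of_le hδ (le_max_left _ _)).ne'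
  have hf1 : (fun t : ℝ => min 1 (max (t - c) 0 / δ))
      = fun t : ℝ => (max δ (t - c))⁻¹ * max (t - c) 0 := by
    funext t
    rcases le_total (t - c) 0 with h0 | h0
    · rw [max_eq_right h0, zero_div, mul_zero, min_eq_right zero_le_one]
    · rw [max_eq_left h0]
      rcases le_total (t - c) δ with h1 | h1
      · rw [max_eq_left h1, min_eq_right ((div_le_one hδ).mpr h1)]
        ring
      · have h2 : t - c ≠ 0 := by linarith
        rw [max_eq_right h1, min_eq_left ((one_le_div hδ).mpr h1), inv_mul_cancel₀ h2]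
  have hf2 : (fun t : ℝ => 1 - min 1 (max (t - c) 0 / δ))
      = fun t : ℝ => (max δ (c + δ - t))⁻¹ * max (c + δ - t) 0 := by
    funext t
    rcases le_total (t - c) 0 with h0 | h0
    · have h2 : c + δ - t ≠ 0 := by linarith
      rw [max_eq_right h0, zero_div, min_eq_right zero_le_one,
        max_eq_right (show δ ≤ c + δ - t by linarith),
        max_eq_left (show (0 : ℝ) ≤ c + δ - t by linarith), inv_mul_cancel₀ h2, sub_zero]
    · rw [max_eq_left h0, max_eq_left (show c + δ - t ≤ δ by linarith)]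
      rcases le_total (t - c) δ with h1 | h1
      · rw [min_eq_right ((div_le_one hδ).mpr h1),
          max_eq_left (show (0 : ℝ) ≤ c + δ - t by linarith)]
        field_simp
        ring
      · rw [min_eq_left ((one_le_div hδ).mpr h1),
          max_eq_right (show c + δ - t ≤ 0 by linarith), mul_zero, sub_self]
  have hfc : Continuous fun t : ℝ => min 1 (max (t - c) 0 / δ) := by fun_prop
  obtain ⟨F, hF⟩ : ∃ F : H →L[ℂ] H, F = cfc (fun t : ℝ => min 1 (max (t - c) 0 / δ)) a :=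
    ⟨_, rfl⟩
  have hFsa : IsSelfAdjoint F := by rw [hF]; exact cfc_predicate _ a
  obtain ⟨q, hq⟩ : ∃ q : H →L[ℂ] H, q = spr a c := ⟨_, rfl⟩
  obtain ⟨q', hq'⟩ : ∃ q' : H →L[ℂ] H, q' = spr a (c + δ) := ⟨_, rfl⟩
  have hqp : IsStarProjection q := by rw [hq]; exact spr_proj _ _
  have hqp' : IsStarProjection q' := by rw [hq']; exact spr_proj _ _
  have hqq : q * q' = q' := by rw [hq, hq']; exact spr_anti hsa (by linarith)
  have hFq : F * q = F := by
    have := cfc_mul_spr_pos hsa c hg1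
    rw [← hf1, ← hF, ← hq] at this
    exact this
  have hqF : q * F = F := by
    have := congrArg star hFq
    rwa [star_mul, hqp.isSelfAdjoint.star_eq, hFsa.star_eq] at this
  have hone : cfc (fun t : ℝ => 1 - min 1 (max (t - c) 0 / δ)) a = 1 - F := by
    rw [cfc_sub (R := ℝ) (fun _ : ℝ => (1 : ℝ)) _ a (by fun_prop) hfc.continuousOn,
      cfc_const_one ℝ a, hF]
  have hFq' : F * q' = q' := by
    have := cfc_mul_spr_neg hsa (c + δ) hg2
    rw [← hf2, hone, ← hq', sub_mul, one_mul] at this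
    exact (sub_eq_zero.mp this).symm
  have hnorm1 : ‖(1 : H →L[ℂ] H) - F‖ ≤ 1 := by
    rw [← hone]
    refine norm_cfc_le zero_le_one fun t _ => ?_
    have h0 : 0 ≤ max (t - c) 0 / δ := div_nonneg (le_max_right _ _) hδ.le
    have h1 : min 1 (max (t - c) 0 / δ) ≤ 1 := min_le_left _ _
    have h2 : 0 ≤ min 1 (max (t - c) 0 / δ) := le_min zero_le_one h0
    rw [Real.norm_eq_abs, abs_le]
    constructor <;> linarith
  have hnorm : ‖q - F‖ ≤ 1 := by
    have e1 : q - F = q * (1 - F) * q := by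
      rw [mul_sub, mul_one, hqF, sub_mul, hqp.isIdempotentElem.eq, hFq]
    rw [e1]
    have hq1 := norm_proj_le hqp
    calc ‖q * (1 - F) * q‖ ≤ ‖q‖ * ‖1 - F‖ * ‖q‖ :=
          (norm_mul_le _ _).trans (mul_le_mul_of_nonneg_right (norm_mul_le _ _) (norm_nonneg _))
      _ ≤ 1 * 1 * 1 := by gcongr
      _ = 1 := by norm_num
  have hr := sub_proj hqp hqp' hqq
  have e2 : q - F = (q - F) * (q - q') := by
    rw [mul_sub, sub_mul, sub_mul, hqp.isIdempotentElem.eq, hFq, hqq, hFq', sub_self, sub_zero]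
  have h3 := n2_sq_le h hr hnorm
  rw [← e2, one_pow, one_mul, tr_sub h, Complex.sub_re] at h3
  rw [← hF, ← hq, ← hq']
  exact h3

private theorem n2_split (h : IsTrace M ξ) (b p q r : H →L[ℂ] H) (hp : IsStarProjection p)
    (hq : IsStarProjection q) (hr : IsStarProjection r) (hs : p + q + r = 1) :
    n2 ξ b ^ 2 = n2 ξ (p * b) ^ 2 + n2 ξ (q * b) ^ 2 + n2 ξ (r * b) ^ 2 := by
  have key : ∀ e : H →L[ℂ] H, IsStarProjection e →
      ((n2 ξ (e * b) ^ 2 : ℝ) : ℂ) = tr ξ (star b * (e * b)) := by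
    intro e he
    rw [← tr_star_mul_self, star_mul, he.isSelfAdjoint.star_eq, mul_assoc, ← mul_assoc e e b,
      he.isIdempotentElem.eq]
  have h1 : ((n2 ξ b ^ 2 : ℝ) : ℂ) = ((n2 ξ (p * b) ^ 2 : ℝ) : ℂ) + ((n2 ξ (q * b) ^ 2 : ℝ) : ℂ)
      + ((n2 ξ (r * b) ^ 2 : ℝ) : ℂ) := by
    rw [key p hp, key q hq, key r hr, ← tr_add h, ← tr_add h, ← mul_add, ← mul_add, ← add_mul,
      ← add_mul, hs, one_mul, tr_star_mul_self]
  exact_mod_cast h1

theorem spr_scalar (h : IsTrace M ξ) {a : H →L[ℂ] H} (ha : a ∈ M) (hsa : IsSelfAdjoint a) (c0 : ℝ) {δ : ℝ}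
    (hδ : 0 < δ) :
    n2 ξ (a - (c0 : ℂ) • (1 : H →L[ℂ] H)) ^ 2 ≤ δ ^ 2 + (‖a‖ + |c0|) ^ 2 *
      ((1 - (tr ξ (spr a (c0 - δ))).re) + (tr ξ (spr a (c0 + δ))).re) := by
  have _ := ha
  obtain ⟨b, hb⟩ : ∃ b : H →L[ℂ] H, b = a - (c0 : ℂ) • (1 : H →L[ℂ] H) := ⟨_, rfl⟩
  obtain ⟨e1, he1⟩ : ∃ e : H →L[ℂ] H, e = spr a (c0 + δ) := ⟨_, rfl⟩
  obtain ⟨p, hp⟩ : ∃ e : H →L[ℂ] H, e = spr a (c0 - δ) := ⟨_, rfl⟩
  have pe1 : IsStarProjection e1 := by rw [he1]; exact spr_proj _ _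
  have pp : IsStarProjection p := by rw [hp]; exact spr_proj _ _
  have hpe : p * e1 = e1 := by rw [hp, he1]; exact spr_anti hsa (by linarith)
  have hep : e1 * p = e1 := by
    have := congrArg star hpe
    rwa [star_mul, pp.isSelfAdjoint.star_eq, pe1.isSelfAdjoint.star_eq] at this
  have pr : IsStarProjection (p - e1) := sub_proj pp pe1 hpe
  have p2 : IsStarProjection (1 - p) := sub_proj (IsStarProjection.one _) pp (one_mul p)
  -- commutation
  have hcomm : ∀ c : ℝ, spr a c * b = b * spr a c := by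
    intro c
    rw [hb, mul_sub, sub_mul, spr_comm (b := a) rfl c, mul_smul_comm, smul_mul_assoc, mul_one,
      one_mul]
  have c1 : e1 * b = b * e1 := by rw [he1]; exact hcomm _
  have c0' : p * b = b * p := by rw [hp]; exact hcomm _
  have hbn : ‖b‖ ≤ ‖a‖ + |c0| := by
    rw [hb]
    refine (norm_sub_le _ _).trans (add_le_add le_rfl ?_)
    rw [norm_smul, Complex.norm_real, Real.norm_eq_abs]
    have := norm_proj_le (IsStarProjection.one (H →L[ℂ] H))
    calc |c0| * ‖(1 : H →L[ℂ] H)‖ ≤ |c0| * 1 := mul_le_mul_of_nonneg_left this (abs_nonneg _)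
      _ = |c0| := mul_one _
  -- the middle part
  have hκ : b * (p - e1) = cfc (fun t : ℝ => (t - c0) - max (t - (c0 + δ)) 0
      + max ((c0 - δ) - t) 0) a * (p - e1) := by
    have hc1 : Continuous fun t : ℝ => max (t - (c0 + δ)) 0 := by fun_prop
    have hc2 : Continuous fun t : ℝ => max ((c0 - δ) - t) 0 := by fun_prop
    have hid : cfc (fun t : ℝ => t - c0) a = b := by
      rw [cfc_sub (R := ℝ) (fun t : ℝ => t) (fun _ : ℝ => c0) a (by fun_prop) (by fun_prop),
        cfc_id' ℝ a, cfc_const c0 a, Algebra.algebraMap_eq_smul_one, hb]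
      congr 1
    have hP1 : cfc (fun t : ℝ => max (t - (c0 + δ)) 0) a * (p - e1) = 0 := by
      have h1 := cfc_mul_spr_pos hsa (c0 + δ) (g := fun _ => 1) continuous_const
      simp only [one_mul] at h1
      rw [← he1] at h1
      have h2 : p - e1 = (1 - e1) * (p - e1) := by
        rw [sub_mul, one_mul, mul_sub, hep, pe1.isIdempotentElem.eq, sub_self, sub_zero]
      have h3 : cfc (fun t : ℝ => max (t - (c0 + δ)) 0) a * (1 - e1) = 0 := by
        rw [mul_sub, mul_one, h1, sub_self]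
      rw [h2, ← mul_assoc, h3, zero_mul]
    have hP2 : cfc (fun t : ℝ => max ((c0 - δ) - t) 0) a * (p - e1) = 0 := by
      have h1 := cfc_mul_spr_neg hsa (c0 - δ) (g := fun _ => 1) continuous_const
      simp only [one_mul] at h1
      rw [← hp] at h1
      have h2 : p - e1 = p * (p - e1) := by
        rw [mul_sub, pp.isIdempotentElem.eq, hpe]
      rw [h2, ← mul_assoc, h1, zero_mul]
    rw [cfc_add (R := ℝ) a (fun t : ℝ => (t - c0) - max (t - (c0 + δ)) 0)
        (fun t : ℝ => max ((c0 - δ) - t) 0) (by fun_prop) (by fun_prop),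
      cfc_sub (R := ℝ) (fun t : ℝ => t - c0) (fun t : ℝ => max (t - (c0 + δ)) 0) a (by fun_prop)
        (by fun_prop), hid, add_mul, sub_mul, hP1, hP2, sub_zero, add_zero]
  have hκn : ‖cfc (fun t : ℝ => (t - c0) - max (t - (c0 + δ)) 0 + max ((c0 - δ) - t) 0) a‖ ≤ δ := by
    refine norm_cfc_le hδ.le fun t _ => ?_
    rw [Real.norm_eq_abs, abs_le]
    rcases le_total (t - (c0 + δ)) 0 with h1 | h1 <;> rcases le_total ((c0 - δ) - t) 0 with h2 | h2
    · rw [max_eq_right h1, max_eq_right h2]; constructor <;> linarith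
    · rw [max_eq_right h1, max_eq_left h2]; constructor <;> linarith
    · rw [max_eq_left h1, max_eq_right h2]; constructor <;> linarith
    · rw [max_eq_left h1, max_eq_left h2]; constructor <;> linarith
  have hmid : n2 ξ (b * (p - e1)) ^ 2 ≤ δ ^ 2 := by
    rw [hκ]
    have h1 := n2_sq_le h pr hκn
    have h2 := (re_tr_proj_mem h pr).2.1
    have h3 : δ ^ 2 * (tr ξ (p - e1)).re ≤ δ ^ 2 * 1 := mul_le_mul_of_nonneg_left h2 (sq_nonneg _)
    linarith
  have hsplit := n2_split h b e1 (1 - p) (p - e1) pe1 p2 pr (by abel)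
  have d2 : (1 - p) * b = b * (1 - p) := by rw [sub_mul, mul_sub, one_mul, mul_one, c0']
  have d3 : (p - e1) * b = b * (p - e1) := by rw [sub_mul, mul_sub, c0', c1]
  rw [c1, d2, d3] at hsplit
  have k1 := n2_sq_le h pe1 hbn
  have k2 := n2_sq_le h p2 hbn
  rw [tr_sub h, tr_one h, Complex.sub_re, Complex.one_re] at k2
  rw [← hb, ← he1, ← hp, hsplit]
  have : (‖a‖ + |c0|) ^ 2 * ((1 - (tr ξ p).re) + (tr ξ e1).re)
      = (‖a‖ + |c0|) ^ 2 * (1 - (tr ξ p).re) + (‖a‖ + |c0|) ^ 2 * (tr ξ e1).re := by ring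
  rw [this]
  linarith

end Pool.Agent.Lib.UPE
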