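import Pool.Agent.Lib.UPE.SP

/-!
# UPE / TC2 (160 lines): truncation, two algebras (copy of TC)

PROOF.  As `trunc` in TC, with `y ∈ N` (trace `tr η`), `x ∈ M` (trace `tr ξ`) and `s ≤ S`.  `g(t) = 1 / sqrt (max t 1)`, `f(t) = t * (1 - g t)^2`, continuous,
`f = 0` on `[0, 1]`.  `z = y * cfc g a` with `a = star y * y ≥ 0`, `‖a‖ ≤ R^2`; `‖z‖ ≤ 1`, `n2 η (y - z)^2 = (tr η (cfc f a)).re`.  Let
`κ = ε^2 / (4 * (1 + S))`.  A real polynomial `P` with `P(0) = 0` and `|P - f| ≤ κ` on `[0, R^2]`: `P = ∑_{1 ≤ j ≤ m} c_j t^j`.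
`(tr η (cfc f a)).re ≤ (tr η (P(a))).re + κ`, and `tr η (P(a))` differs from `s * tr ξ (P(b))`, `b = star x * x`, by at most `δ ∑ |c_j|`; `‖b‖ ≤ 1`, so
`‖cfc P b‖ = ‖cfc (P - f) b‖ ≤ κ` and `|s * tr ξ (P(b))| ≤ S * κ`.  Altogether
`n2 η (y - z)^2 ≤ (1 + S) * κ + δ ∑ |c_j| ≤ ε^2/4 + ε^2/4 < ε^2` with `δ = ε^2 / (4 * (1 + ∑ |c_j|))`.
-/

set_option autoImplicit false

open Filter Topology

namespace Pool.Agent.Lib.UPE

variable {H : Type*} [NormedAddCommGroup H] [InnerProductSpace ℂ H] [CompleteSpace H]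
variable {K : Type*} [NormedAddCommGroup K] [InnerProductSpace ℂ K] [CompleteSpace K]
variable {M : VonNeumannAlgebra H} {ξ : ℕ → H} {N : VonNeumannAlgebra K} {η : ℕ → K}

/-- the cut-off function -/
private noncomputable def tcG (t : ℝ) : ℝ := 1 / Real.sqrt (max t 1)

private theorem tcG_cont : Continuous tcG := by
  unfold tcG
  refine Continuous.div continuous_const (by fun_prop) ?_
  intro t
  have h1 : (1 : ℝ) ≤ max t 1 := le_max_right _ _
  exact (Real.sqrt_pos.2 (by linarith)).ne'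

/-- the error function -/
private noncomputable def tcF (t : ℝ) : ℝ := (tcG t - 1) * t * (tcG t - 1)

private theorem tcF_cont : Continuous tcF := by
  unfold tcF
  exact ((tcG_cont.sub continuous_const).mul continuous_id).mul (tcG_cont.sub continuous_const)

private theorem tcF_zero {t : ℝ} (h1 : t ≤ 1) : tcF t = 0 := by
  unfold tcF tcG
  rw [max_eq_right h1]
  simp

private theorem tcG_sq {t : ℝ} (h0 : 0 ≤ t) : |tcG t * t * tcG t| ≤ 1 := by
  unfold tcG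
  have h1 : (1 : ℝ) ≤ max t 1 := le_max_right _ _
  have h2 : t ≤ max t 1 := le_max_left _ _
  have h3 : 1 / Real.sqrt (max t 1) * t * (1 / Real.sqrt (max t 1)) = t / max t 1 := by
    have h4 : Real.sqrt (max t 1) * Real.sqrt (max t 1) = max t 1 :=
      Real.mul_self_sqrt (by linarith)
    rw [div_mul_eq_mul_div, one_mul, div_mul_div_comm, mul_one, h4]
  rw [h3, abs_of_nonneg (div_nonneg h0 (by linarith)), div_le_one (by linarith)]
  exact h2

private theorem tc_spec {H : Type*} [NormedAddCommGroup H] [InnerProductSpace ℂ H] [CompleteSpace H]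
    {y : H →L[ℂ] H} {B : ℝ} (hy : ‖y‖ ≤ B) {t : ℝ}
    (ht : t ∈ spectrum ℝ (star y * y)) : 0 ≤ t ∧ t ≤ B ^ 2 := by
  have h0 : (0 : H →L[ℂ] H) ≤ star y * y := star_mul_self_nonneg y
  refine ⟨spectrum_nonneg_of_nonneg h0 ht, ?_⟩
  have h1 : ‖t‖ ≤ ‖star y * y‖ * ‖(1 : H →L[ℂ] H)‖ := spectrum.norm_le_norm_mul_of_mem ht
  have h2 : ‖(1 : H →L[ℂ] H)‖ ≤ 1 := ContinuousLinearMap.norm_id_le
  have h3 : ‖star y * y‖ = ‖y‖ * ‖y‖ := CStarRing.norm_star_mul_self
  have h4 : t ≤ ‖t‖ := le_abs_self t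
  have h5 : ‖y‖ * ‖y‖ ≤ B * B := mul_self_le_mul_self (norm_nonneg _) hy
  have h6 : ‖star y * y‖ * ‖(1 : H →L[ℂ] H)‖ ≤ ‖star y * y‖ * 1 :=
    mul_le_mul_of_nonneg_left h2 (norm_nonneg _)
  nlinarith

private theorem tc_conj (y : H →L[ℂ] H) {k : ℝ → ℝ} (hk : Continuous k) :
    star (y * cfc k (star y * y)) * (y * cfc k (star y * y)) =
      cfc (fun t : ℝ => k t * t * k t) (star y * y) := by
  have hsa : IsSelfAdjoint (star y * y) := IsSelfAdjoint.star_mul_self y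
  have h1 : star (cfc k (star y * y)) = cfc k (star y * y) := (cfc_predicate k (star y * y) : IsSelfAdjoint _)
  rw [cfc_mul (fun t : ℝ => k t * t) k (star y * y) (by fun_prop) (by fun_prop),
    cfc_mul k (fun t : ℝ => t) (star y * y) (by fun_prop) (by fun_prop), cfc_id' ℝ (star y * y),
    star_mul, h1]
  simp only [mul_assoc]

private theorem tc_norm {a : H →L[ℂ] H} {f : ℝ → ℝ} {c : ℝ} (hc : 0 ≤ c)
    (h : ∀ t ∈ spectrum ℝ a, |f t| ≤ c) : ‖cfc f a‖ ≤ c :=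
  norm_cfc_le hc (fun t ht => h t ht)

private theorem tc_poly (h : IsTrace M ξ) (Q : Polynomial ℝ) (a : H →L[ℂ] H) :
    tr ξ (Polynomial.aeval a Q) =
      ∑ j ∈ Finset.range (Q.natDegree + 1), ((Q.coeff j : ℝ) : ℂ) * tr ξ (a ^ j) := by
  rw [Polynomial.aeval_eq_sum_range, tr_sum h]
  refine Finset.sum_congr rfl fun j _ => ?_
  rw [← tr_smul, Complex.coe_smul]

theorem trunc2 (h : IsTrace M ξ) (hN : IsTrace N η) {R ε S : ℝ} (hR : 1 ≤ R) (hε : 0 < ε) (hS : 0 ≤ S) :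
    ∃ (m : ℕ) (δ : ℝ), 0 < δ ∧ ∀ s : ℝ, 0 ≤ s → s ≤ S → ∀ x ∈ M, ‖x‖ ≤ 1 → ∀ y ∈ N, ‖y‖ ≤ R →
      (∀ j : ℕ, 1 ≤ j → j ≤ m →
        ‖tr η ((star y * y) ^ j) - (s : ℂ) * tr ξ ((star x * x) ^ j)‖ ≤ δ) →
      ∃ z ∈ N, ‖z‖ ≤ 1 ∧ n2 η (z - y) ≤ ε := by
  set κ : ℝ := ε ^ 2 / (4 * (1 + S)) with hκ
  have hκ0 : 0 < κ := by positivity
  have hκS : (1 + S) * κ = ε ^ 2 / 4 := by
    rw [hκ]
    field_simp
  obtain ⟨P, hP⟩ := exists_polynomial_near_of_continuousOn 0 (R ^ 2) tcF tcF_cont.continuousOn (κ / 2) (by positivity)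
  have hR2 : 1 ≤ R ^ 2 := by nlinarith
  set Q : Polynomial ℝ := P - Polynomial.C (P.eval 0) with hQ
  have hP0 : |P.eval 0| < κ / 2 := by
    have := hP 0 ⟨le_rfl, by positivity⟩
    rwa [tcF_zero zero_le_one, sub_zero] at this
  have hQe : ∀ t ∈ Set.Icc (0 : ℝ) (R ^ 2), |tcF t - Q.eval t| ≤ κ := by
    intro t ht
    have h1 := hP t ht
    have h2 : tcF t - Q.eval t = P.eval 0 - (P.eval t - tcF t) := by
      rw [hQ, Polynomial.eval_sub, Polynomial.eval_C]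
      ring
    rw [h2]
    have h3 := abs_sub (P.eval 0) (P.eval t - tcF t)
    linarith
  have hQ0 : Q.coeff 0 = 0 := by
    rw [Polynomial.coeff_zero_eq_eval_zero, hQ, Polynomial.eval_sub, Polynomial.eval_C, sub_self]
  obtain ⟨T, hT⟩ : ∃ T : ℝ, T = ∑ j ∈ Finset.range (Q.natDegree + 1), |Q.coeff j| := ⟨_, rfl⟩
  have hT0 : 0 ≤ T := by
    rw [hT]
    exact Finset.sum_nonneg fun j _ => abs_nonneg _
  refine ⟨Q.natDegree, ε ^ 2 / (4 * (1 + T)), by positivity, ?_⟩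
  intro s hs0 hs1 x hx hx1 y hy hyR hj
  have hbM : star x * x ∈ M := mul_mem (star_mem hx) hx
  have haM : star y * y ∈ N := mul_mem (star_mem hy) hy
  have hasa : IsSelfAdjoint (star y * y) := IsSelfAdjoint.star_mul_self y
  have hbsa : IsSelfAdjoint (star x * x) := IsSelfAdjoint.star_mul_self x
  have hd : y * cfc tcG (star y * y) - y = y * cfc (fun t : ℝ => tcG t - 1) (star y * y) := by
    rw [cfc_sub tcG (fun _ : ℝ => (1 : ℝ)) (star y * y) tcG_cont.continuousOn (by fun_prop),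
      cfc_const_one ℝ (star y * y), mul_sub, mul_one]
  have hconj := tc_conj y (k := fun t : ℝ => tcG t - 1) (tcG_cont.sub continuous_const)
  have hn2 : ((n2 η (y * cfc tcG (star y * y) - y) ^ 2 : ℝ) : ℂ) = tr η (cfc tcF (star y * y)) := by
    rw [← tr_star_mul_self, hd, hconj]
    rfl
  have hA : ‖tr η (cfc tcF (star y * y)) - tr η (Polynomial.aeval (star y * y) Q)‖ ≤ κ := by
    rw [← tr_sub hN, ← cfc_polynomial Q (star y * y) hasa,
      ← cfc_sub tcF (fun t => Q.eval t) (star y * y) tcF_cont.continuousOn (by fun_prop)]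
    refine (norm_tr_le hN _).trans ((n2_le_norm hN _).trans (tc_norm hκ0.le fun t ht => ?_))
    have h1 := tc_spec hyR ht
    exact hQe t ⟨h1.1, h1.2⟩
  have hB : ‖tr ξ (Polynomial.aeval (star x * x) Q)‖ ≤ κ := by
    rw [← cfc_polynomial Q (star x * x) hbsa]
    refine (norm_tr_le h _).trans ((n2_le_norm h _).trans (tc_norm hκ0.le fun t ht => ?_))
    have h1 := tc_spec hx1 ht
    have h2 := hQe t ⟨h1.1, by nlinarith [h1.2]⟩
    rw [tcF_zero (by nlinarith [h1.2]), zero_sub, abs_neg] at h2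
    exact h2
  have hC : ‖tr η (Polynomial.aeval (star y * y) Q) - (s : ℂ) * tr ξ (Polynomial.aeval (star x * x) Q)‖ ≤ ε ^ 2 / 4 := by
    rw [tc_poly hN, tc_poly h, Finset.mul_sum, ← Finset.sum_sub_distrib]
    have h1 : ∀ j ∈ Finset.range (Q.natDegree + 1),
        ‖((Q.coeff j : ℝ) : ℂ) * tr η ((star y * y) ^ j) - (s : ℂ) * (((Q.coeff j : ℝ) : ℂ) * tr ξ ((star x * x) ^ j))‖ ≤
          |Q.coeff j| * (ε ^ 2 / (4 * (1 + T))) := by
      intro j hjm
      have h2 : ((Q.coeff j : ℝ) : ℂ) * tr η ((star y * y) ^ j) - (s : ℂ) * (((Q.coeff j : ℝ) : ℂ) * tr ξ ((star x * x) ^ j)) =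
          ((Q.coeff j : ℝ) : ℂ) * (tr η ((star y * y) ^ j) - (s : ℂ) * tr ξ ((star x * x) ^ j)) := by ring
      rw [h2, norm_mul, Complex.norm_real, Real.norm_eq_abs]
      rcases Nat.eq_zero_or_pos j with h0 | h0
      · subst h0
        rw [hQ0]
        simp
      · exact mul_le_mul_of_nonneg_left (hj j h0 (by
          have := Finset.mem_range.1 hjm
          omega)) (abs_nonneg _)
    refine (norm_sum_le _ _).trans ((Finset.sum_le_sum h1).trans ?_)
    rw [← Finset.sum_mul, ← hT, mul_div_assoc', div_le_iff₀ (by positivity)]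
    have h5 : 0 ≤ ε ^ 2 := by positivity
    nlinarith
  have hfin : n2 η (y * cfc tcG (star y * y) - y) ^ 2 ≤ ε ^ 2 / 2 := by
    have h1 : ‖((n2 η (y * cfc tcG (star y * y) - y) ^ 2 : ℝ) : ℂ)‖ = n2 η (y * cfc tcG (star y * y) - y) ^ 2 := by
      rw [Complex.norm_real, Real.norm_eq_abs, abs_of_nonneg (by positivity)]
    rw [← h1, hn2]
    have h2 : tr η (cfc tcF (star y * y)) =
        (tr η (cfc tcF (star y * y)) - tr η (Polynomial.aeval (star y * y) Q)) +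
          (tr η (Polynomial.aeval (star y * y) Q) - (s : ℂ) * tr ξ (Polynomial.aeval (star x * x) Q)) +
          (s : ℂ) * tr ξ (Polynomial.aeval (star x * x) Q) := by ring
    have h3 : ‖(s : ℂ) * tr ξ (Polynomial.aeval (star x * x) Q)‖ ≤ S * κ := by
      rw [norm_mul, Complex.norm_real, Real.norm_eq_abs, abs_of_nonneg hs0]
      exact mul_le_mul hs1 hB (norm_nonneg _) hS
    rw [h2]
    refine (norm_add₃_le).trans ?_
    have h4 : (1 + S) * κ = κ + S * κ := by ring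
    linarith
  refine ⟨y * cfc tcG (star y * y), mul_mem hy (cfc_mem haM tcG), ?_, ?_⟩
  · have h1 : ‖star (y * cfc tcG (star y * y)) * (y * cfc tcG (star y * y))‖ ≤ 1 := by
      rw [tc_conj y tcG_cont]
      exact tc_norm zero_le_one fun t ht => tcG_sq (tc_spec hyR ht).1
    have h2 : ‖star (y * cfc tcG (star y * y)) * (y * cfc tcG (star y * y))‖ =
        ‖y * cfc tcG (star y * y)‖ * ‖y * cfc tcG (star y * y)‖ := CStarRing.norm_star_mul_self
    have h3 := norm_nonneg (y * cfc tcG (star y * y))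
    nlinarith
  · refine abs_le_of_sq_le_sq' (?_ : n2 η (y * cfc tcG (star y * y) - y) ^ 2 ≤ ε ^ 2) hε.le |>.2
    have h5 : 0 ≤ ε ^ 2 := by positivity
    linarith

end Pool.Agent.Lib.UPE
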