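import Pool.Agent.Lib.UPE.Defs

/-!
# Ultrapower embeddings of II_1 factors: the relative commutant
-/

set_option autoImplicit false

namespace Pool.Agent.Lib.UPE

variable {H : Type*} [NormedAddCommGroup H] [InnerProductSpace ℂ H] [CompleteSpace H]

/-- the relative commutant of `P` in `M` -/
def rc (M P : VonNeumannAlgebra H) : Set (H →L[ℂ] H) := {a | a ∈ M ∧ ∀ b ∈ P, a * b = b * a}

/-- the *-algebra generated by `P` and its relative commutant in `M` -/
noncomputable def alg (M P : VonNeumannAlgebra H) : StarSubalgebra ℂ (H →L[ℂ] H) :=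
  StarAlgebra.adjoin ℂ ({b | b ∈ P} ∪ rc M P)

end Pool.Agent.Lib.UPE
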